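import Pool.Agent.P.MP_e5acfa_ag.CNem

/-! Smooth global flows of compactly supported smooth vector fields. -/

open Set Filter Topology
open scoped ContDiff

namespace Pool.Agent.P.MP_e5acfa_ag.PkgC

variable {E : Type} [NormedAddCommGroup E] [NormedSpace ℝ E] [CompleteSpace E]

lemma exists_curve_Ioo {V : E → E} {K L : NNReal} (hK : LipschitzWith K V)
    (hL : ∀ x, ‖V x‖ ≤ L) (x : E) (T : ℝ) (hT : 0 < T) :
    ∃ α : ℝ → E, α 0 = x ∧ ∀ t ∈ Ioo (-T) T, HasDerivAt α (V (α t)) t := by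
  have h0 : (0:ℝ) ∈ Icc (-T) T := ⟨by linarith, hT.le⟩
  have hp : IsPicardLindelof (fun _ => V) (⟨0, h0⟩ : Icc (-T) T) x (L * ⟨T, hT.le⟩) 0 L K :=
    { lipschitzOnWith := fun _ _ => hK.lipschitzOnWith
      continuousOn := fun _ _ => continuousOn_const
      norm_le := fun _ _ y _ => hL y
      mul_max_le := by simp; rfl }
  obtain ⟨α, h1, h2⟩ := hp.exists_eq_forall_mem_Icc_hasDerivWithinAt₀
  exact ⟨α, h1, fun t ht => (h2 t (Ioo_subset_Icc_self ht)).hasDerivAt (Icc_mem_nhds ht.1 ht.2)⟩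

omit [CompleteSpace E] in
lemma curve_unique {V : E → E} {K : NNReal} (hK : LipschitzWith K V) {α β : ℝ → E}
    {a b t₀ : ℝ} (ht : t₀ ∈ Ioo a b) (hα : ∀ t ∈ Ioo a b, HasDerivAt α (V (α t)) t)
    (hβ : ∀ t ∈ Ioo a b, HasDerivAt β (V (β t)) t) (h : α t₀ = β t₀) : EqOn α β (Ioo a b) :=
  ODE_solution_unique_of_mem_Ioo (v := fun _ => V) (s := fun _ => univ) (K := K)
    (fun _ _ => hK.lipschitzOnWith) ht (fun t ht => ⟨hα t ht, trivial⟩)
    (fun t ht => ⟨hβ t ht, trivial⟩) h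

lemma exists_curve {V : E → E} {K L : NNReal} (hK : LipschitzWith K V)
    (hL : ∀ x, ‖V x‖ ≤ L) (x : E) :
    ∃ α : ℝ → E, α 0 = x ∧ ∀ t, HasDerivAt α (V (α t)) t := by
  have h := fun T : ℝ => exists_curve_Ioo hK hL x (|T| + 1) (by positivity)
  choose A hA0 hA using h
  have key : ∀ T t : ℝ, |t| < |T| + 1 → A t t = A T t := by
    intro T t ht
    have hm : 0 < min (|t| + 1) (|T| + 1) := by positivity
    have h1 := min_le_left (|t| + 1) (|T| + 1)
    have h2 := min_le_right (|t| + 1) (|T| + 1)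
    refine curve_unique hK (a := -min (|t| + 1) (|T| + 1)) (b := min (|t| + 1) (|T| + 1))
      (t₀ := 0) ⟨by linarith, hm⟩ (fun s hs => hA t s ⟨by linarith [hs.1], by linarith [hs.2]⟩)
      (fun s hs => hA T s ⟨by linarith [hs.1], by linarith [hs.2]⟩) (by rw [hA0, hA0]) ?_
    have : |t| < min (|t| + 1) (|T| + 1) := lt_min (by linarith) ht
    exact abs_lt.1 this
  refine ⟨fun t => A t t, hA0 0, fun t => ?_⟩
  have h1 : HasDerivAt (A t) (V (A t t)) t := hA t t (abs_lt.1 (by linarith))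
  refine h1.congr_of_eventuallyEq ?_
  have : ∀ᶠ s in 𝓝 t, |s| < |t| + 1 :=
    continuous_abs.continuousAt.eventually (gt_mem_nhds (by linarith))
  filter_upwards [this] with s hs using key t s hs

/-- smooth dependence of a fixed point on parameters -/
lemma contDiffAt_fixed {P B : Type} [NormedAddCommGroup P] [NormedSpace ℝ P] [CompleteSpace P]
    [NormedAddCommGroup B] [NormedSpace ℝ B] [CompleteSpace B] {c : P → B} {τ : P → ℝ}
    {N : B → B} {K : NNReal} (hc : ContDiff ℝ ∞ c) (hτ : ContDiff ℝ ∞ τ) (hN : ContDiff ℝ ∞ N)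
    (hNl : ∀ γ δ, ‖N γ - N δ‖ ≤ K * ‖γ - δ‖) {Γ : P → B} (hΓ : ∀ p, Γ p = c p + τ p • N (Γ p))
    (p₀ : P) (hp : |τ p₀| * K < 1) : ContDiffAt ℝ ∞ Γ p₀ := by
  let H : P × B → B := fun u => u.2 - c u.1 - τ u.1 • N u.2
  have hH : ContDiff ℝ ∞ H :=
    (contDiff_snd.sub (hc.comp contDiff_fst)).sub
      ((hτ.comp contDiff_fst).smul (hN.comp contDiff_snd))
  have hΓ' : ∀ p, H (p, Γ p) = 0 := by
    intro p
    simp only [H]
    rw [sub_sub, ← hΓ, sub_self]
  have huniq : ∀ (p : P) (γ : B), |τ p| * K < 1 → H (p, γ) = 0 → γ = Γ p := by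
    intro p γ hp1 hγ
    have h1 : γ - Γ p = τ p • (N γ - N (Γ p)) := by
      have h := hγ
      simp only [H] at h
      rw [sub_sub, sub_eq_zero] at h
      rw [smul_sub]
      conv_lhs => rw [h, hΓ]
      abel
    have h2 : ‖γ - Γ p‖ ≤ |τ p| * K * ‖γ - Γ p‖ := by
      conv_lhs => rw [h1, norm_smul, Real.norm_eq_abs]
      rw [mul_assoc]
      exact mul_le_mul_of_nonneg_left (hNl _ _) (abs_nonneg _)
    have h3 : ‖γ - Γ p‖ = 0 := by nlinarith [norm_nonneg (γ - Γ p)]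
    exact sub_eq_zero.1 (norm_eq_zero.1 h3)
  have hcd : ContDiffAt ℝ ∞ H (p₀, Γ p₀) := hH.contDiffAt
  have hinv : (fderiv ℝ H (p₀, Γ p₀) ∘L ContinuousLinearMap.inr ℝ P B).IsInvertible := by
    have hNd : HasFDerivAt N (fderiv ℝ N (Γ p₀)) (Γ p₀) :=
      ((hN.differentiable (by simp)) _).hasFDerivAt
    have hA : ‖τ p₀ • fderiv ℝ N (Γ p₀)‖ < 1 := by
      rw [norm_smul, Real.norm_eq_abs]
      refine lt_of_le_of_lt (mul_le_mul_of_nonneg_left ?_ (abs_nonneg _)) hp
      exact norm_fderiv_le_of_lipschitz ℝ (LipschitzWith.of_dist_le_mul fun γ δ => by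
        simpa [dist_eq_norm] using hNl γ δ)
    have e1 : HasFDerivAt (fun γ => H (p₀, γ)) (fderiv ℝ H (p₀, Γ p₀) ∘L
        ContinuousLinearMap.inr ℝ P B) (Γ p₀) :=
      ((hH.differentiable (by simp)) _).hasFDerivAt.comp (Γ p₀) (hasFDerivAt_prodMk_right p₀ _)
    have e2 : HasFDerivAt (fun γ => H (p₀, γ)) (1 - τ p₀ • fderiv ℝ N (Γ p₀)) (Γ p₀) :=
      ((hasFDerivAt_id (Γ p₀)).sub_const (c p₀)).sub (hNd.const_smul (τ p₀))
    rw [e1.unique e2]
    exact ⟨ContinuousLinearEquiv.unitsEquiv ℝ _ (Units.oneSub _ hA), by ext1 γ; rfl⟩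
  have hψ := hcd.contDiffAt_implicitFunction (by simp) hinv
  refine hψ.congr_of_eventuallyEq ?_
  have h1 : ∀ᶠ p in 𝓝 p₀, |τ p| * K < 1 :=
    (hτ.continuous.abs.mul continuous_const).continuousAt.eventually (gt_mem_nhds hp)
  filter_upwards [h1, hcd.eventually_apply_implicitFunction (by simp) hinv] with p h2 h3
  exact (huniq p _ h2 (h3.trans (hΓ' p₀))).symm

/-- local smoothness of a flow for small times -/
lemma contDiffAt_flow_small {V : E → E} (hV : ContDiff ℝ ∞ V) (hc : HasCompactSupport V)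
    {K : NNReal} (hK : LipschitzWith K V) {fl : ℝ × E → E} (h0 : ∀ x, fl (0, x) = x)
    (hd : ∀ x t, HasDerivAt (fun s => fl (s, x)) (V (fl (t, x))) t) (p₀ : ℝ × E)
    (hp : |p₀.1| * K < 1) : ContDiffAt ℝ ∞ fl p₀ := by
  have hcont : ∀ x, Continuous fun s => fl (s, x) := fun x =>
    continuous_iff_continuousAt.2 fun t => (hd x t).continuousAt
  let Γ : ℝ × E → C(unitInterval, E) := fun p =>
    ⟨fun s => fl (p.1 * s, p.2), (hcont p.2).comp (by fun_prop)⟩
  let N : C(unitInterval, E) → C(unitInterval, E) := fun γ => primL (nem V hV.continuous γ)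
  have hN : ContDiff ℝ ∞ N := primL.contDiff.comp (contDiff_nem V hV hc)
  have hNl : ∀ γ δ, ‖N γ - N δ‖ ≤ K * ‖γ - δ‖ := fun γ δ => by
    simp only [N, ← map_sub]
    exact (norm_primL_le _).trans (lipschitz_nem hK γ δ)
  let cL : E →L[ℝ] C(unitInterval, E) := ContinuousLinearMap.const ℝ unitInterval
  have hΓ : ∀ p, Γ p = cL p.2 + p.1 • N (Γ p) := by
    intro p
    ext s
    have h1 : ∀ u, HasDerivAt (fun u => fl (p.1 * u, p.2)) (p.1 • V (fl (p.1 * u, p.2))) u := by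
      intro u
      have := (hd p.2 (p.1 * u)).scomp u ((hasDerivAt_id u).const_mul p.1)
      rw [mul_one] at this
      exact this
    have h2 := intervalIntegral.integral_eq_sub_of_hasDerivAt (a := 0) (b := (s:ℝ))
      (fun u _ => h1 u) (Continuous.intervalIntegrable (by
        exact (hV.continuous.comp ((hcont p.2).comp (by fun_prop))).const_smul p.1) _ _)
    have h3 : N (Γ p) s = ∫ u in (0:ℝ)..(s:ℝ), V (fl (p.1 * u, p.2)) := by
      simp only [N, primL_apply]
      refine intervalIntegral.integral_congr fun u hu => ?_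
      rw [uIcc_of_le s.2.1] at hu
      have : projIcc 0 1 zero_le_one u = ⟨u, hu.1, hu.2.trans s.2.2⟩ := projIcc_of_mem _ _
      simp only [this]
      rfl
    rw [intervalIntegral.integral_smul, mul_zero, h0] at h2
    show fl (p.1 * s, p.2) = p.2 + p.1 • N (Γ p) s
    rw [h3, h2, add_sub_cancel]
  have hΓd : ContDiffAt ℝ ∞ Γ p₀ :=
    contDiffAt_fixed (c := fun p : ℝ × E => cL p.2) (τ := Prod.fst)
      (cL.contDiff.comp contDiff_snd) contDiff_fst hN hNl hΓ p₀ hp
  let ev : C(unitInterval, E) →L[ℝ] E := ContinuousMap.evalCLM ℝ (1 : unitInterval)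
  have := ev.contDiff.contDiffAt.comp p₀ hΓd
  convert this using 1
  funext p
  simp [Γ, ev]

theorem exists_flow {V : E → E} (hV : ContDiff ℝ ∞ V) (hc : HasCompactSupport V) :
    ∃ fl : ℝ × E → E, ContDiff ℝ ∞ fl ∧ (∀ x, fl (0, x) = x) ∧
      (∀ x t, HasDerivAt (fun s => fl (s, x)) (V (fl (t, x))) t) ∧
      ∀ s t x, fl (s, fl (t, x)) = fl (s + t, x) := by
  obtain ⟨K, hK⟩ := ContDiff.lipschitzWith_of_hasCompactSupport hc hV (by simp)
  obtain ⟨L, hL⟩ := hc.exists_bound_of_continuous hV.continuous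
  have hL' : ∀ x, ‖V x‖ ≤ L.toNNReal := fun x => (hL x).trans (Real.le_coe_toNNReal L)
  choose A hA0 hA using exists_curve hK hL'
  let fl : ℝ × E → E := fun p => A p.2 p.1
  have hgrp : ∀ s t x, fl (s, fl (t, x)) = fl (s + t, x) := by
    intro s t x
    have := ODE_solution_unique_univ (v := fun _ => V) (s := fun _ => univ) (K := K)
      (f := A (A x t)) (g := fun u => A x (u + t)) (t₀ := 0) (fun _ => hK.lipschitzOnWith)
      (fun u => ⟨hA _ u, trivial⟩) (fun u => ⟨(hA x (u + t)).comp_add_const u t, trivial⟩)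
      (by simp [hA0])
    exact congrFun this s
  have hs := contDiffAt_flow_small hV hc hK (fl := fl) hA0 hA
  have hn : ∀ (n : ℕ) (p : ℝ × E), |p.1| * K < 1 →
      ContDiffAt ℝ ∞ (fun q : ℝ × E => fl (n * q.1, q.2)) p := by
    intro n
    induction n with
    | zero =>
      intro p _
      have : (fun q : ℝ × E => fl (((0:ℕ):ℝ) * q.1, q.2)) = Prod.snd := by
        funext q; simp [fl, hA0]
      rw [this]; exact contDiffAt_snd
    | succ n ih =>
      intro p hp
      have : (fun q : ℝ × E => fl (((n + 1 : ℕ):ℝ) * q.1, q.2)) =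
          fl ∘ fun q : ℝ × E => (q.1, fl (n * q.1, q.2)) := by
        funext q
        simp only [Function.comp, hgrp]
        congr 2; push_cast; ring
      rw [this]
      exact ContDiffAt.comp p (hs _ hp) (contDiffAt_fst.prodMk (ih p hp))
  refine ⟨fl, contDiff_iff_contDiffAt.2 fun p => ?_, hA0, hA, hgrp⟩
  obtain ⟨n, hn1⟩ := exists_nat_gt (|p.1| * K)
  have hn0 : (0:ℝ) < n := lt_of_le_of_lt (by positivity) hn1
  have : fl = (fun q : ℝ × E => fl (n * q.1, q.2)) ∘ fun q : ℝ × E => (q.1 / n, q.2) := by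
    funext q
    simp only [Function.comp]
    rw [mul_div_cancel₀ _ hn0.ne']
  rw [this]
  refine ContDiffAt.comp p (hn n _ ?_) (by fun_prop)
  simp only [abs_div, abs_of_pos hn0]
  rw [div_mul_eq_mul_div, div_lt_one hn0]
  exact hn1

end Pool.Agent.P.MP_e5acfa_ag.PkgC
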