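import Pool.Agent.P.MP_e5acfa_ag.A4

/-! Deformation of the surface into its spine, and contractibility of the surface. -/

open Set Topology unitInterval Real

namespace Pool.Agent.P.MP_e5acfa_ag.PkgA

/-! first deformation: lambda is kept and zeta is pushed outwards -/

noncomputable def M1 (p : ℝ) (w : ℂ × ℂ) : ℝ := max 1 (2 * ‖w.2‖ / max p (2 * ‖w.2‖ * ‖w.1‖))

noncomputable def mu (p t : ℝ) (w : ℂ × ℂ) : ℝ := 1 + t * (M1 p w - 1)

noncomputable def h1 (p t : ℝ) (w : ℂ × ℂ) : ℂ × ℂ := (mu p t w * w.1, w.2 / mu p t w)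

lemma one_le_mu (p : ℝ) (t : I) (w : ℂ × ℂ) : 1 ≤ mu p t w := by
  have : 1 ≤ M1 p w := le_max_left _ _
  have := t.2.1
  unfold mu
  nlinarith

lemma mu_le (p : ℝ) (t : I) (w : ℂ × ℂ) : mu p t w ≤ M1 p w := by
  have : 1 ≤ M1 p w := le_max_left _ _
  have := t.2.2
  unfold mu
  nlinarith

lemma M1_mul_le {p : ℝ} (hp : 0 < p) {w : ℂ × ℂ} (h : ‖w.1‖ ≤ 1) : M1 p w * ‖w.1‖ ≤ 1 := by
  unfold M1
  rcases max_choice 1 (2 * ‖w.2‖ / max p (2 * ‖w.2‖ * ‖w.1‖)) with e | e <;> rw [e]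
  · simpa using h
  · rw [div_mul_eq_mul_div, div_le_one (lt_max_of_lt_left hp)]
    exact le_max_right _ _

lemma norm_real_mul {c : ℝ} (hc : 0 ≤ c) (z : ℂ) : ‖(c:ℂ) * z‖ = c * ‖z‖ := by
  rw [norm_mul, Complex.norm_real, Real.norm_of_nonneg hc]

lemma h1_mem {p : ℝ} (hp : 0 < p) (t : I) (w : ZZ p) : h1 p t w ∈ ZZ p := by
  have m1 := one_le_mu p t w
  have m0 : (mu p t w : ℂ) ≠ 0 := by exact_mod_cast (show mu p t w ≠ 0 by linarith)
  constructor
  · simp only [h1]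
    rw [norm_real_mul (by linarith)]
    exact (mul_le_mul_of_nonneg_right (mu_le p t w) (norm_nonneg _)).trans (M1_mul_le hp w.2.1)
  · simp only [h1]
    rw [show (mu p t w : ℂ) * w.1.1 * (w.1.2 / mu p t w) = w.1.1 * w.1.2 by field_simp]
    exact w.2.2

lemma h1_fix {p : ℝ} (hp : 0 < p) (t : ℝ) {w : ℂ × ℂ} (h : ‖w.1‖ = 1) : h1 p t w = w := by
  have : M1 p w = 1 := by
    apply max_eq_left
    rw [h, mul_one, div_le_one (lt_max_of_lt_left hp)]
    exact le_max_right _ _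
  simp [h1, mu, this]

lemma h1_end {p : ℝ} (hp : 0 < p) {w : ℂ × ℂ} (h : ‖w.1‖ ≤ 1) :
    2 * ‖(h1 p 1 w).2‖ ≤ p ∨ ‖(h1 p 1 w).1‖ = 1 := by
  have e : mu p 1 w = M1 p w := by simp [mu]
  have m1 : 1 ≤ M1 p w := le_max_left _ _
  have m2 : 2 * ‖w.2‖ / max p (2 * ‖w.2‖ * ‖w.1‖) ≤ M1 p w := le_max_right _ _
  simp only [h1, e]
  rcases le_total (2 * ‖w.2‖ * ‖w.1‖) p with h2 | h2
  · left
    rw [max_eq_left h2, div_le_iff₀ hp] at m2
    rw [norm_div, Complex.norm_real, Real.norm_of_nonneg (by linarith), ← mul_div_assoc,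
      div_le_iff₀ (by linarith)]
    linarith
  · right
    rw [max_eq_right h2, div_le_iff₀ (by linarith)] at m2
    rw [norm_real_mul (by linarith)]
    apply le_antisymm (M1_mul_le hp h)
    have h3 : 0 < 2 * ‖w.2‖ := by
      by_contra hc
      have : 2 * ‖w.2‖ = 0 := le_antisymm (not_lt.1 hc) (by positivity)
      rw [this] at h2
      linarith
    apply le_of_mul_le_mul_left _ h3
    linarith

lemma continuous_h1 {p : ℝ} (hp : 0 < p) : Continuous fun z : I × (ℂ × ℂ) => h1 p z.1 z.2 := by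
  have c1 : Continuous (M1 p) := continuous_const.max
    (Continuous.div (by fun_prop) (by fun_prop) fun w => (lt_max_of_lt_left hp).ne')
  have c2 : Continuous fun z : I × (ℂ × ℂ) => mu p z.1 z.2 := by unfold mu; fun_prop
  refine Continuous.prodMk (by fun_prop) (Continuous.div (by fun_prop) (by fun_prop) fun z => ?_)
  have := one_le_mu p z.1 z.2
  exact_mod_cast (show mu p z.1 z.2 ≠ 0 by linarith)

noncomputable def G1 {p : ℝ} (hp : 0 < p) (z : I × ZZ p) : ZZ p := ⟨h1 p z.1 z.2, h1_mem hp _ _⟩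

lemma continuous_G1 {p : ℝ} (hp : 0 < p) : Continuous (G1 hp) :=
  Continuous.subtype_mk ((continuous_h1 hp).comp
    (f := fun z : I × ZZ p => (z.1, (z.2 : ℂ × ℂ))) (by fun_prop)) _

lemma G1_fix {p : ℝ} (hp : 0 < p) (t : I) {w : ZZ p} (h : ‖w.1.1‖ = 1) : G1 hp (t, w) = w :=
  Subtype.ext (h1_fix hp t h)

/-! second deformation: x is killed near zeta = 0 and zeta is pushed to the unit circle -/

noncomputable def m2 (t : ℝ) (ζ : ℂ) : ℝ := 1 + t * (1 / max ‖ζ‖ (1 / 2) - 1)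

noncomputable def n2 (t : ℝ) (ζ : ℂ) : ℝ := 1 - t * min 1 (2 * (1 - ‖ζ‖))

noncomputable def h2 (t : ℝ) (w : ℂ × ℂ) : ℂ × ℂ := (m2 t w.1 * w.1, n2 t w.1 * w.2 / m2 t w.1)

lemma max_half_pos (ζ : ℂ) : 0 < max ‖ζ‖ (1 / 2) := lt_max_of_lt_right (by norm_num)

lemma m2_bounds (t : I) {ζ : ℂ} (h : ‖ζ‖ ≤ 1) : 1 ≤ m2 t ζ ∧ m2 t ζ * ‖ζ‖ ≤ 1 := by
  have m0 := max_half_pos ζ
  have m1 : 1 ≤ 1 / max ‖ζ‖ (1 / 2) := by
    rw [le_div_iff₀ m0, one_mul]
    exact max_le h (by norm_num)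
  have m3 : 1 / max ‖ζ‖ (1 / 2) * ‖ζ‖ ≤ 1 := by
    rw [div_mul_eq_mul_div, one_mul, div_le_one m0]
    exact le_max_left _ _
  have t0 := t.2.1
  have t1 := t.2.2
  have m4 : m2 t ζ ≤ 1 / max ‖ζ‖ (1 / 2) := by unfold m2; nlinarith
  refine ⟨by unfold m2; nlinarith, ?_⟩
  exact (mul_le_mul_of_nonneg_right m4 (norm_nonneg _)).trans m3

lemma n2_bounds (t : I) {ζ : ℂ} (h : ‖ζ‖ ≤ 1) : 0 ≤ n2 t ζ ∧ n2 t ζ ≤ 1 := by
  have b0 : 0 ≤ min 1 (2 * (1 - ‖ζ‖)) := le_min (by norm_num) (by linarith)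
  have b1 : min 1 (2 * (1 - ‖ζ‖)) ≤ 1 := min_le_left _ _
  have t0 := t.2.1
  have t1 := t.2.2
  unfold n2
  constructor <;> nlinarith

lemma h2_fix (t : ℝ) {w : ℂ × ℂ} (h : ‖w.1‖ = 1) : h2 t w = w := by
  have e : max (1:ℝ) (1 / 2) = 1 := max_eq_left (by norm_num)
  simp only [h2, m2, n2, h, e]
  simp

lemma h2_mem {p : ℝ} (hp : 0 < p) (t : I) {w : ℂ × ℂ} (hw : w ∈ ZZ p)
    (h : 2 * ‖w.2‖ ≤ p ∨ ‖w.1‖ = 1) : h2 t w ∈ ZZ p := by
  rcases h with h | h
  · obtain ⟨a1, a2⟩ := m2_bounds t hw.1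
    obtain ⟨b0, b1⟩ := n2_bounds t hw.1
    have m0 : (m2 t w.1 : ℂ) ≠ 0 := by exact_mod_cast (show m2 t w.1 ≠ 0 by linarith)
    constructor
    · simp only [h2]
      rwa [norm_real_mul (by linarith)]
    · simp only [h2]
      rw [show (m2 t w.1 : ℂ) * w.1 * (n2 t w.1 * w.2 / m2 t w.1) = n2 t w.1 * (w.1 * w.2) by
        field_simp]
      intro h0
      have e : (p:ℂ) = -(n2 t w.1 * (w.1 * w.2)) := by linear_combination h0
      have e2 := congrArg norm e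
      rw [norm_neg, norm_real_mul b0, norm_mul, Complex.norm_real, Real.norm_of_nonneg hp.le] at e2
      have h3 : ‖w.1‖ * ‖w.2‖ ≤ ‖w.2‖ := mul_le_of_le_one_left (norm_nonneg _) hw.1
      have h4 : n2 t w.1 * (‖w.1‖ * ‖w.2‖) ≤ ‖w.1‖ * ‖w.2‖ :=
        mul_le_of_le_one_left (by positivity) b1
      linarith
  · rwa [h2_fix t h]

lemma h2_end (w : ℂ × ℂ) : (h2 1 w).2 = 0 ∨ ‖(h2 1 w).1‖ = 1 := by
  rcases le_total ‖w.1‖ (1 / 2) with h | h
  · left
    have : n2 1 w.1 = 0 := by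
      rw [n2, min_eq_left (by linarith)]
      ring
    simp [h2, this]
  · right
    have e : m2 1 w.1 = 1 / ‖w.1‖ := by
      rw [m2, max_eq_left h]
      ring
    have h0 : 0 < ‖w.1‖ := by linarith
    simp only [h2]
    rw [e, norm_real_mul (by positivity)]
    field_simp

lemma continuous_h2 (p : ℝ) : Continuous fun z : I × ZZ p => h2 z.1 z.2 := by
  have c1 : Continuous fun ζ : ℂ => 1 / max ‖ζ‖ (1 / 2) :=
    Continuous.div (by fun_prop) (by fun_prop) fun ζ => (max_half_pos ζ).ne'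
  have c2 : Continuous fun z : I × ZZ p => m2 z.1 z.2.1.1 :=
    continuous_const.add (Continuous.mul (by fun_prop)
      ((c1.comp (f := fun z : I × ZZ p => z.2.1.1) (by fun_prop)).sub continuous_const))
  have c3 : Continuous fun z : I × ZZ p => n2 z.1 z.2.1.1 := by unfold n2; fun_prop
  refine Continuous.prodMk (by fun_prop) (Continuous.div (by fun_prop) (by fun_prop) fun z => ?_)
  have := (m2_bounds z.1 z.2.2.1).1
  exact_mod_cast (show m2 z.1 z.2.1.1 ≠ 0 by linarith)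

noncomputable def G2 {p : ℝ} (hp : 0 < p) (z : I × ZZ p) : ZZ p :=
  ⟨h2 z.1 (G1 hp (1, z.2)), h2_mem hp _ (G1 hp (1, z.2)).2 (h1_end hp z.2.2.1)⟩

lemma continuous_G2 {p : ℝ} (hp : 0 < p) : Continuous (G2 hp) := by
  have := continuous_G1 hp
  exact Continuous.subtype_mk ((continuous_h2 p).comp
    (f := fun z : I × ZZ p => (z.1, G1 hp (1, z.2))) (by fun_prop)) _

lemma G2_fix {p : ℝ} (hp : 0 < p) (t : I) {w : ZZ p} (h : ‖w.1.1‖ = 1) : G2 hp (t, w) = w := by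
  apply Subtype.ext
  change h2 t (G1 hp (1, w)) = w
  rw [G1_fix hp 1 h, h2_fix t h]

/-! third deformation: the modulus of lambda is normalised -/

noncomputable def s3 (p t : ℝ) (l : ℂ) : ℝ := (1 - t) + t * (p / ‖l‖)

noncomputable def h3 (p t : ℝ) (w : ℂ × ℂ) : ℂ × ℂ :=
  (w.1, (s3 p t (p + w.1 * w.2) * (p + w.1 * w.2) - p) * (starRingEnd ℂ) w.1)

lemma s3_pos {p : ℝ} (hp : 0 < p) (t : I) {l : ℂ} (hl : l ≠ 0) : 0 < s3 p t l := by
  have h : 0 < p / ‖l‖ := div_pos hp (norm_pos_iff.2 hl)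
  have t0 := t.2.1
  have t1 := t.2.2
  unfold s3
  rcases eq_or_lt_of_le t0 with e | e
  · rw [← e]; norm_num
  · have := mul_pos e h
    linarith

lemma h3_zero {p : ℝ} (hp : 0 < p) (t : ℝ) {w : ℂ × ℂ} (h : w.2 = 0) : h3 p t w = w := by
  have e : s3 p t p = 1 := by
    rw [s3, Complex.norm_real, Real.norm_of_nonneg hp.le, div_self hp.ne']
    ring
  refine Prod.ext rfl ?_
  simp [h3, h, e]

lemma mul_conj_one {ζ : ℂ} (h : ‖ζ‖ = 1) : ζ * (starRingEnd ℂ) ζ = 1 := by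
  rw [Complex.mul_conj, Complex.normSq_eq_norm_sq, h]
  simp

lemma h3_lam (p t : ℝ) {w : ℂ × ℂ} (h : ‖w.1‖ = 1) :
    (p:ℂ) + (h3 p t w).1 * (h3 p t w).2 = s3 p t (p + w.1 * w.2) * (p + w.1 * w.2) := by
  have := mul_conj_one h
  simp only [h3]
  linear_combination ((s3 p t (p + w.1 * w.2) : ℂ) * (p + w.1 * w.2) - p) * this

lemma h3_mem {p : ℝ} (hp : 0 < p) (t : I) {w : ℂ × ℂ} (hw : w ∈ ZZ p)
    (h : w.2 = 0 ∨ ‖w.1‖ = 1) : h3 p t w ∈ ZZ p := by
  rcases h with h | h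
  · rwa [h3_zero hp t h]
  · refine ⟨hw.1, ?_⟩
    rw [h3_lam p t h]
    exact mul_ne_zero (by exact_mod_cast (s3_pos hp t hw.2).ne') hw.2

lemma h3_start {p : ℝ} (hp : 0 < p) {w : ℂ × ℂ} (h : w.2 = 0 ∨ ‖w.1‖ = 1) : h3 p 0 w = w := by
  rcases h with h | h
  · exact h3_zero hp 0 h
  · have := mul_conj_one h
    refine Prod.ext rfl ?_
    simp only [h3, s3]
    push_cast
    linear_combination w.2 * this

lemma continuous_h3 (p : ℝ) : Continuous fun z : I × ZZ p => h3 p z.1 z.2 := by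
  have c1 : Continuous fun z : I × ZZ p => p / ‖(p:ℂ) + z.2.1.1 * z.2.1.2‖ :=
    Continuous.div (by fun_prop) (by fun_prop) fun z => norm_ne_zero_iff.2 z.2.2.2
  have c2 : Continuous fun z : I × ZZ p => s3 p z.1 ((p:ℂ) + z.2.1.1 * z.2.1.2) :=
    Continuous.add (by fun_prop) (Continuous.mul (by fun_prop) c1)
  refine Continuous.prodMk (by fun_prop) (Continuous.mul (by fun_prop) ?_)
  exact Complex.continuous_conj.comp (by fun_prop)

noncomputable def G3 {p : ℝ} (hp : 0 < p) (z : I × ZZ p) : ZZ p :=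
  ⟨h3 p z.1 (G2 hp (1, z.2)), h3_mem hp _ (G2 hp (1, z.2)).2 (h2_end _)⟩

lemma continuous_G3 {p : ℝ} (hp : 0 < p) : Continuous (G3 hp) := by
  have := continuous_G2 hp
  exact Continuous.subtype_mk ((continuous_h3 p).comp
    (f := fun z : I × ZZ p => (z.1, G2 hp (1, z.2))) (by fun_prop)) _

lemma G3_compat {p : ℝ} (hp : 0 < p) (t : I) {w w' : ZZ p} (h : psi p w = psi p w') :
    psi p (G3 hp (t, w)) = psi p (G3 hp (t, w')) := by
  rcases psi_fibre hp h with rfl | ⟨a, a', hl⟩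
  · rfl
  · obtain ⟨hu, hv⟩ := psi_UV h
    have e : (G3 hp (t, w)).1 = h3 p t w := by
      change h3 p t (G2 hp (1, w)) = _
      rw [G2_fix hp 1 a]
    have e' : (G3 hp (t, w')).1 = h3 p t w' := by
      change h3 p t (G2 hp (1, w')) = _
      rw [G2_fix hp 1 a']
    have es : s3 p t (p + w.1.1 * w.1.2) = s3 p t (p + w'.1.1 * w'.1.2) := by
      rw [s3, s3, hl]
    unfold UU at hu
    unfold VV at hv
    refine psi_eq_of ?_ ?_ ?_
    · rw [e]
      exact norm_ne_zero_iff.1 (by rw [show (h3 p t w).1 = w.1.1 from rfl, a]; norm_num)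
    · rw [e, e', h3_lam p t a, h3_lam p t a', es, UU, UU, mul_pow, mul_pow, mul_assoc, mul_assoc]
      exact congrArg _ hu
    · rw [e, e', h3_lam p t a, h3_lam p t a', es, VV, VV, mul_pow, mul_pow, mul_assoc, mul_assoc]
      exact congrArg _ hv

lemma end_mem {p : ℝ} (hp : 0 < p) {K : Set (XS p)} (hd : ∀ ζ, (hat hp).d ζ ∈ K)
    (hY : ∀ x ∈ Icc (0:ℝ) 1, ∀ a, (hat hp).Y (x, a) ∈ K) (w : ZZ p) :
    psi p (G3 hp (1, w)) ∈ K := by
  set v := G2 hp (1, w) with hv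
  have e : (G3 hp (1, w)).1 = h3 p 1 v := rfl
  have hend : v.1.2 = 0 ∨ ‖v.1.1‖ = 1 := h2_end _
  rcases hend with h | h
  · rw [h3_zero hp 1 h] at e
    have : G3 hp (1, w) = pd hp ⟨v.1.1, mem_closedBall_zero_iff.2 v.2.1⟩ := by
      apply Subtype.ext
      rw [e]
      exact Prod.ext rfl h
    rw [this]
    exact hd _
  · have hl := h3_lam p 1 h
    rw [← e] at hl
    have hζ : (G3 hp (1, w)).1.1 = v.1.1 := rfl
    have l0 : 0 < ‖(p:ℂ) + v.1.1 * v.1.2‖ := norm_pos_iff.2 v.2.2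
    obtain ⟨a, ha⟩ : ∃ a : ℝ, (s3 p 1 (p + v.1.1 * v.1.2) : ℂ) * (p + v.1.1 * v.1.2) =
        p * Circle.exp (2 * π * a) := by
      refine ⟨Complex.arg (p + v.1.1 * v.1.2) / (2 * π), ?_⟩
      have hpi := Real.pi_pos
      rw [mul_div_cancel₀ _ (by positivity), Circle.coe_exp]
      have e1 := Complex.norm_mul_exp_arg_mul_I (p + v.1.1 * v.1.2)
      have e2 : s3 p 1 (p + v.1.1 * v.1.2) * ‖(p:ℂ) + v.1.1 * v.1.2‖ = p := by
        rw [s3]
        field_simp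
        ring
      have e3 := congrArg (fun r : ℝ => (r:ℂ)) e2
      simp only [Complex.ofReal_mul] at e3
      linear_combination (-(s3 p 1 (p + v.1.1 * v.1.2) : ℂ)) * e1 +
        Complex.exp (Complex.arg (p + v.1.1 * v.1.2) * Complex.I) * e3
    rw [ha] at hl
    have z0 : (G3 hp (1, w)).1.1 ≠ 0 := norm_ne_zero_iff.1 (by rw [hζ, h]; norm_num)
    obtain ⟨y, hy | hy⟩ := exists_ee (ζ := ⟨v.1.1, mem_closedBall_zero_iff.2 v.2.1⟩) h
    · have hy' : v.1.1 = Circle.exp (π * y) := congrArg Subtype.val hy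
      have : psi p (G3 hp (1, w)) = psi p (pt hp (y, a)) := by
        refine psi_eq_of z0 ?_ ?_ <;> rw [hl, hζ, hy', pt_lam, pt_zeta]
      rw [this]
      exact hY y y.2 a
    · have hy' : v.1.1 = Circle.exp (π * -y) := congrArg Subtype.val hy
      have e4 : (p:ℂ) * Circle.exp (2 * π * (a + -cc y)) =
          p * Circle.exp (2 * π * a) * Circle.exp (2 * π * -cc y) := by
        rw [mul_add, Circle.exp_add, Circle.coe_mul, ← mul_assoc]
      have : psi p (G3 hp (1, w)) = psi p (pt hp (y, a + -cc y)) := by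
        refine psi_eq_of z0 ?_ ?_
        · rw [hl, hζ, hy', pt_lam, pt_zeta, e4, UU_refl]
        · rw [hl, hζ, hy', pt_lam, pt_zeta, e4, VV_refl y.2]
      rw [this]
      exact hY y y.2 _

theorem contractible {p : ℝ} (hp : 0 < p) : ContractibleSpace (XS p) := by
  have hq := isQuotientMap_psi hp
  obtain ⟨K, hd, hY, hK⟩ := (hat hp).null
  have c1 := continuous_G1 hp
  have c2 := continuous_G2 hp
  have c3 := continuous_G3 hp
  have step1 : DH (psi p) (psi p) (fun w => psi p (G1 hp (1, w))) := by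
    refine DH.of_homotopy hq (fun z => psi p (G1 hp z)) (by fun_prop) ?_ ?_ (fun _ => rfl)
    · intro t w w' h
      rcases psi_fibre hp h with rfl | ⟨a, a', -⟩
      · rfl
      · simp only [G1_fix hp t a, G1_fix hp t a', h]
    · intro w
      congr 1
      apply Subtype.ext
      simp [G1, h1, mu]
  have step2 : DH (psi p) (fun w => psi p (G1 hp (1, w))) (fun w => psi p (G2 hp (1, w))) := by
    refine DH.of_homotopy hq (fun z => psi p (G2 hp z)) (by fun_prop) ?_ ?_ (fun _ => rfl)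
    · intro t w w' h
      rcases psi_fibre hp h with rfl | ⟨a, a', -⟩
      · rfl
      · simp only [G2_fix hp t a, G2_fix hp t a', h]
    · intro w
      congr 1
      apply Subtype.ext
      simp [G2, h2, m2, n2]
  have step3 : DH (psi p) (fun w => psi p (G2 hp (1, w))) (fun w => psi p (G3 hp (1, w))) := by
    refine DH.of_homotopy hq (fun z => psi p (G3 hp z)) (by fun_prop)
      (fun t w w' h => G3_compat hp t h) ?_ (fun _ => rfl)
    intro w
    congr 1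
    exact Subtype.ext (h3_start hp (h2_end _))
  obtain ⟨f', g', hf, hg, hfg⟩ := (step1.trans hq.surjective step2).trans hq.surjective step3
  have e1 : f' = ContinuousMap.id _ := by
    ext1 a
    obtain ⟨w, rfl⟩ := hq.surjective a
    exact hf w
  have hm : ∀ a, g' a ∈ K := by
    intro a
    obtain ⟨w, rfl⟩ := hq.surjective a
    rw [hg]
    exact end_mem hp hd hY w
  have e2 : g' = (⟨Subtype.val, continuous_subtype_val⟩ : C(K, XS p)).comp
      ⟨fun a => ⟨g' a, hm a⟩, g'.continuous.subtype_mk _⟩ := rfl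
  rw [contractible_iff_id_nullhomotopic, ← e1]
  obtain ⟨y, hy⟩ := hK.comp_left ⟨fun a => ⟨g' a, hm a⟩, g'.continuous.subtype_mk _⟩
  exact ⟨y, hfg.trans (e2 ▸ hy)⟩

end Pool.Agent.P.MP_e5acfa_ag.PkgA

namespace Pool.Agent.P.MP_e5acfa_ag

theorem stmtA : StmtA := fun _ hp => PkgA.contractible hp

end Pool.Agent.P.MP_e5acfa_ag
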