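import Mathlib

/-! Abstract homotopy lemmas: descent of homotopies along quotient maps, contraction of a
mapping cone of a homotopy equivalence, and a homotopy criterion for self maps of the circle. -/

open Set Topology unitInterval

namespace Pool.Agent.P.MP_e5acfa_ag.PkgA

/-- clamp to the unit interval -/
noncomputable def cl (s : ℝ) : I := projIcc 0 1 zero_le_one s

@[fun_prop] lemma continuous_cl : Continuous cl := continuous_projIcc (h := zero_le_one)

lemma cl_of_le {s : ℝ} (h : s ≤ 0) : cl s = 0 := projIcc_of_le_left _ h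

lemma cl_of_ge {s : ℝ} (h : 1 ≤ s) : cl s = 1 := projIcc_of_right_le _ h

lemma cl_coe (t : I) : cl t = t := projIcc_val _ t

lemma coe_cl {s : ℝ} (h0 : 0 ≤ s) (h1 : s ≤ 1) : (cl s : ℝ) = s := by
  rw [cl, projIcc_of_mem _ ⟨h0, h1⟩]

@[simp] lemma cl_zero : cl 0 = 0 := cl_of_le le_rfl

@[simp] lemma cl_one : cl 1 = 1 := cl_of_ge le_rfl

variable {W K X : Type*} [TopologicalSpace W] [TopologicalSpace K] [TopologicalSpace X]

/-- two maps on W descend to homotopic maps on K -/
def DH (q : W → K) (f g : W → X) : Prop :=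
  ∃ f' g' : C(K, X), (∀ w, f' (q w) = f w) ∧ (∀ w, g' (q w) = g w) ∧ f'.Homotopic g'

omit [TopologicalSpace W] in
lemma DH.trans {q : W → K} (hq : Function.Surjective q) {f g h : W → X}
    (h1 : DH q f g) (h2 : DH q g h) : DH q f h := by
  obtain ⟨f', g', hf, hg, H⟩ := h1
  obtain ⟨g'', h', hg', hh, H'⟩ := h2
  have : g' = g'' := by
    ext k
    obtain ⟨w, rfl⟩ := hq k
    rw [hg, hg']
  subst this
  exact ⟨f', h', hf, hh, H.trans H'⟩

lemma DH.of_homotopy {q : W → K} (hq : IsQuotientMap q) (H : I × W → X) (hH : Continuous H)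
    (hc : ∀ t w w', q w = q w' → H (t, w) = H (t, w')) {f g : W → X}
    (h0 : ∀ w, H (0, w) = f w) (h1 : ∀ w, H (1, w) = g w) : DH q f g := by
  have hs := hq.surjective
  let G : I × K → X := fun p => H (p.1, Function.surjInv hs p.2)
  have hG : ∀ t w, G (t, q w) = H (t, w) := fun t w =>
    hc t _ _ (Function.surjInv_eq hs (q w))
  have hGc : Continuous G := by
    apply hq.continuous_lift_prod_right
    simp only [hG]
    exact hH
  refine ⟨⟨fun k => G (0, k), by fun_prop⟩, ⟨fun k => G (1, k), by fun_prop⟩, ?_, ?_,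
    ⟨⟨⟨G, hGc⟩, fun _ => rfl, fun _ => rfl⟩⟩⟩
  · intro w
    exact (hG 0 w).trans (h0 w)
  · intro w
    exact (hG 1 w).trans (h1 w)

lemma exists_lift {q : W → K} (hq : IsQuotientMap q) (f : W → X) (hf : Continuous f)
    (hc : ∀ w w', q w = q w' → f w = f w') : ∃ f' : C(K, X), ∀ w, f' (q w) = f w := by
  obtain ⟨f', -, h, -, -⟩ := DH.of_homotopy hq (fun p => f p.2) (by fun_prop)
    (fun _ w w' h => hc w w' h) (f := f) (g := f) (fun _ => rfl) (fun _ => rfl)
  exact ⟨f', h⟩

lemma isQuotientMap_range [CompactSpace W] [T2Space X] {f : W → X} (hf : Continuous f) :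
    IsQuotientMap (rangeFactorization f) := by
  have hc : Continuous (rangeFactorization f) := hf.subtype_mk _
  exact hc.isClosedMap.isQuotientMap hc rangeFactorization_surjective

lemma continuous_on_sum {A B : Type*} [TopologicalSpace A] [TopologicalSpace B]
    {f : I × A → X} {g : I × B → X} (hf : Continuous f) (hg : Continuous g) :
    Continuous (fun p : I × (A ⊕ B) =>
      Sum.elim (fun a => f (p.1, a)) (fun b => g (p.1, b)) p.2) := by
  have : (fun p : I × (A ⊕ B) => Sum.elim (fun a => f (p.1, a)) (fun b => g (p.1, b)) p.2) =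
      Sum.elim f g ∘ (Homeomorph.prodSumDistrib : I × (A ⊕ B) ≃ₜ _) := by
    funext p
    rcases p with ⟨t, a | b⟩ <;> rfl
  rw [this]
  exact (hf.sumElim hg).comp (Homeomorph.continuous _)

/-- contraction of a mapping cone -/
theorem cone {A B : Type*} [TopologicalSpace A] [TopologicalSpace B]
    (q : A ⊕ (B × I) → K) (hq : IsQuotientMap q) (g : C(B, A))
    (hfib : ∀ f : A ⊕ (B × I) → X, (∀ b, f (.inr (b, 1)) = f (.inl (g b))) →
      (∀ b b', f (.inr (b, 0)) = f (.inr (b', 0))) → ∀ w w', q w = q w' → f w = f w')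
    (ι : C(A, X)) (P : C(B × I, X)) (x₀ : X) (hP0 : ∀ b, P (b, 0) = x₀)
    (hP1 : ∀ b, P (b, 1) = ι (g b)) (r : C(A, B)) (Γ : C(B, X))
    (F : ι.Homotopic (Γ.comp r)) (h : (r.comp g).Homotopic (ContinuousMap.id B)) :
    DH q (Sum.elim ι P) (fun _ => x₀) := by
  obtain ⟨F⟩ := F
  obtain ⟨h⟩ := h
  let Q : B × ℝ → X := fun p => if p.2 ≤ 1 then P (p.1, cl p.2) else
    if p.2 ≤ 2 then F (cl (p.2 - 1), g p.1) else Γ (h (cl (p.2 - 2), p.1))
  have hQ1 : ∀ b s, s ≤ 1 → Q (b, s) = P (b, cl s) := fun b s hs => if_pos hs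
  have hQ2 : ∀ b s, 1 ≤ s → s ≤ 2 → Q (b, s) = F (cl (s - 1), g b) := by
    intro b s h1 h2
    rcases eq_or_lt_of_le h1 with rfl | h1
    · rw [hQ1 b 1 le_rfl]
      simp [hP1]
    · simp only [Q, if_neg (not_le.2 h1), if_pos h2]
  have hQ3 : ∀ b s, 2 ≤ s → Q (b, s) = Γ (h (cl (s - 2), b)) := by
    intro b s h2
    rcases eq_or_lt_of_le h2 with rfl | h2
    · rw [hQ2 b 2 (by norm_num) le_rfl]
      norm_num
    · simp only [Q, if_neg (not_le.2 h2), if_neg (not_le.2 (show (1:ℝ) < s by linarith))]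
  have hQc : Continuous Q := by
    refine Continuous.if_le (by fun_prop) ?_ continuous_snd continuous_const ?_
    · refine Continuous.if_le (by fun_prop) (by fun_prop) continuous_snd continuous_const ?_
      rintro ⟨b, s⟩ hs
      simp only at hs
      subst hs
      norm_num
    · rintro ⟨b, s⟩ hs
      simp only at hs
      subst hs
      simp [hP1]
  have hQ0 : ∀ b, Q (b, 0) = x₀ := fun b => by rw [hQ1 b 0 (by norm_num)]; simp [hP0]
  have step1 : DH q (Sum.elim ι P)
      (Sum.elim (fun a => Γ (r a)) (fun p : B × I => Q (p.1, 2 * (p.2:ℝ)))) := by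
    refine DH.of_homotopy hq (fun p => Sum.elim (fun a => F (p.1, a))
      (fun b : B × I => Q (b.1, (1 + (p.1:ℝ)) * b.2)) p.2) ?_ ?_ ?_ ?_
    · exact continuous_on_sum (f := fun p => F p)
        (g := fun p : I × (B × I) => Q (p.2.1, (1 + (p.1:ℝ)) * p.2.2)) F.continuous (by fun_prop)
    · intro t
      apply hfib
      · intro b
        have := t.2.1
        have := t.2.2
        simp only [Sum.elim_inr, Sum.elim_inl, Icc.coe_one, mul_one]
        rw [hQ2 _ _ (by linarith) (by linarith), add_sub_cancel_left, cl_coe]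
      · intro b b'
        simp [hQ0]
    · rintro (a | ⟨b, s⟩)
      · simp
      · simp only [Sum.elim_inr, Icc.coe_zero, add_zero, one_mul]
        rw [hQ1 _ _ s.2.2, cl_coe]
    · rintro (a | ⟨b, s⟩)
      · simp
      · simp only [Sum.elim_inr, Icc.coe_one]
        norm_num
  have step2 : DH q (Sum.elim (fun a => Γ (r a)) (fun p : B × I => Q (p.1, 2 * (p.2:ℝ))))
      (Sum.elim (fun a => Γ (r a))
        (fun p : B × I => Q (p.1, min (6 * (p.2:ℝ)) (4 - 2 * p.2)))) := by
    refine DH.of_homotopy hq (fun p => Sum.elim (fun a => Γ (r a))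
      (fun b : B × I => Q (b.1, (1 - (p.1:ℝ)) * (2 * b.2) +
        p.1 * min (6 * (b.2:ℝ)) (4 - 2 * b.2))) p.2) ?_ ?_ ?_ ?_
    · exact continuous_on_sum (f := fun p : I × A => Γ (r p.2))
        (g := fun p : I × (B × I) => Q (p.2.1, (1 - (p.1:ℝ)) * (2 * p.2.2) +
          p.1 * min (6 * (p.2.2:ℝ)) (4 - 2 * p.2.2))) (by fun_prop) (by fun_prop)
    · intro t
      apply hfib
      · intro b
        simp only [Sum.elim_inr, Sum.elim_inl, Icc.coe_one, mul_one]
        rw [show (1 - (t:ℝ)) * 2 + t * min 6 (4 - 2) = 2 by norm_num; ring, hQ3 _ _ le_rfl]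
        simp
      · intro b b'
        simp [hQ0]
    · rintro (a | ⟨b, s⟩) <;> simp
    · rintro (a | ⟨b, s⟩) <;> simp
  have step3 : DH q (Sum.elim (fun a => Γ (r a))
      (fun p : B × I => Q (p.1, min (6 * (p.2:ℝ)) (4 - 2 * p.2)))) (fun _ => x₀) := by
    refine DH.of_homotopy hq (fun p => Sum.elim (fun a => Q (r a, 3 * (1 - (p.1:ℝ))))
      (fun b : B × I => Q (h (cl (2 - 2 * b.2), b.1), min (6 * (b.2:ℝ)) 3 * (1 - (p.1:ℝ)))) p.2)
      ?_ ?_ ?_ ?_
    · exact continuous_on_sum (f := fun p : I × A => Q (r p.2, 3 * (1 - (p.1:ℝ))))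
        (g := fun p : I × (B × I) =>
          Q (h (cl (2 - 2 * p.2.2), p.2.1), min (6 * (p.2.2:ℝ)) 3 * (1 - (p.1:ℝ))))
          (by fun_prop) (by fun_prop)
    · intro t
      apply hfib
      · intro b
        simp only [Sum.elim_inr, Sum.elim_inl, Icc.coe_one, mul_one]
        norm_num
      · intro b b'
        simp [hQ0]
    · rintro (a | ⟨b, s⟩)
      · simp only [Sum.elim_inl, Icc.coe_zero, sub_zero, mul_one]
        rw [hQ3 _ _ (by norm_num)]
        norm_num
      · simp only [Sum.elim_inr, Icc.coe_zero, sub_zero, mul_one]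
        have hs0 := s.2.1
        have hs1 := s.2.2
        rcases le_total (s:ℝ) (1 / 2) with hs | hs
        · rw [cl_of_ge (by linarith), min_eq_left (by linarith), min_eq_left (by linarith)]
          simp
        · rw [min_eq_right (by linarith), min_eq_right (by linarith), hQ3 _ _ (by norm_num),
            hQ3 _ _ (by linarith), show (3:ℝ) - 2 = 1 by norm_num,
            show 4 - 2 * (s:ℝ) - 2 = 2 - 2 * s by ring]
          simp
    · rintro (a | ⟨b, s⟩) <;> simp [hQ0]
  exact (step1.trans hq.surjective step2).trans hq.surjective step3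

/-- normalisation to the circle -/
noncomputable def nrm (z : ℂ) (hz : z ≠ 0) : Circle :=
  ⟨z / ‖z‖, by
    have : ‖z‖ ≠ 0 := norm_ne_zero_iff.2 hz
    simp [Submonoid.unitSphere, this]⟩

theorem circle_homotopic (f : C(Circle, Circle)) (Θ : Circle → ℝ) (hΘ : Continuous Θ)
    (hne : ∀ b, ((f b * Circle.exp (Θ b) : Circle) : ℂ) ≠ -(b:ℂ)) :
    f.Homotopic (ContinuousMap.id Circle) := by
  let f1 : C(Circle, Circle) := ⟨fun b => f b * Circle.exp (Θ b), by fun_prop⟩
  have H1 : f.Homotopic f1 :=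
    ⟨⟨⟨fun p => f p.2 * Circle.exp (p.1 * Θ p.2), by fun_prop⟩, fun b => by simp,
      fun b => by simp [f1]⟩⟩
  have key : ∀ (t : I) (b : Circle), (1 - (t:ℝ) : ℂ) * (f1 b : ℂ) + (t:ℝ) * (b:ℂ) ≠ 0 := by
    intro t b h0
    have e : (1 - (t:ℝ) : ℂ) * (f1 b : ℂ) = -((t:ℝ) * (b:ℂ)) := by linear_combination h0
    have e2 := congrArg norm e
    have ht0 := t.2.1
    have ht1 := t.2.2
    rw [norm_neg, norm_mul, norm_mul, Circle.norm_coe, Circle.norm_coe, mul_one, mul_one,
      show (1 - (t:ℝ) : ℂ) = ((1 - (t:ℝ) : ℝ) : ℂ) by push_cast; ring, Complex.norm_real,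
      Complex.norm_real, Real.norm_of_nonneg (by linarith), Real.norm_of_nonneg ht0] at e2
    have e3 : ((t:ℝ):ℂ) = 1 / 2 := by
      rw [show (t:ℝ) = 1 / 2 by linarith]; push_cast; ring
    apply hne b
    rw [e3] at e
    change (f1 b : ℂ) = _
    linear_combination 2 * e
  have H2 : f1.Homotopic (ContinuousMap.id Circle) := by
    refine ⟨⟨⟨fun p => nrm _ (key p.1 p.2), ?_⟩, fun b => ?_, fun b => ?_⟩⟩
    · apply Continuous.subtype_mk
      refine Continuous.div (by fun_prop) (by fun_prop) ?_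
      intro p
      exact_mod_cast norm_ne_zero_iff.2 (key p.1 p.2)
    · apply Subtype.ext
      simp [nrm]
    · apply Subtype.ext
      simp [nrm]
  exact H1.trans H2

end Pool.Agent.P.MP_e5acfa_ag.PkgA
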