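import Pool.Agent.P.MP_e5acfa_ag.A1

/-! The two dimensional spine: a disc, a strip and a cell glued like a dunce hat.
First part: the union of the disc and the strip is homotopy equivalent to a circle. -/

open Set Topology unitInterval Real

namespace Pool.Agent.P.MP_e5acfa_ag.PkgA

abbrev DD := Metric.closedBall (0:ℂ) 1

lemma DD.norm_le (ζ : DD) : ‖(ζ:ℂ)‖ ≤ 1 := mem_closedBall_zero_iff.1 ζ.2

/-- the point exp (i pi x) of the disc -/
noncomputable def ee (x : ℝ) : DD := ⟨Circle.exp (π * x), mem_closedBall_zero_iff.2 (Circle.norm_coe _).le⟩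

@[fun_prop] lemma continuous_ee : Continuous ee := by
  unfold ee
  exact Continuous.subtype_mk (by fun_prop) _

/-- scaling of the disc -/
noncomputable def sc (t : I) (ζ : DD) : DD := ⟨(t:ℝ) * (ζ:ℂ), by
  rw [mem_closedBall_zero_iff, norm_mul, Complex.norm_real, Real.norm_of_nonneg t.2.1]
  exact mul_le_one₀ t.2.2 (norm_nonneg _) (DD.norm_le ζ)⟩

@[fun_prop] lemma continuous_sc {T : Type*} [TopologicalSpace T] {f : T → I} {g : T → DD}
    (hf : Continuous f) (hg : Continuous g) : Continuous fun x => sc (f x) (g x) := by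
  unfold sc
  exact Continuous.subtype_mk (by fun_prop) _

/-- centre of the disc -/
def oo : DD := ⟨0, by simp⟩

@[simp] lemma sc_zero (ζ : DD) : sc 0 ζ = oo := by
  apply Subtype.ext
  simp [sc, oo]

@[simp] lemma sc_one (ζ : DD) : sc 1 ζ = ζ := by
  apply Subtype.ext
  simp [sc]

lemma ee_neg_one : ee (-1) = ee 1 := by
  apply Subtype.ext
  have : Circle.exp (π * -1) = Circle.exp (π * 1) :=
    Circle.exp_eq_exp.2 ⟨-1, by push_cast; ring⟩
  exact congrArg (fun z : Circle => (z:ℂ)) this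

lemma exists_ee {ζ : DD} (h : ‖(ζ:ℂ)‖ = 1) : ∃ x : I, ζ = ee x ∨ ζ = ee (-x) := by
  have h1 := Complex.neg_pi_lt_arg ζ
  have h2 := Complex.arg_le_pi ζ
  have hp := Real.pi_pos
  have key : ζ = ee (Complex.arg ζ / π) := by
    apply Subtype.ext
    change (ζ:ℂ) = (Circle.exp (π * (Complex.arg ζ / π)) : Circle)
    rw [mul_div_cancel₀ _ hp.ne', Circle.coe_exp]
    have := Complex.norm_mul_exp_arg_mul_I (ζ:ℂ)
    rw [h] at this
    simpa using this.symm
  rcases le_total 0 (Complex.arg ζ) with h0 | h0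
  · exact ⟨⟨Complex.arg ζ / π, div_nonneg h0 hp.le, (div_le_one hp).2 h2⟩, Or.inl key⟩
  · refine ⟨⟨-Complex.arg ζ / π, div_nonneg (by linarith) hp.le,
      (div_le_one hp).2 (by linarith)⟩, Or.inr ?_⟩
    rw [← neg_div, neg_neg]
    exact key

/-- width of the strip -/
noncomputable def cc (x : ℝ) : ℝ := (2 + x) / 6

@[fun_prop] lemma continuous_cc : Continuous cc := by unfold cc; fun_prop

/-- the gluing data -/
structure Hat (X : Type*) [TopologicalSpace X] where
  d : C(DD, X)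
  Y : C(ℝ × ℝ, X)
  d_inj : Function.Injective d
  d_Y : ∀ ζ x a, d ζ = Y (x, a) → ‖(ζ:ℂ)‖ = 1
  d_pos : ∀ x, d (ee x) = Y (x, 0)
  d_neg : ∀ x ∈ Icc (0:ℝ) 1, d (ee (-x)) = Y (x, -cc x)
  per : ∀ x a, Y (x, a + 1) = Y (x, a)
  per0 : ∀ a, Y (0, a + 1 / 3) = Y (0, a)
  per1 : ∀ a, Y (1, a + 1 / 2) = Y (1, a)
  inj : ∀ x ∈ Icc (0:ℝ) 1, ∀ x' ∈ Icc (0:ℝ) 1, ∀ a a', Y (x, a) = Y (x', a') → x = x' ∧
    ∃ k : ℤ, a' - a = k ∨ (x = 0 ∧ 3 * (a' - a) = k) ∨ (x = 1 ∧ 2 * (a' - a) = k)

lemma int_cases {w w' : I} {k : ℤ} (h : (w':ℝ) - w = k) :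
    w = w' ∨ (w = 0 ∧ w' = 1) ∨ (w = 1 ∧ w' = 0) := by
  have h0 := w.2.1
  have h1 := w.2.2
  have h2 := w'.2.1
  have h3 := w'.2.2
  have k1 : -1 ≤ k := by exact_mod_cast (show (-1:ℝ) ≤ k by linarith)
  have k2 : k ≤ 1 := by exact_mod_cast (show (k:ℝ) ≤ 1 by linarith)
  interval_cases k
  · right; right
    push_cast at h
    exact ⟨Subtype.ext (show (w:ℝ) = 1 by linarith), Subtype.ext (show (w':ℝ) = 0 by linarith)⟩
  · left
    push_cast at h
    exact Subtype.ext (by linarith)
  · right; left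
    push_cast at h
    exact ⟨Subtype.ext (show (w:ℝ) = 0 by linarith), Subtype.ext (show (w':ℝ) = 1 by linarith)⟩

namespace Hat

variable {X : Type*} [TopologicalSpace X] (H : Hat X)

/-- the strip -/
noncomputable def st (x w : ℝ) : X := H.Y (x, (w - 1) * cc x)

@[fun_prop] lemma continuous_st {T : Type*} [TopologicalSpace T] {f g : T → ℝ}
    (hf : Continuous f) (hg : Continuous g) : Continuous fun x => H.st (f x) (g x) := by
  unfold st
  fun_prop

lemma st_one (x : ℝ) : H.st x 1 = H.d (ee x) := by simp [st, H.d_pos]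

lemma st_zero (x : I) : H.st x 0 = H.d (ee (-x)) := by simp [st, H.d_neg x x.2]

lemma st_eq {x x' w w' : I} (h : H.st x w = H.st x' w') :
    x = x' ∧ (w = w' ∨ ((x = 0 ∨ x = 1) ∧ ((w = 0 ∧ w' = 1) ∨ (w = 1 ∧ w' = 0)))) := by
  obtain ⟨hx, k, hk⟩ := H.inj x x.2 x' x'.2 _ _ h
  have hx' : x = x' := Subtype.ext hx
  subst hx'
  refine ⟨rfl, ?_⟩
  have h0 := w.2.1
  have h1 := w.2.2
  have h2 := w'.2.1
  have h3 := w'.2.2
  have h4 := x.2.1
  have h5 := x.2.2
  rcases hk with hk | ⟨h6, hk⟩ | ⟨h6, hk⟩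
  · left
    have c0 : 0 < cc x := by unfold cc; linarith
    have c1 : cc x ≤ 1 / 2 := by unfold cc; linarith
    have k1 : -1 < k := by exact_mod_cast (show (-1:ℝ) < k by nlinarith)
    have k2 : k < 1 := by exact_mod_cast (show (k:ℝ) < 1 by nlinarith)
    have k0 : k = 0 := by omega
    subst k0
    apply Subtype.ext
    apply mul_right_cancel₀ c0.ne'
    push_cast at hk
    linarith
  · rcases int_cases (w := w) (w' := w') (k := k) (by rw [← hk, h6, cc]; ring) with h | h
    · exact Or.inl h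
    · exact Or.inr ⟨Or.inl (Subtype.ext h6), h⟩
  · rcases int_cases (w := w) (w' := w') (k := k) (by rw [← hk, h6, cc]; ring) with h | h
    · exact Or.inl h
    · exact Or.inr ⟨Or.inr (Subtype.ext h6), h⟩

/-- parametrisation of the union of the disc and the strip -/
noncomputable def qA : DD ⊕ (I × I) → X := Sum.elim H.d (fun p => H.st p.1 p.2)

lemma continuous_qA : Continuous H.qA := H.d.continuous.sumElim (by fun_prop)

lemma fibA {T : Type*} (f : DD ⊕ (I × I) → T) (h0 : ∀ x : I, f (.inr (x, 0)) = f (.inl (ee (-x))))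
    (h1 : ∀ x : I, f (.inr (x, 1)) = f (.inl (ee x))) (w w' : DD ⊕ (I × I))
    (h : H.qA w = H.qA w') : f w = f w' := by
  have rr : ∀ p p' : I × I, H.st p.1 p.2 = H.st p'.1 p'.2 → f (.inr p) = f (.inr p') := by
    rintro ⟨x, w⟩ ⟨x', w'⟩ h
    obtain ⟨rfl, h | ⟨hx, h⟩⟩ := H.st_eq h
    · rw [show w = w' from h]
    · have e : ee (-(x:ℝ)) = ee x := by
        rcases hx with rfl | rfl
        · simp
        · exact ee_neg_one
      rcases h with ⟨rfl, rfl⟩ | ⟨rfl, rfl⟩
      · rw [h0, h1, e]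
      · rw [h0, h1, e]
  have lr : ∀ (ζ : DD) (p : I × I), H.d ζ = H.st p.1 p.2 → f (.inl ζ) = f (.inr p) := by
    intro ζ p h
    obtain ⟨y, rfl | rfl⟩ := exists_ee (H.d_Y _ _ _ h)
    · rw [← h1]
      exact rr (y, 1) p (by rw [← h, ← H.st_one]; rfl)
    · rw [← h0]
      exact rr (y, 0) p (by rw [← h, ← H.st_zero]; rfl)
  rcases w with ζ | p <;> rcases w' with ζ' | p'
  · rw [H.d_inj h]
  · exact lr _ _ h
  · exact (lr _ _ h.symm).symm
  · exact rr _ _ h

/-- loops through the centre of the disc -/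
noncomputable def L (p : I × ℝ) : X :=
  if p.2 ≤ 0 then H.d (sc (cl (1 + p.2)) (ee (-p.1))) else
    if p.2 ≤ 1 then H.st p.1 p.2 else H.d (sc (cl (2 - p.2)) (ee p.1))

lemma L_neg (x : I) {s : ℝ} (h : s ≤ 0) : H.L (x, s) = H.d (sc (cl (1 + s)) (ee (-x))) := if_pos h

lemma L_mid (x : I) {s : ℝ} (h0 : 0 ≤ s) (h1 : s ≤ 1) : H.L (x, s) = H.st x s := by
  rcases eq_or_lt_of_le h0 with rfl | h0
  · rw [H.L_neg x le_rfl, H.st_zero]
    simp
  · simp only [L, if_neg (not_le.2 h0), if_pos h1]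

lemma L_pos (x : I) {s : ℝ} (h : 1 ≤ s) : H.L (x, s) = H.d (sc (cl (2 - s)) (ee x)) := by
  rcases eq_or_lt_of_le h with rfl | h
  · rw [H.L_mid x (by norm_num) le_rfl, H.st_one]
    norm_num
  · simp only [L, if_neg (not_le.2 h), if_neg (not_le.2 (show (0:ℝ) < s by linarith))]

@[fun_prop] lemma continuous_L : Continuous H.L := by
  refine Continuous.if_le (by fun_prop) ?_ continuous_snd continuous_const ?_
  · refine Continuous.if_le (by fun_prop) (by fun_prop) continuous_snd continuous_const ?_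
    rintro ⟨b, s⟩ hs
    simp only at hs
    subst hs
    rw [H.st_one]
    norm_num
  · rintro ⟨b, s⟩ hs
    simp only at hs
    subst hs
    simp [H.st_zero]

/-- union of the disc and the strip -/
abbrev A : Set X := range H.qA

/-- the union of the disc and the strip factors through a circle up to homotopy -/
theorem annulus [T2Space X] : ∃ (r : C(H.A, Circle)) (Γ : C(Circle, X)),
    (∀ (x w : I) (h : H.st x w ∈ H.A), r ⟨H.st x w, h⟩ = Circle.exp (-(2 * π * w))) ∧
    ContinuousMap.Homotopic ⟨Subtype.val, continuous_subtype_val⟩ (Γ.comp r) := by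
  have hq := isQuotientMap_range H.continuous_qA
  have hfib : ∀ {T : Type _} (f : DD ⊕ (I × I) → T),
      (∀ x : I, f (.inr (x, 0)) = f (.inl (ee (-x)))) →
      (∀ x : I, f (.inr (x, 1)) = f (.inl (ee x))) → ∀ w w',
      rangeFactorization H.qA w = rangeFactorization H.qA w' → f w = f w' :=
    fun f h0 h1 w w' h => H.fibA f h0 h1 w w' (congrArg Subtype.val h)
  obtain ⟨r, hr⟩ := exists_lift hq
    (Sum.elim (fun _ => (1:Circle)) (fun p : I × I => Circle.exp (-(2 * π * p.2))))
    (continuous_const.sumElim (by fun_prop))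
    (fun w w' h => H.fibA _ (by simp) (by simp) w w' (congrArg Subtype.val h))
  have hc : Continuous (fun w : I => Circle.exp (-(2 * π * w))) := by fun_prop
  have hp := Real.pi_pos
  have hs : Function.Surjective (fun w : I => Circle.exp (-(2 * π * w))) := by
    intro b
    refine ⟨⟨Int.fract (-Complex.arg b / (2 * π)), Int.fract_nonneg _, (Int.fract_lt_one _).le⟩, ?_⟩
    rw [← Circle.exp_arg b, Circle.exp_eq_exp, Circle.exp_arg b]
    refine ⟨⌊-Complex.arg b / (2 * π)⌋, ?_⟩
    simp only [Int.fract]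
    field_simp
    ring
  obtain ⟨Γ, hΓ⟩ := exists_lift (hc.isClosedMap.isQuotientMap hc hs)
    (fun w : I => H.L (0, 3 * w - 1)) (by fun_prop) (by
      intro w w' h
      obtain ⟨k, hk⟩ := Circle.exp_eq_exp.1 h
      have e0 : H.L (0, 3 * ((0:I):ℝ) - 1) = H.L (0, 3 * ((1:I):ℝ) - 1) := by
        rw [H.L_neg _ (by norm_num), H.L_pos _ (by norm_num)]
        norm_num
      rcases int_cases (w := w) (w' := w') (k := k) (by
        apply mul_left_cancel₀ (show 2 * π ≠ 0 by positivity)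
        linarith) with rfl | ⟨rfl, rfl⟩ | ⟨rfl, rfl⟩
      · rfl
      · exact e0
      · exact e0.symm)
  have step1 : DH (rangeFactorization H.qA) H.qA
      (Sum.elim (fun _ => H.d oo) (fun p : I × I => H.L (p.1, 3 * p.2 - 1))) := by
    refine DH.of_homotopy hq (fun p => Sum.elim (fun ζ => H.d (sc (cl (1 - p.1)) ζ))
      (fun b : I × I => H.L (b.1, -(p.1:ℝ) + (1 + 2 * p.1) * b.2)) p.2) ?_ ?_ ?_ ?_
    · exact continuous_on_sum (f := fun p : I × DD => H.d (sc (cl (1 - p.1)) p.2))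
        (g := fun p : I × (I × I) => H.L (p.2.1, -(p.1:ℝ) + (1 + 2 * p.1) * p.2.2))
        (by fun_prop) (by fun_prop)
    · intro t
      have := t.2.1
      apply hfib
      · intro x
        simp only [Sum.elim_inr, Sum.elim_inl, Icc.coe_zero, mul_zero, add_zero]
        rw [H.L_neg _ (by linarith), sub_eq_add_neg]
      · intro x
        simp only [Sum.elim_inr, Sum.elim_inl, Icc.coe_one, mul_one]
        rw [H.L_pos _ (by linarith)]
        congr 3
        ring
    · rintro (ζ | ⟨x, w⟩)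
      · simp [qA]
      · simp only [Sum.elim_inr, Icc.coe_zero, neg_zero, mul_zero, add_zero, one_mul, zero_add]
        exact H.L_mid x w.2.1 w.2.2
    · rintro (ζ | ⟨x, w⟩)
      · simp
      · simp only [Sum.elim_inr, Icc.coe_one]
        congr 2
        ring
  have step2 : DH (rangeFactorization H.qA)
      (Sum.elim (fun _ => H.d oo) (fun p : I × I => H.L (p.1, 3 * p.2 - 1)))
      (Sum.elim (fun _ => H.d oo) (fun p : I × I => H.L (0, 3 * p.2 - 1))) := by
    refine DH.of_homotopy hq (fun p => Sum.elim (fun _ => H.d oo)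
      (fun b : I × I => H.L (cl ((1 - p.1) * b.1), 3 * b.2 - 1)) p.2) ?_ ?_ ?_ ?_
    · exact continuous_on_sum (f := fun _ : I × DD => H.d oo)
        (g := fun p : I × (I × I) => H.L (cl ((1 - p.1) * p.2.1), 3 * p.2.2 - 1))
        (by fun_prop) (by fun_prop)
    · intro t
      apply hfib
      · intro x
        simp only [Sum.elim_inr, Sum.elim_inl]
        rw [H.L_neg _ (by norm_num)]
        norm_num
      · intro x
        simp only [Sum.elim_inr, Sum.elim_inl]
        rw [H.L_pos _ (by norm_num)]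
        norm_num
    · rintro (ζ | ⟨x, w⟩) <;> simp [cl_coe]
    · rintro (ζ | ⟨x, w⟩) <;> simp
  obtain ⟨f', g', hf, hg, hfg⟩ := step1.trans hq.surjective step2
  refine ⟨r, Γ, fun x w h => hr (.inr (x, w)), ?_⟩
  have e1 : f' = ⟨Subtype.val, continuous_subtype_val⟩ := by
    ext a
    obtain ⟨w, rfl⟩ := hq.surjective a
    exact hf w
  have e2 : g' = Γ.comp r := by
    ext a
    obtain ⟨w, rfl⟩ := hq.surjective a
    rw [hg, ContinuousMap.comp_apply, hr]
    rcases w with ζ | ⟨x, w⟩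
    · have := hΓ 0
      simp only [Icc.coe_zero, mul_zero, neg_zero, Circle.exp_zero] at this
      simp only [Sum.elim_inl]
      rw [this, H.L_neg _ (by norm_num)]
      norm_num
    · exact (hΓ w).symm
  rw [← e1, ← e2]
  exact hfg

end Hat

end Pool.Agent.P.MP_e5acfa_ag.PkgA
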