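import Pool.Agent.P.MP_e5acfa_ag.A2

/-! The two dimensional spine, second part: attaching the cell. -/

open Set Topology unitInterval Real

namespace Pool.Agent.P.MP_e5acfa_ag.PkgA

/-- sup norm of a point of the circle -/
noncomputable def mx (b : Circle) : ℝ := max |(b:ℂ).re| |(b:ℂ).im|

lemma mx_pos (b : Circle) : 0 < mx b := by
  by_contra h
  push Not at h
  have h1 : (b:ℂ).re = 0 := abs_nonpos_iff.1 ((le_max_left _ _).trans h)
  have h2 : (b:ℂ).im = 0 := abs_nonpos_iff.1 ((le_max_right _ _).trans h)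
  exact b.coe_ne_zero (Complex.ext h1 h2)

@[fun_prop] lemma continuous_mx : Continuous mx := by unfold mx; fun_prop

noncomputable def b1 (b : Circle) : ℝ := (b:ℂ).re / mx b

noncomputable def b2 (b : Circle) : ℝ := (b:ℂ).im / mx b

@[fun_prop] lemma continuous_b1 : Continuous b1 :=
  Continuous.div (by fun_prop) (by fun_prop) fun b => (mx_pos b).ne'

@[fun_prop] lemma continuous_b2 : Continuous b2 :=
  Continuous.div (by fun_prop) (by fun_prop) fun b => (mx_pos b).ne'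

lemma max_b (b : Circle) : max |b1 b| |b2 b| = 1 := by
  have := mx_pos b
  rw [b1, b2, abs_div, abs_div, abs_of_pos this, max_div_div_right this.le]
  exact div_self this.ne'

lemma abs_b1 (b : Circle) : |b1 b| ≤ 1 := (le_max_left _ _).trans (max_b b).le

lemma abs_b2 (b : Circle) : |b2 b| ≤ 1 := (le_max_right _ _).trans (max_b b).le

lemma re_eq (b : Circle) : (b:ℂ).re = mx b * b1 b := by
  rw [b1, mul_div_cancel₀ _ (mx_pos b).ne']

lemma im_eq (b : Circle) : (b:ℂ).im = mx b * b2 b := by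
  rw [b2, mul_div_cancel₀ _ (mx_pos b).ne']

lemma b_inj {b b' : Circle} (h1 : b1 b = b1 b') (h2 : b2 b = b2 b') : b = b' := by
  have e := Circle.normSq_coe b
  have e' := Circle.normSq_coe b'
  rw [Complex.normSq_apply, re_eq, im_eq] at e e'
  rw [← h1, ← h2] at e'
  have m := mx_pos b
  have m' := mx_pos b'
  have hS : (mx b ^ 2 - mx b' ^ 2) * (b1 b ^ 2 + b2 b ^ 2) = 0 := by linear_combination e - e'
  have hS0 : b1 b ^ 2 + b2 b ^ 2 ≠ 0 := by
    intro h0
    have : mx b ^ 2 * (b1 b ^ 2 + b2 b ^ 2) = 1 := by linear_combination e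
    rw [h0] at this
    norm_num at this
  have hm : mx b = mx b' := by
    have := (mul_eq_zero.1 hS).resolve_right hS0
    exact (pow_left_inj₀ m.le m'.le two_ne_zero).1 (by linarith)
  apply Circle.ext
  apply Complex.ext
  · rw [re_eq, re_eq, hm, h1]
  · rw [im_eq, im_eq, hm, h2]

lemma polar_inj {b b' : Circle} {R R' : I} (h1 : R * b1 b = R' * b1 b')
    (h2 : R * b2 b = R' * b2 b') : R = R' ∧ (R = 0 ∨ b = b') := by
  have key : ∀ (b : Circle) (R : I), max |R * b1 b| |R * b2 b| = R := by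
    intro b R
    rw [abs_mul, abs_mul, abs_of_nonneg R.2.1, ← mul_max_of_nonneg _ _ R.2.1, max_b, mul_one]
  have e : R = R' := Subtype.ext (by rw [← key b R, h1, h2, key])
  subst e
  refine ⟨rfl, ?_⟩
  by_cases h0 : (R:ℝ) = 0
  · exact Or.inl (Subtype.ext h0)
  · exact Or.inr (b_inj (mul_left_cancel₀ h0 h1) (mul_left_cancel₀ h0 h2))

lemma polar_surj {u v : ℝ} (hu : |u| ≤ 1) (hv : |v| ≤ 1) :
    ∃ (b : Circle) (R : I), u = R * b1 b ∧ v = R * b2 b := by
  by_cases h0 : (⟨u, v⟩ : ℂ) = 0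
  · refine ⟨1, 0, ?_, ?_⟩
    · simpa using congrArg Complex.re h0
    · simpa using congrArg Complex.im h0
  · have hn : 0 < ‖(⟨u, v⟩ : ℂ)‖ := norm_pos_iff.2 h0
    have e1 : ((nrm _ h0 : Circle) : ℂ).re = u / ‖(⟨u, v⟩ : ℂ)‖ := Complex.div_ofReal_re _ _
    have e2 : ((nrm _ h0 : Circle) : ℂ).im = v / ‖(⟨u, v⟩ : ℂ)‖ := Complex.div_ofReal_im _ _
    have e3 : mx (nrm _ h0) = max |u| |v| / ‖(⟨u, v⟩ : ℂ)‖ := by
      rw [mx, e1, e2, abs_div, abs_div, abs_of_pos hn, max_div_div_right hn.le]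
    have e4 : 0 < max |u| |v| := by
      have := mx_pos (nrm _ h0)
      rw [e3] at this
      exact (div_pos_iff_of_pos_right hn).1 this
    refine ⟨nrm _ h0, ⟨max |u| |v|, e4.le, max_le hu hv⟩, ?_, ?_⟩
    · rw [b1, e1, e3]
      field_simp
    · rw [b2, e2, e3]
      field_simp

lemma half_mem (R : I) {β : ℝ} (h : |β| ≤ 1) : (1 + R * β) / 2 ∈ Icc (0:ℝ) 1 := by
  have := abs_le.1 h
  have := R.2.1
  have := R.2.2
  constructor <;> nlinarith

lemma half_mem_Ioo {R : I} (hR : R ≠ 1) {β : ℝ} (h : |β| ≤ 1) :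
    (1 + R * β) / 2 ∈ Ioo (0:ℝ) 1 := by
  have := abs_le.1 h
  have := R.2.1
  have : (R:ℝ) < 1 := lt_of_le_of_ne R.2.2 (fun h => hR (Subtype.ext h))
  constructor <;> nlinarith

lemma left_side (b : Circle) (h : b1 b = -1) :
    ((Circle.exp (-(2 * π * ((1 + b2 b) / 2))) : Circle) : ℂ) ≠ -(b:ℂ) := by
  intro e
  have m := mx_pos b
  have e0 : -(2 * π * ((1 + b2 b) / 2)) = -(π * b2 b + π) := by ring
  rw [e0, Circle.coe_exp] at e
  have e1 := congrArg Complex.re e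
  have e2 := congrArg Complex.im e
  rw [Complex.exp_ofReal_mul_I_re, Complex.neg_re, re_eq, h, Real.cos_neg, Real.cos_add_pi] at e1
  rw [Complex.exp_ofReal_mul_I_im, Complex.neg_im, im_eq, Real.sin_neg, Real.sin_add_pi] at e2
  have hb := abs_le.1 (abs_b2 b)
  have hp := Real.pi_pos
  have hs : 0 ≤ b2 b * Real.sin (π * b2 b) := by
    rcases le_total 0 (b2 b) with h0 | h0
    · exact mul_nonneg h0 (Real.sin_nonneg_of_nonneg_of_le_pi (by positivity) (by nlinarith))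
    · exact mul_nonneg_of_nonpos_of_nonpos h0
        (Real.sin_nonpos_of_nonpos_of_neg_pi_le (by nlinarith) (by nlinarith))
  have hz : b2 b = 0 := by
    have h1 : mx b * b2 b ^ 2 ≤ 0 := by nlinarith
    have h2 : b2 b ^ 2 ≤ 0 := by
      by_contra hc
      push Not at hc
      nlinarith [mul_pos m hc]
    exact pow_eq_zero_iff two_ne_zero |>.1 (le_antisymm h2 (sq_nonneg _))
  rw [hz] at e1
  simp at e1
  linarith

namespace Hat

variable {X : Type*} [TopologicalSpace X] (H : Hat X)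

/-- the cell -/
noncomputable def ce (x s : ℝ) : X := H.Y (x, s * (1 - cc x))

@[fun_prop] lemma continuous_ce {T : Type*} [TopologicalSpace T] {f g : T → ℝ}
    (hf : Continuous f) (hg : Continuous g) : Continuous fun x => H.ce (f x) (g x) := by
  unfold ce
  fun_prop

lemma ce_ne_st {x s : ℝ} (hx : x ∈ Ioo (0:ℝ) 1) (hs : s ∈ Ioo (0:ℝ) 1) (x' w : I) :
    H.ce x s ≠ H.st x' w := by
  intro h
  obtain ⟨e, k, hk⟩ := H.inj x (Ioo_subset_Icc_self hx) x' x'.2 _ _ h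
  rw [← e] at hk
  obtain ⟨h1, h2⟩ := hx
  obtain ⟨h3, h4⟩ := hs
  have h5 := w.2.1
  have h6 := w.2.2
  rcases hk with hk | ⟨h0, -⟩ | ⟨h0, -⟩
  · have c0 : 0 < cc x := by unfold cc; linarith
    have c1 : cc x ≤ 1 / 2 := by unfold cc; linarith
    have k1 : -1 < k := by exact_mod_cast (show (-1:ℝ) < k by nlinarith)
    have k2 : k < 0 := by exact_mod_cast (show (k:ℝ) < 0 by nlinarith)
    omega
  · exact h1.ne' h0
  · exact h2.ne h0

lemma ce_not_mem {x s : ℝ} (hx : x ∈ Ioo (0:ℝ) 1) (hs : s ∈ Ioo (0:ℝ) 1) : H.ce x s ∉ H.A := by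
  rintro ⟨ζ | ⟨x', w⟩, h⟩
  · obtain ⟨y, rfl | rfl⟩ := exists_ee (H.d_Y _ _ _ h)
    · exact H.ce_ne_st hx hs y 1 (by rw [← h]; exact (H.st_one y).symm)
    · exact H.ce_ne_st hx hs y 0 (by rw [← h]; exact (H.st_zero y).symm)
  · exact H.ce_ne_st hx hs x' w h.symm

lemma ce_inj {x s x' s' : ℝ} (hx : x ∈ Ioo (0:ℝ) 1) (hs : s ∈ Ioo (0:ℝ) 1)
    (hx' : x' ∈ Icc (0:ℝ) 1) (hs' : s' ∈ Icc (0:ℝ) 1) (h : H.ce x s = H.ce x' s') :
    x = x' ∧ s = s' := by
  obtain ⟨rfl, k, hk⟩ := H.inj x (Ioo_subset_Icc_self hx) x' hx' _ _ h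
  refine ⟨rfl, ?_⟩
  obtain ⟨h1, h2⟩ := hx
  obtain ⟨h3, h4⟩ := hs
  obtain ⟨h5, h6⟩ := hs'
  rcases hk with hk | ⟨h0, -⟩ | ⟨h0, -⟩
  · have c0 : 0 < cc x := by unfold cc; linarith
    have c1 : cc x ≤ 1 / 2 := by unfold cc; linarith
    have k1 : -1 < k := by exact_mod_cast (show (-1:ℝ) < k by nlinarith)
    have k2 : k < 1 := by exact_mod_cast (show (k:ℝ) < 1 by nlinarith)
    have k0 : k = 0 := by omega
    subst k0
    apply mul_right_cancel₀ (show 1 - cc x ≠ 0 by linarith)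
    push_cast at hk
    linarith
  · exact absurd h0 h1.ne'
  · exact absurd h0 h2.ne

lemma ce_bdry {x s : ℝ} (hx : x ∈ Icc (0:ℝ) 1) (hs : s ∈ Icc (0:ℝ) 1)
    (h : x = 0 ∨ x = 1 ∨ s = 0 ∨ s = 1) :
    ∃ w : I, H.ce x s = H.st x w ∧
      (((x = 1 ∨ s = 0 ∨ s = 1) ∧ Circle.exp (-(2 * π * w)) * Circle.exp (2 * π * s) = 1) ∨
        (x = 0 ∧ Circle.exp (-(2 * π * w)) * Circle.exp (2 * π * s) =
          Circle.exp (-(2 * π * s)))) := by
  obtain ⟨h3, h4⟩ := hs
  rcases h with rfl | rfl | rfl | rfl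
  · rcases le_total s (1 / 2) with h | h
    · refine ⟨⟨2 * s, by linarith, by linarith⟩, ?_, Or.inr ⟨rfl, ?_⟩⟩
      · rw [ce, st, ← H.per0 (((2 * s:ℝ) - 1) * cc 0)]
        congr 2
        unfold cc
        ring
      · rw [← Circle.exp_add]
        congr 1
        ring
    · refine ⟨⟨2 * s - 1, by linarith, by linarith⟩, ?_, Or.inr ⟨rfl, ?_⟩⟩
      · rw [ce, st, ← H.per0 (((2 * s - 1:ℝ) - 1) * cc 0), ← H.per0 (_ + 1 / 3)]
        congr 2
        unfold cc
        ring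
      · rw [← Circle.exp_add, Circle.exp_eq_exp]
        exact ⟨1, by push_cast; ring⟩
  · refine ⟨⟨s, h3, h4⟩, ?_, Or.inl ⟨Or.inl rfl, ?_⟩⟩
    · rw [ce, st, ← H.per1 ((s - 1) * cc 1)]
      congr 2
      unfold cc
      ring
    · rw [← Circle.exp_add]
      simp
  · refine ⟨1, ?_, Or.inl ⟨Or.inr (Or.inl rfl), ?_⟩⟩
    · simp [ce, st]
    · simp
  · refine ⟨0, ?_, Or.inl ⟨Or.inr (Or.inr rfl), ?_⟩⟩
    · rw [ce, st, ← H.per x ((((0:I):ℝ) - 1) * cc x)]
      congr 2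
      simp only [Icc.coe_zero]
      ring
    · simp

/-- the cell in polar coordinates -/
noncomputable def Pc : C(Circle × I, X) :=
  ⟨fun p => H.ce ((1 + p.2 * b1 p.1) / 2) ((1 + p.2 * b2 p.1) / 2), by fun_prop⟩

lemma P_apply (b : Circle) (R : I) :
    H.Pc (b, R) = H.ce ((1 + R * b1 b) / 2) ((1 + R * b2 b) / 2) := rfl

lemma P_one (b : Circle) : ∃ x w : I, H.Pc (b, 1) = H.st x w ∧
    ((Circle.exp (-(2 * π * w)) * Circle.exp (2 * π * ((1 + b2 b) / 2)) : Circle) : ℂ) ≠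
      -(b:ℂ) := by
  have hx := half_mem 1 (abs_b1 b)
  have hs := half_mem 1 (abs_b2 b)
  have hb : (1 + (1:I) * b1 b) / 2 = 0 ∨ (1 + (1:I) * b1 b) / 2 = 1 ∨
      (1 + (1:I) * b2 b) / 2 = 0 ∨ (1 + (1:I) * b2 b) / 2 = 1 := by
    simp only [Icc.coe_one, one_mul]
    rcases max_choice |b1 b| |b2 b| with h | h <;> rw [max_b] at h <;>
      rcases abs_eq (show (0:ℝ) ≤ 1 by norm_num) |>.1 h.symm with h | h <;> rw [h] <;> norm_num
  obtain ⟨w, h1, h2⟩ := H.ce_bdry hx hs hb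
  refine ⟨⟨_, hx⟩, w, h1, ?_⟩
  simp only [Icc.coe_one, one_mul] at h2
  rcases h2 with ⟨h2, h3⟩ | ⟨h2, h3⟩
  · rw [h3]
    intro e
    have m := mx_pos b
    have e1 := congrArg Complex.re e
    have e2 := congrArg Complex.im e
    simp only [Circle.coe_one, Complex.one_re, Complex.one_im, Complex.neg_re, Complex.neg_im,
      re_eq, im_eq] at e1 e2
    rcases h2 with h2 | h2 | h2
    · rw [show b1 b = 1 by linarith] at e1
      linarith
    · rw [show b2 b = -1 by linarith] at e2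
      linarith
    · rw [show b2 b = 1 by linarith] at e2
      linarith
  · rw [h3]
    exact left_side b (by linarith)

lemma P_one_mem (b : Circle) : H.Pc (b, 1) ∈ H.A := by
  obtain ⟨x, w, h, -⟩ := H.P_one b
  exact ⟨.inr (x, w), h.symm⟩

/-- attaching map of the cell -/
noncomputable def g : C(Circle, H.A) :=
  ⟨fun b => ⟨H.Pc (b, 1), H.P_one_mem b⟩, Continuous.subtype_mk (by fun_prop) _⟩

/-- parametrisation of the whole spine -/
noncomputable def qK : H.A ⊕ (Circle × I) → X := Sum.elim Subtype.val H.Pc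

lemma fibK {T : Type*} (f : H.A ⊕ (Circle × I) → T)
    (h1 : ∀ b, f (.inr (b, 1)) = f (.inl (H.g b)))
    (h0 : ∀ b b', f (.inr (b, 0)) = f (.inr (b', 0))) (w w' : H.A ⊕ (Circle × I))
    (h : H.qK w = H.qK w') : f w = f w' := by
  have lr : ∀ (a : H.A) (p : Circle × I), (a:X) = H.Pc p → f (.inl a) = f (.inr p) := by
    rintro a ⟨b, R⟩ h
    by_cases hR : R = 1
    · subst hR
      rw [h1, show a = H.g b from Subtype.ext h]
    · have ha : H.Pc (b, R) ∈ H.A := h ▸ a.2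
      exact absurd ha (H.ce_not_mem (half_mem_Ioo hR (abs_b1 b)) (half_mem_Ioo hR (abs_b2 b)))
  have rr : ∀ (b b' : Circle) (R R' : I), R ≠ 1 → H.Pc (b, R) = H.Pc (b', R') →
      f (.inr (b, R)) = f (.inr (b', R')) := by
    intro b b' R R' hR h
    obtain ⟨e1, e2⟩ := H.ce_inj (half_mem_Ioo hR (abs_b1 b)) (half_mem_Ioo hR (abs_b2 b))
      (half_mem R' (abs_b1 b')) (half_mem R' (abs_b2 b')) h
    obtain ⟨rfl, rfl | rfl⟩ := polar_inj (b := b) (b' := b') (R := R) (R' := R')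
      (by linarith) (by linarith)
    · exact h0 _ _
    · rfl
  rcases w with a | ⟨b, R⟩ <;> rcases w' with a' | ⟨b', R'⟩
  · rw [show a = a' from Subtype.ext h]
  · exact lr _ _ h
  · exact (lr _ _ h.symm).symm
  · by_cases hR : R = 1
    · subst hR
      rw [h1]
      exact lr _ _ h
    · exact rr _ _ _ _ hR h

lemma Y_mem {x : ℝ} (hx : x ∈ Icc (0:ℝ) 1) (a : ℝ) : H.Y (x, a) ∈ range H.qK := by
  have hper : Function.Periodic (fun a => H.Y (x, a)) 1 := H.per x
  have e : H.Y (x, a) = H.Y (x, Int.fract a) := by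
    have := hper.sub_int_mul_eq (x := a) ⌊a⌋
    simp only [mul_one] at this
    exact this.symm
  have f0 := Int.fract_nonneg a
  have f1 := Int.fract_lt_one a
  obtain ⟨h1, h2⟩ := hx
  have c0 : 0 < cc x := by unfold cc; linarith
  have c1 : 0 < 1 - cc x := by unfold cc; linarith
  rw [e]
  rcases le_total (Int.fract a) (1 - cc x) with h | h
  · have s0 : 0 ≤ Int.fract a / (1 - cc x) := div_nonneg f0 c1.le
    have s1 : Int.fract a / (1 - cc x) ≤ 1 := (div_le_one c1).2 h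
    obtain ⟨b, R, e1, e2⟩ := polar_surj (u := 2 * x - 1) (v := 2 * (Int.fract a / (1 - cc x)) - 1)
      (abs_le.2 ⟨by linarith, by linarith⟩) (abs_le.2 ⟨by linarith, by linarith⟩)
    refine ⟨.inr (b, R), ?_⟩
    change H.Pc (b, R) = _
    rw [P_apply, ← e1, ← e2, ce, show (1 + (2 * x - 1)) / 2 = x by ring]
    congr 2
    field_simp
    ring
  · have s0 : (1 - Int.fract a) / cc x ≤ 1 := (div_le_one c0).2 (by linarith)
    have s1 : 0 ≤ (1 - Int.fract a) / cc x := div_nonneg (by linarith) c0.le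
    refine ⟨.inl ⟨_, .inr (⟨x, h1, h2⟩, ⟨1 - (1 - Int.fract a) / cc x, by linarith, by linarith⟩),
      rfl⟩, ?_⟩
    change H.Y (x, (1 - (1 - Int.fract a) / cc x - 1) * cc x) = _
    rw [← H.per]
    congr 2
    field_simp
    ring

/-- the spine contracts inside the ambient space -/
theorem null [T2Space X] : ∃ K : Set X, (∀ ζ, H.d ζ ∈ K) ∧
    (∀ x ∈ Icc (0:ℝ) 1, ∀ a, H.Y (x, a) ∈ K) ∧
    ContinuousMap.Nullhomotopic (⟨Subtype.val, continuous_subtype_val⟩ : C(K, X)) := by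
  obtain ⟨r, Γ, hr, hF⟩ := H.annulus
  have : CompactSpace H.A := isCompact_iff_compactSpace.1 (isCompact_range H.continuous_qA)
  have hq := isQuotientMap_range (f := H.qK) (continuous_subtype_val.sumElim H.Pc.continuous)
  have hh : (r.comp H.g).Homotopic (ContinuousMap.id Circle) := by
    refine circle_homotopic _ (fun b => 2 * π * ((1 + b2 b) / 2)) (by fun_prop) ?_
    intro b
    obtain ⟨x, w, h1, h2⟩ := H.P_one b
    have : H.g b = ⟨H.st x w, ⟨.inr (x, w), rfl⟩⟩ := Subtype.ext h1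
    rw [ContinuousMap.comp_apply, this, hr]
    exact h2
  obtain ⟨f', g', hf, hg, hfg⟩ := cone (rangeFactorization H.qK) hq H.g
    (fun f h1 h0 w w' h => H.fibK f h1 h0 w w' (congrArg Subtype.val h))
    ⟨Subtype.val, continuous_subtype_val⟩ H.Pc (H.ce (1 / 2) (1 / 2))
    (fun b => by simp [P_apply]) (fun b => rfl) r Γ hF hh
  refine ⟨range H.qK, fun ζ => ⟨.inl ⟨_, .inl ζ, rfl⟩, rfl⟩, fun x hx a => H.Y_mem hx a,
    H.ce (1 / 2) (1 / 2), ?_⟩
  have e1 : f' = ⟨Subtype.val, continuous_subtype_val⟩ := by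
    ext a
    obtain ⟨w, rfl⟩ := hq.surjective a
    rw [hf]
    rcases w with a | p <;> rfl
  have e2 : g' = ContinuousMap.const _ (H.ce (1 / 2) (1 / 2)) := by
    ext a
    obtain ⟨w, rfl⟩ := hq.surjective a
    exact hg w
  rw [← e1, ← e2]
  exact hfg

end Hat

end Pool.Agent.P.MP_e5acfa_ag.PkgA
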