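import Pool.Agent.P.MP_e5acfa_ag.Basic
import Pool.Agent.P.MP_e5acfa_ag.A3

/-! The parametrisation of the surface is a quotient map; its fibres; the spine of the surface. -/

open Set Topology unitInterval Real

namespace Pool.Agent.P.MP_e5acfa_ag.PkgA

/-- domain of the parametrisation -/
def ZZ (p : ℝ) : Set (ℂ × ℂ) := {w | ‖w.1‖ ≤ 1 ∧ (p:ℂ) + w.1 * w.2 ≠ 0}

/-- the parametrisation -/
noncomputable def psi (p : ℝ) : C(ZZ p, XS p) :=
  ⟨fun w => ⟨Psi p w.1.1 w.1.2, Psi_mem w.2.2⟩,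
    Continuous.subtype_mk (continuousOn_iff_continuous_domRestrict.1 (continuousOn_Psi p)) _⟩

lemma x_eq {p : ℝ} {ζ x : ℂ} (h : (p:ℂ) + ζ * x ≠ 0) : (p:ℂ) ^ 2 * x =
    (4 * (p + ζ * x) ^ 6 * Psi p ζ x 0 - (p + ζ * x) ^ 3) -
      (p + ζ * x) * (4 * (p + ζ * x) ^ 6 * Psi p ζ x 1 - (p + ζ * x) ^ 2 * vp ζ) := by
  rw [Psi_zero, Psi_one]
  generalize (p:ℂ) + ζ * x = l at h ⊢
  field_simp
  ring

lemma bounds {p : ℝ} (hp : 0 < p) (R : ℝ) : ∃ m M : ℝ, 0 < m ∧ ∀ w ∈ ZZ p,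
    ‖Psi p w.1 w.2‖ ≤ R → ‖w.2‖ ≤ M ∧ m ≤ ‖(p:ℂ) + w.1 * w.2‖ := by
  obtain ⟨V, hV⟩ := (isCompact_closedBall (0:ℂ) 1).exists_bound_of_continuousOn continuousOn_vp
  set S := |R| with hS
  set Λ := 1 + ((p ^ 3 + S * S) ^ 2 + (p ^ 2 + S * S) ^ 3) with hΛ
  have S0 : 0 ≤ S := abs_nonneg R
  have Λ0 : 0 < Λ := by positivity
  refine ⟨p ^ 3 / (2 * Λ ^ 2 + S * (4 * Λ ^ 5)),
    (4 * Λ ^ 6 * S + Λ ^ 3 + Λ * (4 * Λ ^ 6 * S + Λ ^ 2 * V)) / p ^ 2, by positivity, ?_⟩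
  rintro ⟨ζ, x⟩ ⟨hζ, hl⟩ hR
  simp only at hζ hl hR ⊢
  have hc : ∀ i, ‖Psi p ζ x i‖ ≤ S := fun i =>
    (norm_le_pi_norm _ i).trans (hR.trans (le_abs_self R))
  have hpn : ‖(p:ℂ)‖ = p := by rw [Complex.norm_real, Real.norm_of_nonneg hp.le]
  have hu : ‖uu p (Psi p ζ x)‖ ≤ p ^ 3 + S * S := by
    refine (norm_add_le _ _).trans ?_
    rw [norm_pow, hpn, norm_mul]
    gcongr <;> apply hc
  have hv : ‖vv p (Psi p ζ x)‖ ≤ p ^ 2 + S * S := by
    refine (norm_add_le _ _).trans ?_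
    rw [norm_pow, hpn, norm_mul]
    gcongr <;> apply hc
  have hN := NN_UV ζ (p + ζ * x)
  rw [← uu_Psi hl, ← vv_Psi hl, NN] at hN
  set l := ‖(p:ℂ) + ζ * x‖ with hldef
  have l0 : 0 ≤ l := norm_nonneg _
  have hl6 : l ^ 6 ≤ (p ^ 3 + S * S) ^ 2 + (p ^ 2 + S * S) ^ 3 := by
    have h1 : ‖uu p (Psi p ζ x)‖ ^ 2 ≤ (p ^ 3 + S * S) ^ 2 := by gcongr
    have h2 : ‖vv p (Psi p ζ x)‖ ^ 3 ≤ (p ^ 2 + S * S) ^ 3 := by gcongr
    have h3 : 0 ≤ l ^ 6 * ‖ζ‖ ^ 2 := by positivity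
    have h4 : 0 ≤ l ^ 6 := by positivity
    nlinarith
  have hΛl : l ≤ Λ := by
    rcases le_total l 1 with h | h
    · have : 0 ≤ (p ^ 3 + S * S) ^ 2 + (p ^ 2 + S * S) ^ 3 := by positivity
      linarith
    · have : l ≤ l ^ 6 := by simpa using pow_le_pow_right₀ h (show 1 ≤ 6 by norm_num)
      linarith
  have hV' : ‖vp ζ‖ ≤ V := hV ζ (by simpa using hζ)
  constructor
  · rw [le_div_iff₀ (by positivity), mul_comm, ← hpn, ← norm_pow, ← norm_mul, x_eq hl]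
    refine (norm_sub_le _ _).trans (add_le_add ((norm_sub_le _ _).trans ?_) ?_)
    · simp only [norm_mul, norm_pow, Complex.norm_ofNat, ← hldef]
      gcongr
      apply hc
    · rw [norm_mul]
      refine mul_le_mul hΛl ((norm_sub_le _ _).trans ?_) (norm_nonneg _) Λ0.le
      simp only [norm_mul, norm_pow, Complex.norm_ofNat, ← hldef]
      gcongr
      apply hc
  · rw [div_le_iff₀ (by positivity)]
    have e : (p:ℂ) ^ 3 = uu p (Psi p ζ x) - Psi p ζ x 0 * Psi p ζ x 2 := by rw [uu]; ring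
    have h1 : ‖uu p (Psi p ζ x)‖ ≤ l * (2 * Λ ^ 2) := by
      rw [uu_Psi hl, UU, norm_mul, norm_pow, ← hldef]
      have : ‖1 + ζ‖ ≤ 2 := (norm_add_le _ _).trans (by rw [norm_one]; linarith)
      calc l ^ 3 * ‖1 + ζ‖ ≤ l ^ 3 * 2 := by gcongr
        _ = l * (2 * l ^ 2) := by ring
        _ ≤ l * (2 * Λ ^ 2) := by gcongr
    have h2 : ‖Psi p ζ x 2‖ ≤ l * (4 * Λ ^ 5) := by
      rw [norm_Psi_two, ← hldef]
      calc 4 * l ^ 6 * ‖ζ‖ ≤ 4 * l ^ 6 * 1 := by gcongr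
        _ = l * (4 * l ^ 5) := by ring
        _ ≤ l * (4 * Λ ^ 5) := by gcongr
    calc p ^ 3 = ‖(p:ℂ) ^ 3‖ := by rw [norm_pow, hpn]
      _ ≤ ‖uu p (Psi p ζ x)‖ + ‖Psi p ζ x 0‖ * ‖Psi p ζ x 2‖ := by
        rw [e, ← norm_mul]; exact norm_sub_le _ _
      _ ≤ l * (2 * Λ ^ 2) + S * (l * (4 * Λ ^ 5)) := by
        gcongr
        apply hc
      _ = _ := by ring

theorem isQuotientMap_psi {p : ℝ} (hp : 0 < p) : IsQuotientMap (psi p) := by
  refine IsClosedMap.isQuotientMap ?_ (psi p).continuous ?_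
  · apply IsProperMap.isClosedMap
    rw [isProperMap_iff_isCompact_preimage]
    refine ⟨(psi p).continuous, fun K hK => ?_⟩
    obtain ⟨R, hR⟩ := hK.exists_bound_of_continuousOn continuous_subtype_val.continuousOn
    obtain ⟨m, M, hm, h⟩ := bounds hp R
    have hC : IsCompact {w : ℂ × ℂ | ‖w.1‖ ≤ 1 ∧ ‖w.2‖ ≤ M ∧ m ≤ ‖(p:ℂ) + w.1 * w.2‖} := by
      refine ((isCompact_closedBall (0:ℂ) 1).prod
        (isCompact_closedBall (0:ℂ) M)).of_isClosed_subset ?_ ?_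
      · refine IsClosed.and (isClosed_le (by fun_prop) continuous_const) (IsClosed.and
          (isClosed_le (by fun_prop) continuous_const) (isClosed_le continuous_const (by fun_prop)))
      · rintro w ⟨h1, h2, -⟩
        exact ⟨by simpa using h1, by simpa using h2⟩
    have hC' := (IsInducing.subtypeVal (t := ZZ p)).isCompact_preimage_iff
      (K := {w : ℂ × ℂ | ‖w.1‖ ≤ 1 ∧ ‖w.2‖ ≤ M ∧ m ≤ ‖(p:ℂ) + w.1 * w.2‖}) (by
        rintro w ⟨h1, -, h3⟩
        exact ⟨⟨w, h1, norm_pos_iff.1 (hm.trans_le h3)⟩, rfl⟩) |>.2 hC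
    refine hC'.of_isClosed_subset (hK.isClosed.preimage (psi p).continuous) ?_
    intro w hw
    exact ⟨w.2.1, h w w.2 (hR _ hw)⟩
  · rintro ⟨q, hq⟩
    obtain ⟨ζ, x, h1, h2, rfl⟩ := exists_Psi hp hq
    exact ⟨⟨(ζ, x), h1, h2⟩, rfl⟩

lemma psi_UV {p : ℝ} {w w' : ZZ p} (h : psi p w = psi p w') :
    UU w.1.1 (p + w.1.1 * w.1.2) = UU w'.1.1 (p + w'.1.1 * w'.1.2) ∧
      VV w.1.1 (p + w.1.1 * w.1.2) = VV w'.1.1 (p + w'.1.1 * w'.1.2) := by
  have e : Psi p w.1.1 w.1.2 = Psi p w'.1.1 w'.1.2 := congrArg Subtype.val h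
  rw [← uu_Psi w.2.2, ← uu_Psi w'.2.2, ← vv_Psi w.2.2, ← vv_Psi w'.2.2, e]
  exact ⟨rfl, rfl⟩

lemma psi_eq_of {p : ℝ} {w w' : ZZ p} (h0 : w.1.1 ≠ 0)
    (hu : UU w.1.1 (p + w.1.1 * w.1.2) = UU w'.1.1 (p + w'.1.1 * w'.1.2))
    (hv : VV w.1.1 (p + w.1.1 * w.1.2) = VV w'.1.1 (p + w'.1.1 * w'.1.2)) :
    psi p w = psi p w' := by
  apply Subtype.ext
  change Psi p w.1.1 w.1.2 = Psi p w'.1.1 w'.1.2
  refine XS_ext (Psi_mem w.2.2) (Psi_mem w'.2.2) ?_ ?_ ?_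
  · rw [Psi_two]
    exact mul_ne_zero (mul_ne_zero (by norm_num) (pow_ne_zero _ w.2.2)) h0
  · rw [uu_Psi w.2.2, uu_Psi w'.2.2, hu]
  · rw [vv_Psi w.2.2, vv_Psi w'.2.2, hv]

lemma eq_of_sq_cube {a b : ℂ} (ha : a ≠ 0) (h2 : a ^ 2 = b ^ 2) (h3 : a ^ 3 = b ^ 3) : a = b := by
  apply mul_left_cancel₀ (pow_ne_zero 2 ha)
  linear_combination h3 - b * h2

theorem psi_fibre {p : ℝ} (hp : 0 < p) {w w' : ZZ p} (h : psi p w = psi p w') :
    w = w' ∨ (‖w.1.1‖ = 1 ∧ ‖w'.1.1‖ = 1 ∧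
      ‖(p:ℂ) + w.1.1 * w.1.2‖ = ‖(p:ℂ) + w'.1.1 * w'.1.2‖) := by
  obtain ⟨hu, hv⟩ := psi_UV h
  have e : Psi p w.1.1 w.1.2 = Psi p w'.1.1 w'.1.2 := congrArg Subtype.val h
  obtain ⟨⟨ζ, x⟩, hζ, hl⟩ := w
  obtain ⟨⟨ζ', x'⟩, hζ', hl'⟩ := w'
  simp only at hu hv e hζ hζ' hl hl' ⊢
  have hz : 4 * ((p:ℂ) + ζ * x) ^ 6 * ζ = 4 * ((p:ℂ) + ζ' * x') ^ 6 * ζ' := congrFun e 2
  have hx := x_eq hl
  have hx' := x_eq hl'
  rw [← e] at hx'
  set l := (p:ℂ) + ζ * x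
  set l' := (p:ℂ) + ζ' * x'
  unfold UU at hu
  unfold VV at hv
  have n3 : ∀ a b : ℂ, ‖a‖ ^ 3 = ‖b‖ ^ 3 → ‖a‖ = ‖b‖ := fun a b h =>
    (pow_left_inj₀ (norm_nonneg _) (norm_nonneg _) three_ne_zero).1 h
  have hq : (l ^ 3 - l' ^ 3) * (l ^ 3 - l' ^ 3 * ζ') = 0 := by
    linear_combination l ^ 3 * hu - hz / 4
  rcases mul_eq_zero.1 hq with h1 | h1
  · have h3 : l ^ 3 = l' ^ 3 := by linear_combination h1
    have h4 : ζ = ζ' := by
      apply mul_left_cancel₀ (pow_ne_zero 3 hl)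
      linear_combination hu - (1 + ζ') * h3
    subst h4
    by_cases h5 : ζ = 1
    · right
      refine ⟨by simp [h5], by simp [h5], n3 _ _ ?_⟩
      rw [← norm_pow, ← norm_pow, h3]
    · left
      have h6 : l = l' :=
        eq_of_sq_cube hl (mul_right_cancel₀ (pow_ne_zero 2 (rho_ne_zero h5)) hv) h3
      have h7 : x = x' := by
        apply mul_left_cancel₀ (pow_ne_zero 2 (show (p:ℂ) ≠ 0 by exact_mod_cast hp.ne'))
        rw [hx, hx', h6]
      simp [h7]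
  · right
    have h3 : l ^ 3 = l' ^ 3 * ζ' := by linear_combination h1
    have h4 : l' ^ 3 = l ^ 3 * ζ := by linear_combination h3 - hu
    have h5 := congrArg norm h3
    have h6 := congrArg norm h4
    simp only [norm_mul, norm_pow] at h5 h6
    have p1 : 0 < ‖l‖ ^ 3 := pow_pos (norm_pos_iff.2 hl) 3
    have p2 : 0 < ‖l'‖ ^ 3 := pow_pos (norm_pos_iff.2 hl') 3
    have h7 : ‖l‖ ^ 3 = ‖l'‖ ^ 3 := by
      apply le_antisymm
      · rw [h5]; exact mul_le_of_le_one_right p2.le hζ'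
      · rw [h6]; exact mul_le_of_le_one_right p1.le hζ
    refine ⟨?_, ?_, n3 _ _ h7⟩
    · apply mul_left_cancel₀ p1.ne'
      linarith
    · apply mul_left_cancel₀ p2.ne'
      linarith

/-! the cube root on the unit circle -/

lemma rho_exp {s : ℝ} (h0 : 0 < s) (h1 : s < π) : rho (Circle.exp (2 * s)) =
    Complex.exp ((Real.log (2 * Real.sin s) + (s - π / 2 : ℝ) * Complex.I) * (1 / 3)) := by
  have hs : 0 < 2 * Real.sin s := mul_pos two_pos (Real.sin_pos_of_pos_of_lt_pi h0 h1)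
  have e : 1 - ((Circle.exp (2 * s) : Circle) : ℂ) =
      Complex.exp (Real.log (2 * Real.sin s) + (s - π / 2 : ℝ) * Complex.I) := by
    rw [Complex.exp_add, ← Complex.ofReal_exp, Real.exp_log hs, Circle.coe_exp]
    apply Complex.ext
    · rw [Complex.sub_re, Complex.one_re, Complex.exp_ofReal_mul_I_re, Complex.re_ofReal_mul,
        Complex.exp_ofReal_mul_I_re, Real.cos_sub_pi_div_two, Real.cos_two_mul]
      linear_combination (-2) * Real.sin_sq_add_cos_sq s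
    · rw [Complex.sub_im, Complex.one_im, Complex.exp_ofReal_mul_I_im, Complex.im_ofReal_mul,
        Complex.exp_ofReal_mul_I_im, Real.sin_sub_pi_div_two, Real.sin_two_mul]
      ring
  rw [rho, e, Complex.cpow_def_of_ne_zero (Complex.exp_ne_zero _), Complex.log_exp]
  · simp only [Complex.add_im, Complex.ofReal_im, Complex.mul_I_im, Complex.ofReal_re]
    linarith
  · simp only [Complex.add_im, Complex.ofReal_im, Complex.mul_I_im, Complex.ofReal_re]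
    linarith

lemma rho_refl {x : ℝ} (hx : x ∈ Icc (0:ℝ) 1) : rho (Circle.exp (π * -x)) =
    rho (Circle.exp (π * x)) * Circle.exp (π * (1 - x) / 3) := by
  have hp := Real.pi_pos
  rcases eq_or_lt_of_le hx.1 with rfl | h0
  · simp
  · have e1 : Circle.exp (π * -x) = Circle.exp (2 * (π - π * x / 2)) :=
      Circle.exp_eq_exp.2 ⟨-1, by push_cast; ring⟩
    have e2 : Circle.exp (π * x) = Circle.exp (2 * (π * x / 2)) := by congr 1; ring
    have := hx.2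
    rw [e1, e2, rho_exp (by nlinarith) (by nlinarith), rho_exp (by positivity) (by nlinarith),
      Real.sin_pi_sub, Circle.coe_exp, ← Complex.exp_add]
    congr 1
    push_cast
    ring

lemma UU_refl (x : ℝ) (l : ℂ) : UU (Circle.exp (π * -x)) l =
    UU (Circle.exp (π * x)) (l * Circle.exp (2 * π * -cc x)) := by
  have e1 : Circle.exp (2 * π * -cc x) ^ 3 = Circle.exp (π * -x) := by
    rw [← Circle.exp_natCast_mul, Circle.exp_eq_exp]
    exact ⟨-1, by unfold cc; push_cast; ring⟩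
  have e2 : Circle.exp (π * -x) * Circle.exp (π * x) = 1 := by
    rw [← Circle.exp_add]; simp
  have e1' := congrArg (fun z : Circle => (z:ℂ)) e1
  have e2' := congrArg (fun z : Circle => (z:ℂ)) e2
  simp only [Circle.coe_pow, Circle.coe_mul, Circle.coe_one] at e1' e2'
  unfold UU
  rw [mul_pow, e1']
  linear_combination (-l ^ 3) * e2'

lemma VV_refl {x : ℝ} (hx : x ∈ Icc (0:ℝ) 1) (l : ℂ) : VV (Circle.exp (π * -x)) l =
    VV (Circle.exp (π * x)) (l * Circle.exp (2 * π * -cc x)) := by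
  have e1 : Circle.exp (2 * π * -cc x) ^ 2 = Circle.exp (π * (1 - x) / 3) ^ 2 := by
    rw [← Circle.exp_natCast_mul, ← Circle.exp_natCast_mul, Circle.exp_eq_exp]
    exact ⟨-1, by unfold cc; push_cast; ring⟩
  have e1' := congrArg (fun z : Circle => (z:ℂ)) e1
  simp only [Circle.coe_pow] at e1'
  unfold VV
  rw [rho_refl hx, mul_pow, mul_pow, e1']
  ring

/-- the point of the domain with zeta = exp (i pi x) and lambda = p exp (2 i pi a) -/
noncomputable def pt {p : ℝ} (hp : 0 < p) (y : ℝ × ℝ) : ZZ p :=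
  ⟨(Circle.exp (π * y.1), (p * Circle.exp (2 * π * y.2) - p) / Circle.exp (π * y.1)),
    (Circle.norm_coe _).le, by
      simp only
      rw [mul_div_cancel₀ _ (Circle.coe_ne_zero _), add_sub_cancel]
      exact mul_ne_zero (by exact_mod_cast hp.ne') (Circle.coe_ne_zero _)⟩

lemma pt_lam {p : ℝ} (hp : 0 < p) (x a : ℝ) :
    (p:ℂ) + (pt hp (x, a)).1.1 * (pt hp (x, a)).1.2 = p * Circle.exp (2 * π * a) := by
  simp only [pt]
  rw [mul_div_cancel₀ _ (Circle.coe_ne_zero _), add_sub_cancel]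

lemma pt_zeta {p : ℝ} (hp : 0 < p) (x a : ℝ) : (pt hp (x, a)).1.1 = Circle.exp (π * x) := rfl

lemma continuous_pt {p : ℝ} (hp : 0 < p) : Continuous (pt hp) := by
  refine Continuous.subtype_mk (Continuous.prodMk (by fun_prop) ?_) _
  exact Continuous.div (by fun_prop) (by fun_prop) fun _ => Circle.coe_ne_zero _

/-- the point of the domain with x = 0 -/
noncomputable def pd {p : ℝ} (hp : 0 < p) (ζ : DD) : ZZ p :=
  ⟨(ζ, 0), DD.norm_le ζ, by simpa using hp.ne'⟩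

lemma continuous_pd {p : ℝ} (hp : 0 < p) : Continuous (pd hp) :=
  Continuous.subtype_mk (by fun_prop) _

lemma exp_pow_eq {a a' : ℝ} {n : ℕ}
    (h : ((Circle.exp (2 * π * a) : Circle) : ℂ) ^ n = ((Circle.exp (2 * π * a') : Circle) : ℂ) ^ n) :
    ∃ k : ℤ, n * (a' - a) = k := by
  rw [← Circle.coe_pow, ← Circle.coe_pow, Circle.coe_inj, ← Circle.exp_natCast_mul,
    ← Circle.exp_natCast_mul, Circle.exp_eq_exp] at h
  obtain ⟨k, hk⟩ := h
  refine ⟨-k, ?_⟩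
  apply mul_left_cancel₀ (show 2 * π ≠ 0 by have := Real.pi_pos; positivity)
  push_cast
  linarith

lemma exp_pow_shift (a : ℝ) (n : ℕ) (c : ℝ) (h : n * c = 1) :
    ((Circle.exp (2 * π * (a + c)) : Circle) : ℂ) ^ n =
      ((Circle.exp (2 * π * a) : Circle) : ℂ) ^ n := by
  rw [← Circle.coe_pow, ← Circle.coe_pow, Circle.coe_inj, ← Circle.exp_natCast_mul,
    ← Circle.exp_natCast_mul, Circle.exp_eq_exp]
  exact ⟨1, by push_cast; linear_combination 2 * π * h⟩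

lemma cos_inj {x x' : ℝ} (hx : x ∈ Icc (0:ℝ) 1) (hx' : x' ∈ Icc (0:ℝ) 1)
    (h : ((Circle.exp (π * x) : Circle) : ℂ).re = ((Circle.exp (π * x') : Circle) : ℂ).re) :
    x = x' := by
  have hp := Real.pi_pos
  rw [Circle.coe_exp, Circle.coe_exp, Complex.exp_ofReal_mul_I_re, Complex.exp_ofReal_mul_I_re] at h
  have := Real.injOn_cos ⟨mul_nonneg hp.le hx.1, mul_le_of_le_one_right hp.le hx.2⟩
    ⟨mul_nonneg hp.le hx'.1, mul_le_of_le_one_right hp.le hx'.2⟩ h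
  exact mul_left_cancel₀ hp.ne' this

lemma pt_inj {p : ℝ} (hp : 0 < p) {x x' a a' : ℝ} (hx : x ∈ Icc (0:ℝ) 1) (hx' : x' ∈ Icc (0:ℝ) 1)
    (h : psi p (pt hp (x, a)) = psi p (pt hp (x', a'))) : x = x' ∧
    ∃ k : ℤ, a' - a = k ∨ (x = 0 ∧ 3 * (a' - a) = k) ∨ (x = 1 ∧ 2 * (a' - a) = k) := by
  have hp' : (p:ℂ) ≠ 0 := by exact_mod_cast hp.ne'
  obtain ⟨hu, hv⟩ := psi_UV h
  rw [pt_lam, pt_lam, pt_zeta, pt_zeta] at hu hv
  unfold UU at hu
  unfold VV at hv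
  have hxx : x = x' := by
    have h1 := congrArg norm hu
    simp only [norm_mul, norm_pow, Circle.norm_coe] at h1
    have h2 := mul_left_cancel₀ (pow_ne_zero 3 (by simpa using hp.ne')) h1
    have h3 : ∀ b : Circle, ‖1 + (b:ℂ)‖ ^ 2 = 2 + 2 * (b:ℂ).re := by
      intro b
      have := Circle.normSq_coe b
      rw [Complex.sq_norm, Complex.normSq_apply]
      rw [Complex.normSq_apply] at this
      simp only [Complex.add_re, Complex.one_re, Complex.add_im, Complex.one_im]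
      linear_combination this
    have h4 := h3 (Circle.exp (π * x))
    rw [h2, h3] at h4
    exact cos_inj hx hx' (by linarith)
  subst hxx
  refine ⟨rfl, ?_⟩
  have c3 : x ≠ 1 → ((Circle.exp (2 * π * a) : Circle) : ℂ) ^ 3 =
      ((Circle.exp (2 * π * a') : Circle) : ℂ) ^ 3 := by
    intro h1
    have h2 : 1 + ((Circle.exp (π * x) : Circle) : ℂ) ≠ 0 := by
      intro h3
      apply h1
      apply cos_inj hx ⟨zero_le_one, le_rfl⟩
      rw [show ((Circle.exp (π * x) : Circle) : ℂ) = -1 by linear_combination h3]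
      simp
    have h4 := mul_right_cancel₀ h2 hu
    rw [mul_pow, mul_pow] at h4
    exact mul_left_cancel₀ (pow_ne_zero 3 hp') h4
  have c2 : x ≠ 0 → ((Circle.exp (2 * π * a) : Circle) : ℂ) ^ 2 =
      ((Circle.exp (2 * π * a') : Circle) : ℂ) ^ 2 := by
    intro h1
    have h2 : ((Circle.exp (π * x) : Circle) : ℂ) ≠ 1 := by
      intro h3
      apply h1
      apply cos_inj hx ⟨le_rfl, zero_le_one⟩
      rw [h3]
      simp
    have h4 := mul_right_cancel₀ (pow_ne_zero 2 (rho_ne_zero h2)) hv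
    rw [mul_pow, mul_pow] at h4
    exact mul_left_cancel₀ (pow_ne_zero 2 hp') h4
  by_cases h0 : x = 0
  · obtain ⟨k, hk⟩ := exp_pow_eq (c3 (by rw [h0]; norm_num))
    exact ⟨k, Or.inr (Or.inl ⟨h0, by exact_mod_cast hk⟩)⟩
  · by_cases h1 : x = 1
    · obtain ⟨k, hk⟩ := exp_pow_eq (c2 h0)
      exact ⟨k, Or.inr (Or.inr ⟨h1, by exact_mod_cast hk⟩)⟩
    · have := eq_of_sq_cube (Circle.coe_ne_zero _) (c2 h0) (c3 h1)
      obtain ⟨k, hk⟩ := exp_pow_eq (n := 1) (a := a) (a' := a') (by rw [this])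
      exact ⟨k, Or.inl (by simpa using hk)⟩

/-- the spine of the surface -/
noncomputable def hat {p : ℝ} (hp : 0 < p) : Hat (XS p) where
  d := (psi p).comp ⟨pd hp, continuous_pd hp⟩
  Y := (psi p).comp ⟨pt hp, continuous_pt hp⟩
  d_inj := by
    intro ζ ζ' h
    have e : Psi p ζ 0 2 = Psi p ζ' 0 2 := congrFun (congrArg Subtype.val h) 2
    rw [Psi_two, Psi_two] at e
    simp only [mul_zero, add_zero] at e
    have hp' : (p:ℂ) ≠ 0 := by exact_mod_cast hp.ne'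
    exact Subtype.ext (mul_left_cancel₀ (mul_ne_zero (by norm_num) (pow_ne_zero 6 hp')) e)
  d_Y := by
    intro ζ x a h
    rcases psi_fibre hp (w := pd hp ζ) (w' := pt hp (x, a)) h with h | h
    · have : (ζ:ℂ) = Circle.exp (π * x) := congrArg (fun w : ZZ p => w.1.1) h
      rw [this, Circle.norm_coe]
    · exact h.1
  d_pos := by
    intro x
    change psi p (pd hp (ee x)) = psi p (pt hp (x, 0))
    congr 1
    apply Subtype.ext
    simp [pd, pt, ee]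
  d_neg := by
    intro x hx
    refine psi_eq_of (w := pd hp (ee (-x))) (w' := pt hp (x, -cc x)) (Circle.coe_ne_zero _) ?_ ?_
    · rw [pt_lam, pt_zeta, ← UU_refl]
      simp [pd, ee]
    · rw [pt_lam, pt_zeta, ← VV_refl hx]
      simp [pd, ee]
  per := by
    intro x a
    have := exp_pow_shift a 1 1 (by norm_num)
    rw [pow_one, pow_one] at this
    refine psi_eq_of (w := pt hp (x, a + 1)) (w' := pt hp (x, a)) (Circle.coe_ne_zero _) ?_ ?_ <;>
      rw [pt_lam, pt_lam, pt_zeta, pt_zeta, this]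
  per0 := by
    intro a
    have := exp_pow_shift a 3 (1 / 3) (by norm_num)
    refine psi_eq_of (w := pt hp (0, a + 1 / 3)) (w' := pt hp (0, a)) (Circle.coe_ne_zero _) ?_ ?_
    · rw [pt_lam, pt_lam, pt_zeta, pt_zeta, UU, UU, mul_pow, mul_pow, this]
    · rw [pt_lam, pt_lam, pt_zeta, pt_zeta, VV, VV]
      simp
  per1 := by
    intro a
    have := exp_pow_shift a 2 (1 / 2) (by norm_num)
    refine psi_eq_of (w := pt hp (1, a + 1 / 2)) (w' := pt hp (1, a)) (Circle.coe_ne_zero _) ?_ ?_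
    · rw [pt_lam, pt_lam, pt_zeta, pt_zeta, UU, UU]
      simp
    · rw [pt_lam, pt_lam, pt_zeta, pt_zeta, VV, VV, mul_pow, mul_pow, this]
  inj := fun x hx x' hx' a a' h => pt_inj hp hx hx' h

end Pool.Agent.P.MP_e5acfa_ag.PkgA
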