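import Pool.Agent.P.MP_e5acfa_ag.Defs

open Complex Set

namespace Pool.Agent.P.MP_e5acfa_ag

lemma rho_cube (ζ : ℂ) : rho ζ ^ 3 = 1 - ζ := by
  have := Complex.cpow_nat_inv_pow (1 - ζ) (n := 3) (by norm_num)
  rw [rho, one_div]
  exact_mod_cast this

@[simp] lemma rho_zero : rho 0 = 1 := by simp [rho]

@[simp] lemma rho_one : rho 1 = 0 := by simp [rho]

lemma rho_ne_zero {ζ : ℂ} (h : ζ ≠ 1) : rho ζ ≠ 0 := by
  intro h0
  have := rho_cube ζ
  rw [h0] at this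
  apply h
  linear_combination this

lemma rho_den_ne (ζ : ℂ) : 1 + rho ζ + rho ζ ^ 2 ≠ 0 := by
  intro h
  have h3 := rho_cube ζ
  have : ζ = 0 := by linear_combination h3 - (rho ζ - 1) * h
  subst this
  norm_num at h

lemma zeta_mul_vp (ζ : ℂ) : ζ * vp ζ = rho ζ ^ 2 - 1 := by
  have h3 := rho_cube ζ
  have hd := rho_den_ne ζ
  unfold vp
  field_simp
  linear_combination (-(1 + rho ζ)) * h3

lemma vp_zero : vp 0 = -2 / 3 := by
  norm_num [vp]

lemma norm_rho_cube (ζ : ℂ) : ‖rho ζ‖ ^ 3 = ‖1 - ζ‖ := by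
  rw [← norm_pow, rho_cube]

lemma one_sub_mem_slitPlane {ζ : ℂ} (h : ‖ζ‖ < 1) : 1 - ζ ∈ slitPlane := by
  left
  have := (Complex.abs_re_le_norm ζ)
  have h2 := le_abs_self ζ.re
  simp only [sub_re, one_re]
  linarith

lemma hasDerivAt_rho {ζ : ℂ} (h : ‖ζ‖ < 1) : HasDerivAt rho (-1 / (3 * rho ζ ^ 2)) ζ := by
  have hs := one_sub_mem_slitPlane h
  have h1 : HasDerivAt (fun s : ℂ => 1 - s) (-1) ζ := by
    simpa using (hasDerivAt_id ζ).const_sub 1
  have h2 := h1.cpow_const (c := (1:ℂ) / 3) hs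
  have hne : ζ ≠ 1 := by rintro rfl; simp at h
  have hr := rho_ne_zero hne
  have h0 : (1 - ζ) ≠ 0 := sub_ne_zero.2 hne.symm
  refine HasDerivAt.congr_deriv (f := rho) h2 ?_
  rw [Complex.cpow_sub _ _ h0, Complex.cpow_one]
  change 1 / 3 * (rho ζ / (1 - ζ)) * -1 = -1 / (3 * rho ζ ^ 2)
  rw [← rho_cube ζ]
  field_simp

lemma continuousOn_rho : ContinuousOn rho (Metric.closedBall 0 1) := by
  intro ζ hζ
  have h : ‖ζ‖ ≤ 1 := by simpa using hζ
  apply ContinuousAt.continuousWithinAt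
  have h1 : ContinuousAt (fun z : ℂ => z ^ ((1:ℂ) / 3)) (1 - ζ) := by
    apply Complex.continuousAt_cpow_const_of_re_pos
    · left
      have := (Complex.abs_re_le_norm ζ)
      have h2 := le_abs_self ζ.re
      simp only [sub_re, one_re]
      linarith
    · norm_num
  exact ContinuousAt.comp (f := fun s : ℂ => 1 - s) h1 (by fun_prop)

lemma continuousOn_vp : ContinuousOn vp (Metric.closedBall 0 1) := by
  unfold vp
  have := continuousOn_rho
  exact ContinuousOn.div (by fun_prop) (by fun_prop) (fun ζ _ => rho_den_ne ζ)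

lemma uu_sq_sub (p : ℝ) (q : C3) : uu p q ^ 2 - vv p q ^ 3 - q 2 = q 2 * PX p q := by
  unfold uu vv PX; ring

lemma z_eq {p : ℝ} {q : C3} (h : q ∈ XS p) : q 2 = uu p q ^ 2 - vv p q ^ 3 := by
  have := uu_sq_sub p q
  rw [show PX p q = 0 from h] at this
  linear_combination -this

lemma Psi_zero (p : ℝ) (ζ x : ℂ) : Psi p ζ x 0 =
    ((p + ζ * x) ^ 3 + x * ((p + ζ * x) ^ 2 + (p + ζ * x) * p + (p:ℂ) ^ 2)) / (4 * (p + ζ * x) ^ 6) :=
  rfl

lemma Psi_one (p : ℝ) (ζ x : ℂ) : Psi p ζ x 1 =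
    ((p + ζ * x) ^ 2 * vp ζ + x * ((p + ζ * x) + p)) / (4 * (p + ζ * x) ^ 6) := rfl

lemma Psi_two (p : ℝ) (ζ x : ℂ) : Psi p ζ x 2 = 4 * (p + ζ * x) ^ 6 * ζ := rfl

lemma uu_Psi {p : ℝ} {ζ x : ℂ} (h : (p:ℂ) + ζ * x ≠ 0) :
    uu p (Psi p ζ x) = UU ζ (p + ζ * x) := by
  rw [uu, Psi_zero, Psi_two, UU]
  field_simp
  ring

lemma vv_Psi {p : ℝ} {ζ x : ℂ} (h : (p:ℂ) + ζ * x ≠ 0) :
    vv p (Psi p ζ x) = VV ζ (p + ζ * x) := by
  have := zeta_mul_vp ζ
  rw [vv, Psi_one, Psi_two, VV]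
  field_simp
  linear_combination (p + ζ * x) ^ 2 * this

lemma UU_sq_sub (ζ l : ℂ) : UU ζ l ^ 2 - VV ζ l ^ 3 = 4 * l ^ 6 * ζ := by
  have := rho_cube ζ
  unfold UU VV
  linear_combination (-l ^ 6 * (rho ζ ^ 3 + 1 - ζ)) * this

lemma Psi_mem {p : ℝ} {ζ x : ℂ} (h : (p:ℂ) + ζ * x ≠ 0) : Psi p ζ x ∈ XS p := by
  by_cases hz : ζ = 0
  · subst hz
    have hp : (p:ℂ) ≠ 0 := by simpa using h
    change PX p _ = 0
    rw [PX, Psi_zero, Psi_one, Psi_two, vp_zero]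
    simp only [zero_mul, add_zero, mul_zero]
    field_simp
    ring
  · have h1 := uu_sq_sub p (Psi p ζ x)
    rw [uu_Psi h, vv_Psi h, UU_sq_sub, Psi_two, sub_self] at h1
    have h2 : 4 * ((p:ℂ) + ζ * x) ^ 6 * ζ ≠ 0 :=
      mul_ne_zero (mul_ne_zero (by norm_num) (pow_ne_zero _ h)) hz
    exact (mul_eq_zero.1 h1.symm).resolve_left h2

lemma XS_ext {p : ℝ} {q q' : C3} (hq : q ∈ XS p) (hq' : q' ∈ XS p) (hz : q 2 ≠ 0)
    (hu : uu p q = uu p q') (hv : vv p q = vv p q') : q = q' := by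
  have h2 : q 2 = q' 2 := by rw [z_eq hq, z_eq hq', hu, hv]
  have h0 : q 0 = q' 0 := by
    apply mul_right_cancel₀ hz
    unfold uu at hu
    rw [← h2] at hu
    linear_combination hu
  have h1 : q 1 = q' 1 := by
    apply mul_right_cancel₀ hz
    unfold vv at hv
    rw [← h2] at hv
    linear_combination hv
  funext i
  fin_cases i
  · exact h0
  · exact h1
  · exact h2

/-- every pair (u,v) other than the origin has the form (UU, VV) -/
lemma exists_UV {u v : ℂ} (h : u ≠ 0 ∨ v ≠ 0) :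
    ∃ ζ l : ℂ, ‖ζ‖ ≤ 1 ∧ l ≠ 0 ∧ u = UU ζ l ∧ v = VV ζ l := by
  obtain ⟨y, hy, hle⟩ : ∃ y : ℂ, y ^ 2 = v ∧ ‖u - y ^ 3‖ ≤ ‖u + y ^ 3‖ := by
    obtain ⟨y, hy⟩ := IsAlgClosed.exists_pow_nat_eq v (n := 2) (by norm_num)
    rcases le_total ‖u - y ^ 3‖ ‖u + y ^ 3‖ with h1 | h1
    · exact ⟨y, hy, h1⟩
    · refine ⟨-y, by rw [neg_sq, hy], ?_⟩
      have e1 : u - (-y) ^ 3 = u + y ^ 3 := by ring
      have e2 : u + (-y) ^ 3 = u - y ^ 3 := by ring
      rw [e1, e2]; exact h1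
  have ha : u + y ^ 3 ≠ 0 := by
    intro h0
    rw [h0, norm_zero] at hle
    have h1 : u - y ^ 3 = 0 := norm_le_zero_iff.1 hle
    have hu : u = 0 := by linear_combination (h0 + h1) / 2
    have hy3 : y ^ 3 = 0 := by linear_combination (h0 - h1) / 2
    have hy0 : y = 0 := pow_eq_zero_iff (by norm_num) |>.1 hy3
    rcases h with h | h
    · exact h hu
    · apply h; rw [← hy, hy0]; ring
  by_cases hy0 : y = 0
  · obtain ⟨l, hl⟩ := IsAlgClosed.exists_pow_nat_eq (u / 2) (n := 3) (by norm_num)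
    have hu : u ≠ 0 := by simpa [hy0] using ha
    refine ⟨1, l, by simp, ?_, ?_, ?_⟩
    · rintro rfl
      apply hu
      linear_combination (-2) * hl
    · rw [UU, hl]; ring
    · rw [VV, rho_one, ← hy, hy0]; ring
  · set ζ := (u - y ^ 3) / (u + y ^ 3) with hζ
    have h1 : 1 - ζ = 2 * y ^ 3 / (u + y ^ 3) := by rw [hζ]; field_simp; ring
    have hne : ζ ≠ 1 := by
      intro h2
      rw [h2, sub_self] at h1
      have : 2 * y ^ 3 / (u + y ^ 3) ≠ 0 :=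
        div_ne_zero (mul_ne_zero (by norm_num) (pow_ne_zero _ hy0)) ha
      exact this h1.symm
    have hr := rho_ne_zero hne
    have h3 := rho_cube ζ
    refine ⟨ζ, y / rho ζ, ?_, div_ne_zero hy0 hr, ?_, ?_⟩
    · rw [hζ, norm_div]
      exact div_le_one_of_le₀ hle (norm_nonneg _)
    · rw [UU, div_pow, h3, h1, hζ]; field_simp; ring
    · rw [VV, ← hy]; field_simp

lemma exists_Psi {p : ℝ} (hp : 0 < p) {q : C3} (hq : q ∈ XS p) :
    ∃ ζ x : ℂ, ‖ζ‖ ≤ 1 ∧ (p:ℂ) + ζ * x ≠ 0 ∧ q = Psi p ζ x := by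
  have hp' : (p:ℂ) ≠ 0 := by exact_mod_cast hp.ne'
  by_cases hz : q 2 = 0
  · refine ⟨0, (4 * (p:ℂ) ^ 6 * q 0 - (p:ℂ) ^ 3) / (3 * (p:ℂ) ^ 2), by simp, by simpa using hp', ?_⟩
    have h : PX p q = 0 := hq
    rw [PX, hz] at h
    funext i
    fin_cases i
    · change q 0 = Psi p 0 _ 0
      rw [Psi_zero]; simp only [zero_mul, add_zero]; field_simp; ring
    · change q 1 = Psi p 0 _ 1
      rw [Psi_one, vp_zero]; simp only [zero_mul, add_zero]; field_simp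
      linear_combination (-4) * h
    · change q 2 = Psi p 0 _ 2
      rw [Psi_two, hz]; simp
  · have huv : uu p q ≠ 0 ∨ vv p q ≠ 0 := by
      by_contra hc
      push Not at hc
      apply hz
      rw [z_eq hq, hc.1, hc.2]; ring
    obtain ⟨ζ, l, hζ, hl, hu, hv⟩ := exists_UV huv
    have hζ0 : ζ ≠ 0 := by
      rintro rfl
      apply hz
      rw [z_eq hq, hu, hv, UU_sq_sub]; ring
    have e : (p:ℂ) + ζ * ((l - p) / ζ) = l := by field_simp; ring
    have hl' : (p:ℂ) + ζ * ((l - p) / ζ) ≠ 0 := by rwa [e]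
    refine ⟨ζ, (l - p) / ζ, hζ, hl', XS_ext hq (Psi_mem hl') hz ?_ ?_⟩
    · rw [uu_Psi hl', e, hu]
    · rw [vv_Psi hl', e, hv]

lemma NN_UV (ζ l : ℂ) : NN (UU ζ l) (VV ζ l) = 2 * (‖l‖ ^ 6 * (1 + ‖ζ‖ ^ 2)) := by
  have h1 := norm_rho_cube ζ
  have h2 : ‖1 + ζ‖ ^ 2 + ‖1 - ζ‖ ^ 2 = 2 * (1 + ‖ζ‖ ^ 2) := by
    have := parallelogram_law_with_norm ℂ (1:ℂ) ζ
    simp only [norm_one] at this
    nlinarith
  unfold NN UU VV
  simp only [norm_mul, norm_pow]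
  calc (‖l‖ ^ 3 * ‖1 + ζ‖) ^ 2 + (‖l‖ ^ 2 * ‖rho ζ‖ ^ 2) ^ 3
      = ‖l‖ ^ 6 * (‖1 + ζ‖ ^ 2 + (‖rho ζ‖ ^ 3) ^ 2) := by ring
    _ = _ := by rw [h1, h2]; ring

lemma norm_Psi_two (p : ℝ) (ζ x : ℂ) : ‖Psi p ζ x 2‖ = 4 * ‖p + ζ * x‖ ^ 6 * ‖ζ‖ := by
  rw [Psi_two]; simp

lemma norm_z_le {p : ℝ} {q : C3} (h : q ∈ XS p) : ‖q 2‖ ≤ NN (uu p q) (vv p q) := by
  rw [z_eq h, NN, ← norm_pow, ← norm_pow]
  exact norm_sub_le _ _

lemma continuousOn_Psi (p : ℝ) : ContinuousOn (fun w : ℂ × ℂ => Psi p w.1 w.2)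
    {w | ‖w.1‖ ≤ 1 ∧ (p:ℂ) + w.1 * w.2 ≠ 0} := by
  have hv : ContinuousOn (fun w : ℂ × ℂ => vp w.1) {w | ‖w.1‖ ≤ 1 ∧ (p:ℂ) + w.1 * w.2 ≠ 0} :=
    continuousOn_vp.comp continuousOn_fst (fun w hw => by simpa using hw.1)
  rw [continuousOn_pi]
  intro i
  fin_cases i
  · change ContinuousOn (fun w : ℂ × ℂ => Psi p w.1 w.2 0) _
    simp only [Psi_zero]
    exact ContinuousOn.div (by fun_prop) (by fun_prop)
      (fun w hw => mul_ne_zero (by norm_num) (pow_ne_zero _ hw.2))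
  · change ContinuousOn (fun w : ℂ × ℂ => Psi p w.1 w.2 1) _
    simp only [Psi_one]
    exact ContinuousOn.div (by fun_prop) (by fun_prop)
      (fun w hw => mul_ne_zero (by norm_num) (pow_ne_zero _ hw.2))
  · change ContinuousOn (fun w : ℂ × ℂ => Psi p w.1 w.2 2) _
    simp only [Psi_two]
    fun_prop

@[fun_prop] lemma continuous_uu (p : ℝ) : Continuous (uu p) := by unfold uu; fun_prop
@[fun_prop] lemma continuous_vv (p : ℝ) : Continuous (vv p) := by unfold vv; fun_prop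
@[fun_prop] lemma continuous_PX (p : ℝ) : Continuous (PX p) := by unfold PX; fun_prop
@[fun_prop] lemma differentiable_uu (p : ℝ) : Differentiable ℂ (uu p) := by unfold uu; fun_prop
@[fun_prop] lemma differentiable_vv (p : ℝ) : Differentiable ℂ (vv p) := by unfold vv; fun_prop
@[fun_prop] lemma differentiable_PX (p : ℝ) : Differentiable ℂ (PX p) := by unfold PX; fun_prop

lemma continuous_NN : Continuous (fun w : ℂ × ℂ => NN w.1 w.2) := by unfold NN; fun_prop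

lemma continuous_NNq (p : ℝ) : Continuous (fun q : C3 => NN (uu p q) (vv p q)) := by
  unfold NN; fun_prop

lemma isClosed_XS (p : ℝ) : IsClosed (XS p) := isClosed_eq (continuous_PX p) continuous_const

lemma hasFDerivAt_coord (q : C3) (i : Fin 3) :
    HasFDerivAt (fun q : C3 => q i) (ContinuousLinearMap.proj (R := ℂ) (φ := fun _ => ℂ) i) q :=
  (ContinuousLinearMap.proj (R := ℂ) (φ := fun _ : Fin 3 => ℂ) i).hasFDerivAt

lemma fderiv_along {F : Type*} [NormedAddCommGroup F] [NormedSpace ℂ F] {f : C3 → F} {q W : C3}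
    (hf : DifferentiableAt ℂ f q) {D : F} (h : HasDerivAt (fun s : ℂ => f (q + s • W)) D 0) :
    fderiv ℂ f q W = D := by
  have h1 : HasDerivAt (fun s : ℂ => q + s • W) W 0 := by
    simpa using ((hasDerivAt_id (0:ℂ)).smul_const W).const_add q
  have h2 : HasFDerivAt f (fderiv ℂ f q) (q + (0:ℂ) • W) := by simpa using hf.hasFDerivAt
  exact (h2.comp_hasDerivAt (0:ℂ) h1).unique h

lemma hasDerivAt_line (q W : C3) (i : Fin 3) :
    HasDerivAt (fun s : ℂ => (q + s • W) i) (W i) 0 := by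
  simpa using ((hasDerivAt_id (0:ℂ)).mul_const (W i)).const_add (q i)

lemma fderiv_uu (p : ℝ) (q W : C3) : fderiv ℂ (uu p) q W = W 0 * q 2 + q 0 * W 2 := by
  apply fderiv_along (differentiable_uu p q)
  have := ((hasDerivAt_line q W 0).mul (hasDerivAt_line q W 2)).const_add ((p:ℂ) ^ 3)
  simpa [uu] using this

lemma fderiv_vv (p : ℝ) (q W : C3) : fderiv ℂ (vv p) q W = W 1 * q 2 + q 1 * W 2 := by
  apply fderiv_along (differentiable_vv p q)
  have := ((hasDerivAt_line q W 1).mul (hasDerivAt_line q W 2)).const_add ((p:ℂ) ^ 2)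
  simpa [vv] using this

lemma fderiv_PX (p : ℝ) (q W : C3) : fderiv ℂ (PX p) q W = dPX p q W := by
  apply fderiv_along (differentiable_PX p q)
  have h0 := hasDerivAt_line q W 0
  have h1 := hasDerivAt_line q W 1
  have h2 := hasDerivAt_line q W 2
  have := ((((((h0.const_mul (2 * (p:ℂ) ^ 3)).add ((h0.pow 2).mul h2)).sub
    (h1.const_mul (3 * (p:ℂ) ^ 4))).sub (((h1.pow 2).const_mul (3 * (p:ℂ) ^ 2)).mul h2)).sub
    ((h1.pow 3).mul (h2.pow 2))).sub_const 1)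
  refine HasDerivAt.congr_deriv (f := fun s : ℂ => PX p (q + s • W)) this ?_
  simp [dPX, uu, vv]
  ring

lemma lr_pos : 0 < lr := by unfold lr; positivity

lemma lr_pow_six : lr ^ 6 = 1 / 2 := by
  unfold lr
  rw [← Real.rpow_natCast, ← Real.rpow_mul (by norm_num)]
  norm_num

lemma lr_lt : lr < 9 / 10 := by
  apply lt_of_pow_lt_pow_left₀ 6 (by norm_num)
  rw [lr_pow_six]; norm_num

lemma lt_lr : 89 / 100 < lr := by
  apply lt_of_pow_lt_pow_left₀ 6 lr_pos.le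
  rw [lr_pow_six]; norm_num

/-! polynomial functions -/

namespace IsPoly3

lemma const (c : ℂ) : IsPoly3 (fun _ => c) := ⟨MvPolynomial.C c, fun q => by simp⟩

lemma coord (i : Fin 3) : IsPoly3 (fun q => q i) := ⟨MvPolynomial.X i, fun q => by simp⟩

lemma add {f g : C3 → ℂ} (hf : IsPoly3 f) (hg : IsPoly3 g) : IsPoly3 (fun q => f q + g q) := by
  obtain ⟨P, hP⟩ := hf
  obtain ⟨Q, hQ⟩ := hg
  exact ⟨P + Q, fun q => by simp [hP, hQ]⟩

lemma mul {f g : C3 → ℂ} (hf : IsPoly3 f) (hg : IsPoly3 g) : IsPoly3 (fun q => f q * g q) := by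
  obtain ⟨P, hP⟩ := hf
  obtain ⟨Q, hQ⟩ := hg
  exact ⟨P * Q, fun q => by simp [hP, hQ]⟩

lemma sub {f g : C3 → ℂ} (hf : IsPoly3 f) (hg : IsPoly3 g) : IsPoly3 (fun q => f q - g q) := by
  obtain ⟨P, hP⟩ := hf
  obtain ⟨Q, hQ⟩ := hg
  exact ⟨P - Q, fun q => by simp [hP, hQ]⟩

lemma pow {f : C3 → ℂ} (hf : IsPoly3 f) (n : ℕ) : IsPoly3 (fun q => f q ^ n) := by
  obtain ⟨P, hP⟩ := hf
  exact ⟨P ^ n, fun q => by simp [hP]⟩

lemma sum {ι : Type*} (s : Finset ι) {f : ι → C3 → ℂ} (hf : ∀ i ∈ s, IsPoly3 (f i)) :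
    IsPoly3 (fun q => ∑ i ∈ s, f i q) := by
  classical
  induction s using Finset.induction_on with
  | empty => simpa using const 0
  | insert a s ha ih =>
    simp only [Finset.sum_insert ha]
    exact (hf a (by simp)).add (ih fun i hi => hf i (by simp [hi]))

lemma contDiff {f : C3 → ℂ} (hf : IsPoly3 f) (n : WithTop ℕ∞) : ContDiff ℂ n f := by
  obtain ⟨P, hP⟩ := hf
  have : f = fun q => MvPolynomial.eval q P := funext hP
  subst this
  clear hP
  induction P using MvPolynomial.induction_on with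
  | C a => simpa using contDiff_const
  | add p q hp hq => simpa using hp.add hq
  | mul_X p i hp =>
    simp only [map_mul, MvPolynomial.eval_X]
    exact hp.mul (contDiff_apply ℂ ℂ i)

lemma differentiable {f : C3 → ℂ} (hf : IsPoly3 f) : Differentiable ℂ f :=
  (hf.contDiff 1).differentiable (by norm_num)

lemma continuous {f : C3 → ℂ} (hf : IsPoly3 f) : Continuous f := hf.differentiable.continuous

end IsPoly3

lemma isPoly3_uu (p : ℝ) : IsPoly3 (uu p) :=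
  (IsPoly3.const _).add ((IsPoly3.coord 0).mul (IsPoly3.coord 2))

lemma isPoly3_vv (p : ℝ) : IsPoly3 (vv p) :=
  (IsPoly3.const _).add ((IsPoly3.coord 1).mul (IsPoly3.coord 2))

lemma isPoly3_PX (p : ℝ) : IsPoly3 (PX p) := by
  unfold PX
  have h0 := IsPoly3.coord 0
  have h1 := IsPoly3.coord 1
  have h2 := IsPoly3.coord 2
  exact ((((((IsPoly3.const _).mul h0).add ((h0.pow 2).mul h2)).sub ((IsPoly3.const _).mul h1)).sub
    (((IsPoly3.const _).mul (h1.pow 2)).mul h2)).sub ((h1.pow 3).mul (h2.pow 2))).sub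
    (IsPoly3.const 1)

namespace IsPoly2

lemma const (c : ℂ) : IsPoly2 (fun _ => c) := ⟨MvPolynomial.C c, fun q => by simp⟩

lemma fst : IsPoly2 (fun w => w.1) := ⟨MvPolynomial.X 0, fun q => by simp⟩

lemma snd : IsPoly2 (fun w => w.2) := ⟨MvPolynomial.X 1, fun q => by simp⟩

lemma add {f g : ℂ × ℂ → ℂ} (hf : IsPoly2 f) (hg : IsPoly2 g) : IsPoly2 (fun q => f q + g q) := by
  obtain ⟨P, hP⟩ := hf
  obtain ⟨Q, hQ⟩ := hg
  exact ⟨P + Q, fun q => by simp [hP, hQ]⟩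

lemma mul {f g : ℂ × ℂ → ℂ} (hf : IsPoly2 f) (hg : IsPoly2 g) : IsPoly2 (fun q => f q * g q) := by
  obtain ⟨P, hP⟩ := hf
  obtain ⟨Q, hQ⟩ := hg
  exact ⟨P * Q, fun q => by simp [hP, hQ]⟩

lemma sub {f g : ℂ × ℂ → ℂ} (hf : IsPoly2 f) (hg : IsPoly2 g) : IsPoly2 (fun q => f q - g q) := by
  obtain ⟨P, hP⟩ := hf
  obtain ⟨Q, hQ⟩ := hg
  exact ⟨P - Q, fun q => by simp [hP, hQ]⟩

lemma pow {f : ℂ × ℂ → ℂ} (hf : IsPoly2 f) (n : ℕ) : IsPoly2 (fun q => f q ^ n) := by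
  obtain ⟨P, hP⟩ := hf
  exact ⟨P ^ n, fun q => by simp [hP]⟩

lemma sum {ι : Type*} (s : Finset ι) {f : ι → ℂ × ℂ → ℂ} (hf : ∀ i ∈ s, IsPoly2 (f i)) :
    IsPoly2 (fun q => ∑ i ∈ s, f i q) := by
  classical
  induction s using Finset.induction_on with
  | empty => simpa using const 0
  | insert a s ha ih =>
    simp only [Finset.sum_insert ha]
    exact (hf a (by simp)).add (ih fun i hi => hf i (by simp [hi]))

/-- induction principle -/
lemma induction {Q : (ℂ × ℂ → ℂ) → Prop} (hc : ∀ c : ℂ, Q (fun _ => c))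
    (hadd : ∀ f g, IsPoly2 f → IsPoly2 g → Q f → Q g → Q (fun w => f w + g w))
    (h1 : ∀ f, IsPoly2 f → Q f → Q (fun w => f w * w.1))
    (h2 : ∀ f, IsPoly2 f → Q f → Q (fun w => f w * w.2))
    {f : ℂ × ℂ → ℂ} (hf : IsPoly2 f) : Q f := by
  obtain ⟨P, hP⟩ := hf
  have : f = fun w => MvPolynomial.eval ![w.1, w.2] P := funext hP
  subst this
  clear hP
  induction P using MvPolynomial.induction_on with
  | C a => simpa using hc a
  | add p q hp hq =>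
    simpa using hadd _ _ ⟨p, fun _ => rfl⟩ ⟨q, fun _ => rfl⟩ hp hq
  | mul_X p i hp =>
    fin_cases i
    · simpa using h1 _ ⟨p, fun _ => rfl⟩ hp
    · simpa using h2 _ ⟨p, fun _ => rfl⟩ hp

lemma differentiable {f : ℂ × ℂ → ℂ} (hf : IsPoly2 f) : Differentiable ℂ f := by
  refine hf.induction (Q := fun f => Differentiable ℂ f) (fun c => by fun_prop)
    (fun f g _ _ hf hg => by fun_prop) (fun f _ hf => by fun_prop) (fun f _ hf => by fun_prop)

lemma continuous {f : ℂ × ℂ → ℂ} (hf : IsPoly2 f) : Continuous f := hf.differentiable.continuous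

lemma comp3 {f : ℂ × ℂ → ℂ} (hf : IsPoly2 f) {a b : C3 → ℂ} (ha : IsPoly3 a) (hb : IsPoly3 b) :
    IsPoly3 (fun q => f (a q, b q)) := by
  refine hf.induction (Q := fun f => IsPoly3 (fun q => f (a q, b q))) (fun c => IsPoly3.const c)
    (fun f g _ _ hf hg => hf.add hg) (fun f _ hf => hf.mul ha) (fun f _ hf => hf.mul hb)

end IsPoly2

/-! the skeleton is a compact subset of the surface -/

lemma KK_subset {p : ℝ} (hp : 0 < p) : KK p ⊆ XS p := by
  rintro q ((h | ⟨ζ, x, y, hy, hl, -, rfl⟩) | ⟨ζ, -, rfl⟩)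
  · exact h.1
  · apply Psi_mem
    rw [hl]
    exact_mod_cast (lr_pos.trans_le hy.1).ne'
  · apply Psi_mem
    simpa using hp.ne'

lemma isCompact_of_z_ge {p : ℝ} (c T : ℝ) (hc : 0 < c) :
    IsCompact {q | q ∈ XS p ∧ NN (uu p q) (vv p q) ≤ T ∧ c ≤ ‖q 2‖} := by
  apply Metric.isCompact_of_isClosed_isBounded
  · refine (isClosed_XS p).inter (IsClosed.inter ?_ ?_)
    · exact isClosed_le (continuous_NNq p) continuous_const
    · exact isClosed_le continuous_const (continuous_apply (2 : Fin 3)).norm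
  · rw [Metric.isBounded_iff_subset_closedBall 0]
    refine ⟨(T + 1 + |p| ^ 3 + |p| ^ 2) / c + T, ?_⟩
    rintro q ⟨hq, hN, hz⟩
    have hz2 := norm_z_le hq
    have hu0 := norm_nonneg (uu p q)
    have hv0 := norm_nonneg (vv p q)
    have hp3 : 0 ≤ |p| ^ 3 := by positivity
    have hp2 : 0 ≤ |p| ^ 2 := by positivity
    unfold NN at hN hz2
    have hT : 0 ≤ T := le_trans (by positivity) hN
    have hu : ‖uu p q‖ ≤ T + 1 := by nlinarith [pow_nonneg hv0 3, sq_nonneg (‖uu p q‖ - 1)]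
    have hv : ‖vv p q‖ ≤ T + 1 := by
      by_contra hc
      push Not at hc
      have h1 : 1 ≤ ‖vv p q‖ := by linarith
      have : ‖vv p q‖ ≤ ‖vv p q‖ ^ 3 := by
        simpa using pow_le_pow_right₀ h1 (show 1 ≤ 3 by norm_num)
      nlinarith [sq_nonneg ‖uu p q‖]
    have hA : 0 ≤ (T + 1 + |p| ^ 3 + |p| ^ 2) / c := by positivity
    have key : ∀ a b : ℂ, ∀ s : ℝ, a * q 2 = b → ‖b‖ ≤ s → ‖a‖ ≤ s / c := by
      intro a b s h hb
      rw [le_div_iff₀ hc]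
      calc ‖a‖ * c ≤ ‖a‖ * ‖q 2‖ := by gcongr
        _ = ‖b‖ := by rw [← norm_mul, h]
        _ ≤ s := hb
    rw [mem_closedBall_zero_iff, pi_norm_le_iff_of_nonneg (by positivity)]
    intro i
    fin_cases i
    · have := key (q 0) (uu p q - (p:ℂ) ^ 3) (T + 1 + |p| ^ 3 + |p| ^ 2) (by rw [uu]; ring)
        ((norm_sub_le _ _).trans (by simp only [norm_pow, Complex.norm_real, Real.norm_eq_abs]; linarith))
      change ‖q 0‖ ≤ _
      linarith
    · have := key (q 1) (vv p q - (p:ℂ) ^ 2) (T + 1 + |p| ^ 3 + |p| ^ 2) (by rw [vv]; ring)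
        ((norm_sub_le _ _).trans (by simp only [norm_pow, Complex.norm_real, Real.norm_eq_abs]; linarith))
      change ‖q 1‖ ≤ _
      linarith
    · change ‖q 2‖ ≤ _
      linarith

lemma isCompact_KY (p : ℝ) : IsCompact (KY p) := by
  refine (isCompact_of_z_ge (p := p) 2 2 (by norm_num)).of_isClosed_subset ?_ ?_
  · refine (isClosed_XS p).inter (IsClosed.inter ?_ ?_)
    · exact isClosed_eq (continuous_NNq p) continuous_const
    · exact isClosed_eq (continuous_apply (2 : Fin 3)).norm continuous_const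
  · rintro q ⟨h1, h2, h3⟩
    exact ⟨h1, h2.le, h3.ge⟩

lemma isCompact_KD {p : ℝ} (hp : 9 / 10 < p) : IsCompact (KD p) := by
  have hp0 : 0 < p := by linarith
  have h6 : 1 / 2 ≤ p ^ 6 := by
    have : (9 / 10 : ℝ) ^ 6 ≤ p ^ 6 := by gcongr
    norm_num at this
    linarith
  have hle : ∀ ζ : ℂ, p ^ 6 * (1 + ‖ζ‖ ^ 2) ≤ 1 → ‖ζ‖ ≤ 1 := by
    intro ζ h
    by_contra hc
    push Not at hc
    have : 1 < ‖ζ‖ ^ 2 := by nlinarith
    nlinarith
  have hS : IsCompact {ζ : ℂ | p ^ 6 * (1 + ‖ζ‖ ^ 2) ≤ 1} := by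
    refine (isCompact_closedBall (0:ℂ) 1).of_isClosed_subset
      (isClosed_le (by fun_prop) continuous_const) ?_
    intro ζ h
    simpa using hle ζ h
  have hc : ContinuousOn (fun ζ : ℂ => Psi p ζ 0) {ζ : ℂ | p ^ 6 * (1 + ‖ζ‖ ^ 2) ≤ 1} :=
    (continuousOn_Psi p).comp (f := fun ζ : ℂ => (ζ, (0:ℂ))) (by fun_prop)
      (fun ζ h => ⟨hle ζ h, by simpa using hp0.ne'⟩)
  convert hS.image_of_continuousOn hc using 1
  ext q
  simp only [KD, mem_ofPred_eq, mem_image]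
  exact ⟨fun ⟨ζ, h1, h2⟩ => ⟨ζ, h1, h2.symm⟩, fun ⟨ζ, h1, h2⟩ => ⟨ζ, h1, h2.symm⟩⟩

lemma KC_norm_le {y : ℝ} {ζ : ℂ} (hy : lr ≤ y) (h : y ^ 6 * (1 + ‖ζ‖ ^ 2) = 1) : ‖ζ‖ ≤ 1 := by
  have h6 : 1 / 2 ≤ y ^ 6 := by
    rw [← lr_pow_six]
    have := lr_pos
    gcongr
  by_contra hc
  push Not at hc
  have : 1 < ‖ζ‖ ^ 2 := by nlinarith
  nlinarith

lemma isCompact_KC {p : ℝ} (hp1 : p < 1) : IsCompact (KC p) := by
  set S : Set (ℂ × ℝ) := {w | w.2 ∈ Icc lr p ∧ w.2 ^ 6 * (1 + ‖w.1‖ ^ 2) = 1} with hSdef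
  have hS : IsCompact S := by
    refine ((isCompact_closedBall (0:ℂ) 1).prod (isCompact_Icc (a := lr) (b := p))).of_isClosed_subset
      ?_ ?_
    · exact (isClosed_Icc.preimage continuous_snd).inter (isClosed_eq (by fun_prop) continuous_const)
    · rintro w ⟨h1, h2⟩
      exact ⟨by simpa using KC_norm_le h1.1 h2, h1⟩
  have hne : ∀ w ∈ S, w.1 ≠ 0 := by
    rintro w ⟨h1, h2⟩ h0
    rw [h0] at h2
    have : w.2 ^ 6 < 1 := pow_lt_one₀ (lr_pos.le.trans h1.1) (h1.2.trans_lt hp1) (by norm_num)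
    simp at h2
    linarith
  have he : ∀ w ∈ S, (p:ℂ) + w.1 * (((w.2:ℂ) - p) / w.1) = w.2 := by
    intro w hw
    have := hne w hw
    field_simp
    ring
  have hc : ContinuousOn (fun w : ℂ × ℝ => Psi p w.1 (((w.2:ℂ) - p) / w.1)) S := by
    refine (continuousOn_Psi p).comp (f := fun w : ℂ × ℝ => (w.1, ((w.2:ℂ) - p) / w.1)) ?_ ?_
    · exact ContinuousOn.prodMk (by fun_prop) (ContinuousOn.div (by fun_prop) (by fun_prop) hne)
    · intro w hw
      refine ⟨KC_norm_le hw.1.1 hw.2, ?_⟩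
      change (p:ℂ) + w.1 * (((w.2:ℂ) - p) / w.1) ≠ 0
      rw [he w hw]
      exact_mod_cast (lr_pos.trans_le hw.1.1).ne'
  convert hS.image_of_continuousOn hc using 1
  ext q
  simp only [KC, mem_ofPred_eq, mem_image]
  constructor
  · rintro ⟨ζ, x, y, h1, h2, h3, rfl⟩
    have hw : (ζ, y) ∈ S := ⟨h1, h3⟩
    refine ⟨(ζ, y), hw, ?_⟩
    have h0 : ζ ≠ 0 := hne _ hw
    have : ((y:ℂ) - p) / ζ = x := by rw [← h2]; field_simp; ring
    simp only [this]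
  · rintro ⟨w, hw, rfl⟩
    exact ⟨w.1, _, w.2, hw.1, he w hw, hw.2, rfl⟩

lemma isCompact_KK {p : ℝ} (hp : 9 / 10 < p) (hp1 : p < 1) : IsCompact (KK p) :=
  ((isCompact_KY p).union (isCompact_KC hp1)).union (isCompact_KD hp)

end Pool.Agent.P.MP_e5acfa_ag
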