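import Mathlib

/-! A reparametrisation of the line and a smooth lift of the unit field. -/

open Set Filter Topology
open scoped ContDiff Manifold

namespace Pool.Agent.P.MP_e5acfa_ag.PkgC

lemma exists_reparam (d c : ℝ) (h : d < c) : ∃ a b : ℝ → ℝ, ContDiffOn ℝ ∞ a (Iio c) ∧
    ContDiff ℝ ∞ b ∧ (∀ s ≤ d, a s = s) ∧ (∀ s ≤ d, b s = s) ∧
    (∀ s, d < s → s < c → d < a s) ∧ (∀ s, d < s → d < b s) ∧ (∀ s, b s < c) ∧
    (∀ s < c, b (a s) = s) ∧ ∀ s, a (b s) = s := by
  let a : ℝ → ℝ := fun s => s + expNegInvGlue (s - d) * (c - s)⁻¹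
  have hg : ContDiff ℝ ∞ expNegInvGlue := expNegInvGlue.contDiff
  have ha : ∀ s < c, ContDiffAt ℝ ∞ a s := fun s hs =>
    contDiffAt_id.add ((hg.comp (contDiff_id.sub contDiff_const)).contDiffAt.mul
      ((contDiffAt_const.sub contDiffAt_id).inv (sub_pos.2 hs).ne'))
  have hd : ∀ s < c, ∃ a' : ℝ, 0 < a' ∧ HasDerivAt a a' s := by
    intro s hs
    have h1 : HasDerivAt expNegInvGlue (deriv expNegInvGlue (s - d)) (s - d) :=
      ((hg.differentiable (by simp)) _).hasDerivAt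
    have h2 : 0 ≤ deriv expNegInvGlue (s - d) := expNegInvGlue.monotone.deriv_nonneg
    have h3 := ((hasDerivAt_id s).const_sub c).inv (sub_pos.2 hs).ne'
    have h4 := (hasDerivAt_id s).add ((h1.comp_sub_const s d).mul h3)
    refine ⟨_, ?_, h4⟩
    have h5 : 0 < c - s := sub_pos.2 hs
    have h6 := expNegInvGlue.nonneg (s - d)
    simp only [id, neg_neg, Pi.inv_apply]
    positivity
  have hid : ∀ s ≤ d, a s = s := fun s hs => by
    simp [a, expNegInvGlue.zero_of_nonpos (sub_nonpos.2 hs)]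
  have hco : ContinuousOn a (Iio c) := fun s hs => (ha s hs).continuousAt.continuousWithinAt
  have hmono : StrictMonoOn a (Iio c) := by
    refine strictMonoOn_of_deriv_pos (convex_Iio c) hco fun s hs => ?_
    rw [interior_Iio] at hs
    obtain ⟨a', h1, h2⟩ := hd s hs
    rwa [h2.deriv]
  have hsurj : ∀ y, ∃ s ∈ Iio c, a s = y := by
    intro y
    rcases le_or_gt y d with hy | hy
    · exact ⟨y, lt_of_le_of_lt hy h, hid y hy⟩
    · set κ := expNegInvGlue ((c - d) / 2) with hκ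
      have hκ0 : 0 < κ := expNegInvGlue.pos_of_pos (by linarith)
      set s₁ := max ((c + d) / 2) (c - κ / (y - d)) with hs₁
      have hq : 0 < κ / (y - d) := div_pos hκ0 (sub_pos.2 hy)
      have h1 : s₁ < c := max_lt (by linarith) (by linarith)
      have h2 : (c + d) / 2 ≤ s₁ := le_max_left _ _
      have h3 : c - κ / (y - d) ≤ s₁ := le_max_right _ _
      have h4 : κ ≤ expNegInvGlue (s₁ - d) := expNegInvGlue.monotone (by linarith)
      have h5 : y - d ≤ expNegInvGlue (s₁ - d) * (c - s₁)⁻¹ := by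
        rw [← div_eq_mul_inv, le_div_iff₀ (sub_pos.2 h1)]
        have : c - s₁ ≤ κ / (y - d) := by linarith
        rw [le_div_iff₀ (sub_pos.2 hy)] at this
        linarith
      have h6 : d ≤ s₁ := by linarith
      have h7 : y ∈ Icc (a d) (a s₁) := ⟨by rw [hid d le_rfl]; exact hy.le, by
        simp only [a]; linarith⟩
      obtain ⟨s, hs, hsy⟩ := intermediate_value_Icc h6
        (hco.mono fun s hs => lt_of_le_of_lt hs.2 h1) h7
      exact ⟨s, lt_of_le_of_lt hs.2 h1, hsy⟩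
  choose b hb hab using hsurj
  have hba : ∀ s < c, b (a s) = s := fun s hs => hmono.injOn (hb _) hs (hab _)
  refine ⟨a, b, fun s hs => (ha s hs).contDiffWithinAt, ?_, hid, fun s hs => ?_,
    fun s h1 h2 => ?_, fun s hs => ?_, hb, hba, hab⟩
  · refine contDiff_iff_contDiffAt.2 fun y => ?_
    obtain ⟨a', h1, h2⟩ := hd (b y) (hb y)
    have h3 : HasFDerivAt a (ContinuousLinearEquiv.unitsEquivAut ℝ (Units.mk0 a' h1.ne') :
        ℝ →L[ℝ] ℝ) (b y) := h2.hasFDerivAt_equiv h1.ne'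
    have h4 := (ha _ (hb y)).to_localInverse h3 (by simp)
    have h5 := ((ha _ (hb y)).hasStrictFDerivAt' h3 (by simp)).localInverse_unique
      (g := b) (by filter_upwards [Iio_mem_nhds (hb y)] with s hs using hba s hs)
    rw [hab] at h4 h5
    exact h4.congr_of_eventuallyEq h5
  · have := hba s (lt_of_le_of_lt hs h)
    rwa [hid s hs] at this
  · rw [← hid d le_rfl]; exact hmono h h2 h1
  · by_contra hc
    push Not at hc
    have := hid _ hc
    rw [hab] at this
    linarith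

variable {E F : Type} [NormedAddCommGroup E] [NormedSpace ℝ E] [FiniteDimensional ℝ E]
  [NormedAddCommGroup F] [NormedSpace ℝ F] [FiniteDimensional ℝ F]

omit [FiniteDimensional ℝ E] in
lemma local_section {G : E → F} (hG : ContDiff ℝ ∞ G) {x : E}
    (hx : Function.Surjective (fderiv ℝ G x)) :
    ∃ U ∈ 𝓝 x, ∃ A : E → F →L[ℝ] E, ContDiffOn ℝ ∞ A U ∧
      ∀ y ∈ U, ∀ w, fderiv ℝ G y (A y w) = w := by
  have := FiniteDimensional.complete ℝ F
  obtain ⟨B, hB⟩ := (fderiv ℝ G x).exists_rightInverse_of_surjective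
    (LinearMap.range_eq_top.2 hx)
  have h1 : ContDiff ℝ ∞ (fderiv ℝ G) := hG.fderiv_right (m := ∞) (by simp)
  have h2 : ContDiff ℝ ∞ fun y => (fderiv ℝ G y).comp B := h1.clm_comp contDiff_const
  refine ⟨{y | IsUnit ((fderiv ℝ G y).comp B)}, ?_,
    fun y => B.comp (Ring.inverse ((fderiv ℝ G y).comp B)), fun y hy => ?_, fun y hy w => ?_⟩
  · refine (Units.isOpen.preimage h2.continuous).mem_nhds ?_
    show IsUnit ((fderiv ℝ G x).comp B)
    rw [hB]; exact isUnit_one
  · obtain ⟨u, hu⟩ := hy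
    have h3 : ContDiffAt ℝ ∞ (Ring.inverse : (F →L[ℝ] F) → (F →L[ℝ] F))
        ((fderiv ℝ G y).comp B) := by
      rw [← hu]; exact contDiffAt_ringInverse ℝ u
    have h4 : ContDiffAt ℝ ∞ (fun y => (Ring.inverse ((fderiv ℝ G y).comp B) : F →L[ℝ] F)) y :=
      h3.comp (f := fun y => (fderiv ℝ G y).comp B) y h2.contDiffAt
    exact ((contDiffAt_const (c := B)).clm_comp h4).contDiffWithinAt
  · have := Ring.mul_inverse_cancel _ hy
    exact congrArg (fun T : F →L[ℝ] F => T w) this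

omit [FiniteDimensional ℝ E] in
lemma isOpen_surj {G : E → F} (hG : ContDiff ℝ ∞ G) :
    IsOpen {x | Function.Surjective (fderiv ℝ G x)} := by
  refine isOpen_iff_mem_nhds.2 fun x hx => ?_
  obtain ⟨U, hU, A, -, hA⟩ := local_section hG hx
  filter_upwards [hU] with y hy w using ⟨_, hA y hy w⟩

lemma exists_field {P : E → F} {Φ : E → ℝ} (hP : ContDiff ℝ ∞ P) (hΦ : ContDiff ℝ ∞ Φ)
    {S : Set E} (hS : IsClosed S)
    (hx : ∀ x ∈ S, Function.Surjective (fderiv ℝ (fun y => (P y, Φ y)) x)) :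
    ∃ V : E → E, ContDiff ℝ ∞ V ∧ (∀ x, fderiv ℝ P x (V x) = 0) ∧
      ∀ x ∈ S, fderiv ℝ Φ x (V x) = 1 := by
  let t : E → Set E := fun x => {v | fderiv ℝ P x v = 0 ∧ (x ∈ S → fderiv ℝ Φ x v = 1)}
  have ht : ∀ x, Convex ℝ (t x) := by
    intro x v hv w hw a b _ _ hab
    refine ⟨by simp [hv.1, hw.1], fun h => ?_⟩
    simp [hv.2 h, hw.2 h, hab]
  obtain ⟨g, hg⟩ := exists_contMDiffMap_forall_mem_convex_of_local (n := (⊤ : ℕ∞)) 𝓘(ℝ, E) ht
    (fun x => by
      by_cases h : x ∈ S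
      · obtain ⟨U, hU, A, hA, hA'⟩ := local_section (hP.prodMk hΦ) (hx x h)
        refine ⟨U, hU, fun y => A y (0, 1), ?_, fun y hy => ?_⟩
        · exact (hA.clm_apply contDiffOn_const).contMDiffOn
        · have h1 := hA' y hy (0, 1)
          rw [((hP.differentiable (by simp)) y).fderiv_prodMk ((hΦ.differentiable (by simp)) y)]
            at h1
          exact ⟨congrArg Prod.fst h1, fun _ => congrArg Prod.snd h1⟩
      · exact ⟨Sᶜ, hS.isOpen_compl.mem_nhds h, fun _ => 0, contMDiffOn_const,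
          fun y hy => ⟨by simp, fun h => (hy h).elim⟩⟩)
  exact ⟨g, g.contMDiff.contDiff, fun x => (hg x).1, fun x => (hg x).2⟩

end Pool.Agent.P.MP_e5acfa_ag.PkgC
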