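import Pool.Agent.P.MP_e5acfa_ag.Defs
import Pool.Agent.P.MP_e5acfa_ag.CFlow
import Pool.Agent.P.MP_e5acfa_ag.CAux

/-! Package C: sublevel sets beyond the critical values are diffeomorphic to the level set. -/

open Set Filter Topology
open scoped ContDiff

namespace Pool.Agent.P.MP_e5acfa_ag.PkgC

lemma unit_speed {u w : ℝ → ℝ} {lo hi : ℝ} (hu : ∀ s, HasDerivAt u (w s) s)
    (hw : ∀ s, lo < u s → u s < hi → w s = 1) (h0 : u 0 ∈ Ioo lo hi) (s : ℝ)
    (hs : u 0 + s ∈ Ioo lo hi) : u s = u 0 + s := by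
  have hc : Continuous u := continuous_iff_continuousAt.2 fun s => (hu s).continuousAt
  let U : Set ℝ := {s | ∀ᶠ r in 𝓝 s, u r = u 0 + r}
  have hU : IsOpen U := isOpen_setOfPred_eventually_nhds
  have key : ∀ r ∈ Ioo (lo - u 0) (hi - u 0), u r = u 0 + r → r ∈ U := by
    intro r hr h
    have h1 : ∀ᶠ t in 𝓝 r, u t ∈ Ioo lo hi :=
      hc.continuousAt.eventually (Ioo_mem_nhds (by linarith [hr.1]) (by linarith [hr.2]))
    obtain ⟨ε, hε, h2⟩ := Metric.eventually_nhds_iff_ball.1 h1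
    filter_upwards [Metric.ball_mem_nhds r hε] with t ht
    have h3 : ∀ x ∈ Metric.ball r ε, HasDerivAt (fun x => u x - x) 0 x := fun x hx => by
      have := (hu x).sub (hasDerivAt_id x)
      rw [hw x (h2 x hx).1 (h2 x hx).2, sub_self] at this
      exact this
    have h4 := Metric.isOpen_ball.is_const_of_deriv_eq_zero (convex_ball r ε).isPreconnected
      (fun x hx => (h3 x hx).differentiableAt.differentiableWithinAt)
      (fun x hx => (h3 x hx).deriv) ht (Metric.mem_ball_self hε)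
    linarith
  have hZ : IsClosed {r | u r = u 0 + r} := isClosed_eq hc (by fun_prop)
  have hsub : Ioo (lo - u 0) (hi - u 0) ⊆ U := by
    refine isPreconnected_Ioo.subset_of_closure_inter_subset hU
      ⟨0, ⟨by linarith [h0.1], by linarith [h0.2]⟩, key 0 ⟨by linarith [h0.1], by linarith [h0.2]⟩
        (by simp)⟩ fun r hr => key r hr.2 ?_
    exact closure_minimal (fun t (ht : t ∈ U) => ht.self_of_nhds) hZ hr.1
  exact (hsub ⟨by linarith [hs.1], by linarith [hs.2]⟩).self_of_nhds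

variable {E F : Type} [NormedAddCommGroup E] [NormedSpace ℝ E] [FiniteDimensional ℝ E]
  [NormedAddCommGroup F] [NormedSpace ℝ F] [FiniteDimensional ℝ F]

omit [FiniteDimensional ℝ E] in
lemma exists_margin {P : E → F} {Φ : E → ℝ} {c : ℝ} (hP : ContDiff ℝ ∞ P) (hΦ : ContDiff ℝ ∞ Φ)
    (hK : IsCompact {x | P x = 0 ∧ Φ x ≤ c})
    (hs : ∀ x, P x = 0 → c ≤ Φ x → Function.Surjective (fderiv ℝ (fun y => (P y, Φ y)) x)) :
    ∃ d < c, ∀ x, P x = 0 → d ≤ Φ x → Function.Surjective (fderiv ℝ (fun y => (P y, Φ y)) x) := by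
  have hB := hK.diff (isOpen_surj (hP.prodMk hΦ))
  rcases eq_empty_or_nonempty ({x | P x = 0 ∧ Φ x ≤ c} \
    {x | Function.Surjective (fderiv ℝ (fun y => (P y, Φ y)) x)}) with h | h
  · refine ⟨c - 1, by linarith, fun x hx _ => ?_⟩
    rcases le_total c (Φ x) with h1 | h1
    · exact hs x hx h1
    · by_contra h2
      exact (h.subset (show x ∈ _ from ⟨⟨hx, h1⟩, h2⟩)).elim
  · obtain ⟨z, hz, hmax⟩ := hB.exists_isMaxOn h hΦ.continuous.continuousOn
    have hzc : Φ z < c := lt_of_not_ge fun h1 => hz.2 (hs z hz.1.1 h1)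
    refine ⟨(Φ z + c) / 2, by linarith, fun x hx h3 => ?_⟩
    rcases le_total c (Φ x) with h1 | h1
    · exact hs x hx h1
    · by_contra h2
      have : Φ x ≤ Φ z := hmax (show x ∈ _ from ⟨⟨hx, h1⟩, h2⟩)
      linarith

/-- a compatible family of flows moving the level of Φ at unit speed -/
lemma exists_flows {P : E → F} {Φ : E → ℝ} {d : ℝ} (hP : ContDiff ℝ ∞ P) (hΦ : ContDiff ℝ ∞ Φ)
    (hK : ∀ T, IsCompact {x | P x = 0 ∧ Φ x ≤ T})
    (hs : ∀ x, P x = 0 → d ≤ Φ x → Function.Surjective (fderiv ℝ (fun y => (P y, Φ y)) x)) :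
    ∃ fl : ℝ → ℝ × E → E, (∀ T, ContDiff ℝ ∞ (fl T)) ∧ (∀ T x, fl T (0, x) = x) ∧
      (∀ T s t x, fl T (s, fl T (t, x)) = fl T (s + t, x)) ∧
      (∀ T s x, P (fl T (s, x)) = P x) ∧
      (∀ T s x, P x = 0 → Φ x ∈ Ioo d T → Φ x + s ∈ Ioo d T → Φ (fl T (s, x)) = Φ x + s) ∧
      ∀ T T' s x, T ≤ T' → P x = 0 → Φ x ∈ Ioo d T → Φ x + s ∈ Ioo d T →
        fl T (s, x) = fl T' (s, x) := by
  have := FiniteDimensional.complete ℝ E
  have hS : IsClosed {x | P x = 0 ∧ d ≤ Φ x} :=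
    (isClosed_eq hP.continuous continuous_const).inter
      (isClosed_le continuous_const hΦ.continuous)
  obtain ⟨V, hV, hV1, hV2⟩ := exists_field hP hΦ hS fun x hx => hs x hx.1 hx.2
  have hψ : ∀ T : ℝ, ∃ ψ : E → ℝ, ContDiff ℝ ∞ ψ ∧ HasCompactSupport ψ ∧
      ∀ x, P x = 0 → Φ x ≤ T → ψ x = 1 := by
    intro T
    obtain ⟨R, hR0, hR⟩ := (hK T).isBounded.subset_closedBall_lt 0 0
    let ψ : ContDiffBump (0 : E) := ⟨R, R + 1, hR0, by linarith⟩
    exact ⟨ψ, ψ.contDiff, ψ.hasCompactSupport, fun x h1 h2 => ψ.one_of_mem_closedBall (hR ⟨h1, h2⟩)⟩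
  choose ψ hψ1 hψ2 hψ3 using hψ
  have hW : ∀ T, ContDiff ℝ ∞ (fun x => ψ T x • V x) := fun T => (hψ1 T).smul hV
  have hWc : ∀ T, HasCompactSupport (fun x => ψ T x • V x) := fun T => (hψ2 T).smul_right
  choose fl hfl h0 hd hg using fun T => exists_flow (hW T) (hWc T)
  have hPc : ∀ T s x, P (fl T (s, x)) = P x := by
    intro T s x
    have h1 : ∀ t, HasDerivAt (fun s => P (fl T (s, x))) 0 t := fun t => by
      have := ((hP.differentiable (by simp)) _).hasFDerivAt.comp_hasDerivAt t (hd T x t)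
      rw [map_smul, hV1, smul_zero] at this
      exact this
    have := is_const_of_deriv_eq_zero (fun t => (h1 t).differentiableAt)
      (fun t => (h1 t).deriv) s 0
    rwa [h0] at this
  have hlev : ∀ T s x, P x = 0 → Φ x ∈ Ioo d T → Φ x + s ∈ Ioo d T →
      Φ (fl T (s, x)) = Φ x + s := by
    intro T s x hx h1 h2
    have := unit_speed (u := fun s => Φ (fl T (s, x))) (lo := d) (hi := T)
      (fun t => ((hΦ.differentiable (by simp)) _).hasFDerivAt.comp_hasDerivAt t (hd T x t))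
      (fun t h3 h4 => by
        have h5 : P (fl T (t, x)) = 0 := (hPc T t x).trans hx
        rw [hψ3 T _ h5 h4.le, one_smul]
        exact hV2 _ ⟨h5, h3.le⟩) (by simpa only [h0] using h1) s (by simpa only [h0] using h2)
    simpa only [h0] using this
  refine ⟨fl, hfl, h0, hg, hPc, hlev, fun T T' s x hT hx h1 h2 => ?_⟩
  obtain ⟨K, hK'⟩ := ContDiff.lipschitzWith_of_hasCompactSupport (hWc T') (hW T') (by simp)
  refine curve_unique hK' (α := fun s => fl T (s, x)) (β := fun s => fl T' (s, x))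
    (a := d - Φ x) (b := T - Φ x) (t₀ := 0) ⟨by linarith [h1.1], by linarith [h1.2]⟩
    (fun t ht => ?_) (fun t _ => hd T' x t) (by simp only [h0])
    ⟨by linarith [h2.1], by linarith [h2.2]⟩
  have h5 : P (fl T (t, x)) = 0 := (hPc T t x).trans hx
  have h6 := hlev T t x hx h1 ⟨by linarith [ht.1], by linarith [ht.2]⟩
  have h7 : Φ (fl T (t, x)) ≤ T := by linarith [ht.2]
  have := hd T x t
  rw [hψ3 T _ h5 h7] at this
  rw [hψ3 T' _ h5 (h7.trans hT)]
  exact this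

end Pool.Agent.P.MP_e5acfa_ag.PkgC

namespace Pool.Agent.P.MP_e5acfa_ag

open PkgC

theorem stmtC : StmtC := by
  intro P Φ c hP hΦ hK hs
  obtain ⟨d₀, hd₀, hs'⟩ := exists_margin hP hΦ (hK c) hs
  obtain ⟨fl, hfl, h0, hg, hPc, hlev, hcons⟩ := exists_flows hP hΦ hK hs'
  obtain ⟨a, b, ha, hb, ha1, hb1, ha2, hb2, hbc, hba, hab⟩ :=
    exists_reparam ((d₀ + c) / 2) c (by linarith)
  let mv : ℝ → C3 → C3 := fun r q => fl (max (Φ q) r + 1) (r - Φ q, q)
  let ok : ℝ → C3 → Prop := fun r q => P q = 0 ∧ (r = Φ q ∨ (d₀ < Φ q ∧ d₀ < r))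
  have m1 : ∀ r q T, ok r q → Φ q < T → r < T → mv r q = fl T (r - Φ q, q) := by
    rintro r q T ⟨hq, h | h⟩ h1 h2
    · simp only [mv, h, sub_self, h0]
    · have h3 := le_max_left (Φ q) r
      have h4 := le_max_right (Φ q) r
      rcases le_total T (max (Φ q) r + 1) with hT | hT
      · exact (hcons _ _ _ _ hT hq ⟨h.1, h1⟩ ⟨by linarith [h.2], by linarith⟩).symm
      · exact hcons _ _ _ _ hT hq ⟨h.1, by linarith⟩ ⟨by linarith [h.2], by linarith⟩
  have m2 : ∀ r q, P (mv r q) = P q := fun r q => hPc _ _ _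
  have m3 : ∀ r q, ok r q → Φ (mv r q) = r := by
    rintro r q ⟨hq, h | h⟩
    · simp only [mv, h, sub_self, h0]
    · have h3 := le_max_left (Φ q) r
      have h4 := le_max_right (Φ q) r
      have := hlev (max (Φ q) r + 1) (r - Φ q) q hq ⟨h.1, by linarith⟩
        ⟨by linarith [h.2], by linarith⟩
      simp only [mv]
      linarith
  have m4 : ∀ r q, ok r q → mv (Φ q) (mv r q) = q := by
    intro r q h
    have h3 := le_max_left (Φ q) r
    have h4 := le_max_right (Φ q) r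
    have h5 := m3 r q h
    have h6 : ok (Φ q) (mv r q) := by
      refine ⟨(m2 r q).trans h.1, ?_⟩
      rw [h5]
      exact h.2.imp Eq.symm And.symm
    rw [m1 _ _ (max (Φ q) r + 1) h6 (by linarith) (by linarith), h5]
    simp only [mv]
    rw [hg, sub_add_sub_cancel, sub_self, h0]
  have oka : ∀ q, P q = 0 → Φ q < c → ok (a (Φ q)) q := by
    intro q hq h
    refine ⟨hq, ?_⟩
    rcases le_or_gt (Φ q) ((d₀ + c) / 2) with h1 | h1
    · exact Or.inl (ha1 _ h1)
    · exact Or.inr ⟨by linarith, by linarith [ha2 _ h1 h]⟩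
  have okb : ∀ q, P q = 0 → ok (b (Φ q)) q := by
    intro q hq
    refine ⟨hq, ?_⟩
    rcases le_or_gt (Φ q) ((d₀ + c) / 2) with h1 | h1
    · exact Or.inl (hb1 _ h1)
    · exact Or.inr ⟨by linarith, by linarith [hb2 _ h1]⟩
  refine ⟨fun q => mv (a (Φ q)) q, fun q => mv (b (Φ q)) q, fun q hq => (m2 _ q).trans hq.1,
    fun q hq => ⟨(m2 _ q).trans hq, ?_⟩, fun q hq h => ?_, fun q hq => ?_, fun q hq => ?_,
    fun q hq => ?_⟩
  · rw [m3 _ _ (okb q hq)]; exact hbc _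
  · simp only
    rw [m3 _ _ (oka q hq h), hba _ h]
    exact m4 _ _ (oka q hq h)
  · simp only
    rw [m3 _ _ (okb q hq), hab]
    exact m4 _ _ (okb q hq)
  · set T := max (Φ q) (a (Φ q)) + 1 with hT
    have h3 := le_max_left (Φ q) (a (Φ q))
    have h4 := le_max_right (Φ q) (a (Φ q))
    have hO : IsOpen (Φ ⁻¹' Iio c) := isOpen_Iio.preimage hΦ.continuous
    have haΦ : ContDiffOn ℝ ∞ (fun x => a (Φ x)) (Φ ⁻¹' Iio c) :=
      ha.comp hΦ.contDiffOn fun x hx => hx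
    refine ⟨(Φ ⁻¹' Iio c ∩ (fun x => a (Φ x)) ⁻¹' Iio T) ∩ Φ ⁻¹' Iio T,
      fun x => fl T (a (Φ x) - Φ x, x),
      (haΦ.continuousOn.isOpen_inter_preimage hO isOpen_Iio).inter
        (isOpen_Iio.preimage hΦ.continuous),
      ⟨⟨hq.2, show a (Φ q) < T by linarith⟩, show Φ q < T by linarith⟩, ?_, fun x hx => ?_⟩
    · exact (hfl T).comp_contDiffOn (((haΦ.sub hΦ.contDiffOn).prodMk contDiffOn_id).mono
        fun x hx => hx.1.1)
    · exact (m1 _ _ T (oka x hx.1.1 hx.1.2) hx.2.2 hx.2.1.2).symm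
  · set T := max (Φ q) c + 1 with hT
    have h3 := le_max_left (Φ q) c
    have h4 := le_max_right (Φ q) c
    refine ⟨Φ ⁻¹' Iio T, fun x => fl T (b (Φ x) - Φ x, x), isOpen_Iio.preimage hΦ.continuous,
      show Φ q < T by linarith, ?_, fun x hx => ?_⟩
    · exact ((hfl T).comp (((hb.comp hΦ).sub hΦ).prodMk contDiff_id)).contDiffOn
    · exact (m1 _ _ T (okb x hx.1) hx.2 (by linarith [hbc (Φ x)])).symm

end Pool.Agent.P.MP_e5acfa_ag
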