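import Mathlib

/-! Smoothness of composition operators on spaces of continuous maps. -/

open Set Filter Topology
open scoped ContDiff

namespace Pool.Agent.P.MP_e5acfa_ag.PkgC

variable {X : Type} [TopologicalSpace X] [CompactSpace X]
variable {E : Type} [NormedAddCommGroup E] [NormedSpace ℝ E]

/-- composition with a continuous map -/
def nem {F : Type} [NormedAddCommGroup F] (V : E → F) (hV : Continuous V) (γ : C(X, E)) :
    C(X, F) := ⟨fun t => V (γ t), hV.comp γ.continuous⟩

/-- pointwise application of a continuous family of linear maps -/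
noncomputable def app {F : Type} [NormedAddCommGroup F] [NormedSpace ℝ F] (A : C(X, E →L[ℝ] F))
    (h : C(X, E)) : C(X, F) := ⟨fun t => A t (h t), A.continuous.clm_apply h.continuous⟩

lemma norm_app_le {F : Type} [NormedAddCommGroup F] [NormedSpace ℝ F] (A : C(X, E →L[ℝ] F))
    (h : C(X, E)) : ‖app A h‖ ≤ 1 * ‖A‖ * ‖h‖ := by
  rw [one_mul]
  refine (ContinuousMap.norm_le _ (by positivity)).2 fun t => ?_
  exact ((A t).le_opNorm _).trans
    (mul_le_mul (A.norm_coe_le_norm t) (h.norm_coe_le_norm t) (norm_nonneg _) (norm_nonneg A))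

/-- the pointwise application as a continuous bilinear map -/
noncomputable def appL {F : Type} [NormedAddCommGroup F] [NormedSpace ℝ F] :
    C(X, E →L[ℝ] F) →L[ℝ] C(X, E) →L[ℝ] C(X, F) :=
  LinearMap.mkContinuous₂ (E := C(X, E →L[ℝ] F)) (F := C(X, E)) (G := C(X, F))
    (LinearMap.mk₂ ℝ app (fun A B h => by ext t; simp [app]) (fun c A h => by ext t; simp [app])
      (fun A h k => by ext t; simp [app]) (fun c A h => by ext t; simp [app])) 1
    (fun A h => norm_app_le A h)

lemma appL_apply {F : Type} [NormedAddCommGroup F] [NormedSpace ℝ F] (A : C(X, E →L[ℝ] F))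
    (h : C(X, E)) (t : X) : appL A h t = A t (h t) := rfl

lemma hasFDerivAt_nem {F : Type} [NormedAddCommGroup F] [NormedSpace ℝ F] (V : E → F)
    (hV : ContDiff ℝ ∞ V) (hc : HasCompactSupport V) (γ : C(X, E)) :
    HasFDerivAt (nem V hV.continuous)
      (appL (nem (fderiv ℝ V) (hV.continuous_fderiv (by simp)) γ)) γ := by
  have h1 : ContDiff ℝ ∞ (fderiv ℝ V) := hV.fderiv_right (m := ∞) (by simp)
  obtain ⟨K, hK⟩ := ContDiff.lipschitzWith_of_hasCompactSupport (hc.fderiv ℝ) h1 (by simp)
  rw [hasFDerivAt_iff_isLittleO_nhds_zero]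
  have hb : ∀ h : C(X, E), ‖nem V hV.continuous (γ + h) - nem V hV.continuous γ -
      appL (nem (fderiv ℝ V) (hV.continuous_fderiv (by simp)) γ) h‖ ≤ K * ‖h‖ * ‖h‖ := by
    intro h
    refine (ContinuousMap.norm_le _ (by positivity)).2 fun t => ?_
    have hh : ‖h t‖ ≤ ‖h‖ := h.norm_coe_le_norm t
    have := (convex_closedBall (γ t) ‖h‖).norm_image_sub_le_of_norm_fderiv_le' (𝕜 := ℝ) (f := V)
      (φ := fderiv ℝ V (γ t)) (C := K * ‖h‖) (x := γ t) (y := γ t + h t)
      (fun x _ => (hV.differentiable (by simp)) x)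
      (fun x hx => by
        refine (hK.norm_sub_le x (γ t)).trans ?_
        exact mul_le_mul_of_nonneg_left (by simpa [dist_eq_norm] using hx) K.2)
      (Metric.mem_closedBall_self (norm_nonneg _)) (by simpa using hh)
    simp only [add_sub_cancel_left] at this
    refine le_trans (le_of_eq ?_) (this.trans (mul_le_mul_of_nonneg_left hh (by positivity)))
    rfl
  refine Asymptotics.isLittleO_iff.2 fun c hc0 => ?_
  have ht : Tendsto (fun h : C(X, E) => (K : ℝ) * ‖h‖) (𝓝 0) (𝓝 0) := by
    have : Continuous (fun h : C(X, E) => (K : ℝ) * ‖h‖) := by fun_prop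
    simpa using this.tendsto 0
  filter_upwards [ht.eventually (gt_mem_nhds hc0)] with h hh
  exact (hb h).trans (mul_le_mul_of_nonneg_right hh.le (norm_nonneg _))

lemma contDiff_nem_nat (n : ℕ) : ∀ (F : Type) [NormedAddCommGroup F] [NormedSpace ℝ F]
    (V : E → F) (hV : ContDiff ℝ ∞ V), HasCompactSupport V →
      ContDiff ℝ n (nem (X := X) V hV.continuous) := by
  induction n with
  | zero =>
    intro F _ _ V hV hc
    rw [Nat.cast_zero, contDiff_zero]
    exact continuous_iff_continuousAt.2 fun γ => (hasFDerivAt_nem V hV hc γ).continuousAt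
  | succ n ih =>
    intro F _ _ V hV hc
    have h1 : ContDiff ℝ ∞ (fderiv ℝ V) := hV.fderiv_right (m := ∞) (by simp)
    rw [Nat.cast_succ, contDiff_succ_iff_hasFDerivAt]
    refine ⟨_, ?_, hasFDerivAt_nem V hV hc⟩
    exact (appL (X := X) (E := E) (F := F)).contDiff.comp (ih _ _ h1 (hc.fderiv ℝ))

lemma contDiff_nem {F : Type} [NormedAddCommGroup F] [NormedSpace ℝ F]
    (V : E → F) (hV : ContDiff ℝ ∞ V) (hc : HasCompactSupport V) :
    ContDiff ℝ ∞ (nem (X := X) V hV.continuous) :=
  contDiff_infty.2 fun n => contDiff_nem_nat n F V hV hc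

omit [NormedSpace ℝ E] in
lemma lipschitz_nem {F : Type} [NormedAddCommGroup F] {V : E → F} {K : NNReal}
    (hK : LipschitzWith K V) (γ δ : C(X, E)) :
    ‖nem V hK.continuous γ - nem V hK.continuous δ‖ ≤ K * ‖γ - δ‖ := by
  refine (ContinuousMap.norm_le _ (by positivity)).2 fun t => ?_
  refine (hK.norm_sub_le (γ t) (δ t)).trans (mul_le_mul_of_nonneg_left ?_ K.2)
  exact (γ - δ).norm_coe_le_norm t

/-- primitive of a continuous map on the unit interval -/
noncomputable def prim [CompleteSpace E] (γ : C(unitInterval, E)) : C(unitInterval, E) :=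
  ⟨fun s => ∫ u in (0:ℝ)..(s:ℝ), γ (projIcc 0 1 zero_le_one u),
    (intervalIntegral.continuous_primitive (fun a b =>
      (γ.continuous.comp continuous_projIcc).intervalIntegrable a b) 0).comp
      continuous_subtype_val⟩

lemma norm_prim_le [CompleteSpace E] (γ : C(unitInterval, E)) : ‖prim γ‖ ≤ 1 * ‖γ‖ := by
  rw [one_mul]
  refine (ContinuousMap.norm_le _ (norm_nonneg _)).2 fun s => ?_
  have := intervalIntegral.norm_integral_le_of_norm_le_const (a := 0) (b := (s:ℝ)) (C := ‖γ‖)
    (f := fun u => γ (projIcc 0 1 zero_le_one u)) (fun u _ => γ.norm_coe_le_norm _)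
  refine le_trans this ?_
  rw [sub_zero, abs_of_nonneg s.2.1]
  exact mul_le_of_le_one_right (norm_nonneg _) s.2.2

/-- the primitive as a continuous linear map -/
noncomputable def primL [CompleteSpace E] : C(unitInterval, E) →L[ℝ] C(unitInterval, E) :=
  LinearMap.mkContinuous
    { toFun := prim
      map_add' := fun γ δ => by
        ext s
        exact intervalIntegral.integral_add
          ((γ.continuous.comp continuous_projIcc).intervalIntegrable _ _)
          ((δ.continuous.comp continuous_projIcc).intervalIntegrable _ _)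
      map_smul' := fun c γ => by
        ext s
        exact intervalIntegral.integral_smul c (fun u => γ (projIcc 0 1 zero_le_one u)) } 1
    norm_prim_le

lemma primL_apply [CompleteSpace E] (γ : C(unitInterval, E)) (s : unitInterval) :
    primL γ s = ∫ u in (0:ℝ)..(s:ℝ), γ (projIcc 0 1 zero_le_one u) := rfl

lemma norm_primL_le [CompleteSpace E] (γ : C(unitInterval, E)) : ‖primL γ‖ ≤ ‖γ‖ := by
  have := norm_prim_le γ
  rwa [one_mul] at this

end Pool.Agent.P.MP_e5acfa_ag.PkgC
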