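import Pool.Agent.P.MP_e5acfa_ag.D3

/-! Package D: assembly. -/

open Complex Set

namespace Pool.Agent.P.MP_e5acfa_ag.PkgD

/-- normal form of a point of the cap or of the cylinder -/
def NF (p : ℝ) (q : C3) (ε : ℝ) (c : ℂ) : Prop :=
  q ∈ XS p ∧ uu p q = 2 * (1 - ε) - c ^ 3 ∧ vv p q = c ^ 2 ∧ Tp ε c

variable {p M m ε ε' : ℝ} {q q' : C3} {c c' : ℂ}

lemma rho_sector {ζ : ℂ} (h : ‖ζ‖ ≤ 1) : 0 ≤ (rho ζ).re ∧ 0 ≤ (rho ζ ^ 2).re := by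
  by_cases h0 : 1 - ζ = 0
  · simp [rho, h0]
  have h1 : |arg (1 - ζ)| ≤ Real.pi / 2 := abs_arg_le_pi_div_two_iff.mpr (by
    have := (le_abs_self _).trans ((abs_re_le_norm ζ).trans h)
    simpa using this)
  have := Real.pi_pos
  rw [abs_le] at h1
  rw [rho, cpow_def_of_ne_zero h0, ← exp_nat_mul, exp_re, exp_re]
  have e1 : (log (1 - ζ) * (1 / 3)).im = arg (1 - ζ) / 3 := by simp [log_im]; ring
  have e2 : ((2 : ℕ) * (log (1 - ζ) * (1 / 3))).im = 2 * (arg (1 - ζ) / 3) := by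
    rw [← e1]; simp
  rw [e1, e2]
  exact ⟨mul_nonneg (Real.exp_pos _).le (Real.cos_nonneg_of_mem_Icc ⟨by linarith, by linarith⟩),
    mul_nonneg (Real.exp_pos _).le (Real.cos_nonneg_of_mem_Icc ⟨by linarith, by linarith⟩)⟩

lemma NF_Psi {ζ x : ℂ} {y : ℝ} (hy : lr ≤ y) (hy1 : y < 1) (hl : (p:ℂ) + ζ * x = y)
    (h : y ^ 6 * (1 + ‖ζ‖ ^ 2) ≤ 1) : NF p (Psi p ζ x) (1 - y ^ 3) (y * rho ζ) ∧
      (1 - (1 - y ^ 3)) ^ 2 + ‖1 - (1 - y ^ 3 : ℝ) - (y * rho ζ) ^ 3‖ ^ 2 =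
        y ^ 6 * (1 + ‖ζ‖ ^ 2) := by
  have y0 := lr_pos.trans_le hy
  have hz : ‖ζ‖ ≤ 1 := by
    have h6 : 1 / 2 ≤ y ^ 6 := by
      rw [← lr_pow_six]
      have := lr_pos
      gcongr
    by_contra hc
    have : 1 < ‖ζ‖ ^ 2 := by nlinarith
    nlinarith
  have h0 : (p:ℂ) + ζ * x ≠ 0 := by rw [hl]; exact_mod_cast y0.ne'
  have e : (1 - (1 - y ^ 3)) ^ 2 + ‖1 - (1 - y ^ 3 : ℝ) - (y * rho ζ) ^ 3‖ ^ 2 =
      y ^ 6 * (1 + ‖ζ‖ ^ 2) := by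
    rw [show 1 - (1 - y ^ 3 : ℝ) - (y * rho ζ) ^ 3 = y ^ 3 * ζ by
      rw [mul_pow, rho_cube]; push_cast; ring, norm_mul, norm_pow, norm_real,
      Real.norm_of_nonneg y0.le]
    ring
  obtain ⟨s1, s2⟩ := rho_sector hz
  refine ⟨⟨Psi_mem h0, ?_, ?_, ?_, ?_, ?_, ?_, e.trans_le h⟩, e⟩
  · rw [uu_Psi h0, hl, UU, mul_pow, rho_cube]; push_cast; ring
  · rw [vv_Psi h0, hl, VV, mul_pow]
  · rw [re_ofReal_mul]; positivity
  · rw [mul_pow, ← ofReal_pow, re_ofReal_mul]; positivity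
  · linarith [pow_lt_one₀ y0.le hy1 three_ne_zero]
  · have : (89 / 100 : ℝ) ^ 3 ≤ y ^ 3 := by gcongr; linarith [lt_lr]
    linarith

lemma NF.AA_eq (h : NF p q ε c) :
    AA p q = 4 * (ε - (1 - p ^ 3 : ℝ)) * (ε - (1 - p ^ 3 : ℝ) + c ^ 3) := by
  rw [AA, h.2.1, h.2.2.1]; push_cast; ring

lemma NF.NN_le (h : NF p q ε c) : NN (uu p q) (vv p q) ≤ 2 := by
  rw [h.2.1, h.2.2.1]; exact h.2.2.2.NN_le

lemma NF.nn_eq (h : NF p q ε c) :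
    nn p q = (2 * (1 - ε) - c ^ 3 - 1) + 3 / 2 * (c ^ 2 - 1) := by rw [nn, h.2.1, h.2.2.1]

lemma NF.re_neg (h : NF p q ε c) : (nn p q).re < 0 := by
  have h1 := re_n h.NN_le
  rw [← nn, h.2.1, h.2.2.1] at h1
  by_contra hc
  have h2 : ‖c ^ 2 - 1‖ ^ 2 ≤ 0 := by nlinarith [sq_nonneg ‖2 * (1 - ε) - c ^ 3 - 1‖]
  have h3 : ‖2 * (1 - ε) - c ^ 3 - 1‖ ^ 2 ≤ 0 := by nlinarith [sq_nonneg ‖c ^ 2 - 1‖]
  have h4 : ‖1 - c‖ ≤ 0 := h.2.2.2.t_le_b.trans (by nlinarith [norm_nonneg (c ^ 2 - 1)])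
  obtain rfl : 1 = c := sub_eq_zero.mp (norm_le_zero_iff.mp h4)
  rw [nsq] at h3
  have := h.2.2.2.2.2.1
  norm_num at h3
  nlinarith

lemma NF.z_ge (h : NF p q ε c) (he : (1 - ε) ^ 2 + ‖1 - ε - c ^ 3‖ ^ 2 = 1) : ε ≤ ‖q 2‖ := by
  obtain ⟨-, -, b0, b1, -⟩ := h.2.2.2
  have e : q 2 = (4 * (1 - ε) : ℝ) * (1 - ε - c ^ 3) := by
    rw [z_eq h.1, h.2.1, h.2.2.1]; push_cast; ring
  rw [e, norm_mul, norm_real, Real.norm_of_nonneg (by linarith)]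
  have b2 := h.2.2.2.beta'
  have b3 := norm_nonneg (1 - ε - c ^ 3)
  have b4 : ε ≤ ‖1 - ε - c ^ 3‖ := by nlinarith
  nlinarith

lemma NF.A_bd (h : NF p q ε c) (hp : 19 / 20 < p) (hp1 : p < 1) (he : 1 - p ^ 3 ≤ ε) :
    2 / 5 * (ε - (1 - p ^ 3)) ≤ ‖AA p q‖ ∧ ‖AA p q‖ ≤ 8 * (ε - (1 - p ^ 3)) := by
  have e : AA p q = (4 * (ε - (1 - p ^ 3)) : ℝ) * ((p ^ 3 : ℝ) - (1 - ε - c ^ 3)) := by
    rw [h.AA_eq]; push_cast; ring
  have b1 : (19 / 20 : ℝ) ^ 3 ≤ p ^ 3 := by gcongr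
  have b2 := pow_lt_one₀ (by linarith) hp1 three_ne_zero
  have b3 := norm_sub_norm_le ((p ^ 3 : ℝ) : ℂ) (1 - ε - c ^ 3)
  have b4 := norm_sub_le ((p ^ 3 : ℝ) : ℂ) (1 - ε - c ^ 3)
  rw [norm_real, Real.norm_of_nonneg (by linarith)] at b3 b4
  have b5 := h.2.2.2.beta'
  rw [e, norm_mul, norm_real, Real.norm_of_nonneg (by linarith)]
  constructor <;> nlinarith

lemma NF.far (h : NF p q ε c) (hp : 19 / 20 < p) (hp1 : p < 1)
    (he : (1 - ε) ^ 2 + ‖1 - ε - c ^ 3‖ ^ 2 = 1) (hm : 0 ≤ m) (hγ : 3 * m ≤ ε - (1 - p ^ 3)) :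
    Far p m q := by
  have b2 := pow_lt_one₀ (by linarith) hp1 three_ne_zero
  exact ⟨h.1, by rw [h.2.1, h.2.2.1, NN_eq, he]; norm_num, by linarith [h.z_ge he],
    by linarith [(h.A_bd hp hp1 (by linarith)).1]⟩

lemma KY_far (hp : 19 / 20 < p) (h : q ∈ KY p) : Far p (2 / 25) q := by
  obtain ⟨hX, hN, hz⟩ := h
  refine ⟨hX, hN, by linarith, ?_⟩
  obtain ⟨ζ, l, h1, -, hu, hv⟩ := exists_UV (u := uu p q) (v := vv p q) (by
    by_contra hc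
    push Not at hc
    simp [NN, hc.1, hc.2] at hN)
  rw [z_eq hX, hu, hv, UU_sq_sub, norm_mul, norm_mul, norm_pow, Complex.norm_ofNat] at hz
  rw [hu, hv, NN_UV] at hN
  have e : AA p q = 4 * (((p ^ 3 : ℝ) - l ^ 3) * ((p ^ 3 : ℝ) - l ^ 3 * ζ)) := by
    have := UU_sq_sub ζ l
    rw [AA, hu, hv]
    rw [UU] at this ⊢
    push_cast
    linear_combination this
  have a0 : 0 < ‖l‖ ^ 6 := by
    refine (pow_nonneg (norm_nonneg l) 6).lt_of_ne fun h => ?_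
    rw [← h] at hN; norm_num at hN
  have a1 : ‖ζ‖ = 1 := by
    have : ‖l‖ ^ 6 * (‖ζ‖ - 1) ^ 2 = 0 := by linarith
    have := (mul_eq_zero.mp this).resolve_left a0.ne'
    nlinarith
  rw [a1] at hz
  have a2 : ‖l ^ 3‖ ≤ 71 / 100 := le_of_pow_le_pow_left₀ two_ne_zero (by norm_num) (by
    rw [norm_pow, ← pow_mul]; linarith)
  have b1 : (19 / 20 : ℝ) ^ 3 ≤ p ^ 3 := by gcongr
  have b3 := norm_sub_norm_le ((p ^ 3 : ℝ) : ℂ) (l ^ 3)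
  have b4 := norm_sub_norm_le ((p ^ 3 : ℝ) : ℂ) (l ^ 3 * ζ)
  rw [norm_mul, a1, mul_one] at b4
  rw [norm_real, Real.norm_of_nonneg (by linarith)] at b3 b4
  rw [e, norm_mul, norm_mul, Complex.norm_ofNat]
  have : (1 / 7 : ℝ) * (1 / 7) ≤ ‖(p ^ 3 : ℝ) - l ^ 3‖ * ‖(p ^ 3 : ℝ) - l ^ 3 * ζ‖ := by
    gcongr <;> linarith
  linarith

lemma tri (hp : 19 / 20 < p) (hp1 : p < 1) (h : q ∈ KK p) : Far p (2 / 25) q ∨
    (∃ ε c, NF p q ε c ∧ 1 - p ^ 3 < ε ∧ (1 - ε) ^ 2 + ‖1 - ε - c ^ 3‖ ^ 2 = 1) ∨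
    ∃ c, NF p q (1 - p ^ 3) c ∧ ta p q = 0 := by
  rcases h with (h | ⟨ζ, x, y, hy, hl, he, rfl⟩) | ⟨ζ, he, rfl⟩
  · exact .inl (KY_far hp h)
  · obtain ⟨h1, h2⟩ := NF_Psi hy.1 (hy.2.trans_lt hp1) hl he.le
    rw [he] at h2
    rcases hy.2.eq_or_lt with rfl | hlt
    · refine .inr (.inr ⟨_, h1, ?_⟩)
      have a1 := ta_mul h1.1
      rw [h1.AA_eq, sub_self, mul_zero, zero_mul] at a1
      exact (mul_eq_zero.mp a1).resolve_right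
        (norm_pos_iff.mp (h1.2.2.2.2.2.1.trans_le (h1.z_ge h2)))
    · have := pow_lt_pow_left₀ hlt (lr_pos.le.trans hy.1) three_ne_zero
      exact .inr (.inl ⟨_, _, h1, by linarith, h2⟩)
  · refine .inr (.inr ⟨_, (NF_Psi (by linarith [lr_lt]) hp1 (by simp) he).1, ?_⟩)
    have : (p:ℂ) ≠ 0 := by exact_mod_cast (by linarith : p ≠ 0)
    rw [ta, Psi_zero, mul_zero, add_zero]
    field_simp
    ring

lemma NF.EE_ne (h : NF p q ε c) (h0 : ε ≤ 1 / 10000) (he0 : 0 < 1 - p ^ 3) (he : 1 - p ^ 3 ≤ ε)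
    (hγ : ε - (1 - p ^ 3) ≤ (1 - p ^ 3) ^ 2 / 500)
    (hτ : ‖ta p q‖ * (1 - p ^ 3) ≤ 8 * (ε - (1 - p ^ 3))) : EE p M q ≠ 0 := by
  have := rim (M := M) h.2.2.2 h0 he0 he hγ hτ
  rw [EE, ta_mul h.1, h.AA_eq, h.2.1, h.2.2.1]
  convert this using 4
  push_cast; ring

lemma eps_ge (hX : q ∈ XS p) (hN : NN (uu p q) (vv p q) ≤ 2) (hm : 0 < m) (hz : m ≤ ‖q 2‖)
    (h : NF p q' ε c) (he : (1 - ε) ^ 2 + ‖1 - ε - c ^ 3‖ ^ 2 = 1) (e : ff p M q = ff p M q') :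
    m ^ 2 ≤ 50 * 252 ^ 2 * ε := by
  have hn := re_nn_neg hX hN hm hz
  have h1 := congrArg norm (s_eq hn h.re_neg e)
  rw [norm_mul, norm_mul, h.nn_eq, h.2.2.1] at h1
  have a1 := re_n hN
  rw [← nn] at a1
  have a2 := (abs_le.mp (abs_re_le_norm (nn p q))).1
  have a3 := z_le hN
  rw [← z_eq hX] at a3
  have a4 : m * ‖vv p q - 1‖ ≤ 21 * ‖nn p q‖ := by
    nlinarith [norm_nonneg (vv p q - 1), norm_nonneg (uu p q - 1),
      sq_nonneg (‖uu p q - 1‖ - ‖vv p q - 1‖),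
      mul_le_mul_of_nonneg_right (hz.trans a3) (norm_nonneg (vv p q - 1))]
  have n0 := norm_pos_iff.mpr (ne_of_re hn)
  have b0 := h.2.2.2.2.2.1
  have a5 : m * ‖c ^ 2 - 1‖ ≤ 252 * ε := by
    refine le_of_mul_le_mul_right ?_ n0
    calc _ = m * ‖vv p q - 1‖ * ‖(2 * (1 - ε) - c ^ 3 - 1) + 3 / 2 * (c ^ 2 - 1)‖ := by
          rw [mul_assoc, mul_assoc, h1]
      _ ≤ 21 * ‖nn p q‖ * (12 * ε) := by gcongr; exact h.2.2.2.n_le
      _ = _ := by ring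
  have a6 : (m * ‖1 - c‖) ^ 2 ≤ (252 * ε) ^ 2 := pow_le_pow_left₀ (by positivity)
    ((mul_le_mul_of_nonneg_left h.2.2.2.t_le_b hm.le).trans a5) 2
  have a7 := h.2.2.2.eps_le he
  refine le_of_mul_le_mul_right ?_ b0
  nlinarith [mul_le_mul_of_nonneg_left a7 (sq_nonneg m)]

lemma Far.ta_ne (h : Far p m q) (hm : 0 < m) : ta p q ≠ 0 := fun h0 => by
  have := h.2.2.2
  rw [← ta_mul h.1, h0, zero_mul, norm_zero] at this
  linarith

lemma cap_ext (hp : 0 < p) (h : NF p q ε c) (h' : NF p q' ε c) (t : ta p q = 0)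
    (t' : ta p q' = 0) : q = q' := by
  have hp' : (p:ℂ) ≠ 0 := by exact_mod_cast hp.ne'
  have hu : uu p q = uu p q' := h.2.1.trans h'.2.1.symm
  have hv : vv p q = vv p q' := h.2.2.1.trans h'.2.2.1.symm
  by_cases hz : q 2 = 0
  swap
  · exact XS_ext h.1 h'.1 hz hu hv
  have h2 : q' 2 = 0 := by rw [z_eq h'.1, ← hu, ← hv, ← z_eq h.1, hz]
  have h0 : q 0 = q' 0 := by
    apply mul_left_cancel₀ (mul_ne_zero (by norm_num : (4 : ℂ) ≠ 0) (pow_ne_zero 3 hp'))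
    unfold ta at t t'
    linear_combination t' - t
  have h1 : q 1 = q' 1 := by
    apply mul_left_cancel₀ (mul_ne_zero (three_ne_zero' ℂ) (pow_ne_zero 4 hp'))
    have a : PX p q = 0 := h.1
    have a' : PX p q' = 0 := h'.1
    rw [PX, hz, h0] at a
    rw [PX, h2] at a'
    linear_combination a' - a
  ext i
  fin_cases i
  exacts [h0, h1, hz.trans h2.symm]

end PkgD

open PkgD in
theorem stmtD : StmtD := by
  obtain ⟨e, e0, e1, htip⟩ := tip_inj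
  set η := e ^ 2 / (50 * 252 ^ 2 * 6) with hη
  have η0 : 0 < η := by positivity
  have η1 : 6 * η ≤ e := by rw [hη]; nlinarith
  set p := 1 - η with hpd
  have hp : 19 / 20 < p := by linarith
  have hp1 : p < 1 := by linarith
  have hp0 : 0 < p := by linarith
  have g0 : 0 < 1 - p ^ 3 := by linarith [pow_lt_one₀ hp0.le hp1 three_ne_zero]
  have g1 : 1 - p ^ 3 ≤ 3 * η := by
    rw [hpd]; nlinarith [mul_nonneg (sq_nonneg η) (by linarith : 0 ≤ 3 - η)]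
  set m := (1 - p ^ 3) ^ 2 / 1500 with hm
  have m0 : 0 < m := by positivity
  have m1 : 3 * m ≤ 1 - p ^ 3 := by rw [hm]; nlinarith
  obtain ⟨M, hM1, hM2⟩ : ∃ M : ℝ, 14 * (1125 + 10 * (m ^ 2 / 98)) < m ^ 2 / 98 * m * M ∧
      35 * m + 400 < m ^ 2 * M := by
    have t : ∀ a b : ℝ, 0 < b → ∀ᶠ M in Filter.atTop, a < b * M := fun a b hb =>
      (Filter.tendsto_id.const_mul_atTop hb).eventually_gt_atTop a
    exact ((t _ _ (by positivity)).and (t _ _ (by positivity))).exists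
  have hre : ∀ q ∈ KK p, (nn p q).re < 0 := by
    intro q hq
    rcases tri hp hp1 hq with h | ⟨ε, c, h, -⟩ | ⟨c, h, -⟩
    exacts [re_nn_neg h.1 h.2.1.le (by norm_num) h.2.2.1, h.re_neg, h.re_neg]
  refine ⟨p, hp, hp1, M, hre, ?_, fun q hq => imm hp0 (KK_subset hp0 hq) (hre q hq) ?_⟩
  · have key : ∀ q ∈ KK p, ∀ q' ∈ KK p, ff p M q = ff p M q' → Far p m q → e ≤ ‖q 2‖ →
        q = q' := by
      intro q hq q' hq' h hF hz
      refine far_inj hp0 hp1 m0 hM1 hF ?_ h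
      rcases tri hp hp1 hq' with h' | ⟨ε, c, h', -, he⟩ | ⟨c, -, h'⟩
      · exact h'.mono (by linarith)
      · have := eps_ge hF.1 hF.2.1.le e0 hz h' he h
        refine h'.far hp hp1 he m0.le ?_
        have : 6 * η ≤ ε := by rw [hη]; linarith
        linarith
      · exact absurd (ta_eq h.symm h') (hF.ta_ne m0)
    have big : ∀ q ε c, NF p q ε c → (1 - ε) ^ 2 + ‖1 - ε - c ^ 3‖ ^ 2 = 1 → e ≤ ε →
        Far p m q ∧ e ≤ ‖q 2‖ := fun q ε c h he hε =>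
      ⟨h.far hp hp1 he m0.le (by linarith), hε.trans (h.z_ge he)⟩
    have nz : ∀ q ε c, NF p q ε c → 1 - p ^ 3 < ε → (1 - ε) ^ 2 + ‖1 - ε - c ^ 3‖ ^ 2 = 1 →
        ta p q ≠ 0 := fun q ε c h h1 he =>
      (h.far (m := (ε - (1 - p ^ 3)) / 3) hp hp1 he (by linarith) (by linarith)).ta_ne (by linarith)
    intro q hq q' hq' h
    have s := s_eq (hre q hq) (hre q' hq') h
    rcases tri hp hp1 hq with a | ⟨ε, c, a, a1, a2⟩ | ⟨c, a, a1⟩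
    · exact key q hq q' hq' h (a.mono (by linarith)) (by linarith [a.2.2.1])
    all_goals rcases tri hp hp1 hq' with b | ⟨ε', c', b, b1, b2⟩ | ⟨c', b, b1⟩
    · exact (key q' hq' q hq h.symm (b.mono (by linarith)) (by linarith [b.2.2.1])).symm
    · rcases le_total e ε with d | d
      · exact key q hq q' hq' h (big q ε c a a2 d).1 (big q ε c a a2 d).2
      rcases le_total e ε' with d' | d'
      · exact (key q' hq' q hq h.symm (big q' ε' c' b b2 d').1 (big q' ε' c' b b2 d').2).symm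
      rw [a.nn_eq, b.nn_eq, a.2.2.1, b.2.2.1] at s
      obtain ⟨rfl, rfl⟩ := htip _ _ _ _ a.2.2.2 b.2.2.2 a2 b2 d d' s
      exact XS_ext a.1 b.1 (norm_pos_iff.mp (a.2.2.2.2.2.1.trans_le (a.z_ge a2)))
        (a.2.1.trans b.2.1.symm) (a.2.2.1.trans b.2.2.1.symm)
    · exact absurd (ta_eq h.symm b1) (nz q ε c a a1 a2)
    · exact absurd (ta_eq h a1) (b.ta_ne (by norm_num))
    · exact absurd (ta_eq h a1) (nz q' ε' c' b b1 b2)
    · rw [a.nn_eq, b.nn_eq, a.2.2.1, b.2.2.1] at s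
      obtain rfl := cap_inj a.2.2.2 b.2.2.2 (by linarith) s
      exact cap_ext hp0 a b a1 b1
  · rcases tri hp hp1 hq with a | ⟨ε, c, a, a1, a2⟩ | ⟨c, a, a1⟩
    · exact far_imm hp0 hp1 m0 hM2 (a.mono (by linarith))
    · rcases le_total (3 * m) (ε - (1 - p ^ 3)) with d | d
      · exact far_imm hp0 hp1 m0 hM2 (a.far hp hp1 a2 m0.le d)
      · refine a.EE_ne (by linarith) g0 a1.le (by linarith) ?_
        have := (a.A_bd hp hp1 a1.le).2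
        rw [← ta_mul a.1, norm_mul] at this
        exact le_trans (by gcongr; exact a1.le.trans (a.z_ge a2)) this
    · exact a.EE_ne (by linarith) g0 le_rfl (by rw [sub_self]; positivity) (by simp [a1])

end Pool.Agent.P.MP_e5acfa_ag
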