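import Pool.Agent.P.MP_e5acfa_ag.Basic

/-! Package D, part 1: points far from the rim. -/

open Complex Set

namespace Pool.Agent.P.MP_e5acfa_ag.PkgD

lemma nsq (w : ℂ) : ‖w‖ ^ 2 = w.re ^ 2 + w.im ^ 2 := by
  rw [Complex.sq_norm, normSq_apply]; ring

lemma re_n {u v : ℂ} (h : NN u v ≤ 2) :
    ‖u - 1‖ ^ 2 + 3 / 2 * ‖v - 1‖ ^ 2 ≤ -2 * ((u - 1) + 3 / 2 * (v - 1)).re := by
  have h1 : 3 / 2 * ‖v‖ ^ 2 - 1 / 2 ≤ ‖v‖ ^ 3 := by
    nlinarith [mul_nonneg (sq_nonneg (‖v‖ - 1)) (by positivity : 0 ≤ ‖v‖ + 1 / 2)]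
  have e : ((u - 1) + 3 / 2 * (v - 1)).re = u.re - 1 + 3 / 2 * (v.re - 1) := by simp
  unfold NN at h
  rw [e, nsq (u - 1), nsq (v - 1)]
  rw [nsq u] at h
  rw [nsq v] at h1
  simp only [sub_re, one_re, sub_im, one_im]
  nlinarith

lemma bdd {u v : ℂ} (h : NN u v ≤ 2) : ‖u‖ ≤ 3 / 2 ∧ ‖v‖ ≤ 3 / 2 := by
  unfold NN at h
  have h1 := norm_nonneg u
  have h2 := norm_nonneg v
  refine ⟨by nlinarith [pow_nonneg h2 3], le_of_pow_le_pow_left₀ (n := 3) (by norm_num)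
    (by norm_num) (by nlinarith)⟩

lemma nsub1 {u : ℂ} (h : ‖u‖ ≤ 3 / 2) : ‖u - 1‖ ≤ 5 / 2 :=
  (norm_sub_le _ _).trans (by rw [norm_one]; linarith)

lemma lipA {u v u' v' w : ℂ} (h : NN u v ≤ 2) (h' : NN u' v' ≤ 2) (hw : ‖w‖ ≤ 2) :
    ‖((u - w) ^ 2 - v ^ 3) - ((u' - w) ^ 2 - v' ^ 3)‖ ≤ 7 * (‖u - u'‖ + ‖v - v'‖) := by
  obtain ⟨h1, h2⟩ := bdd h
  obtain ⟨h1', h2'⟩ := bdd h'
  have e : ((u - w) ^ 2 - v ^ 3) - ((u' - w) ^ 2 - v' ^ 3) =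
      (u - u') * (u + u' - 2 * w) - (v - v') * (v * v + v * v' + v' * v') := by ring
  have a1 : ‖u + u' - 2 * w‖ ≤ 7 := by
    refine (norm_sub_le _ _).trans ?_
    have := norm_add_le u u'
    rw [norm_mul, Complex.norm_ofNat]
    linarith
  have a2 : ‖v * v + v * v' + v' * v'‖ ≤ 7 := by
    refine norm_add₃_le.trans ?_
    simp only [norm_mul]
    nlinarith [norm_nonneg v, norm_nonneg v']
  rw [e]
  refine (norm_sub_le _ _).trans ?_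
  rw [norm_mul, norm_mul]
  nlinarith [norm_nonneg (u - u'), norm_nonneg (v - v')]

lemma NN_one : NN 1 1 ≤ 2 := by norm_num [NN]

lemma z_le {u v : ℂ} (h : NN u v ≤ 2) : ‖u ^ 2 - v ^ 3‖ ≤ 7 * (‖u - 1‖ + ‖v - 1‖) := by
  simpa using lipA (w := 0) h NN_one (by simp)

/-- the supporting hyperplane of the gauge sphere -/
lemma support {u v k : ℂ} {d : ℝ} (h : NN u v = 2)
    (h' : NN (1 + k * (u - 1)) (1 + k * (v - 1)) ≤ 2) (hd0 : 0 ≤ d)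
    (hd : d ≤ ‖u - 1‖ ^ 2 + ‖v - 1‖ ^ 2) : d * (k.re - 1) ≤ 225 * |k.im| := by
  obtain ⟨h1, h2⟩ := bdd h.le
  set u' := 1 + k * (u - 1) with hu'
  set v' := 1 + k * (v - 1) with hv'
  set G := 2 * (starRingEnd ℂ u * (u - 1)) + 3 * (‖v‖ : ℂ) * (starRingEnd ℂ v * (v - 1)) with hG
  have x0 := norm_nonneg v
  have a1 : ‖u‖ ^ 2 + 2 * (starRingEnd ℂ u * (u' - u)).re ≤ ‖u'‖ ^ 2 := by
    rw [nsq, nsq]
    simp only [mul_re, conj_re, conj_im, sub_re, sub_im]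
    nlinarith [sq_nonneg (u'.re - u.re), sq_nonneg (u'.im - u.im)]
  have a2 : ‖v‖ ^ 3 + 3 * ‖v‖ * (starRingEnd ℂ v * (v' - v)).re ≤ ‖v'‖ ^ 3 := by
    have b1 : (starRingEnd ℂ v * v').re ≤ ‖v‖ * ‖v'‖ :=
      (re_le_norm _).trans (by rw [norm_mul, RCLike.norm_conj])
    have b2 : (starRingEnd ℂ v * (v' - v)).re = (starRingEnd ℂ v * v').re - ‖v‖ ^ 2 := by
      rw [nsq]; simp only [mul_re, conj_re, conj_im, sub_re, sub_im]; ring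
    rw [b2]
    nlinarith [mul_nonneg (sq_nonneg (‖v'‖ - ‖v‖)) (by positivity : 0 ≤ ‖v'‖ + 2 * ‖v‖),
      mul_le_mul_of_nonneg_left b1 x0]
  have a3 : (k.re - 1) * G.re - k.im * G.im ≤ 0 := by
    have e : 2 * (starRingEnd ℂ u * (u' - u)).re + 3 * ‖v‖ * (starRingEnd ℂ v * (v' - v)).re =
        (k.re - 1) * G.re - k.im * G.im := by
      simp only [hu', hv', hG, mul_re, mul_im, conj_re, conj_im, sub_re, sub_im, add_re, add_im,
        one_re, one_im, ofReal_re, ofReal_im, re_ofNat, im_ofNat]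
      ring
    unfold NN at h h'
    linarith
  have a4 : (‖u - 1‖ ^ 2 + ‖v - 1‖ ^ 2) / 9 ≤ G.re := by
    have e : G.re = (‖u‖ ^ 2 - 1 + ‖u - 1‖ ^ 2) +
        3 / 2 * ‖v‖ * (‖v‖ ^ 2 - 1 + ‖v - 1‖ ^ 2) := by
      rw [nsq u, nsq (u - 1), nsq v, nsq (v - 1)]
      simp only [hG, mul_re, mul_im, conj_re, conj_im, sub_re, sub_im, add_re,
        one_re, one_im, ofReal_re, ofReal_im, re_ofNat, im_ofNat]
      ring
    have b1 : ‖v - 1‖ ≤ ‖v‖ + 1 := (norm_sub_le _ _).trans (by rw [norm_one])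
    have b2 : (‖v‖ - 1) ^ 2 ≤ ‖u‖ ^ 2 - 1 + 3 / 2 * ‖v‖ * (‖v‖ ^ 2 - 1) := by
      unfold NN at h
      nlinarith [mul_nonneg (sq_nonneg (‖v‖ - 1)) x0]
    have b3 : ‖v - 1‖ ^ 2 / 9 ≤ (‖v‖ - 1) ^ 2 + 3 / 2 * ‖v‖ * ‖v - 1‖ ^ 2 := by
      rcases le_total ‖v‖ (1 / 2) with c | c
      · have : ‖v - 1‖ ^ 2 ≤ (3 / 2) ^ 2 := by gcongr; linarith
        nlinarith [mul_nonneg x0 (sq_nonneg ‖v - 1‖)]
      · nlinarith [sq_nonneg (‖v‖ - 1), sq_nonneg ‖v - 1‖]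
    rw [e]
    nlinarith [sq_nonneg ‖u - 1‖]
  have a5 : |G.im| ≤ 25 := by
    refine (abs_im_le_norm G).trans ((norm_add_le _ _).trans ?_)
    simp only [norm_mul, RCLike.norm_conj, Complex.norm_ofNat, norm_real, norm_norm]
    have b1 := nsub1 h1
    have b2 := nsub1 h2
    calc _ ≤ 2 * (3 / 2 * (5 / 2)) + 3 * (3 / 2) * (3 / 2 * (5 / 2) : ℝ) := by gcongr
      _ ≤ _ := by norm_num
  have a6 : k.im * G.im ≤ |k.im| * 25 :=
    (le_abs_self _).trans (by rw [abs_mul]; gcongr)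
  rcases le_total k.re 1 with c | c
  · nlinarith [abs_nonneg k.im]
  · nlinarith

lemma half {u v : ℂ} {x θ d : ℝ} (h : NN u v = 2)
    (h' : NN (1 + exp (x + θ * I) * (u - 1)) (1 + exp (x + θ * I) * (v - 1)) ≤ 2) (hd0 : 0 ≤ d)
    (hd : d ≤ ‖u - 1‖ ^ 2 + ‖v - 1‖ ^ 2) :
    d * ((Real.exp x - 1) * (‖u - 1‖ + ‖v - 1‖)) ≤ 5 * (225 + d) * |θ| := by
  have a := support h h' hd0 hd
  obtain ⟨h1, h2⟩ := bdd h'
  have b1 := nsub1 h1
  have b2 := nsub1 h2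
  have hr := Real.exp_pos x
  rw [add_sub_cancel_left, norm_mul, Complex.norm_exp] at b1 b2
  rw [exp_re, exp_im] at a
  simp only [add_re, ofReal_re, mul_re, I_re, mul_zero, ofReal_im, I_im, mul_one, sub_self,
    add_zero, add_im, mul_im, zero_add] at a b1 b2
  rw [abs_mul, abs_of_pos hr] at a
  have c1 := Real.abs_sin_le_abs (x := θ)
  have c2 : 1 - Real.cos θ ≤ |θ| := by
    have := Real.abs_cos_sub_cos_le 0 θ
    rw [Real.cos_zero, zero_sub, abs_neg] at this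
    exact (le_abs_self _).trans this
  have c3 : d * (Real.exp x - 1) ≤ (225 + d) * |θ| * Real.exp x := by
    nlinarith [mul_le_mul_of_nonneg_left c2 (mul_nonneg hd0 hr.le),
      mul_le_mul_of_nonneg_left c1 hr.le]
  calc _ = d * (Real.exp x - 1) * (‖u - 1‖ + ‖v - 1‖) := by ring
    _ ≤ (225 + d) * |θ| * Real.exp x * (‖u - 1‖ + ‖v - 1‖) := by gcongr
    _ = (225 + d) * |θ| * (Real.exp x * ‖u - 1‖ + Real.exp x * ‖v - 1‖) := by ring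
    _ ≤ (225 + d) * |θ| * (5 / 2 + 5 / 2) := by gcongr
    _ = _ := by ring

lemma sphere {u v u' v' : ℂ} {x θ d : ℝ} (h : NN u v = 2) (h' : NN u' v' = 2)
    (hu : u' - 1 = exp (x + θ * I) * (u - 1)) (hv : v' - 1 = exp (x + θ * I) * (v - 1))
    (hd0 : 0 ≤ d) (hd : d ≤ ‖u - 1‖ ^ 2 + ‖v - 1‖ ^ 2) (hd' : d ≤ ‖u' - 1‖ ^ 2 + ‖v' - 1‖ ^ 2) :
    d * (‖u' - u‖ + ‖v' - v‖) ≤ (1125 + 10 * d) * |θ| := by
  have a1 := half (x := x) (θ := θ) h (by rw [← hu, ← hv]; simpa using h'.le) hd0 hd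
  have e : exp ((-x : ℝ) + (-θ : ℝ) * I) * exp (x + θ * I) = 1 := by
    rw [← exp_add, ← exp_zero]; congr 1; push_cast; ring
  have a2 := half (x := -x) (θ := -θ) h'
    (by rw [hu, hv, ← mul_assoc, ← mul_assoc, e]; simpa using h.le) hd0 hd'
  have n1 : ‖exp (x + θ * I)‖ = Real.exp x := by rw [Complex.norm_exp]; simp
  rw [abs_neg, hu, hv, norm_mul, norm_mul, n1, ← mul_add, ← mul_assoc (Real.exp (-x) - 1), sub_mul,
    ← Real.exp_add, neg_add_cancel, Real.exp_zero, one_mul] at a2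
  have a3 : ‖exp (x + θ * I) - 1‖ ≤ |Real.exp x - 1| + |θ| := by
    have e : exp (x + θ * I) - 1 = ((Real.exp x - 1 : ℝ) : ℂ) * exp (θ * I) + (exp (I * θ) - 1) := by
      rw [exp_add, mul_comm I]; push_cast; ring
    rw [e]
    refine (norm_add_le _ _).trans ?_
    rw [norm_mul, norm_exp_ofReal_mul_I, mul_one, norm_real, Real.norm_eq_abs]
    gcongr
    exact Real.norm_exp_I_mul_ofReal_sub_one_le
  obtain ⟨h1, h2⟩ := bdd h.le
  have b1 := nsub1 h1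
  have b2 := nsub1 h2
  have e1 : u' - u = (exp (x + θ * I) - 1) * (u - 1) := by linear_combination hu
  have e2 : v' - v = (exp (x + θ * I) - 1) * (v - 1) := by linear_combination hv
  rw [e1, e2, norm_mul, norm_mul, ← mul_add]
  have a4 : d * (|Real.exp x - 1| * (‖u - 1‖ + ‖v - 1‖)) ≤ 5 * (225 + d) * |θ| := by
    rcases abs_cases (Real.exp x - 1) with c | c
    · rwa [c.1]
    · rwa [c.1, neg_sub]
  calc _ ≤ d * ((|Real.exp x - 1| + |θ|) * (‖u - 1‖ + ‖v - 1‖)) := by gcongr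
    _ = d * (|Real.exp x - 1| * (‖u - 1‖ + ‖v - 1‖)) + d * |θ| * (‖u - 1‖ + ‖v - 1‖) := by ring
    _ ≤ 5 * (225 + d) * |θ| + d * |θ| * (5 / 2 + 5 / 2) := by gcongr
    _ = _ := by ring

lemma log_lip {m : ℝ} {A B : ℂ} (hm : 0 < m) (hA : m ≤ ‖A‖) (hB : m ≤ ‖B‖) :
    m * |Real.log ‖A‖ - Real.log ‖B‖| ≤ ‖A - B‖ := by
  have key : ∀ {A B : ℂ}, m ≤ ‖A‖ → m ≤ ‖B‖ → 0 ≤ Real.log ‖A‖ - Real.log ‖B‖ →
      m * (Real.log ‖A‖ - Real.log ‖B‖) ≤ ‖A - B‖ := by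
    intro A B hA hB h0
    have hB0 := hm.trans_le hB
    have := Real.log_le_sub_one_of_pos (div_pos (hm.trans_le hA) hB0)
    rw [Real.log_div (hm.trans_le hA).ne' hB0.ne'] at this
    calc _ ≤ ‖B‖ * (‖A‖ / ‖B‖ - 1) := by gcongr
      _ = ‖A‖ - ‖B‖ := by field_simp
      _ ≤ _ := norm_sub_norm_le _ _
  rcases abs_cases (Real.log ‖A‖ - Real.log ‖B‖) with c | c
  · rw [c.1]; exact key hA hB c.2
  · rw [c.1, neg_sub, norm_sub_rev]; exact key hB hA (by linarith [c.2])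

end Pool.Agent.P.MP_e5acfa_ag.PkgD
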