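import Pool.Agent.P.MP_e5acfa_ag.D1

/-! Package D, part 2: injectivity and immersion far from the rim. -/

open Complex Set

namespace Pool.Agent.P.MP_e5acfa_ag.PkgD

/-- second coordinate factor -/
noncomputable def ta (p : ℝ) (q : C3) : ℂ := 1 - 4 * (p:ℂ) ^ 3 * q 0

/-- its numerator -/
noncomputable def AA (p : ℝ) (q : C3) : ℂ := (uu p q - 2 * (p:ℂ) ^ 3) ^ 2 - vv p q ^ 3

/-- points of the gauge sphere away from the cusp and from the zero set of ta -/
def Far (p m : ℝ) (q : C3) : Prop :=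
  q ∈ XS p ∧ NN (uu p q) (vv p q) = 2 ∧ m ≤ ‖q 2‖ ∧ m ≤ ‖AA p q‖

/-- the obstruction to being an immersion -/
noncomputable def EE (p M : ℝ) (q : C3) : ℂ :=
  (1 - ta p q) * (2 * uu p q * (uu p q - 1) - 3 * vv p q ^ 2 * (vv p q - 1))
    - 4 * (p:ℂ) ^ 3 * (uu p q - 1) + I * M * (ta p q * q 2)

variable {p M m : ℝ} {q q' : C3}

lemma ta_mul (h : q ∈ XS p) : ta p q * q 2 = AA p q := by
  have := z_eq h
  unfold ta AA
  rw [uu] at this ⊢
  linear_combination this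

lemma Far.mono {m' : ℝ} (h : Far p m q) (hm : m' ≤ m) : Far p m' q :=
  ⟨h.1, h.2.1, hm.trans h.2.2.1, hm.trans h.2.2.2⟩

lemma norm_2p (hp : 0 < p) (hp1 : p < 1) : ‖2 * (p:ℂ) ^ 3‖ ≤ 2 := by
  rw [norm_mul, norm_pow, Complex.norm_ofNat, norm_real, Real.norm_of_nonneg hp.le]
  have := pow_le_one₀ (n := 3) hp.le hp1.le
  linarith

lemma dist_ge (h : q ∈ XS p) (hN : NN (uu p q) (vv p q) ≤ 2) (hm : 0 ≤ m) (hz : m ≤ ‖q 2‖) :
    m ^ 2 / 98 ≤ ‖uu p q - 1‖ ^ 2 + ‖vv p q - 1‖ ^ 2 := by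
  have := z_le hN
  rw [← z_eq h] at this
  have h2 : m ^ 2 ≤ (7 * (‖uu p q - 1‖ + ‖vv p q - 1‖)) ^ 2 := by gcongr; linarith
  nlinarith [sq_nonneg (‖uu p q - 1‖ - ‖vv p q - 1‖)]

lemma re_nn_neg (h : q ∈ XS p) (hN : NN (uu p q) (vv p q) ≤ 2) (hm : 0 < m) (hz : m ≤ ‖q 2‖) :
    (nn p q).re < 0 := by
  have h1 := dist_ge h hN hm.le hz
  have h2 := re_n hN
  unfold nn
  nlinarith [sq_nonneg ‖vv p q - 1‖, pow_pos hm 2]

lemma ne_of_re {w : ℂ} (h : w.re < 0) : w ≠ 0 := fun e => by simp [e] at h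

lemma s_eq (hn : (nn p q).re < 0) (hn' : (nn p q').re < 0) (h : ff p M q = ff p M q') :
    (vv p q - 1) * nn p q' = (vv p q' - 1) * nn p q := by
  have h1 := congrArg Prod.fst h
  simp only [ff] at h1
  rw [div_eq_div_iff (neg_ne_zero.mpr (ne_of_re hn)) (neg_ne_zero.mpr (ne_of_re hn'))] at h1
  unfold nn at h1 ⊢
  linear_combination h1 / 3

lemma ta_eq (h : ff p M q = ff p M q') (h0 : ta p q = 0) : ta p q' = 0 := by
  have h1 := congrArg Prod.snd h
  simp only [ff] at h1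
  rw [← ta, ← ta, h0, zero_mul] at h1
  exact (mul_eq_zero.mp h1.symm).resolve_right (exp_ne_zero _)

lemma far_inj (hp : 0 < p) (hp1 : p < 1) (hm : 0 < m) (hM : 14 * (1125 + 10 * (m ^ 2 / 98)) <
    m ^ 2 / 98 * m * M) (h : Far p m q) (h' : Far p m q') (e : ff p M q = ff p M q') : q = q' := by
  obtain ⟨hX, hN, hz, hA⟩ := h
  obtain ⟨hX', hN', hz', hA'⟩ := h'
  have hn := re_nn_neg hX hN.le hm hz
  have hn' := re_nn_neg hX' hN'.le hm hz'
  have n0 := neg_ne_zero.mpr (ne_of_re hn)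
  have n0' := neg_ne_zero.mpr (ne_of_re hn')
  have h1 := s_eq hn hn' e
  set θ := arg (-nn p q') - arg (-nn p q) with hθ
  obtain ⟨x, hk⟩ : ∃ x : ℝ, exp (x + θ * I) * nn p q = nn p q' := by
    refine ⟨Real.log ‖-nn p q'‖ - Real.log ‖-nn p q‖, ?_⟩
    have : ((Real.log ‖-nn p q'‖ - Real.log ‖-nn p q‖ : ℝ) + θ * I : ℂ) =
        log (-nn p q') - log (-nn p q) := by
      rw [hθ, Complex.log, Complex.log]; push_cast; ring
    rw [this, exp_sub, exp_log n0, exp_log n0', neg_div_neg_eq, div_mul_cancel₀ _ (ne_of_re hn)]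
  have hv : vv p q' - 1 = exp (x + θ * I) * (vv p q - 1) := by
    apply mul_right_cancel₀ (ne_of_re hn)
    rw [← h1, ← hk]; ring
  have a1 := sphere hN hN' (by unfold nn at hk; linear_combination -hk - 3 / 2 * hv) hv
    (by positivity) (dist_ge hX hN.le hm.le hz) (dist_ge hX' hN'.le hm.le hz')
  have key : ∀ q : C3, q ∈ XS p → m ≤ ‖q 2‖ → m ≤ ‖AA p q‖ → Real.log ‖(ff p M q).2‖ =
      Real.log ‖AA p q‖ - Real.log ‖q 2‖ - M * arg (-nn p q) := by
    intro q hX hz hA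
    have t0 : ‖ta p q‖ * ‖q 2‖ = ‖AA p q‖ := by rw [← norm_mul, ta_mul hX]
    have t1 : ‖ta p q‖ ≠ 0 := fun h => by rw [h, zero_mul] at t0; linarith
    simp only [ff]
    rw [← ta, norm_mul, Complex.norm_exp, Real.log_mul t1 (Real.exp_pos _).ne', Real.log_exp, ← t0,
      Real.log_mul t1 (hm.trans_le hz).ne']
    simp [log_im]
    ring
  have a2 := key q hX hz hA
  rw [e, key q' hX' hz' hA'] at a2
  have a3 := log_lip hm hA' hA
  have a4 := log_lip hm hz' hz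
  have a5 := lipA hN'.le hN.le (norm_2p hp hp1)
  have a6 := lipA (w := 0) hN'.le hN.le (by simp)
  rw [sub_zero, sub_zero, ← z_eq hX, ← z_eq hX'] at a6
  rw [← AA, ← AA] at a5
  have a7 : M * θ = (Real.log ‖AA p q'‖ - Real.log ‖AA p q‖) -
      (Real.log ‖q' 2‖ - Real.log ‖q 2‖) := by rw [hθ]; linarith
  have hM0 : 0 < M := by
    by_contra hc
    nlinarith [mul_nonneg (by positivity : 0 ≤ m ^ 2 / 98 * m) (neg_nonneg.mpr (not_lt.mp hc)),
      sq_nonneg m]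
  have a8 : m * (M * |θ|) ≤ 14 * (‖uu p q' - uu p q‖ + ‖vv p q' - vv p q‖) := by
    have := abs_sub (Real.log ‖AA p q'‖ - Real.log ‖AA p q‖) (Real.log ‖q' 2‖ - Real.log ‖q 2‖)
    rw [← a7, abs_mul, abs_of_pos hM0] at this
    nlinarith
  have d0 : 0 < m ^ 2 / 98 := by positivity
  have a9 : |θ| ≤ 0 := by
    by_contra hc
    nlinarith [mul_le_mul_of_nonneg_left a8 d0.le, mul_lt_mul_of_pos_right hM (not_le.mp hc)]
  have b1 : ‖uu p q' - uu p q‖ + ‖vv p q' - vv p q‖ ≤ 0 := by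
    rw [le_antisymm a9 (abs_nonneg _), mul_zero] at a1
    exact nonpos_of_mul_nonpos_right a1 d0 |>.trans le_rfl
  have b2 := norm_nonneg (uu p q' - uu p q)
  have b3 := norm_nonneg (vv p q' - vv p q)
  exact XS_ext hX hX' (norm_pos_iff.mp (hm.trans_le hz))
    (sub_eq_zero.mp (norm_eq_zero.mp (by linarith))).symm
    (sub_eq_zero.mp (norm_eq_zero.mp (by linarith))).symm

lemma imm (hp : 0 < p) (hX : q ∈ XS p) (hn : (nn p q).re < 0) (hE : EE p M q ≠ 0) (W : C3)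
    (hW : dPX p q W = 0) (hf : fderiv ℂ (ff p M) q W = 0) : W = 0 := by
  have n0 := ne_of_re hn
  have hs : -nn p q ∈ slitPlane := Or.inl (by simpa using hn)
  have hp' : (p:ℂ) ≠ 0 := by exact_mod_cast hp.ne'
  have du : HasDerivAt (fun s : ℂ => uu p (q + s • W)) (W 0 * q 2 + q 0 * W 2) 0 := by
    have := ((hasDerivAt_line q W 0).mul (hasDerivAt_line q W 2)).const_add ((p:ℂ) ^ 3)
    simpa [uu] using this
  have dv : HasDerivAt (fun s : ℂ => vv p (q + s • W)) (W 1 * q 2 + q 1 * W 2) 0 := by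
    have := ((hasDerivAt_line q W 1).mul (hasDerivAt_line q W 2)).const_add ((p:ℂ) ^ 2)
    simpa [vv] using this
  set a := W 0 * q 2 + q 0 * W 2 with ha
  set b := W 1 * q 2 + q 1 * W 2 with hb
  have dn : HasDerivAt (fun s : ℂ => -nn p (q + s • W)) (-(a + 3 / 2 * b)) 0 :=
    ((du.sub_const 1).add ((dv.sub_const 1).const_mul (3 / 2))).neg
  have d1 := ((du.sub_const 1).sub ((dv.sub_const 1).const_mul (3 / 2))).div dn (by simpa using n0)
  have d2 := (((hasDerivAt_line q W 0).const_mul (4 * (p:ℂ) ^ 3)).const_sub 1).mul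
    ((dn.clog (by simpa using hs)).const_mul (I * M)).cexp
  have hd : DifferentiableAt ℂ (ff p M) q := by
    have h1 : Differentiable ℂ (nn p) := by unfold nn; fun_prop
    unfold ff
    have h2 : DifferentiableAt ℂ (fun q => -nn p q) q := (h1 q).neg
    have h3 : DifferentiableAt ℂ (fun q => (uu p q - 1) - 3 / 2 * (vv p q - 1)) q := by fun_prop
    have h4 : DifferentiableAt ℂ (fun q : C3 => 1 - 4 * (p:ℂ) ^ 3 * q 0) q := by fun_prop
    exact (h3.mul (h2.inv (neg_ne_zero.mpr n0))).prodMk (h4.mul ((h2.clog hs).const_mul _).cexp)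
  rw [fderiv_along hd (d1.prodMk d2), Prod.mk_eq_zero] at hf
  obtain ⟨e1, e2⟩ := hf
  simp only [Pi.sub_apply, zero_smul, add_zero, div_eq_zero_iff, pow_eq_zero_iff two_ne_zero,
    neg_eq_zero, n0, or_false] at e1 e2
  set k := (a + 3 / 2 * b) / nn p q with hk
  have e3 : -(4 * (p:ℂ) ^ 3 * W 0) + ta p q * (I * M * k) = 0 := by
    apply mul_right_cancel₀ (exp_ne_zero (I * M * log (-nn p q)))
    rw [neg_div_neg_eq] at e2
    unfold ta
    linear_combination e2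
  have hk' : k * nn p q = a + 3 / 2 * b := div_mul_cancel₀ _ n0
  have ea : a = k * (uu p q - 1) := by
    apply mul_right_cancel₀ n0
    rw [mul_right_comm, hk']
    unfold nn at e1 ⊢
    linear_combination -e1 / 2
  have eb : b = k * (vv p q - 1) := by
    unfold nn at hk'
    linear_combination 2 / 3 * (-hk' - ea)
  have ez : W 2 = 2 * uu p q * a - 3 * vv p q ^ 2 * b := by
    have h0 : PX p q = 0 := hX
    unfold dPX at hW
    unfold PX at h0
    rw [ha, hb]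
    unfold uu vv at hW ⊢
    linear_combination -q 2 * hW - W 2 * h0
  have k0 : k = 0 := by
    refine (mul_eq_zero.mp ?_).resolve_right hE
    rw [ea, eb] at ez
    unfold EE
    unfold ta at e3 ⊢
    linear_combination q 2 * e3 - 4 * (p:ℂ) ^ 3 * q 0 * ez + 4 * (p:ℂ) ^ 3 * (ea - ha)
  rw [k0, zero_mul] at ea eb
  rw [ea, eb, mul_zero, mul_zero, sub_zero] at ez
  have w0 : W 0 = 0 := by simpa [k0, hp'] using e3
  have w1 : W 1 = 0 := by
    by_contra hc
    have z0 : q 2 = 0 := by simpa [hb, ez, hc] using eb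
    simp [dPX, w0, ez, hc, vv, z0, hp'] at hW
  ext i
  fin_cases i
  exacts [w0, w1, ez]

lemma Z_le {u v : ℂ} (h : NN u v ≤ 2) : ‖2 * u * (u - 1) - 3 * v ^ 2 * (v - 1)‖ ≤ 25 := by
  obtain ⟨h1, h2⟩ := bdd h
  have b1 := nsub1 h1
  have b2 := nsub1 h2
  refine (norm_sub_le _ _).trans ?_
  simp only [norm_mul, norm_pow, Complex.norm_ofNat]
  calc _ ≤ 2 * (3 / 2) * (5 / 2) + 3 * (3 / 2) ^ 2 * (5 / 2 : ℝ) := by gcongr
    _ ≤ _ := by norm_num

lemma far_imm (hp : 0 < p) (hp1 : p < 1) (hm : 0 < m) (hM : 35 * m + 400 < m ^ 2 * M)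
    (h : Far p m q) : EE p M q ≠ 0 := by
  obtain ⟨hX, hN, hz, hA⟩ := h
  intro h0
  have hM0 : 0 < M := by
    by_contra hc
    nlinarith [mul_nonneg (sq_nonneg m) (neg_nonneg.mpr (not_lt.mp hc))]
  obtain ⟨h1, h2⟩ := bdd hN.le
  have a1 := Z_le hN.le
  have a2 : ‖AA p q‖ ≤ 16 := by
    refine (norm_sub_le _ _).trans ?_
    have := (norm_sub_le (uu p q) _).trans (add_le_add h1 (norm_2p hp hp1))
    rw [norm_pow, norm_pow]
    calc _ ≤ (3 / 2 + 2) ^ 2 + (3 / 2 : ℝ) ^ 3 := by gcongr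
      _ ≤ _ := by norm_num
  have a3 : ‖ta p q‖ * m ≤ 16 := by
    rw [← ta_mul hX, norm_mul] at a2
    exact le_trans (by gcongr) a2
  have a4 : ‖4 * (p:ℂ) ^ 3 * (uu p q - 1)‖ ≤ 10 := by
    rw [show 4 * (p:ℂ) ^ 3 = 2 * (2 * (p:ℂ) ^ 3) by ring, norm_mul, norm_mul, Complex.norm_ofNat]
    calc _ ≤ 2 * 2 * (5 / 2 : ℝ) := by gcongr; exacts [norm_2p hp hp1, nsub1 h1]
      _ ≤ _ := by norm_num
  have a5 : M * ‖AA p q‖ ≤ 10 + (1 + ‖ta p q‖) * 25 := by
    have e : I * M * AA p q = 4 * (p:ℂ) ^ 3 * (uu p q - 1) - (1 - ta p q) *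
        (2 * uu p q * (uu p q - 1) - 3 * vv p q ^ 2 * (vv p q - 1)) := by
      rw [EE, ta_mul hX] at h0
      linear_combination h0
    have := congrArg norm e
    rw [norm_mul, norm_mul, norm_I, one_mul, norm_real, Real.norm_of_nonneg hM0.le] at this
    rw [this]
    refine (norm_sub_le _ _).trans (add_le_add a4 ?_)
    rw [norm_mul]
    gcongr
    exact (norm_sub_le _ _).trans (by rw [norm_one])
  nlinarith [mul_le_mul_of_nonneg_left hA hM0.le, mul_le_mul_of_nonneg_left a5 hm.le]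

end Pool.Agent.P.MP_e5acfa_ag.PkgD
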