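import Pool.Agent.P.MP_e5acfa_ag.D2

/-! Package D, part 3: the cap and the tip of the cylinder. -/

open Complex Set

namespace Pool.Agent.P.MP_e5acfa_ag.PkgD

/-- parameters of a point of the cap or of the cylinder -/
def Tp (ε : ℝ) (c : ℂ) : Prop :=
  0 ≤ c.re ∧ 0 ≤ (c ^ 2).re ∧ 0 < ε ∧ ε ≤ 3 / 10 ∧ (1 - ε) ^ 2 + ‖1 - ε - c ^ 3‖ ^ 2 ≤ 1

variable {ε ε' : ℝ} {c c' : ℂ}

lemma Tp.beta (h : Tp ε c) : ‖1 - ε - c ^ 3‖ ^ 2 ≤ 2 * ε := by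
  nlinarith [h.2.2.2.2, sq_nonneg ε]

lemma Tp.beta' (h : Tp ε c) : ‖1 - ε - c ^ 3‖ ≤ 3 / 4 :=
  le_of_pow_le_pow_left₀ two_ne_zero (by norm_num) (by nlinarith [h.2.2.2.2, h.2.2.2.1, h.2.2.1])

lemma Tp.T_le (h : Tp ε c) : ‖1 - c ^ 3‖ ^ 2 ≤ 5 * ε := by
  have h1 : ‖1 - c ^ 3‖ ≤ ‖1 - ε - c ^ 3‖ + ε := by
    have := norm_add_le (1 - ε - c ^ 3 : ℂ) ε
    rwa [norm_real, Real.norm_of_nonneg h.2.2.1.le,
      show (1 - ε - c ^ 3 + ε : ℂ) = 1 - c ^ 3 by ring] at this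
  have h2 := pow_le_pow_left₀ (norm_nonneg _) h1 2
  nlinarith [h.beta, h.2.2.1, h.2.2.2.1, sq_nonneg (‖1 - ε - c ^ 3‖ - ε)]

lemma norm_T (c : ℂ) : ‖1 - c ^ 3‖ = ‖1 - c‖ * ‖1 + c + c ^ 2‖ := by
  rw [← norm_mul]; congr 1; ring

lemma Tp.t_le (h : Tp ε c) : ‖1 - c‖ ≤ ‖1 - c ^ 3‖ := by
  have := re_le_norm (1 + c + c ^ 2)
  rw [add_re, add_re, one_re] at this
  rw [norm_T]
  exact le_mul_of_one_le_right (norm_nonneg _) (by linarith [h.1, h.2.1])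

lemma Tp.t_sq (h : Tp ε c) : ‖1 - c‖ ^ 2 ≤ 5 * ε :=
  (pow_le_pow_left₀ (norm_nonneg _) h.t_le 2).trans h.T_le

lemma Tp.t_le_b (h : Tp ε c) : ‖1 - c‖ ≤ ‖c ^ 2 - 1‖ := by
  have := re_le_norm (1 + c)
  rw [add_re, one_re] at this
  rw [norm_sub_rev (c ^ 2), show 1 - c ^ 2 = (1 - c) * (1 + c) by ring, norm_mul]
  exact le_mul_of_one_le_right (norm_nonneg _) (by linarith [h.1])

lemma NN_eq (ε : ℝ) (c : ℂ) : NN (2 * (1 - ε) - c ^ 3) (c ^ 2) =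
    2 * ((1 - ε) ^ 2 + ‖1 - ε - c ^ 3‖ ^ 2) := by
  have e : ‖c ^ 2‖ ^ 3 = ‖c ^ 3‖ ^ 2 := by rw [norm_pow, norm_pow]; ring
  rw [NN, e, nsq, nsq, nsq]
  simp only [sub_re, sub_im, mul_re, mul_im, one_re, one_im, ofReal_re, ofReal_im, re_ofNat,
    im_ofNat]
  ring

lemma Tp.NN_le (h : Tp ε c) : NN (2 * (1 - ε) - c ^ 3) (c ^ 2) ≤ 2 := by
  rw [NN_eq]; linarith [h.2.2.2.2]

lemma Tp.c_le (h : Tp ε c) : ‖c‖ ≤ 3 / 2 := by
  have := (bdd h.NN_le).2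
  rw [norm_pow] at this
  nlinarith

lemma Tp.n_le (h : Tp ε c) : ‖(2 * (1 - ε) - c ^ 3 - 1) + 3 / 2 * (c ^ 2 - 1)‖ ≤ 12 * ε := by
  rw [← norm_neg, show -((2 * (1 - ε) - c ^ 3 - 1) + 3 / 2 * (c ^ 2 - 1)) =
    2 * ε + (1 - c) ^ 2 * (c + 1 / 2) by ring]
  refine (norm_add_le _ _).trans ?_
  have h1 : ‖c + 1 / 2‖ ≤ 2 := (norm_add_le _ _).trans (by norm_num; linarith [h.c_le])
  rw [norm_mul, norm_mul, norm_pow, Complex.norm_ofNat, norm_real, Real.norm_of_nonneg h.2.2.1.le]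
  nlinarith [h.t_sq, norm_nonneg (c + 1 / 2), sq_nonneg ‖1 - c‖]

lemma Tp.T_small (h : Tp ε c) (he : ε ≤ 1 / 10000) : ‖1 - c ^ 3‖ ≤ 1 / 40 :=
  le_of_pow_le_pow_left₀ two_ne_zero (by norm_num) (by nlinarith [h.T_le])

lemma Tp.t_small (h : Tp ε c) (he : ε ≤ 1 / 10000) : ‖1 - c‖ ^ 2 ≤ 3 / 5 * ε := by
  have h1 := h.t_le.trans (h.T_small he)
  have h2 : (3 : ℝ) ≤ ‖1 + c + c ^ 2‖ + ‖1 - c‖ * ‖2 + c‖ := by
    have := norm_add_le (1 + c + c ^ 2) ((1 - c) * (2 + c))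
    rwa [show 1 + c + c ^ 2 + (1 - c) * (2 + c) = 3 by ring, norm_mul, Complex.norm_ofNat] at this
  have h3 : ‖2 + c‖ ≤ 7 / 2 := (norm_add_le _ _).trans (by norm_num; linarith [h.c_le])
  have h4 : ‖1 - c‖ * ‖2 + c‖ ≤ 1 / 40 * (7 / 2) := by gcongr
  have h5 : (29 / 10 : ℝ) ^ 2 ≤ ‖1 + c + c ^ 2‖ ^ 2 := by gcongr; linarith
  have := h.T_le
  rw [norm_T, mul_pow] at this
  nlinarith [sq_nonneg ‖1 - c‖, h.2.2.1]

lemma T_eq (he : (1 - ε) ^ 2 + ‖1 - ε - c ^ 3‖ ^ 2 = 1) :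
    ‖1 - c ^ 3‖ ^ 2 = 2 * ε * (1 + (1 - c ^ 3).re - ε) := by
  rw [nsq] at he ⊢
  simp only [sub_re, sub_im, one_re, one_im, ofReal_re, ofReal_im] at he ⊢
  nlinarith

lemma Tp.eps_le (h : Tp ε c) (he : (1 - ε) ^ 2 + ‖1 - ε - c ^ 3‖ ^ 2 = 1) :
    ε ≤ 50 * ‖1 - c‖ ^ 2 := by
  have h1 := T_eq he
  have h2 := (abs_le.mp ((abs_re_le_norm _).trans h.beta')).1
  have h3 : ‖1 + c + c ^ 2‖ ≤ 19 / 4 := norm_add₃_le.trans (by
    rw [norm_pow, norm_one]; nlinarith [h.c_le, norm_nonneg c])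
  have h4 : ‖1 + c + c ^ 2‖ ^ 2 ≤ (19 / 4) ^ 2 := by gcongr
  simp only [sub_re, one_re, ofReal_re] at h1 h2
  rw [norm_T, mul_pow] at h1
  nlinarith [sq_nonneg ‖1 - c‖, h.2.2.1]

lemma cap_inj (h : Tp ε c) (h' : Tp ε c') (he : ε ≤ 1 / 10000)
    (e : (c ^ 2 - 1) * ((2 * (1 - ε) - c' ^ 3 - 1) + 3 / 2 * (c' ^ 2 - 1)) =
      (c' ^ 2 - 1) * ((2 * (1 - ε) - c ^ 3 - 1) + 3 / 2 * (c ^ 2 - 1))) : c = c' := by
  have a1 := h.t_le.trans (h.T_small he)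
  have a2 := h'.t_le.trans (h'.T_small he)
  have a3 := h.t_small he
  have a4 := h'.t_small he
  obtain ⟨t, rfl⟩ : ∃ t, c = 1 - t := ⟨1 - c, by ring⟩
  obtain ⟨s, rfl⟩ : ∃ s, c' = 1 - s := ⟨1 - c', by ring⟩
  rw [sub_sub_cancel] at a1 a2 a3 a4
  have e1 : (t - s) * (4 * ε - (2 * ε * (t + s) + t * s * (3 - 2 * (t + s) + t * s))) = 0 := by
    linear_combination e
  rcases mul_eq_zero.mp e1 with e2 | e2
  · linear_combination -e2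
  exfalso
  have b0 := h.2.2.1
  have b1 : ‖t + s‖ ≤ 1 / 20 := (norm_add_le _ _).trans (by linarith)
  have b2 : ‖t * s‖ ≤ 3 / 5 * ε := by rw [norm_mul]; nlinarith [sq_nonneg (‖t‖ - ‖s‖)]
  have b3 : ‖3 - 2 * (t + s) + t * s‖ ≤ 4 := by
    refine (norm_add_le _ _).trans ?_
    have := norm_sub_le 3 (2 * (t + s))
    rw [norm_mul, Complex.norm_ofNat, Complex.norm_ofNat] at this
    linarith
  have b4 := norm_add_le (2 * ε * (t + s)) (t * s * (3 - 2 * (t + s) + t * s))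
  rw [← sub_eq_zero.mp e2, norm_mul (t * s), norm_mul, norm_mul, norm_mul, Complex.norm_ofNat,
    Complex.norm_ofNat, norm_real, Real.norm_of_nonneg b0.le] at b4
  have b5 : ‖t * s‖ * ‖3 - 2 * (t + s) + t * s‖ ≤ 3 / 5 * ε * 4 := by gcongr
  nlinarith

lemma inj_near {A B : ℂ → ℂ} (hA : ContDiffAt ℝ 1 A 0) (hB : ContDiffAt ℝ 1 B 0)
    (h : ‖B 0‖ < ‖A 0‖) : ∃ r > 0, ∀ t s : ℂ, ‖t‖ < r → ‖s‖ < r →
      starRingEnd ℂ t * A t + t * B t = starRingEnd ℂ s * A s + s * B s → t = s := by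
  obtain ⟨K, U, hU, hK⟩ := hA.exists_lipschitzOnWith
  obtain ⟨L, V, hV, hL⟩ := hB.exists_lipschitzOnWith
  obtain ⟨r, hr, hsub⟩ := Metric.mem_nhds_iff.mp (Filter.inter_mem hU hV)
  have hd : 0 < ‖A 0‖ - ‖B 0‖ := by linarith
  have K0 : (0 : ℝ) ≤ K := K.2
  have L0 : (0 : ℝ) ≤ L := L.2
  set ρ := (‖A 0‖ - ‖B 0‖) / (2 * (K + L) + 1) with hρ
  have hρ' : ρ * (2 * (K + L) + 1) = ‖A 0‖ - ‖B 0‖ := div_mul_cancel₀ _ (by positivity)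
  have ρ0 : 0 < ρ := by positivity
  refine ⟨min r ρ, lt_min hr ρ0, fun t s ht hs e => ?_⟩
  rw [lt_min_iff] at ht hs
  have mt := hsub (mem_ball_zero_iff.mpr ht.1)
  have ms := hsub (mem_ball_zero_iff.mpr hs.1)
  have m0 := hsub (Metric.mem_ball_self hr)
  have a1 := hK.norm_sub_le mt.1 ms.1
  have a2 := hL.norm_sub_le mt.2 ms.2
  have a3 := hK.norm_sub_le m0.1 mt.1
  have a4 := hL.norm_sub_le mt.2 m0.2
  rw [zero_sub, norm_neg] at a3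
  rw [sub_zero] at a4
  have a5 := norm_sub_norm_le (A 0) (A t)
  have a6 := norm_sub_norm_le (B t) (B 0)
  have e1 : starRingEnd ℂ (t - s) * A t = -(starRingEnd ℂ s * (A t - A s) + (t - s) * B t +
      s * (B t - B s)) := by rw [map_sub]; linear_combination e
  have a7 := norm_add₃_le (a := starRingEnd ℂ s * (A t - A s)) (b := (t - s) * B t)
    (c := s * (B t - B s))
  rw [← norm_neg, ← e1] at a7
  simp only [norm_mul, RCLike.norm_conj] at a7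
  by_contra hne
  have d0 := norm_pos_iff.mpr (sub_ne_zero.mpr hne)
  have b1 : ‖s‖ * ‖A t - A s‖ ≤ ρ * (K * ‖t - s‖) := by gcongr; exact hs.2.le
  have b2 : ‖s‖ * ‖B t - B s‖ ≤ ρ * (L * ‖t - s‖) := by gcongr; exact hs.2.le
  have b3 : K * ‖t‖ ≤ K * ρ := by gcongr; exact ht.2.le
  have b4 : L * ‖t‖ ≤ L * ρ := by gcongr; exact ht.2.le
  have b5 : ‖A t‖ ≤ ρ * K + ‖B t‖ + ρ * L := le_of_mul_le_mul_left (by nlinarith) d0
  nlinarith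

/-- the real factor of the antiholomorphic part -/
noncomputable def aa (t : ℂ) : ℝ :=
  2 * normSq (3 - 3 * t + t ^ 2) / (1 + (t * (3 - 3 * t + t ^ 2)).re +
    Real.sqrt ((1 + (t * (3 - 3 * t + t ^ 2)).re) ^ 2 - 2 * normSq (t * (3 - 3 * t + t ^ 2))))

lemma aa_smooth : ContDiffAt ℝ 1 aa 0 := by
  have g : ContDiff ℝ 1 fun t : ℂ => 3 - 3 * t + t ^ 2 := by fun_prop
  have T : ContDiff ℝ 1 fun t : ℂ => t * (3 - 3 * t + t ^ 2) := by fun_prop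
  have ns : ContDiff ℝ 1 fun t : ℂ => normSq t := by
    simp only [normSq_apply]
    exact (reCLM.contDiff.mul reCLM.contDiff).add (imCLM.contDiff.mul imCLM.contDiff)
  have R : ContDiff ℝ 1 fun t : ℂ => 1 + (t * (3 - 3 * t + t ^ 2)).re :=
    contDiff_const.add (reCLM.contDiff.comp T)
  exact (contDiff_const.mul (ns.comp g)).contDiffAt.div (R.contDiffAt.add
    (((R.pow 2).sub (contDiff_const.mul (ns.comp T))).contDiffAt.sqrt (by simp))) (by simp)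

lemma Tp.aa_eq (h : Tp ε c) (he : (1 - ε) ^ 2 + ‖1 - ε - c ^ 3‖ ^ 2 = 1) (h0 : ε ≤ 1 / 10000) :
    normSq (1 - c) * aa (1 - c) = 2 * ε := by
  have h1 := T_eq he
  have h2 := (abs_le.mp ((abs_re_le_norm _).trans (h.T_small h0))).1
  have e : (1 - c) * (3 - 3 * (1 - c) + (1 - c) ^ 2) = 1 - c ^ 3 := by ring
  rw [aa, ← mul_div_assoc, mul_left_comm, ← map_mul, e, normSq_eq_norm_sq, h1]
  generalize (1 - c ^ 3).re = R at h2 ⊢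
  rw [show (1 + R) ^ 2 - 2 * (2 * ε * (1 + R - ε)) = (1 + R - 2 * ε) ^ 2 by ring,
    Real.sqrt_sq (by linarith), div_eq_iff (by linarith)]
  ring

lemma tip_inj : ∃ e > 0, e ≤ 1 / 10000 ∧ ∀ (ε ε' : ℝ) (c c' : ℂ), Tp ε c → Tp ε' c' →
    (1 - ε) ^ 2 + ‖1 - ε - c ^ 3‖ ^ 2 = 1 → (1 - ε') ^ 2 + ‖1 - ε' - c' ^ 3‖ ^ 2 = 1 →
    ε ≤ e → ε' ≤ e → (c ^ 2 - 1) * ((2 * (1 - ε') - c' ^ 3 - 1) + 3 / 2 * (c' ^ 2 - 1)) =
      (c' ^ 2 - 1) * ((2 * (1 - ε) - c ^ 3 - 1) + 3 / 2 * (c ^ 2 - 1)) → c = c' ∧ ε = ε' := by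
  have i2 : ContDiffAt ℝ 1 (fun t : ℂ => (2 - t)⁻¹) 0 :=
    ContDiffAt.inv (by fun_prop) (by norm_num)
  obtain ⟨r, hr, hinj⟩ := inj_near (A := fun t => aa t * (2 - t)⁻¹)
    (B := fun t => (3 / 2 - t) * (2 - t)⁻¹)
    ((ofRealCLM.contDiff.contDiffAt.comp 0 aa_smooth).mul i2)
    (ContDiffAt.mul (by fun_prop) i2) (by norm_num [aa])
  refine ⟨min (1 / 10000) (r ^ 2 / 6), by positivity, min_le_left _ _,
    fun ε ε' c c' h h' he he' h0 h0' e => ?_⟩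
  rw [le_min_iff] at h0 h0'
  have key : ∀ {ε : ℝ} {c : ℂ}, Tp ε c → (1 - ε) ^ 2 + ‖1 - ε - c ^ 3‖ ^ 2 = 1 →
      ε ≤ 1 / 10000 ∧ ε ≤ r ^ 2 / 6 → ‖1 - c‖ < r ∧ c ^ 2 - 1 ≠ 0 ∧
        (2 * (1 - ε) - c ^ 3 - 1) + 3 / 2 * (c ^ 2 - 1) = (c ^ 2 - 1) *
        (starRingEnd ℂ (1 - c) * (aa (1 - c) * (2 - (1 - c))⁻¹) +
          (1 - c) * ((3 / 2 - (1 - c)) * (2 - (1 - c))⁻¹)) := by
    intro ε c h he h0
    have b0 := h.2.2.1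
    refine ⟨lt_of_pow_lt_pow_left₀ 2 hr.le (by nlinarith [h.t_sq]), fun h1 => ?_, ?_⟩
    · have h2 := h.t_le_b
      have h3 := h.eps_le he
      rw [h1, norm_zero] at h2
      rw [le_antisymm h2 (norm_nonneg _)] at h3
      linarith
    · have h1 : 2 - (1 - c) ≠ 0 := fun h1 => by
        have := congrArg re h1
        simp only [sub_re, re_ofNat, one_re, zero_re] at this
        linarith [h.1]
      have h2 : (1 - c) * starRingEnd ℂ (1 - c) * aa (1 - c) = 2 * ε := by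
        rw [mul_conj]; exact_mod_cast h.aa_eq he h0.1
      have h3 := mul_inv_cancel₀ h1
      linear_combination h2 + ((1 - c) * starRingEnd ℂ (1 - c) * aa (1 - c) +
        (1 - c) ^ 2 * (3 / 2 - (1 - c))) * h3
  obtain ⟨a1, a2, a3⟩ := key h he h0
  obtain ⟨a1', a2', a3'⟩ := key h' he' h0'
  have e1 := e
  rw [a3, a3', mul_left_comm] at e1
  have e2 := hinj _ _ a1' a1 (mul_left_cancel₀ a2 (mul_left_cancel₀ a2' e1))
  obtain rfl : c = c' := by linear_combination e2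
  refine ⟨rfl, ?_⟩
  have := mul_left_cancel₀ a2 e
  exact_mod_cast (by linear_combination this / 2 : (ε : ℂ) = ε')

lemma rim {e M : ℝ} {τ : ℂ} (h : Tp ε c) (h0 : ε ≤ 1 / 10000) (he0 : 0 < e) (he : e ≤ ε)
    (hγ : ε - e ≤ e ^ 2 / 500) (hτ : ‖τ‖ * e ≤ 8 * (ε - e)) :
    (1 - τ) * (2 * (2 * (1 - ε) - c ^ 3) * (2 * (1 - ε) - c ^ 3 - 1) -
      3 * (c ^ 2) ^ 2 * (c ^ 2 - 1)) - 4 * (1 - e) * (2 * (1 - ε) - c ^ 3 - 1) +
      I * M * (4 * (ε - e) * (ε - e + c ^ 3)) ≠ 0 := by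
  intro hE
  have b0 := h.2.2.1
  have a1 := h.T_small h0
  have a2 := h.t_small h0
  have a3 := Z_le h.NN_le
  have a4 := nsub1 (bdd h.NN_le).1
  set Z := 2 * (2 * (1 - ε) - c ^ 3) * (2 * (1 - ε) - c ^ 3 - 1) - 3 * (c ^ 2) ^ 2 * (c ^ 2 - 1)
    with hZ
  set w := starRingEnd ℂ (ε - e + c ^ 3) with hw
  have w1 : ‖w - 1‖ ≤ 1 / 30 := by
    have := norm_sub_le ((ε - e : ℝ) : ℂ) (1 - c ^ 3)
    rw [norm_real, Real.norm_of_nonneg (by linarith)] at this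
    rw [hw, ← map_one (starRingEnd ℂ), ← map_sub, RCLike.norm_conj,
      show ε - e + c ^ 3 - 1 = ((ε - e : ℝ) : ℂ) - (1 - c ^ 3) by push_cast; ring]
    linarith
  have w2 : ‖w‖ ≤ 2 := by
    have := norm_add_le (w - 1) 1
    rw [sub_add_cancel, norm_one] at this
    linarith
  have w3 : ‖c ^ 3 * w - 1‖ ≤ 1 / 10 := by
    have := norm_sub_le (w - 1) ((1 - c ^ 3) * w)
    rw [show w - 1 - (1 - c ^ 3) * w = c ^ 3 * w - 1 by ring, norm_mul] at this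
    have h2 : ‖1 - c ^ 3‖ * ‖w‖ ≤ 1 / 40 * 2 := by gcongr
    linarith
  have y1 : ‖(1 - c) ^ 2 * (c + 2)‖ ≤ 21 / 10 * ε := by
    have : ‖c + 2‖ ≤ 7 / 2 := (norm_add_le _ _).trans (by norm_num; linarith [h.c_le])
    rw [norm_mul, norm_pow]
    calc _ ≤ 3 / 5 * ε * (7 / 2) := by gcongr
      _ = _ := by ring
  have y2 : ‖4 * ε - (1 - c) ^ 2 * (c + 2)‖ ≤ 7 * ε := by
    refine (norm_sub_le _ _).trans ?_
    rw [norm_mul, Complex.norm_ofNat, norm_real, Real.norm_of_nonneg b0.le]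
    linarith
  have e1 : 4 * ε + I * ((M * (4 * (ε - e)) * normSq (ε - e + c ^ 3) : ℝ) : ℂ) =
      ((1 - c) ^ 2 * (c + 2) - (4 * ε - (1 - c) ^ 2 * (c + 2)) * (c ^ 3 * w - 1)) +
        ((4 * (ε - e) : ℝ) : ℂ) * (2 * (1 - ε) - c ^ 3 - 1) * w + τ * Z * w := by
    push_cast
    rw [← mul_conj, ← hw]
    rw [hZ] at hE ⊢
    linear_combination w * hE
  have e2 := re_le_norm (4 * ε + I * ((M * (4 * (ε - e)) * normSq (ε - e + c ^ 3) : ℝ) : ℂ))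
  rw [add_re, I_mul_re, ofReal_im, neg_zero, add_zero, e1] at e2
  have e3 := e2.trans (norm_add₃_le.trans (add_le_add_left (add_le_add_left (norm_sub_le _ _) _) _))
  rw [norm_mul (4 * (ε : ℂ) - _), norm_mul _ w, norm_mul _ w, norm_mul τ, norm_mul (ofReal _),
    norm_real, Real.norm_of_nonneg (by linarith), show (4 * (ε : ℂ)).re = 4 * ε by simp] at e3
  have c1 : ‖4 * ε - (1 - c) ^ 2 * (c + 2)‖ * ‖c ^ 3 * w - 1‖ ≤ 7 * ε * (1 / 10) := by gcongr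
  have c2 : 4 * (ε - e) * ‖2 * (1 - ε) - c ^ 3 - 1‖ * ‖w‖ ≤ 4 * (e ^ 2 / 500) * (5 / 2) * 2 := by
    gcongr
  have c3 : ‖τ‖ * ‖Z‖ * ‖w‖ ≤ ‖τ‖ * 25 * 2 := by gcongr
  have c4 : ‖τ‖ ≤ 8 * e / 500 := le_of_mul_le_mul_right (by nlinarith) he0
  have c5 : e ^ 2 ≤ e := by nlinarith
  linarith

end Pool.Agent.P.MP_e5acfa_ag.PkgD
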