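import Mathlib

/-! Definitions for the construction of a truncation of the tom Dieck-Petrie surface V(2,3)
that is biholomorphic to a bounded domain of the plane. -/

open Complex Set

namespace Pool.Agent.P.MP_e5acfa_ag

/-- ambient space of the surface, coordinates (xi, eta, z) -/
abbrev C3 := Fin 3 → ℂ

/-- equation of the surface -/
noncomputable def PX (p : ℝ) (q : C3) : ℂ :=
  2 * (p:ℂ)^3 * q 0 + q 0 ^ 2 * q 2 - 3 * (p:ℂ)^4 * q 1 - 3 * (p:ℂ)^2 * q 1 ^ 2 * q 2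
    - q 1 ^ 3 * q 2 ^ 2 - 1

/-- the surface -/
def XS (p : ℝ) : Set C3 := {q | PX p q = 0}

noncomputable def uu (p : ℝ) (q : C3) : ℂ := (p:ℂ)^3 + q 0 * q 2
noncomputable def vv (p : ℝ) (q : C3) : ℂ := (p:ℂ)^2 + q 1 * q 2

/-- differential of the equation at q applied to W -/
noncomputable def dPX (p : ℝ) (q W : C3) : ℂ :=
  2 * uu p q * W 0 - 3 * vv p q ^ 2 * W 1
    + (q 0 ^ 2 - 3 * (p:ℂ)^2 * q 1 ^ 2 - 2 * q 1 ^ 3 * q 2) * W 2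

/-- the convex gauge -/
noncomputable def NN (u v : ℂ) : ℝ := ‖u‖ ^ 2 + ‖v‖ ^ 3

/-- principal cube root of 1 - zeta -/
noncomputable def rho (ζ : ℂ) : ℂ := (1 - ζ) ^ ((1:ℂ) / 3)

/-- (rho^2 - 1) / zeta -/
noncomputable def vp (ζ : ℂ) : ℂ := -(1 + rho ζ) / (1 + rho ζ + rho ζ ^ 2)

noncomputable def UU (ζ l : ℂ) : ℂ := l ^ 3 * (1 + ζ)
noncomputable def VV (ζ l : ℂ) : ℂ := l ^ 2 * rho ζ ^ 2

/-- parametrisation of the surface, with lambda = p + zeta x -/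
noncomputable def Psi (p : ℝ) (ζ x : ℂ) : C3 :=
  ![((p + ζ * x) ^ 3 + x * ((p + ζ * x) ^ 2 + (p + ζ * x) * p + (p:ℂ) ^ 2)) / (4 * (p + ζ * x) ^ 6),
    ((p + ζ * x) ^ 2 * vp ζ + x * ((p + ζ * x) + p)) / (4 * (p + ζ * x) ^ 6),
    4 * (p + ζ * x) ^ 6 * ζ]

/-- the radius with lr^6 = 1/2 -/
noncomputable def lr : ℝ := (1 / 2 : ℝ) ^ (1 / 6 : ℝ)

/-- spine of the complement of the cusp -/
def KY (p : ℝ) : Set C3 := {q | q ∈ XS p ∧ NN (uu p q) (vv p q) = 2 ∧ ‖q 2‖ = 2}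

/-- the totally real cylinder -/
def KC (p : ℝ) : Set C3 :=
  {q | ∃ (ζ x : ℂ) (y : ℝ), y ∈ Icc lr p ∧ (p:ℂ) + ζ * x = y ∧ y ^ 6 * (1 + ‖ζ‖ ^ 2) = 1 ∧
    q = Psi p ζ x}

/-- the holomorphic cap -/
def KD (p : ℝ) : Set C3 := {q | ∃ ζ : ℂ, p ^ 6 * (1 + ‖ζ‖ ^ 2) ≤ 1 ∧ q = Psi p ζ 0}

/-- the compact skeleton -/
def KK (p : ℝ) : Set C3 := KY p ∪ KC p ∪ KD p

/-- supporting affine function of the gauge ball at (1,1) -/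
noncomputable def nn (p : ℝ) (q : C3) : ℂ := (uu p q - 1) + 3 / 2 * (vv p q - 1)

/-- the embedding near the skeleton -/
noncomputable def ff (p M : ℝ) (q : C3) : ℂ × ℂ :=
  (((uu p q - 1) - 3 / 2 * (vv p q - 1)) / (-nn p q),
    (1 - 4 * (p:ℂ) ^ 3 * q 0) * exp (I * M * log (-nn p q)))

/-- polynomial functions of two variables -/
def IsPoly2 (t : ℂ × ℂ → ℂ) : Prop :=
  ∃ P : MvPolynomial (Fin 2) ℂ, ∀ w : ℂ × ℂ, t w = MvPolynomial.eval ![w.1, w.2] P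

/-- polynomial functions of three variables -/
def IsPoly3 (t : C3 → ℂ) : Prop :=
  ∃ P : MvPolynomial (Fin 3) ℂ, ∀ q : C3, t q = MvPolynomial.eval q P

/-- normalised profile of the sphere -/
noncomputable def pr (s : ℝ) : ℝ := 2 * s * Real.sqrt (1 - s ^ 2)

/-! Statements of the packages. -/

/-- Package A: the surface is contractible. -/
def StmtA : Prop := ∀ p : ℝ, 0 < p → ContractibleSpace (XS p)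

/-- f restricted to A extends locally to smooth maps on open sets -/
def SmoothOn3 (A : Set C3) (f : C3 → C3) : Prop :=
  ∀ x ∈ A, ∃ (O : Set C3) (F : C3 → C3), IsOpen O ∧ x ∈ O ∧ ContDiffOn ℝ (⊤ : ℕ∞) F O ∧
    EqOn F f (A ∩ O)

/-- Package C: sublevel sets beyond the critical values are diffeomorphic to the level set. -/
def StmtC : Prop :=
  ∀ (P : C3 → ℂ) (Φ : C3 → ℝ) (c : ℝ), ContDiff ℝ (⊤ : ℕ∞) P → ContDiff ℝ (⊤ : ℕ∞) Φ →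
    (∀ T : ℝ, IsCompact {x | P x = 0 ∧ Φ x ≤ T}) →
    (∀ x, P x = 0 → c ≤ Φ x → Function.Surjective (fderiv ℝ (fun y => (P y, Φ y)) x)) →
    ∃ f g : C3 → C3, MapsTo f {x | P x = 0 ∧ Φ x < c} {x | P x = 0} ∧
      MapsTo g {x | P x = 0} {x | P x = 0 ∧ Φ x < c} ∧
      (∀ x, P x = 0 → Φ x < c → g (f x) = x) ∧ (∀ y, P y = 0 → f (g y) = y) ∧
      SmoothOn3 {x | P x = 0 ∧ Φ x < c} f ∧ SmoothOn3 {x | P x = 0} g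

/-- Package D: the map ff is an injective immersion on the skeleton. -/
def StmtD : Prop :=
  ∃ p : ℝ, 19 / 20 < p ∧ p < 1 ∧ ∃ M : ℝ, (∀ q ∈ KK p, (nn p q).re < 0) ∧ InjOn (ff p M) (KK p) ∧
    ∀ q ∈ KK p, ∀ W : C3, dPX p q W = 0 → fderiv ℂ (ff p M) q W = 0 → W = 0

/-- Package E: localising polynomials. -/
def StmtE : Prop :=
  ∀ p : ℝ, 19 / 20 < p → p < 1 → ∀ ν : ℝ, 0 < ν →
    ∃ ν' ε₁ : ℝ, 0 < ε₁ ∧ 4 * ε₁ ≤ ν' ∧ ν' ≤ ν ∧ ∀ B : ℝ, 1 ≤ B →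
      ∃ (t : Bool → ℂ × ℂ → ℂ) (κ : ℝ) (M' : ℕ), 0 < κ ∧ (∀ i, IsPoly2 (t i)) ∧
        (∀ i, ‖t i ((p:ℂ) ^ 3, (p:ℂ) ^ 2)‖ < 1) ∧
        ∀ ζ l : ℂ, ‖ζ‖ ≤ 1 →
          (∀ i, ‖l‖ ^ 6 ≤ (1 + ν') / 2 → ‖t i (UU ζ l, VV ζ l)‖ < 1) ∧
          (∀ i, 1 + ε₁ ≤ ‖l‖ ^ 6 * (1 + ‖ζ‖ ^ 2) →
            ‖t i (UU ζ l, VV ζ l)‖ ≤ (‖l‖ ^ 6 * (1 + ‖ζ‖ ^ 2)) ^ M') ∧
          ((1 + ν') / 2 ≤ ‖l‖ ^ 6 → ‖l‖ ^ 6 * (1 + ‖ζ‖ ^ 2) ≤ 1 + ε₁ →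
            (∀ i, 1 ≤ ‖t i (UU ζ l, VV ζ l)‖ →
              2 * κ * ‖t i (UU ζ l, VV ζ l)‖ ^ 2 ≤
                (fderiv ℂ (t i) (UU ζ l, VV ζ l) (3 * UU ζ l, 2 * VV ζ l) *
                  (starRingEnd ℂ) (t i (UU ζ l, VV ζ l))).re ∧
              B * ‖fderiv ℂ (t i) (UU ζ l, VV ζ l) (l ^ 3, -(2 * l ^ 2) / (3 * rho ζ))‖ ≤
                κ * ‖t i (UU ζ l, VV ζ l)‖) ∧
            ((∀ i, ‖t i (UU ζ l, VV ζ l)‖ ≤ B) →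
              ‖l‖ ^ 6 ≤ (1 + ν) / 2 ∨ ∃ y ∈ Icc lr p, ‖l - y‖ ≤ ν))

/-- Package F: the numerator polynomial g(a) = (p^3 - a) g1(a). -/
def StmtF : Prop :=
  ∀ p : ℝ, 19 / 20 < p → p < 1 → ∀ ε : ℝ, 0 < ε →
    ∃ (g : Polynomial ℂ) (ν : ℝ), 0 < ν ∧ ν ≤ ε ∧ g.eval ((p:ℂ) ^ 3) = 0 ∧
      (∀ a : ℂ, ‖a‖ ^ 2 ≤ (1 + ν) / 2 →
        ‖g.eval a - 1‖ ≤ ε ∧ ‖a * g.derivative.eval a‖ ≤ ε) ∧
      ∀ a : ℂ, (∃ s ∈ Icc (lr ^ 3) (p ^ 3), ‖a - s‖ ≤ ν) →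
        ‖a‖ < 1 ∧ ‖g.eval a‖ ≤ (1 + ε) * pr ‖a‖ ∧
          (pr ‖a‖ - ε ≤ ‖g.eval a‖ ∨
            (‖a - (p:ℂ) ^ 3‖ ≤ ε ∧ ‖a - (p:ℂ) ^ 3‖ ≤ ε * ‖g.eval a‖))

/-- the square of the Euclidean norm of the embedding q to (q, F q) -/
noncomputable def Phi {n : ℕ} (F : Fin n → C3 → ℂ) (q : C3) : ℝ :=
  ∑ i, ‖q i‖ ^ 2 + ∑ j, ‖F j q‖ ^ 2

/-- Package G: an algebraic embedding whose truncation beyond the critical values is thin. -/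
def StmtG : Prop :=
  ∀ p : ℝ, 19 / 20 < p → p < 1 → ∀ U : Set C3, IsOpen U → KK p ⊆ U →
    ∃ (n : ℕ) (F : Fin n → C3 → ℂ) (R : ℝ), 0 < R ∧ (∀ j, IsPoly3 (F j)) ∧
      (∀ q ∈ XS p, Phi F q ≤ R ^ 2 → q ∈ U) ∧
      ∀ q ∈ XS p, R ^ 2 ≤ Phi F q → ∃ W : C3, dPX p q W = 0 ∧
        (∑ i, W i * (starRingEnd ℂ) (q i) +
          ∑ j, fderiv ℂ (F j) q W * (starRingEnd ℂ) (F j q)).re ≠ 0

/-! The final statement. -/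

abbrev Cn (n : ℕ) := EuclideanSpace ℂ (Fin n)

noncomputable def ev {n : ℕ} (P : MvPolynomial (Fin n) ℂ) (x : Cn n) : ℂ :=
  MvPolynomial.eval (fun i => x i) P

noncomputable def polyMap {m n : ℕ} (φ : Fin n → MvPolynomial (Fin m) ℂ) (x : Cn m) : Cn n :=
  WithLp.toLp 2 (fun i => ev (φ i) x)

def IsSmoothSurface {n : ℕ} (X : Set (Cn n)) : Prop :=
  (∃ S : Set (MvPolynomial (Fin n) ℂ), X = {x | ∀ P ∈ S, ev P x = 0}) ∧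
  ∀ x ∈ X, ∃ (k : ℕ) (P : Fin k → MvPolynomial (Fin n) ℂ), k + 2 = n ∧
    (∀ j, ∀ y ∈ X, ev (P j) y = 0) ∧
    LinearIndependent ℂ (fun j => fun i => ev (MvPolynomial.pderiv i (P j)) x) ∧
    ∀ᶠ y in nhds x, (∀ j, ev (P j) y = 0) → y ∈ X

def IsoToPlane {n : ℕ} (X : Set (Cn n)) : Prop :=
  ∃ (φ : Fin n → MvPolynomial (Fin 2) ℂ) (ψ : Fin 2 → MvPolynomial (Fin n) ℂ),
    (∀ w, polyMap φ w ∈ X) ∧ (∀ w, polyMap ψ (polyMap φ w) = w) ∧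
    ∀ x ∈ X, polyMap φ (polyMap ψ x) = x

def IsTangent {n : ℕ} (X : Set (Cn n)) (x ξ : Cn n) : Prop :=
  ∀ P : MvPolynomial (Fin n) ℂ, (∀ y ∈ X, ev P y = 0) →
    ∑ i, ev (MvPolynomial.pderiv i P) x * ξ i = 0

def trunc {n : ℕ} (X : Set (Cn n)) (R : ℝ) : Set (Cn n) := {x | x ∈ X ∧ ‖x‖ ^ 2 < R ^ 2}

def SmoothOn {m n : ℕ} (A : Set (Cn m)) (f : Cn m → Cn n) : Prop :=
  ∀ x ∈ A, ∃ (O : Set (Cn m)) (F : Cn m → Cn n), IsOpen O ∧ x ∈ O ∧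
    ContDiffOn ℝ (⊤ : ℕ∞) F O ∧ EqOn F f (A ∩ O)

def HolOn {m n : ℕ} (A : Set (Cn m)) (f : Cn m → Cn n) : Prop :=
  ∀ x ∈ A, ∃ (O : Set (Cn m)) (F : Cn m → Cn n), IsOpen O ∧ x ∈ O ∧
    DifferentiableOn ℂ F O ∧ EqOn F f (A ∩ O)

def Inverse {m n : ℕ} (A : Set (Cn m)) (B : Set (Cn n)) (f : Cn m → Cn n) (g : Cn n → Cn m) : Prop :=
  MapsTo f A B ∧ MapsTo g B A ∧ (∀ x ∈ A, g (f x) = x) ∧ ∀ y ∈ B, f (g y) = y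

def Diffeomorphic {m n : ℕ} (A : Set (Cn m)) (B : Set (Cn n)) : Prop :=
  ∃ f g, Inverse A B f g ∧ SmoothOn A f ∧ SmoothOn B g

def Biholomorphic {m n : ℕ} (A : Set (Cn m)) (B : Set (Cn n)) : Prop :=
  ∃ f g, Inverse A B f g ∧ HolOn A f ∧ HolOn B g

def Admissible {n : ℕ} (X : Set (Cn n)) (R : ℝ) : Prop :=
  0 < R ∧ (∀ x ∈ X, R ≤ ‖x‖ → ∃ ξ, IsTangent X x ξ ∧ (inner ℂ x ξ).re ≠ 0) ∧
    Diffeomorphic (trunc X R) X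

def IsBddStrictlyPsc (Ω : Set (Cn 2)) : Prop :=
  IsOpen Ω ∧ IsConnected Ω ∧ Bornology.IsBounded Ω ∧
  ∃ (O : Set (Cn 2)) (ρ : Cn 2 → ℝ), IsOpen O ∧ frontier Ω ⊆ O ∧ ContDiffOn ℝ (⊤ : ℕ∞) ρ O ∧
    Ω ∩ O = {w | w ∈ O ∧ ρ w < 0} ∧
    ∀ w ∈ frontier Ω, fderiv ℝ ρ w ≠ 0 ∧
      ∀ ξ : Cn 2, ξ ≠ 0 → fderiv ℝ ρ w ξ = 0 → fderiv ℝ ρ w (I • ξ) = 0 →
        0 < fderiv ℝ (fderiv ℝ ρ) w ξ ξ + fderiv ℝ (fderiv ℝ ρ) w (I • ξ) (I • ξ)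

def Goal : Prop :=
  ∃ (n : ℕ) (X : Set (Cn n)) (R : ℝ) (Ω : Set (Cn 2)),
    IsSmoothSurface X ∧ ContractibleSpace X ∧ ¬ IsoToPlane X ∧ Admissible X R ∧
    IsBddStrictlyPsc Ω ∧ Biholomorphic (trunc X R) Ω

/-- Package N: polynomial curves on the surface have constant z. -/
def StmtN : Prop :=
  ∀ p : ℝ, 0 < p → ∀ a b c : Polynomial ℂ,
    (∀ s : ℂ, PX p ![a.eval s, b.eval s, c.eval s] = 0) → c.natDegree = 0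

end Pool.Agent.P.MP_e5acfa_ag
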