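import Pool.Agent.P.MP_e5acfa_ag.E3

/-! Package E: localising polynomials. -/

open Complex Set

namespace Pool.Agent.P.MP_e5acfa_ag.PkgE

lemma pow6 {x : ℝ} (h0 : 0 ≤ x) (h1 : x ≤ 1) : (1 + x) ^ 6 ≤ 1 + 63 * x := by
  have a1 : (1 + x) ^ 2 ≤ 1 + 3 * x := by nlinarith
  have a3 : (1 + x) ^ 6 ≤ (1 + 3 * x) ^ 3 := by
    calc (1 + x) ^ 6 = ((1 + x) ^ 2) ^ 3 := by ring
      _ ≤ _ := by gcongr
  have a4 : x ^ 2 ≤ x := by nlinarith
  have a5 : x ^ 3 ≤ x := by nlinarith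
  nlinarith

lemma mid {r z ν' : ℝ} (hr : 0 ≤ r) (hz : 0 ≤ z) (h0 : 0 < ν') (h1 : ν' ≤ 1)
    (ha : 1 + ν' ≤ r ^ 6) (hb : r ^ 6 * (1 + z ^ 2) ≤ 2 + ν' / 2) :
    r ≤ 3 / 2 ∧ 1 + ν' / 63 ≤ r ∧ z ≤ 1 - ν' / 4 ∧ r ^ 6 * z ≤ 1 + ν' / 4 := by
  have hr6 : 0 ≤ r ^ 6 := by positivity
  refine ⟨?_, ?_, ?_, ?_⟩
  · by_contra hc
    push Not at hc
    have a1 : (3 / 2 : ℝ) ^ 6 ≤ r ^ 6 := pow_le_pow_left₀ (by norm_num) hc.le 6
    nlinarith [mul_nonneg hr6 (sq_nonneg z)]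
  · by_contra hc
    push Not at hc
    have a1 : r ^ 6 < (1 + ν' / 63) ^ 6 := pow_lt_pow_left₀ hc hr (by norm_num)
    have a2 := pow6 (x := ν' / 63) (by positivity) (by linarith)
    linarith
  · by_contra hc
    push Not at hc
    have a1 : (1 - ν' / 4) ^ 2 ≤ z ^ 2 := pow_le_pow_left₀ (by linarith) hc.le 2
    have a2 : (1 + ν') * (1 + z ^ 2) ≤ r ^ 6 * (1 + z ^ 2) := by gcongr
    nlinarith
  · nlinarith [mul_nonneg hr6 (sq_nonneg (z - 1))]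

/-- the data for one centre -/
structure Dat (g : ℕ → ℕ → ℂ) (q : ℕ → ℂ) (c : ℂ) (C η ν' δ R : ℝ) (M : ℕ) : Prop where
  hC : 0 < C
  hη1 : η ≤ 1
  hν0 : 0 < ν'
  hν : ν' ≤ η
  hR : 0 < R
  hM : 1 ≤ M
  hg : ∀ i ≤ 2, ∀ n, ‖g i n‖ ≤ C * (1 + η) ^ n
  hf : ∀ ζ : ℂ, ‖ζ‖ < 1 - ν' / 16 → ∀ i ≤ 2, ∀ n,
    ‖(rho ζ ^ (2 * i))⁻¹ - ∑ k ∈ Finset.range n, g i k * ζ ^ k‖ ≤ C * ((1 + η) * ‖ζ‖) ^ n
  hq : ∀ k, ‖q k‖ ≤ 1
  hL : ∀ w : ℂ, w ≠ 0 → ((JJ w - c) / R) ^ M = ∑ k ∈ Finset.range M, q k * (w⁻¹) ^ (M - k) +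
        ∑ j ∈ Finset.range (M + 1), q (M + j) * w ^ j
  hK : (16384 * C + 1) * (M:ℝ) ^ 2 ≤ δ * (1 + η) ^ M

/-- the normalised sum -/
noncomputable def GG (g : ℕ → ℕ → ℂ) (q : ℕ → ℂ) (η : ℝ) (M : ℕ) (w ζ : ℂ) : ℂ :=
  SS g q M w ζ / (((1 + η) ^ (3 * M) : ℝ) : ℂ)

/-- the normalised power -/
noncomputable def AA (c : ℂ) (η R : ℝ) (M : ℕ) (w : ℂ) : ℂ :=
  ((JJ w - c) / R) ^ M / (((1 + η) ^ (3 * M) : ℝ) : ℂ)

variable {g : ℕ → ℕ → ℂ} {q : ℕ → ℂ} {c : ℂ} {C η ν' δ R : ℝ} {M : ℕ}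

lemma Dat.err (D : Dat g q c C η ν' δ R M) {w ζ : ℂ} (hw1 : 1 ≤ ‖w‖) (hw2 : ‖w‖ ≤ 2)
    (hζ : ‖ζ‖ ≤ 1 - ν' / 8) (hz : ‖w‖ ^ 6 * ‖ζ‖ ≤ (1 + η) ^ 7) :
    ‖GG g q η M w ζ - AA c η R M w‖ ≤ δ := by
  have hν0 := D.hν0
  have hν := D.hν
  have hw0 : w ≠ 0 := by
    intro h0
    rw [h0] at hw1
    norm_num at hw1
  have h := SS_err (γ := 1 + η) (by linarith) (by linarith [D.hη1]) D.hC.le D.hg D.hq D.hM
    (show ‖ζ‖ < 1 by linarith) (D.hf ζ (by linarith)) hw1 hw2 hz (D.hL w hw0)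
  unfold GG AA
  have hpos : 0 < (1 + η) ^ (3 * M) := pow_pos (by linarith) _
  rw [← sub_div, norm_div, Complex.norm_real, Real.norm_of_nonneg hpos.le, div_le_iff₀ hpos]
  refine h.trans ?_
  calc _ ≤ (δ * (1 + η) ^ M) * (1 + η) ^ (2 * M) :=
        mul_le_mul_of_nonneg_right D.hK (pow_nonneg (by linarith) _)
    _ = _ := by ring

lemma Dat.small (D : Dat g q c C η ν' δ R M) {w ζ : ℂ} (hw : ‖w‖ ^ 6 ≤ 1 + ν')
    (hζ : ‖ζ‖ ≤ 1) : ‖GG g q η M w ζ‖ ≤ δ := by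
  have hν0 := D.hν0
  have hν := D.hν
  have hC := D.hC
  have hw1 : ‖w‖ ≤ 1 + η := by
    by_contra hc
    push Not at hc
    have a1 : ‖w‖ ^ 1 ≤ ‖w‖ ^ 6 := pow_le_pow_right₀ (by linarith) (by norm_num)
    rw [pow_one] at a1
    linarith
  have h := SS_le (γ := 1 + η) (W := 1 + η) (by linarith) D.hC.le D.hg D.hq D.hM hζ
    (by linarith) hw1
  unfold GG
  have hpos : 0 < (1 + η) ^ (3 * M) := pow_pos (by linarith) _
  rw [norm_div, Complex.norm_real, Real.norm_of_nonneg hpos.le, div_le_iff₀ hpos]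
  refine h.trans ?_
  have a1 : 64 * C * (M:ℝ) ^ 2 ≤ δ * (1 + η) ^ M := by
    refine le_trans ?_ D.hK
    gcongr
    linarith
  have a2 : 0 ≤ (1 + η) ^ M := pow_nonneg (by linarith) _
  calc _ ≤ (δ * (1 + η) ^ M) * (1 + η) ^ M * (1 + η) ^ M := by gcongr
    _ = _ := by ring

lemma Dat.big (D : Dat g q c C η ν' δ R M) (hδ : δ ≤ 1) {w ζ : ℂ} {X : ℝ} (hX : 1 ≤ X)
    (hw : ‖w‖ ^ 6 ≤ 2 * X) (hζ : ‖ζ‖ ≤ 1) : ‖GG g q η M w ζ‖ ≤ 2 ^ M * X ^ M := by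
  have hν0 := D.hν0
  have hν := D.hν
  have hC := D.hC
  have hw1 : ‖w‖ ≤ 2 * X := by
    by_contra hc
    push Not at hc
    have a1 : ‖w‖ ^ 1 ≤ ‖w‖ ^ 6 := pow_le_pow_right₀ (by linarith) (by norm_num)
    rw [pow_one] at a1
    linarith
  have h := SS_le (γ := 1 + η) (W := 2 * X) (by linarith) D.hC.le D.hg D.hq D.hM hζ
    (by linarith) hw1
  unfold GG
  have hpos : 0 < (1 + η) ^ (3 * M) := pow_pos (by linarith) _
  rw [norm_div, Complex.norm_real, Real.norm_of_nonneg hpos.le, div_le_iff₀ hpos]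
  refine h.trans ?_
  have a2 : 1 ≤ (1 + η) ^ M := one_le_pow₀ (by linarith)
  have a1 : 64 * C * (M:ℝ) ^ 2 ≤ (1 + η) ^ M * (1 + η) ^ M := by
    have b1 : 64 * C * (M:ℝ) ^ 2 ≤ δ * (1 + η) ^ M := by
      refine le_trans ?_ D.hK
      gcongr
      linarith
    refine b1.trans ?_
    gcongr
    linarith
  calc _ ≤ ((1 + η) ^ M * (1 + η) ^ M) * (1 + η) ^ M * (2 * X) ^ M := by gcongr
    _ = _ := by rw [mul_pow]; ring

lemma Dat.dz (D : Dat g q c C η ν' δ R M) {w ζ : ℂ} (hw1 : 1 ≤ ‖w‖) (hw2 : ‖w‖ ≤ 3 / 2)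
    (hζ : ‖ζ‖ ≤ 1 - ν' / 4) (hz : ‖w‖ ^ 6 * ‖ζ‖ ≤ 1 + ν' / 4) :
    ‖deriv (fun z => GG g q η M w z) ζ‖ ≤ δ / (ν' / 64) := by
  have hν0 := D.hν0
  have hν := D.hν
  have hη1 := D.hη1
  rw [← deriv_sub_const (AA c η R M w)]
  have hn : ∀ z : ℂ, ‖z - ζ‖ ≤ ν' / 64 → ‖z‖ ≤ ‖ζ‖ + ν' / 64 := by
    intro z hz
    have := norm_add_le ζ (z - ζ)
    rw [add_sub_cancel] at this
    linarith
  refine cauchy (by positivity) (fun z hz => ?_) (fun z hz' => ?_)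
  · have := hn z hz
    unfold GG
    exact ((SS_diff_z g q M w (by linarith)).div_const _).sub_const _
  · have h1 := hn z hz'
    refine D.err hw1 (by linarith) (by linarith) ?_
    have a1 : ‖w‖ ^ 6 ≤ 2 ^ 6 := pow_le_pow_left₀ (norm_nonneg _) (by linarith) 6
    have a2 : ‖w‖ ^ 6 * ‖z‖ ≤ ‖w‖ ^ 6 * (‖ζ‖ + ν' / 64) := by gcongr
    have a3 : ‖w‖ ^ 6 * (ν' / 64) ≤ 2 ^ 6 * (ν' / 64) := by gcongr
    have a4 : (1 + η) ^ 2 ≤ (1 + η) ^ 7 := pow_le_pow_right₀ (by linarith) (by norm_num)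
    nlinarith

lemma Dat.dw (D : Dat g q c C η ν' δ R M) {w ζ : ℂ} (hw1 : 1 + ν' / 63 ≤ ‖w‖)
    (hw2 : ‖w‖ ≤ 3 / 2) (hζ : ‖ζ‖ ≤ 1 - ν' / 4) (hz : ‖w‖ ^ 6 * ‖ζ‖ ≤ 1 + ν' / 4)
    (hne : JJ w - c ≠ 0) :
    ∃ G' e' : ℂ, HasDerivAt (fun w => GG g q η M w ζ) G' w ∧ ‖e'‖ ≤ 2 * (δ / (ν' / 63)) ∧
      w * G' = (M:ℂ) * AA c η R M w * ((w - w⁻¹) / (JJ w - c)) + e' := by
  have hν0 := D.hν0
  have hν := D.hν
  have hη1 := D.hη1
  have hne0 : ∀ z : ℂ, 1 ≤ ‖z‖ → z ≠ 0 := by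
    intro z hz h0
    rw [h0] at hz
    norm_num at hz
  have hGd : Differentiable ℂ (fun w => GG g q η M w ζ) := by
    unfold GG
    exact (SS_diff_w g q M ζ).div_const _
  have hAd : ∀ z : ℂ, 1 ≤ ‖z‖ → DifferentiableAt ℂ (AA c η R M) z := by
    intro z hz
    obtain ⟨A', hA', -⟩ := A_deriv (c := c) (N := (((1 + η) ^ (3 * M) : ℝ) : ℂ)) M D.hM D.hR
      (hne0 z hz)
    exact hA'.differentiableAt
  obtain ⟨A', hA', hA2⟩ := A_deriv (c := c) (N := (((1 + η) ^ (3 * M) : ℝ) : ℂ)) M D.hM D.hR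
      (hne0 w (by linarith))
  have hA'' : HasDerivAt (AA c η R M) A' w := hA'
  have hn : ∀ z : ℂ, ‖z - w‖ ≤ ν' / 63 → 1 ≤ ‖z‖ ∧ ‖z‖ ≤ ‖w‖ + ν' / 63 := by
    intro z hz
    have h1 := norm_add_le w (z - w)
    rw [add_sub_cancel] at h1
    have h2 := norm_sub_le z (z - w)
    rw [sub_sub_cancel] at h2
    constructor <;> linarith
  have hc : ‖deriv (fun z => GG g q η M z ζ - AA c η R M z) w‖ ≤ δ / (ν' / 63) := by
    refine cauchy (by positivity) (fun z hz => (hGd z).sub (hAd z (hn z hz).1)) (fun z hz' => ?_)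
    obtain ⟨h1, h2⟩ := hn z hz'
    refine D.err h1 (by linarith) (by linarith) ?_
    have a1 : ‖z‖ ≤ ‖w‖ * (1 + η) := by nlinarith
    have a2 : ‖z‖ ^ 6 ≤ (‖w‖ * (1 + η)) ^ 6 := pow_le_pow_left₀ (norm_nonneg _) a1 6
    have a3 : 0 ≤ (1 + η) ^ 6 := pow_nonneg (by linarith) _
    calc ‖z‖ ^ 6 * ‖ζ‖ ≤ (‖w‖ * (1 + η)) ^ 6 * ‖ζ‖ := by gcongr
      _ = (‖w‖ ^ 6 * ‖ζ‖) * (1 + η) ^ 6 := by ring
      _ ≤ (1 + η) * (1 + η) ^ 6 := by gcongr; linarith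
      _ = _ := by ring
  have hG := (hGd w).hasDerivAt
  have hd : deriv (fun z => GG g q η M z ζ - AA c η R M z) w =
      deriv (fun w => GG g q η M w ζ) w - A' := (hG.sub hA'').deriv
  rw [hd] at hc
  refine ⟨_, w * (deriv (fun w => GG g q η M w ζ) w - A'), hG, ?_, ?_⟩
  · rw [norm_mul]
    exact mul_le_mul (by linarith) hc (norm_nonneg _) (by norm_num)
  · have := hA2 hne
    unfold AA
    rw [← this]
    ring

lemma norm_AA (hR : 0 < R) (hη : 0 ≤ η) (w : ℂ) :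
    ‖AA c η R M w‖ = (‖JJ w - c‖ / R / (1 + η) ^ 3) ^ M := by
  unfold AA
  have hpos : 0 < (1 + η) ^ (3 * M) := pow_pos (by linarith) _
  rw [norm_div, norm_pow, norm_div, Complex.norm_real, Complex.norm_real,
    Real.norm_of_nonneg hpos.le, Real.norm_of_nonneg hR.le, div_pow _ ((1 + η) ^ 3), ← pow_mul]

lemma norm_w (l : ℂ) : ‖l / (lr : ℂ)‖ ^ 6 = 2 * ‖l‖ ^ 6 := by
  rw [norm_div, Complex.norm_real, Real.norm_of_nonneg lr_pos.le, div_pow, lr_six]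
  ring

lemma quot_bounds {w : ℂ} {m h : ℝ} (hm : 0 ≤ m) (hc : c.re = m) (hR : 0 < R)
    (hR2 : R ^ 2 = (m + 2) ^ 2 + c.im ^ 2) (hh : 0 < h) (hw1 : 1 + h ≤ ‖w‖) (hw2 : ‖w‖ ≤ 3 / 2)
    (hJ : R ≤ ‖JJ w - c‖) :
    h / (2 * (3 + m + |c.im|) ^ 2) ≤ ((w - w⁻¹) / (JJ w - c)).re ∧
      ‖(w - w⁻¹) / (JJ w - c)‖ ≤ 3 / 2 := by
  have hinv : ‖w⁻¹‖ ≤ 1 := by
    rw [norm_inv]
    exact inv_le_one_of_one_le₀ (by linarith)
  have hR3 : 2 ≤ R := by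
    by_contra hc2
    push Not at hc2
    nlinarith [sq_nonneg c.im]
  have hJpos : 0 < ‖JJ w - c‖ := by linarith
  constructor
  · have h1 := L2 (w := w) (c := c) (by linarith) hm hc (by rw [← hR2]; gcongr)
    have e : (w - w⁻¹) / (JJ w - c) =
        ((w - w⁻¹) * (starRingEnd ℂ) (JJ w - c)) / ((‖JJ w - c‖ ^ 2 : ℝ) : ℂ) := by
      have hne : JJ w - c ≠ 0 := norm_pos_iff.mp hJpos
      have hne2 : (starRingEnd ℂ) (JJ w - c) ≠ 0 := by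
        rwa [map_ne_zero]
      have := Complex.mul_conj' (JJ w - c)
      push_cast
      rw [← this]
      field_simp
    rw [e, div_ofReal_re]
    have h2 : ‖JJ w - c‖ ≤ 3 + m + |c.im| := by
      have a1 : ‖JJ w‖ ≤ 3 := by
        unfold JJ
        have := norm_add_le w w⁻¹
        linarith
      have a2 := Complex.norm_le_abs_re_add_abs_im c
      rw [hc, abs_of_nonneg hm] at a2
      have := norm_sub_le (JJ w) c
      linarith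
    have h3 : h / 2 ≤ (‖w‖ ^ 2 - 1) / 2 := by nlinarith
    calc h / (2 * (3 + m + |c.im|) ^ 2) = (h / 2) / (3 + m + |c.im|) ^ 2 := by
          rw [div_div]
      _ ≤ (h / 2) / ‖JJ w - c‖ ^ 2 := by gcongr
      _ ≤ _ := by gcongr; linarith
  · rw [norm_div, div_le_iff₀ hJpos]
    have := norm_sub_le w w⁻¹
    linarith

end Pool.Agent.P.MP_e5acfa_ag.PkgE

namespace Pool.Agent.P.MP_e5acfa_ag

open PkgE

theorem stmtE : StmtE := by
  intro p hp hp1 ν hν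
  obtain ⟨d, hd, hL1⟩ := L1 hp hν
  have hlr := lr_pos
  have hwp1 : 1 ≤ p / lr := by
    rw [le_div_iff₀ hlr]
    linarith [lr_lt hp]
  have hwp2 : p / lr ≤ 2 := by
    rw [div_le_iff₀ hlr]
    linarith [lr_gt]
  obtain ⟨m, hm⟩ : ∃ m, m = (p / lr + (p / lr)⁻¹ - 2) / 2 := ⟨_, rfl⟩
  rw [← hm] at hL1
  have hm0 : 0 ≤ m := by
    have h1 : (p / lr) * (p / lr)⁻¹ = 1 := mul_inv_cancel₀ (by linarith)
    have h2 : 0 < (p / lr)⁻¹ := inv_pos.mpr (by linarith)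
    rw [hm]
    nlinarith [sq_nonneg (p / lr - 1), mul_nonneg h2.le (sq_nonneg (p / lr - 1))]
  obtain ⟨Y, hY⟩ : ∃ Y, Y = ((m + 2) ^ 2 + 1) / d := ⟨_, rfl⟩
  have hY0 : 0 < Y := by rw [hY]; positivity
  have hYd : (m + 2) ^ 2 + 1 < 2 * Y * d := by
    have : Y * d = (m + 2) ^ 2 + 1 := by rw [hY]; field_simp
    nlinarith
  obtain ⟨R, hR, hR2⟩ : ∃ R : ℝ, 0 < R ∧ R ^ 2 = (m + 2) ^ 2 + Y ^ 2 :=
    ⟨Real.sqrt ((m + 2) ^ 2 + Y ^ 2), Real.sqrt_pos.mpr (by positivity),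
      Real.sq_sqrt (by positivity)⟩
  obtain ⟨σ, hσ0, hσ1, hσd⟩ : ∃ σ : ℝ, 0 < σ ∧ σ ≤ 1 ∧ σ < d :=
    ⟨min 1 (d / 2), lt_min one_pos (by linarith), min_le_left _ _,
      (min_le_right _ _).trans_lt (by linarith)⟩
  obtain ⟨η, hη0, hη1, hησ⟩ : ∃ η : ℝ, 0 < η ∧ η ≤ 1 ∧ R ^ 2 * ((1 + η) ^ 12 - 1) ≤ σ := by
    refine ⟨min 1 (σ / (4095 * R ^ 2)), lt_min one_pos (by positivity), min_le_left _ _, ?_⟩
    have h1 := pow12 (η := min 1 (σ / (4095 * R ^ 2))) (lt_min one_pos (by positivity)).le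
      (min_le_left _ _)
    have h2 : min 1 (σ / (4095 * R ^ 2)) ≤ σ / (4095 * R ^ 2) := min_le_right _ _
    calc _ ≤ R ^ 2 * (4095 * (σ / (4095 * R ^ 2))) := by gcongr; linarith
      _ = σ := by field_simp
  obtain ⟨ν', hν0, hν1, hν2⟩ : ∃ ν' : ℝ, 0 < ν' ∧ ν' ≤ ν ∧ ν' ≤ η :=
    ⟨min ν η, lt_min hν hη0, min_le_left _ _, min_le_right _ _⟩
  refine ⟨ν', ν' / 4, by positivity, by linarith, hν1, fun B hB => ?_⟩
  obtain ⟨g, C, hC, hg, hf⟩ := exists_coeffs (r := 1 - ν' / 16) (γ := 1 + η) (by linarith)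
    (by linarith) (by nlinarith)
  obtain ⟨k, hk⟩ : ∃ k, k = (ν' / 63) / (2 * (3 + m + Y) ^ 2) := ⟨_, rfl⟩
  have hk0 : 0 < k := by rw [hk]; positivity
  obtain ⟨δ, hδ0, hδ1, hδ2, hδ3, hδ4, hδ5⟩ : ∃ δ : ℝ, 0 < δ ∧ δ ≤ 1 / 4 ∧ δ ≤ k / 96 ∧
      2 * (δ / (ν' / 63)) ≤ k / 16 ∧ B * (δ / (ν' / 64)) ≤ k / 16 ∧ δ * (B + 1) ≤ 1 := by
    have hc : ContinuousAt (fun δ : ℝ => (δ, 2 * (δ / (ν' / 63)), B * (δ / (ν' / 64)),
        δ * (B + 1))) 0 := by fun_prop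
    have h1 : ∀ᶠ δ : ℝ in nhds 0, δ < 1 / 4 := gt_mem_nhds (by norm_num)
    have h2 : ∀ᶠ δ : ℝ in nhds 0, δ < k / 96 := gt_mem_nhds (by positivity)
    have h3 : ∀ᶠ δ : ℝ in nhds 0, 2 * (δ / (ν' / 63)) < k / 16 :=
      ContinuousAt.eventually_lt (by fun_prop) continuousAt_const (by simp; positivity)
    have h4 : ∀ᶠ δ : ℝ in nhds 0, B * (δ / (ν' / 64)) < k / 16 :=
      ContinuousAt.eventually_lt (by fun_prop) continuousAt_const (by simp; positivity)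
    have h5 : ∀ᶠ δ : ℝ in nhds 0, δ * (B + 1) < 1 :=
      ContinuousAt.eventually_lt (by fun_prop) continuousAt_const (by simp)
    have h6 := (h1.and (h2.and (h3.and (h4.and h5)))).filter_mono
      (nhdsWithin_le_nhds (s := Ioi (0:ℝ)))
    obtain ⟨δ, a, b⟩ := (h6.and self_mem_nhdsWithin).exists
    exact ⟨δ, b, a.1.le, a.2.1.le, a.2.2.1.le, a.2.2.2.1.le, a.2.2.2.2.le⟩
  obtain ⟨M, hM, hK⟩ := exists_M (γ := 1 + η) (K := 16384 * C + 1) (by linarith) (by positivity) hδ0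
  have hM' : (1:ℝ) ≤ M := by exact_mod_cast hM
  have hBM : B + 1 ≤ (1 + η) ^ M := by
    have h1 : 1 ≤ δ * (1 + η) ^ M := by
      refine le_trans ?_ hK
      nlinarith
    have h2 : δ * (B + 1) ≤ δ * (1 + η) ^ M := by linarith
    exact le_of_mul_le_mul_left h2 hδ0
  have hBM3 : B + 1 ≤ ((1 + η) ^ 3) ^ M := by
    refine hBM.trans (pow_le_pow_left₀ (by linarith) ?_ M)
    calc 1 + η = (1 + η) ^ 1 := (pow_one _).symm
      _ ≤ _ := pow_le_pow_right₀ (by linarith) (by norm_num)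
  obtain ⟨cc, hcc⟩ : ∃ cc : Bool → ℂ, cc = fun b => if b then ⟨m, Y⟩ else ⟨m, -Y⟩ := ⟨_, rfl⟩
  have hcre : ∀ b, (cc b).re = m := by intro b; cases b <;> simp [hcc]
  have hcim : ∀ b, |(cc b).im| = Y := by intro b; cases b <;> simp [hcc, abs_of_pos hY0]
  have hcR : ∀ b, R ^ 2 = (m + 2) ^ 2 + (cc b).im ^ 2 := by
    intro b
    rw [← sq_abs (cc b).im, hcim, hR2]
  choose q hq hqL using fun b => exists_laurent hm0 (hcre b) hR (hcR b) M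
  have D : ∀ b, Dat g (q b) (cc b) C η ν' δ R M := fun b =>
    ⟨hC, hη1, hν0, hν2, hR, hM, hg, hf, hq b, hqL b, hK⟩
  choose t ht htT using fun b => rep_SS g (q b) M (lr : ℂ) (((1 + η) ^ (3 * M) : ℝ) : ℂ)
  have htG : ∀ b ζ l, t b (UU ζ l, VV ζ l) = GG g (q b) η M (l / lr) ζ := htT
  obtain ⟨M2, hM2⟩ := pow_unbounded_of_one_lt ((2:ℝ) ^ M) (show 1 < 1 + ν' / 4 by linarith)
  have hlrc : (lr : ℂ) ≠ 0 := by exact_mod_cast hlr.ne'
  refine ⟨t, k / 16, M2 + M, by positivity, ht, fun b => ?_, fun ζ l hζ => ⟨fun b h => ?_,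
    fun b h => ?_, fun h1 h2 => ?_⟩⟩
  · have e : ((p:ℂ) ^ 3, (p:ℂ) ^ 2) = (UU 0 p, VV 0 p) := by simp [UU, VV, rho_zero]
    rw [e, htG]
    have hn : ‖(p:ℂ) / (lr:ℂ)‖ = p / lr := by
      rw [← ofReal_div, Complex.norm_real, Real.norm_of_nonneg (by linarith)]
    have h1 := (D b).err (w := (p:ℂ) / (lr:ℂ)) (ζ := 0) (by rw [hn]; exact hwp1)
      (by rw [hn]; exact hwp2) (by simp; linarith) (by simp; positivity)
    have h2 : ‖JJ ((p:ℂ) / (lr:ℂ)) - cc b‖ = R := by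
      have e2 : JJ ((p:ℂ) / (lr:ℂ)) = ((2 * m + 2 : ℝ) : ℂ) := by
        unfold JJ
        rw [hm]
        push_cast
        ring
      have e3 : ‖JJ ((p:ℂ) / (lr:ℂ)) - cc b‖ ^ 2 = R ^ 2 := by
        rw [norm_sq_eq, hcR b, e2, sub_re, sub_im, ofReal_re, ofReal_im, hcre]
        ring
      exact (pow_left_inj₀ (norm_nonneg _) hR.le (by norm_num)).mp e3
    have h3 : ‖AA (cc b) η R M ((p:ℂ) / (lr:ℂ))‖ ≤ 1 / 2 := by
      rw [norm_AA hR hη0.le, h2, div_self hR.ne', div_pow, one_pow]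
      exact one_div_le_one_div_of_le (by norm_num) (by linarith)
    have h4 := norm_le_insert' (GG g (q b) η M ((p:ℂ) / (lr:ℂ)) 0) (AA (cc b) η R M ((p:ℂ) / (lr:ℂ)))
    linarith
  · rw [htG]
    have := (D b).small (w := l / lr) (ζ := ζ) (by rw [norm_w]; linarith) hζ
    linarith
  · rw [htG]
    have hX : 1 ≤ ‖l‖ ^ 6 * (1 + ‖ζ‖ ^ 2) := by linarith
    have h1 := (D b).big (w := l / lr) (ζ := ζ) (by linarith) hX (by
      rw [norm_w]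
      nlinarith [mul_nonneg (pow_nonneg (norm_nonneg l) 6) (sq_nonneg ‖ζ‖)]) hζ
    refine h1.trans ?_
    rw [pow_add]
    have h2 : (1 + ν' / 4) ^ M2 ≤ (‖l‖ ^ 6 * (1 + ‖ζ‖ ^ 2)) ^ M2 :=
      pow_le_pow_left₀ (by linarith) h M2
    exact mul_le_mul_of_nonneg_right (by linarith) (by positivity)
  · obtain ⟨w, hw⟩ : ∃ w : ℂ, w = l / lr := ⟨_, rfl⟩
    have hw6 : ‖w‖ ^ 6 = 2 * ‖l‖ ^ 6 := by rw [hw, norm_w]
    have hlw : l = lr * w := by rw [hw]; field_simp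
    obtain ⟨m1, m2, m3, m4⟩ := mid (norm_nonneg w) (norm_nonneg ζ) hν0 (by linarith)
      (by rw [hw6]; linarith) (by rw [hw6]; linarith)
    have herr : ∀ b, ‖GG g (q b) η M w ζ - AA (cc b) η R M w‖ ≤ δ := fun b =>
      (D b).err (by linarith) (by linarith) (by linarith) (by
        refine m4.trans ?_
        calc 1 + ν' / 4 ≤ (1 + η) ^ 1 := by linarith
          _ ≤ _ := pow_le_pow_right₀ (by linarith) (by norm_num))
    refine ⟨fun b hb => ?_, fun hb => ?_⟩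
    · have hb' := hb
      rw [htG, ← hw] at hb'
      have hJ : R ≤ ‖JJ w - cc b‖ := by
        by_contra hc
        push Not at hc
        have a1 : ‖AA (cc b) η R M w‖ ≤ 1 / 2 := by
          rw [norm_AA hR hη0.le]
          have b1 : ‖JJ w - cc b‖ / R ≤ 1 := (div_le_one hR).mpr hc.le
          calc _ ≤ (1 / (1 + η) ^ 3) ^ M := by gcongr
            _ ≤ 1 / 2 := by
              rw [div_pow, one_pow]
              exact one_div_le_one_div_of_le (by norm_num) (by linarith)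
        have a2 := norm_le_insert' (GG g (q b) η M w ζ) (AA (cc b) η R M w)
        linarith [herr b]
      have hne : JJ w - cc b ≠ 0 := norm_pos_iff.mp (by linarith)
      obtain ⟨q1, q2⟩ := quot_bounds hm0 (hcre b) hR (hcR b) (by positivity) m2 m1 hJ
      rw [hcim, ← hk] at q1
      obtain ⟨G', e', hG', he', hwG⟩ := (D b).dw m2 m1 m3 m4 hne
      constructor
      · have hder : HasDerivAt (fun l => GG g (q b) η M (l / lr) ζ) (G' * (1 / lr)) l := by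
          rw [hw] at hG'
          exact hG'.comp l ((hasDerivAt_id l).div_const (lr:ℂ))
        rw [chain_l (ht b) (F := fun ζ l => GG g (q b) η M (l / lr) ζ) (htG b) hder, htG, ← hw]
        have e : l * (G' * (1 / lr)) = w * G' := by rw [hlw]; field_simp
        rw [e, hwG]
        have := fin_ineq (T := GG g (q b) η M w ζ) (A := AA (cc b) η R M w)
          (e := GG g (q b) η M w ζ - AA (cc b) η R M w) (e' := e') hM' (by ring) (herr b) hδ1 hδ2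
          (he'.trans hδ3) hb' hk0 q1 q2
        simpa using this
      · rw [chain_z (ht b) (F := fun ζ l => GG g (q b) η M (l / lr) ζ) (htG b) (by linarith)]
        have a1 := (D b).dz (w := w) (by linarith) m1 m3 m4
        rw [hw] at a1
        have a2 : B * ‖deriv (fun z => GG g (q b) η M (l / lr) z) ζ‖ ≤ B * (δ / (ν' / 64)) := by
          gcongr
        have a3 : k / 16 * 1 ≤ k / 16 * ‖t b (UU ζ l, VV ζ l)‖ := by gcongr
        linarith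
    · by_contra hc
      push Not at hc
      obtain ⟨c1, c2⟩ := hc
      have a1 := hL1 w (by rw [hw6]; linarith) (by linarith) (fun y hy => by
        rw [← hlw]; exact (c2 y hy).le)
      have a2 : ∀ b, ‖JJ w - cc b‖ ^ 2 ≤ (m + 2) ^ 2 + Y ^ 2 + σ := by
        intro b
        have b1 := hb b
        rw [htG, ← hw] at b1
        have b2 : ‖AA (cc b) η R M w‖ ≤ ((1 + η) ^ 3) ^ M := by
          have := norm_le_insert (GG g (q b) η M w ζ) (AA (cc b) η R M w)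
          linarith [herr b]
        rw [norm_AA hR hη0.le] at b2
        have b3 : ‖JJ w - cc b‖ / R / (1 + η) ^ 3 ≤ (1 + η) ^ 3 :=
          (pow_le_pow_iff_left₀ (by positivity) (by positivity) (by omega)).mp b2
        rw [div_le_iff₀ (by positivity), div_le_iff₀ hR] at b3
        have b4 : ‖JJ w - cc b‖ ^ 2 ≤ ((1 + η) ^ 3 * (1 + η) ^ 3 * R) ^ 2 := by gcongr
        have b5 : ((1 + η) ^ 3 * (1 + η) ^ 3 * R) ^ 2 = R ^ 2 * ((1 + η) ^ 12 - 1) + R ^ 2 := by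
          ring
        linarith
      have a3 := FF_lt (w := w) hm0 hσ0.le hσd hσ1 hYd hY0 (by simpa [hcc] using a2 true)
        (by simpa [hcc] using a2 false)
      linarith

end Pool.Agent.P.MP_e5acfa_ag
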