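import Pool.Agent.P.MP_e5acfa_ag.Defs

/-! Package E, part 1: weighted homogeneous polynomials close to powers of lambda. -/

open Complex Set

namespace Pool.Agent.P.MP_e5acfa_ag.PkgE

lemma poly_diff {t : ℂ × ℂ → ℂ} (h : IsPoly2 t) : Differentiable ℂ t := by
  obtain ⟨P, hP⟩ := h
  have ht : t = fun w : ℂ × ℂ => MvPolynomial.eval ![w.1, w.2] P := funext hP
  rw [ht]
  clear ht hP
  induction P using MvPolynomial.induction_on with
  | C a => simp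
  | add p q hp hq =>
    simp only [map_add]
    exact hp.add hq
  | mul_X p i hp =>
    simp only [map_mul, MvPolynomial.eval_X]
    refine hp.mul ?_
    fin_cases i
    · simp
    · simp

/-- functions of the parameters that are polynomials in u and v -/
def Rep (F : ℂ → ℂ → ℂ) : Prop :=
  ∃ t : ℂ × ℂ → ℂ, IsPoly2 t ∧ ∀ ζ l, t (UU ζ l, VV ζ l) = F ζ l

lemma Rep.const (c : ℂ) : Rep (fun _ _ => c) :=
  ⟨fun _ => c, ⟨MvPolynomial.C c, fun w => by simp⟩, fun _ _ => rfl⟩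

lemma Rep.U : Rep UU :=
  ⟨fun w => w.1, ⟨MvPolynomial.X 0, fun w => by simp⟩, fun _ _ => rfl⟩

lemma Rep.V : Rep VV :=
  ⟨fun w => w.2, ⟨MvPolynomial.X 1, fun w => by simp⟩, fun _ _ => rfl⟩

lemma Rep.add {F G : ℂ → ℂ → ℂ} (hF : Rep F) (hG : Rep G) :
    Rep (fun ζ l => F ζ l + G ζ l) := by
  obtain ⟨s, ⟨P, hP⟩, hs⟩ := hF
  obtain ⟨t, ⟨Q, hQ⟩, ht⟩ := hG
  exact ⟨fun w => s w + t w, ⟨P + Q, fun w => by simp [hP, hQ]⟩, fun ζ l => by simp [hs, ht]⟩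

lemma Rep.mul {F G : ℂ → ℂ → ℂ} (hF : Rep F) (hG : Rep G) :
    Rep (fun ζ l => F ζ l * G ζ l) := by
  obtain ⟨s, ⟨P, hP⟩, hs⟩ := hF
  obtain ⟨t, ⟨Q, hQ⟩, ht⟩ := hG
  exact ⟨fun w => s w * t w, ⟨P * Q, fun w => by simp [hP, hQ]⟩, fun ζ l => by simp [hs, ht]⟩

lemma Rep.congr {F G : ℂ → ℂ → ℂ} (hF : Rep F) (h : ∀ ζ l, F ζ l = G ζ l) : Rep G := by
  obtain ⟨s, hp, hs⟩ := hF
  exact ⟨s, hp, fun ζ l => by rw [hs, h]⟩

lemma Rep.pow {F : ℂ → ℂ → ℂ} (hF : Rep F) (n : ℕ) : Rep (fun ζ l => F ζ l ^ n) := by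
  induction n with
  | zero => exact (Rep.const 1).congr (by simp)
  | succ n ih => exact (ih.mul hF).congr (fun ζ l => by ring)

lemma Rep.sum {F : ℕ → ℂ → ℂ → ℂ} (n : ℕ) (hF : ∀ k < n, Rep (F k)) :
    Rep (fun ζ l => ∑ k ∈ Finset.range n, F k ζ l) := by
  induction n with
  | zero => exact (Rep.const 0).congr (by simp)
  | succ n ih =>
    exact ((ih (fun k hk => hF k (by omega))).add (hF n (by omega))).congr
      (fun ζ l => by rw [Finset.sum_range_succ])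

lemma rho_cube (ζ : ℂ) : rho ζ ^ 3 = 1 - ζ := by
  have := Complex.cpow_nat_inv_pow (1 - ζ) (n := 3) (by norm_num)
  unfold rho
  rw [one_div]
  exact_mod_cast this

lemma rho_zero : rho 0 = 1 := by simp [rho]

lemma norm_rho_le {ζ : ℂ} (h : ‖ζ‖ ≤ 1) : ‖rho ζ‖ ≤ 2 := by
  have h1 : ‖rho ζ‖ ^ 3 ≤ 2 := by
    rw [← norm_pow, rho_cube]
    calc ‖1 - ζ‖ ≤ ‖(1:ℂ)‖ + ‖ζ‖ := norm_sub_le _ _
      _ ≤ 2 := by simp; linarith
  by_contra hc
  push Not at hc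
  have : (2:ℝ) ^ 3 ≤ ‖rho ζ‖ ^ 3 := pow_le_pow_left₀ (by norm_num) hc.le 3
  linarith

lemma rho_ne {ζ : ℂ} (h : ‖ζ‖ < 1) : rho ζ ≠ 0 := by
  intro h0
  have := rho_cube ζ
  rw [h0] at this
  have h2 : ζ = 1 := by linear_combination this
  rw [h2] at h
  simp at h

lemma slit {ζ : ℂ} (h : ‖ζ‖ < 1) : 1 - ζ ∈ slitPlane := by
  left
  have := Complex.re_le_norm ζ
  simp
  linarith

lemma rho_diff {ζ : ℂ} (h : ‖ζ‖ < 1) : DifferentiableAt ℂ rho ζ := by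
  unfold rho
  exact DifferentiableAt.cpow_const (by fun_prop) (slit h)

lemma rho_deriv {ζ : ℂ} (h : ‖ζ‖ < 1) : HasDerivAt rho (-1 / (3 * rho ζ ^ 2)) ζ := by
  have h1 := (rho_diff h).hasDerivAt
  have h2 : HasDerivAt (fun z => rho z ^ 3) (((3:ℕ):ℂ) * rho ζ ^ (3 - 1) * deriv rho ζ) ζ :=
    h1.pow 3
  have h3 : HasDerivAt (fun z : ℂ => rho z ^ 3) (-1) ζ := by
    have : (fun z : ℂ => rho z ^ 3) = fun z => 1 - z := funext rho_cube
    rw [this]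
    simpa using (hasDerivAt_id ζ).const_sub 1
  have h4 := h2.unique h3
  have h5 := rho_ne h
  have h6 : deriv rho ζ = -1 / (3 * rho ζ ^ 2) := by
    rw [eq_div_iff (mul_ne_zero (by norm_num) (pow_ne_zero _ h5))]
    simp at h4
    linear_combination h4
  rwa [h6] at h1

lemma rep_ab : Rep (fun ζ l => l ^ 6 * ζ) := by
  refine (((Rep.U.pow 2).add ((Rep.const (-1)).mul (Rep.V.pow 3))).mul (Rep.const (1/4))).congr ?_
  intro ζ l
  have h := rho_cube ζ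
  unfold UU VV
  have : (l ^ 2 * rho ζ ^ 2) ^ 3 = l ^ 6 * (1 - ζ) ^ 2 := by rw [← h]; ring
  rw [this]
  ring

lemma rep_s (k : ℕ) : Rep (fun ζ l => l ^ (3 * k) * (1 + ζ ^ k)) := by
  induction k using Nat.twoStepInduction with
  | zero => exact (Rep.const 2).congr (fun ζ l => by norm_num)
  | one => exact Rep.U.congr (fun ζ l => by simp [UU])
  | more k h0 h1 =>
    refine ((Rep.U.mul h1).add ((Rep.const (-1)).mul (rep_ab.mul h0))).congr ?_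
    intro ζ l
    unfold UU
    ring

def ii (j : ℕ) : ℕ := (2 * j) % 3
def aa (j : ℕ) : ℕ := (j - 2 * ii j) / 3
def nk (j : ℕ) : ℕ := (aa j + 1) / 2

lemma ii_le (j : ℕ) : ii j ≤ 2 := by unfold ii; omega
lemma j_le (j : ℕ) : j ≤ 6 * nk j + 4 := by unfold nk aa ii; omega
lemma nk_le (j : ℕ) : 6 * nk j ≤ j + 3 := by unfold nk aa ii; omega
lemma j_eq {j : ℕ} (h : 0 < nk j) : j = 3 * aa j + 2 * ii j := by
  unfold nk aa ii at *; omega

/-- the correction factor -/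
noncomputable def pj (g : ℕ → ℕ → ℂ) (j : ℕ) (ζ : ℂ) : ℂ :=
  rho ζ ^ (2 * ii j) * ∑ r ∈ Finset.range (nk j), g (ii j) r * (ζ ^ r + ζ ^ (aa j - r))

lemma rep_pj (g : ℕ → ℕ → ℂ) (j : ℕ) : Rep (fun ζ l => l ^ j * pj g j ζ) := by
  rcases Nat.eq_zero_or_pos (nk j) with h0 | h0
  · exact (Rep.const 0).congr (fun ζ l => by simp [pj, h0])
  have hj := j_eq h0
  refine ((Rep.V.pow (ii j)).mul (Rep.sum (nk j) (F := fun r ζ l =>
    g (ii j) r * ((l ^ 6 * ζ) ^ r * (l ^ (3 * (aa j - 2 * r)) * (1 + ζ ^ (aa j - 2 * r)))))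
    (fun r _ => (Rep.const _).mul ((rep_ab.pow r).mul (rep_s _))))).congr ?_
  intro ζ l
  unfold pj VV
  rw [Finset.mul_sum, Finset.mul_sum, Finset.mul_sum]
  refine Finset.sum_congr rfl (fun r hr => ?_)
  have hr' : 2 * r ≤ aa j := by
    have := Finset.mem_range.mp hr
    unfold nk at this
    omega
  obtain ⟨b, hb⟩ := Nat.exists_eq_add_of_le hr'
  have e1 : aa j - 2 * r = b := by omega
  have e2 : aa j - r = r + b := by omega
  rw [e1, e2]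
  have e3 : l ^ j = l ^ (3 * (2 * r + b) + 2 * ii j) := by rw [← hb, ← hj]
  rw [e3]
  ring

lemma rho_pow_le {ζ : ℂ} (h : ‖ζ‖ ≤ 1) (j : ℕ) : ‖rho ζ ^ (2 * ii j)‖ ≤ 16 := by
  rw [norm_pow]
  have h1 := norm_rho_le h
  have h2 := ii_le j
  calc ‖rho ζ‖ ^ (2 * ii j) ≤ 2 ^ (2 * ii j) := pow_le_pow_left₀ (norm_nonneg _) h1 _
    _ ≤ 2 ^ 4 := pow_le_pow_right₀ (by norm_num) (by omega)
    _ = 16 := by norm_num

lemma pj_le {g : ℕ → ℕ → ℂ} {C γ : ℝ} (hγ : 1 ≤ γ) (hC : 0 ≤ C)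
    (hg : ∀ i ≤ 2, ∀ r, ‖g i r‖ ≤ C * γ ^ r) (j : ℕ) {ζ : ℂ} (h : ‖ζ‖ ≤ 1) :
    ‖pj g j ζ‖ ≤ 32 * C * nk j * γ ^ nk j := by
  unfold pj
  rw [norm_mul]
  have h1 : ‖∑ r ∈ Finset.range (nk j), g (ii j) r * (ζ ^ r + ζ ^ (aa j - r))‖ ≤
      nk j * (2 * C * γ ^ nk j) := by
    refine (norm_sum_le _ _).trans ?_
    have : ∀ r ∈ Finset.range (nk j), ‖g (ii j) r * (ζ ^ r + ζ ^ (aa j - r))‖ ≤
        2 * C * γ ^ nk j := by
      intro r hr
      have hr' := Finset.mem_range.mp hr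
      rw [norm_mul]
      have a1 : ‖ζ ^ r + ζ ^ (aa j - r)‖ ≤ 2 := by
        refine (norm_add_le _ _).trans ?_
        rw [norm_pow, norm_pow]
        have b1 := pow_le_one₀ (n := r) (norm_nonneg ζ) h
        have b2 := pow_le_one₀ (n := aa j - r) (norm_nonneg ζ) h
        linarith
      have a2 : ‖g (ii j) r‖ ≤ C * γ ^ nk j :=
        (hg _ (ii_le j) r).trans
          (mul_le_mul_of_nonneg_left (pow_le_pow_right₀ hγ hr'.le) hC)
      calc _ ≤ (C * γ ^ nk j) * 2 := mul_le_mul a2 a1 (norm_nonneg _) (by positivity)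
        _ = _ := by ring
    refine (Finset.sum_le_card_nsmul _ _ _ this).trans ?_
    simp
  calc _ ≤ 16 * (nk j * (2 * C * γ ^ nk j)) :=
        mul_le_mul (rho_pow_le h j) h1 (norm_nonneg _) (by norm_num)
    _ = _ := by ring

lemma pj_sub_le {g : ℕ → ℕ → ℂ} {C γ : ℝ} (hγ : 1 ≤ γ) (hC : 0 ≤ C)
    (hg : ∀ i ≤ 2, ∀ r, ‖g i r‖ ≤ C * γ ^ r) (j : ℕ) {ζ : ℂ} (h : ‖ζ‖ < 1)
    (hf : ∀ i ≤ 2, ∀ n, ‖(rho ζ ^ (2 * i))⁻¹ - ∑ r ∈ Finset.range n, g i r * ζ ^ r‖ ≤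
      C * (γ * ‖ζ‖) ^ n) :
    ‖pj g j ζ - 1‖ ≤ 16 * C * (nk j + 1) * (γ * ‖ζ‖) ^ nk j := by
  have hne : rho ζ ^ (2 * ii j) ≠ 0 := pow_ne_zero _ (rho_ne h)
  have e : pj g j ζ - 1 = rho ζ ^ (2 * ii j) *
      (∑ r ∈ Finset.range (nk j), g (ii j) r * ζ ^ (aa j - r) -
        ((rho ζ ^ (2 * ii j))⁻¹ - ∑ r ∈ Finset.range (nk j), g (ii j) r * ζ ^ r)) := by
    unfold pj
    simp only [mul_add, Finset.sum_add_distrib]
    field_simp
    ring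
  rw [e, norm_mul]
  have h1 : ‖∑ r ∈ Finset.range (nk j), g (ii j) r * ζ ^ (aa j - r)‖ ≤
      nk j * (C * (γ * ‖ζ‖) ^ nk j) := by
    refine (norm_sum_le _ _).trans ?_
    have : ∀ r ∈ Finset.range (nk j), ‖g (ii j) r * ζ ^ (aa j - r)‖ ≤
        C * (γ * ‖ζ‖) ^ nk j := by
      intro r hr
      have hr' := Finset.mem_range.mp hr
      rw [norm_mul, norm_pow]
      have a1 : ‖ζ‖ ^ (aa j - r) ≤ ‖ζ‖ ^ nk j := by
        refine pow_le_pow_of_le_one (norm_nonneg _) h.le ?_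
        unfold nk at hr' ⊢
        omega
      have a2 : ‖g (ii j) r‖ ≤ C * γ ^ nk j :=
        (hg _ (ii_le j) r).trans
          (mul_le_mul_of_nonneg_left (pow_le_pow_right₀ hγ hr'.le) hC)
      calc _ ≤ (C * γ ^ nk j) * ‖ζ‖ ^ nk j := mul_le_mul a2 a1 (by positivity) (by positivity)
        _ = _ := by rw [mul_pow]; ring
    refine (Finset.sum_le_card_nsmul _ _ _ this).trans ?_
    simp
  have h2 := hf _ (ii_le j) (nk j)
  have h3 := (norm_sub_le _ _).trans (add_le_add h1 h2)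
  calc _ ≤ 16 * (nk j * (C * (γ * ‖ζ‖) ^ nk j) + C * (γ * ‖ζ‖) ^ nk j) :=
        mul_le_mul (rho_pow_le h.le j) h3 (norm_nonneg _) (by norm_num)
    _ = _ := by ring

lemma series {f : ℂ → ℂ} (hf : DifferentiableOn ℂ f (Metric.ball 0 1)) {r : ℝ} (h0 : 0 < r)
    (h1 : r < 1) : ∃ (g : ℕ → ℂ) (C : ℝ), 0 < C ∧ (∀ n, ‖g n‖ * r ^ n ≤ C) ∧
      ∀ ζ : ℂ, ‖ζ‖ < r → ∀ n, ‖f ζ - ∑ k ∈ Finset.range n, g k * ζ ^ k‖ ≤ C * (‖ζ‖ / r) ^ n := by
  set R : NNReal := ⟨(r + 1) / 2, by linarith⟩ with hR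
  set r' : NNReal := ⟨r, h0.le⟩ with hr'
  have hRpos : 0 < R := by
    rw [← NNReal.coe_pos]; show 0 < (r + 1) / 2; linarith
  have hd : DifferentiableOn ℂ f (Metric.closedBall 0 R) := by
    refine hf.mono (Metric.closedBall_subset_ball ?_)
    show (r + 1) / 2 < 1
    linarith
  have hp := hd.hasFPowerSeriesOnBall hRpos
  have hlt : (r' : ENNReal) < R := by
    rw [ENNReal.coe_lt_coe, ← NNReal.coe_lt_coe]
    show r < (r + 1) / 2
    linarith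
  obtain ⟨a, ha, C1, hC1, h2⟩ := hp.uniform_geometric_approx' hlt
  obtain ⟨C2, hC2, h3⟩ := FormalMultilinearSeries.norm_mul_pow_le_of_lt_radius _
    (hlt.trans_le hp.r_le)
  refine ⟨fun n => (cauchyPowerSeries f 0 R).coeff n, C1 + C2, by linarith, fun n => ?_,
    fun ζ hζ n => ?_⟩
  · have := h3 n
    rw [FormalMultilinearSeries.norm_apply_eq_norm_coef] at this
    have e : ((r' : NNReal) : ℝ) = r := rfl
    rw [e] at this
    linarith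
  · have e : ((r' : NNReal) : ℝ) = r := rfl
    have := h2 ζ (by rw [e]; simpa using hζ) n
    rw [e, zero_add] at this
    have e2 : (cauchyPowerSeries f 0 R).partialSum n ζ =
        ∑ k ∈ Finset.range n, (cauchyPowerSeries f 0 R).coeff k * ζ ^ k := by
      unfold FormalMultilinearSeries.partialSum
      refine Finset.sum_congr rfl (fun k _ => ?_)
      rw [FormalMultilinearSeries.apply_eq_pow_smul_coeff, smul_eq_mul, mul_comm]
    rw [e2] at this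
    refine this.trans ?_
    have b0 : 0 ≤ ‖ζ‖ / r := by positivity
    have b1 : (a * (‖ζ‖ / r)) ^ n ≤ (‖ζ‖ / r) ^ n :=
      pow_le_pow_left₀ (mul_nonneg ha.1.le b0) (mul_le_of_le_one_left b0 ha.2.le) n
    have b2 : 0 ≤ (‖ζ‖ / r) ^ n := by positivity
    nlinarith

lemma exists_coeffs {r γ : ℝ} (h0 : 0 < r) (h1 : r < 1) (hγ : 1 ≤ r * γ) :
    ∃ (g : ℕ → ℕ → ℂ) (C : ℝ), 0 < C ∧ (∀ i ≤ 2, ∀ n, ‖g i n‖ ≤ C * γ ^ n) ∧
      ∀ ζ : ℂ, ‖ζ‖ < r → ∀ i ≤ 2, ∀ n,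
        ‖(rho ζ ^ (2 * i))⁻¹ - ∑ k ∈ Finset.range n, g i k * ζ ^ k‖ ≤ C * (γ * ‖ζ‖) ^ n := by
  have hd : ∀ i : ℕ, DifferentiableOn ℂ (fun ζ => (rho ζ ^ (2 * i))⁻¹) (Metric.ball 0 1) := by
    intro i ζ hζ
    have h : ‖ζ‖ < 1 := by simpa using hζ
    exact (((rho_diff h).pow _).inv (pow_ne_zero _ (rho_ne h))).differentiableWithinAt
  choose g C hC h2 h3 using fun i => series (hd i) h0 h1
  have hγ0 : 0 < γ := by
    by_contra hc
    push Not at hc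
    nlinarith
  have hle : ∀ i ≤ 2, C i ≤ C 0 + C 1 + C 2 := by
    intro i hi
    have a0 := hC 0
    have a1 := hC 1
    have a2 := hC 2
    interval_cases i <;> linarith
  refine ⟨g, C 0 + C 1 + C 2, by linarith [hC 0, hC 1, hC 2], fun i hi n => ?_,
    fun ζ hζ i hi n => ?_⟩
  · have a1 : (1:ℝ) ≤ (r * γ) ^ n := one_le_pow₀ hγ
    have a2 := (h2 i n).trans (hle i hi)
    calc ‖g i n‖ ≤ ‖g i n‖ * (r * γ) ^ n := le_mul_of_one_le_right (norm_nonneg _) a1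
      _ = (‖g i n‖ * r ^ n) * γ ^ n := by rw [mul_pow]; ring
      _ ≤ _ := mul_le_mul_of_nonneg_right a2 (by positivity)
  · refine (h3 i ζ hζ n).trans ?_
    have a1 : ‖ζ‖ / r ≤ γ * ‖ζ‖ := by
      rw [div_le_iff₀ h0]
      nlinarith [norm_nonneg ζ]
    exact mul_le_mul (hle i hi) (pow_le_pow_left₀ (by positivity) a1 n) (by positivity)
      (by linarith [hC 0, hC 1, hC 2])

end Pool.Agent.P.MP_e5acfa_ag.PkgE
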