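import Pool.Agent.P.MP_e5acfa_ag.E1

/-! Package E, part 2: the Joukowski map and two big discs. -/

open Complex Set

namespace Pool.Agent.P.MP_e5acfa_ag.PkgE

lemma lr_pos : 0 < lr := Real.rpow_pos_of_pos (by norm_num) _

lemma lr_six : lr ^ 6 = 1 / 2 := by
  unfold lr
  rw [← Real.rpow_natCast, ← Real.rpow_mul (by norm_num)]
  norm_num

lemma lr_lt {p : ℝ} (hp : 19 / 20 < p) : lr < p := by
  by_contra hc
  push Not at hc
  have h1 : (19 / 20 : ℝ) ^ 6 ≤ lr ^ 6 := pow_le_pow_left₀ (by norm_num) (by linarith) 6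
  rw [lr_six] at h1
  norm_num at h1

lemma lr_gt : 1 / 2 ≤ lr := by
  by_contra hc
  push Not at hc
  have h1 : lr ^ 6 ≤ (1 / 2 : ℝ) ^ 6 := pow_le_pow_left₀ lr_pos.le hc.le 6
  rw [lr_six] at h1
  norm_num at h1

lemma L2_real {x y s m Y : ℝ} (hs : (x ^ 2 + y ^ 2) * s = 1) (hr : 1 < x ^ 2 + y ^ 2)
    (hm : 0 ≤ m)
    (h : (m + 2) ^ 2 + Y ^ 2 ≤ (x * (1 + s) - m) ^ 2 + (y * (1 - s) - Y) ^ 2) :
    (x ^ 2 + y ^ 2 - 1) / 2 ≤
      x * (1 - s) * (x * (1 + s) - m) + y * (1 + s) * (y * (1 - s) - Y) := by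
  have hs0 : 0 < s := by
    by_contra hc
    push Not at hc
    nlinarith
  have hs1 : s < 1 := by
    by_contra hc
    push Not at hc
    nlinarith
  have hb : 0 < 1 - s := by linarith
  have key : (1 - s) * ((1 + s) * (1 - s) * (x ^ 2 + y ^ 2) / 2) ≤
      (1 - s) * (x * (1 - s) * (x * (1 + s) - m) + y * (1 + s) * (y * (1 - s) - Y)) := by
    have e1 : (1 - s) * (x * (1 - s) * (x * (1 + s) - m) + y * (1 + s) * (y * (1 - s) - Y)) -
        (1 - s) * ((1 + s) * (1 - s) * (x ^ 2 + y ^ 2) / 2) =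
        (1 + s) / 2 * (((x * (1 + s) - m) ^ 2 + (y * (1 - s) - Y) ^ 2) - ((m + 2) ^ 2 + Y ^ 2))
          + 2 * (1 + s) * s * y ^ 2 + 2 * m * s * ((x + 1) ^ 2 + y ^ 2)
          + (2 * (1 + s) + 2 * m) * (1 - (x ^ 2 + y ^ 2) * s) := by ring
    have e2 : 0 ≤ (1 + s) / 2 *
        (((x * (1 + s) - m) ^ 2 + (y * (1 - s) - Y) ^ 2) - ((m + 2) ^ 2 + Y ^ 2)) :=
      mul_nonneg (by linarith) (by linarith)
    have e3 : 0 ≤ 2 * (1 + s) * s * y ^ 2 := by positivity
    have e4 : 0 ≤ 2 * m * s * ((x + 1) ^ 2 + y ^ 2) := by positivity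
    rw [hs] at e1
    linarith
  have key2 := le_of_mul_le_mul_left key hb
  have e5 : (1 + s) * (1 - s) * (x ^ 2 + y ^ 2) / 2 = (1 + s) * (x ^ 2 + y ^ 2 - 1) / 2 := by
    linear_combination (-(1 + s) / 2) * hs
  have e6 : 0 ≤ s * (x ^ 2 + y ^ 2 - 1) := mul_nonneg hs0.le (by linarith)
  linarith

/-- the Joukowski map -/
noncomputable def JJ (w : ℂ) : ℂ := w + w⁻¹

lemma JJ_re (w : ℂ) : (JJ w).re = w.re * (1 + (normSq w)⁻¹) := by
  unfold JJ
  rw [add_re, inv_re]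
  ring

lemma JJ_im (w : ℂ) : (JJ w).im = w.im * (1 - (normSq w)⁻¹) := by
  unfold JJ
  rw [add_im, inv_im]
  ring

lemma normSq_eq (w : ℂ) : normSq w = w.re ^ 2 + w.im ^ 2 := by
  rw [normSq_apply]; ring

lemma norm_sq_eq (w : ℂ) : ‖w‖ ^ 2 = w.re ^ 2 + w.im ^ 2 := by
  rw [← normSq_eq, normSq_eq_norm_sq]

lemma L2 {w c : ℂ} {m : ℝ} (hw : 1 < ‖w‖) (hm : 0 ≤ m) (hc : c.re = m)
    (h : (m + 2) ^ 2 + c.im ^ 2 ≤ ‖JJ w - c‖ ^ 2) :
    (‖w‖ ^ 2 - 1) / 2 ≤ ((w - w⁻¹) * (starRingEnd ℂ) (JJ w - c)).re := by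
  have h1 : 1 < w.re ^ 2 + w.im ^ 2 := by rw [← norm_sq_eq]; nlinarith
  have h2 : (w.re ^ 2 + w.im ^ 2) * (normSq w)⁻¹ = 1 := by
    rw [← normSq_eq]
    exact mul_inv_cancel₀ (by rw [normSq_eq]; linarith)
  rw [norm_sq_eq, sub_re, sub_im, JJ_re, JJ_im, hc] at h
  have := L2_real h2 h1 hm h
  rw [norm_sq_eq]
  refine this.trans (le_of_eq ?_)
  simp only [mul_re, sub_re, sub_im, conj_re, conj_im, JJ_re, JJ_im, inv_re, inv_im, hc]
  ring

/-- the defect function -/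
noncomputable def FF (m : ℝ) (w : ℂ) : ℝ := max |(JJ w).im| (|(JJ w).re - m| - (m + 2))

lemma L1 {p ν : ℝ} (hp : 19 / 20 < p) (hν : 0 < ν) :
    ∃ d : ℝ, 0 < d ∧ ∀ w : ℂ, 1 + ν ≤ ‖w‖ ^ 6 → ‖w‖ ≤ 2 →
      (∀ y ∈ Icc lr p, ν ≤ ‖(lr : ℂ) * w - y‖) →
      d ≤ FF ((p / lr + (p / lr)⁻¹ - 2) / 2) w := by
  set m := (p / lr + (p / lr)⁻¹ - 2) / 2 with hm
  set K : Set ℂ := {w | 1 + ν ≤ ‖w‖ ^ 6} ∩ ({w | ‖w‖ ≤ 2} ∩
    ⋂ y ∈ Icc lr p, {w : ℂ | ν ≤ ‖(lr : ℂ) * w - y‖}) with hK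
  have hKc : IsClosed K := by
    refine (isClosed_le (by fun_prop) (by fun_prop)).inter
      ((isClosed_le (by fun_prop) (by fun_prop)).inter
        (isClosed_biInter (fun y _ => isClosed_le (by fun_prop) (by fun_prop))))
  have hKcp : IsCompact K := by
    refine (isCompact_closedBall (0:ℂ) 2).of_isClosed_subset hKc (fun w hw => ?_)
    simpa using hw.2.1
  have hgt : ∀ w ∈ K, 1 < ‖w‖ := by
    intro w hw
    by_contra hc
    push Not at hc
    have h1 : ‖w‖ ^ 6 ≤ 1 := pow_le_one₀ (norm_nonneg _) hc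
    have h2 : 1 + ν ≤ ‖w‖ ^ 6 := hw.1
    linarith
  have hcont : ContinuousOn (FF m) K := by
    have hJ : ContinuousOn JJ K := by
      refine continuousOn_id.add (continuousOn_id.inv₀ (fun w hw h0 => ?_))
      have := hgt w hw
      simp at h0
      rw [h0] at this
      norm_num at this
    unfold FF
    refine ContinuousOn.sup ?_ ?_
    · exact (continuous_im.comp_continuousOn hJ).abs
    · exact (((continuous_re.comp_continuousOn hJ).sub continuousOn_const).abs).sub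
        continuousOn_const
  have hpos : ∀ w ∈ K, 0 < FF m w := by
    intro w hw
    by_contra hc
    push Not at hc
    have h1 : |(JJ w).im| ≤ 0 := (le_max_left _ _).trans hc
    have h2 : |(JJ w).re - m| - (m + 2) ≤ 0 := (le_max_right _ _).trans hc
    have hw1 := hgt w hw
    have hn : 1 < normSq w := by rw [normSq_eq_norm_sq]; nlinarith
    have hinv : (normSq w)⁻¹ < 1 := inv_lt_one_of_one_lt₀ hn
    have him : w.im = 0 := by
      have h3 : (JJ w).im = 0 := abs_nonpos_iff.mp h1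
      rw [JJ_im] at h3
      rcases mul_eq_zero.mp h3 with h | h
      · exact h
      · linarith
    set x := w.re with hx
    have hwx : w = (x : ℂ) := by
      apply Complex.ext <;> simp [hx, him]
    have hx1 : 1 < |x| := by
      rw [hwx] at hw1
      simpa using hw1
    have hx0 : x ≠ 0 := by
      intro h0
      rw [h0] at hx1
      norm_num at hx1
    have hre : (JJ w).re = x + x⁻¹ := by
      rw [JJ_re, normSq_eq, him, ← hx]
      field_simp
      ring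
    rw [hre] at h2
    have h3 := abs_le.mp (show |x + x⁻¹ - m| ≤ m + 2 by linarith)
    have hlr := lr_pos
    have hwp : 1 ≤ p / lr := by
      rw [le_div_iff₀ hlr]
      linarith [lr_lt hp]
    rcases lt_or_gt_of_ne hx0 with hneg | hpos
    · have hx2 : x < -1 := by
        rw [abs_of_neg hneg] at hx1
        linarith
      have h4 : -2 ≤ x + x⁻¹ := by linarith [h3.1]
      have h5 : x * (x + x⁻¹) = x ^ 2 + 1 := by field_simp
      nlinarith
    · have hx2 : 1 < x := by rwa [abs_of_pos hpos] at hx1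
      have h4 : x + x⁻¹ ≤ p / lr + (p / lr)⁻¹ := by linarith [h3.2]
      have h5 : x ≤ p / lr := by
        by_contra hc2
        push Not at hc2
        set a := p / lr
        have ha0 : 0 < a := by linarith
        have h6 : (x + x⁻¹ - (a + a⁻¹)) * (x * a) = (x - a) * (x * a - 1) := by
          field_simp
          ring
        have h7 : 0 < (x - a) * (x * a - 1) := mul_pos (by linarith) (by nlinarith)
        have h8 : (x + x⁻¹ - (a + a⁻¹)) * (x * a) ≤ 0 :=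
          mul_nonpos_of_nonpos_of_nonneg (by linarith) (by positivity)
        linarith
      have h6 : lr * x ∈ Icc lr p := by
        constructor
        · nlinarith
        · rw [le_div_iff₀ hlr] at h5
          linarith
      have h7 := hw.2.2
      simp only [mem_iInter, mem_ofPred_eq] at h7
      have h8 := h7 _ h6
      rw [hwx] at h8
      simp at h8
      linarith
  obtain ⟨d, hd, h⟩ := hKcp.exists_forall_le' hcont hpos
  refine ⟨d, hd, fun w h1 h2 h3 => h w ⟨h1, h2, ?_⟩⟩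
  simp only [mem_iInter, mem_ofPred_eq]
  exact h3

lemma FF_lt {m Y σ d : ℝ} {w : ℂ} (hm : 0 ≤ m) (hσ : 0 ≤ σ) (hσd : σ < d) (hσ1 : σ ≤ 1)
    (hY : (m + 2) ^ 2 + 1 < 2 * Y * d) (hY0 : 0 < Y)
    (h1 : ‖JJ w - ⟨m, Y⟩‖ ^ 2 ≤ (m + 2) ^ 2 + Y ^ 2 + σ)
    (h2 : ‖JJ w - ⟨m, -Y⟩‖ ^ 2 ≤ (m + 2) ^ 2 + Y ^ 2 + σ) : FF m w < d := by
  rw [norm_sq_eq, sub_re, sub_im] at h1 h2
  simp only at h1 h2
  set X := (JJ w).re - m
  set Z := (JJ w).im
  have h3 : X ^ 2 + 2 * |Z| * Y ≤ (m + 2) ^ 2 + σ := by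
    rcases abs_cases Z with h | h <;> rw [h.1] <;> nlinarith [sq_nonneg Z]
  have hZ := abs_nonneg Z
  unfold FF
  refine max_lt ?_ ?_
  · have : 2 * Y * |Z| < 2 * Y * d := by nlinarith [sq_nonneg X]
    exact lt_of_mul_lt_mul_left this (by linarith)
  · have h4 : |X| ^ 2 ≤ (m + 2 + σ) ^ 2 := by
      rw [sq_abs]
      nlinarith [mul_nonneg hZ hY0.le]
    have h5 : |X| ≤ m + 2 + σ := by
      exact (pow_le_pow_iff_left₀ (abs_nonneg _) (by linarith) (by norm_num)).mp h4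
    linarith

lemma coeff_le_one (Q : Polynomial ℂ) (h : ∀ z : ℂ, ‖z‖ = 1 → ‖Q.eval z‖ ≤ 1) (k : ℕ) :
    ‖Q.coeff k‖ ≤ 1 := by
  have h1 := Q.sum_sq_norm_coeff_eq_circleAverage
  have h2 : Real.circleAverage (fun θ ↦ ‖Q.eval θ‖ ^ 2) 0 1 ≤ 1 := by
    refine Real.circleAverage_mono_on_of_le_circle ?_ (fun z hz => ?_)
    · exact ContinuousOn.circleIntegrable' (by fun_prop)
    · have := h z (by simpa using hz)
      exact pow_le_one₀ (norm_nonneg _) this
  by_cases hk : k ∈ Q.support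
  · have h3 : ‖Q.coeff k‖ ^ 2 ≤ ∑ i ∈ Q.support, ‖Q.coeff i‖ ^ 2 :=
      Finset.single_le_sum (f := fun i => ‖Q.coeff i‖ ^ 2) (fun i _ => by positivity) hk
    have h4 : ‖Q.coeff k‖ ^ 2 ≤ 1 ^ 2 := by linarith
    exact (pow_le_pow_iff_left₀ (norm_nonneg _) (by norm_num) (by norm_num)).mp h4
  · rw [Polynomial.notMem_support_iff.mp hk]
    simp

lemma JJ_circle {w c : ℂ} {m : ℝ} (hw : ‖w‖ = 1) (hm : 0 ≤ m) (hc : c.re = m) :
    ‖JJ w - c‖ ^ 2 ≤ (m + 2) ^ 2 + c.im ^ 2 := by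
  have hn : normSq w = 1 := by rw [normSq_eq_norm_sq, hw]; norm_num
  rw [norm_sq_eq, sub_re, sub_im, JJ_re, JJ_im, hn, hc]
  have h1 := abs_le.mp ((Complex.abs_re_le_norm w).trans hw.le)
  nlinarith [h1.1, h1.2]

/-- Laurent expansion of a power of the normalised Joukowski map -/
lemma exists_laurent {c : ℂ} {m R : ℝ} (hm : 0 ≤ m) (hc : c.re = m) (hR : 0 < R)
    (hR2 : R ^ 2 = (m + 2) ^ 2 + c.im ^ 2) (M : ℕ) :
    ∃ q : ℕ → ℂ, (∀ k, ‖q k‖ ≤ 1) ∧ ∀ w : ℂ, w ≠ 0 →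
      ((JJ w - c) / R) ^ M = ∑ k ∈ Finset.range M, q k * (w⁻¹) ^ (M - k) +
        ∑ j ∈ Finset.range (M + 1), q (M + j) * w ^ j := by
  set Q : Polynomial ℂ := (Polynomial.C ((R:ℂ)⁻¹) *
    (Polynomial.X ^ 2 + 1 - Polynomial.C c * Polynomial.X)) ^ M with hQ
  have hRc : (R:ℂ) ≠ 0 := by exact_mod_cast hR.ne'
  have hev : ∀ w : ℂ, w ≠ 0 → Q.eval w = ((JJ w - c) / R) ^ M * w ^ M := by
    intro w hw
    rw [hQ, ← mul_pow]
    simp only [Polynomial.eval_pow, Polynomial.eval_mul, Polynomial.eval_C, Polynomial.eval_sub,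
      Polynomial.eval_add, Polynomial.eval_X, Polynomial.eval_one]
    congr 1
    unfold JJ
    field_simp
  have hdeg : Q.natDegree < M + (M + 1) := by
    have h1 : (Polynomial.C ((R:ℂ)⁻¹) *
      (Polynomial.X ^ 2 + 1 - Polynomial.C c * Polynomial.X)).natDegree ≤ 2 := by
      compute_degree
    have h2 := Polynomial.natDegree_pow_le_of_le M h1
    rw [← hQ] at h2
    omega
  refine ⟨fun k => Q.coeff k, coeff_le_one Q (fun z hz => ?_), fun w hw => ?_⟩
  · have hz0 : z ≠ 0 := by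
      intro h0
      rw [h0] at hz
      simp at hz
    rw [hev z hz0, norm_mul, norm_pow, norm_pow, hz, one_pow, mul_one]
    refine pow_le_one₀ (norm_nonneg _) ?_
    rw [norm_div, Complex.norm_real, Real.norm_of_nonneg hR.le, div_le_one hR]
    have := JJ_circle hz hm hc
    rw [← hR2] at this
    exact (pow_le_pow_iff_left₀ (norm_nonneg _) hR.le (by norm_num)).mp this
  · have h1 := hev w hw
    rw [Polynomial.eval_eq_sum_range' hdeg, Finset.sum_range_add] at h1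
    have hwM : w ^ M ≠ 0 := pow_ne_zero _ hw
    apply mul_right_cancel₀ hwM
    rw [← h1, add_mul, Finset.sum_mul, Finset.sum_mul]
    congr 1
    · refine Finset.sum_congr rfl (fun k hk => ?_)
      have hk' := (Finset.mem_range.mp hk).le
      obtain ⟨b, hb⟩ := Nat.exists_eq_add_of_le hk'
      have e : M - k = b := by omega
      rw [e]
      have e2 : w ^ M = w ^ k * w ^ b := by rw [hb, pow_add]
      rw [e2, inv_pow]
      field_simp
    · refine Finset.sum_congr rfl (fun k _ => ?_)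
      ring

end Pool.Agent.P.MP_e5acfa_ag.PkgE
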