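import Pool.Agent.P.MP_e5acfa_ag.E2

/-! Package E, part 3: estimates for the truncated sums. -/

open Complex Set

namespace Pool.Agent.P.MP_e5acfa_ag.PkgE

/-- the truncated sum -/
noncomputable def SS (g : ℕ → ℕ → ℂ) (q : ℕ → ℂ) (M : ℕ) (w ζ : ℂ) : ℂ :=
  ∑ j ∈ Finset.range (M + 1), q (M + j) * w ^ j * pj g j ζ

lemma rep_SS (g : ℕ → ℕ → ℂ) (q : ℕ → ℂ) (M : ℕ) (a N : ℂ) :
    Rep (fun ζ l => SS g q M (l / a) ζ / N) := by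
  refine (Rep.sum (M + 1) (F := fun j ζ l => (q (M + j) / (a ^ j * N)) * (l ^ j * pj g j ζ))
    (fun j _ => (Rep.const _).mul (rep_pj g j))).congr ?_
  intro ζ l
  unfold SS
  rw [Finset.sum_div]
  refine Finset.sum_congr rfl (fun j _ => ?_)
  rw [div_pow]
  simp only [div_eq_mul_inv, mul_inv]
  ring

lemma SS_le {g : ℕ → ℕ → ℂ} {q : ℕ → ℂ} {C γ W : ℝ} (hγ : 1 ≤ γ) (hC : 0 ≤ C)
    (hg : ∀ i ≤ 2, ∀ r, ‖g i r‖ ≤ C * γ ^ r) (hq : ∀ k, ‖q k‖ ≤ 1) {M : ℕ} (hM : 1 ≤ M)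
    {w ζ : ℂ} (h : ‖ζ‖ ≤ 1) (hW : 1 ≤ W) (hw : ‖w‖ ≤ W) :
    ‖SS g q M w ζ‖ ≤ 64 * C * (M:ℝ) ^ 2 * γ ^ M * W ^ M := by
  unfold SS
  refine (norm_sum_le _ _).trans ?_
  have hM' : (1:ℝ) ≤ M := by exact_mod_cast hM
  have : ∀ j ∈ Finset.range (M + 1), ‖q (M + j) * w ^ j * pj g j ζ‖ ≤
      W ^ M * (32 * C * M * γ ^ M) := by
    intro j hj
    have hj' : j ≤ M := Nat.lt_succ_iff.mp (Finset.mem_range.mp hj)
    have hn : nk j ≤ M := by have := nk_le j; omega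
    have hn' : (nk j : ℝ) ≤ M := by exact_mod_cast hn
    rw [norm_mul, norm_mul, norm_pow]
    have a1 : ‖w‖ ^ j ≤ W ^ M :=
      (pow_le_pow_left₀ (norm_nonneg _) hw j).trans (pow_le_pow_right₀ hW hj')
    have a2 : ‖q (M + j)‖ * ‖w‖ ^ j ≤ W ^ M := by
      calc _ ≤ 1 * W ^ M := mul_le_mul (hq _) a1 (by positivity) (by norm_num)
        _ = _ := one_mul _
    have a3 : ‖pj g j ζ‖ ≤ 32 * C * M * γ ^ M := by
      refine (pj_le hγ hC hg j h).trans ?_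
      have := pow_le_pow_right₀ hγ hn
      gcongr
    exact mul_le_mul a2 a3 (norm_nonneg _) (by positivity)
  refine (Finset.sum_le_card_nsmul _ _ _ this).trans ?_
  simp only [Finset.card_range, nsmul_eq_mul, Nat.cast_add, Nat.cast_one]
  have b1 : (M:ℝ) + 1 ≤ 2 * M := by linarith
  calc _ ≤ (2 * M) * (W ^ M * (32 * C * M * γ ^ M)) :=
        mul_le_mul_of_nonneg_right b1 (by positivity)
    _ = _ := by ring

lemma SS_err {g : ℕ → ℕ → ℂ} {q : ℕ → ℂ} {C γ : ℝ} (hγ : 1 ≤ γ) (hγ2 : γ ≤ 2) (hC : 0 ≤ C)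
    (hg : ∀ i ≤ 2, ∀ r, ‖g i r‖ ≤ C * γ ^ r) (hq : ∀ k, ‖q k‖ ≤ 1) {M : ℕ} (hM : 1 ≤ M)
    {w ζ L : ℂ} (h : ‖ζ‖ < 1)
    (hf : ∀ i ≤ 2, ∀ n, ‖(rho ζ ^ (2 * i))⁻¹ - ∑ r ∈ Finset.range n, g i r * ζ ^ r‖ ≤
      C * (γ * ‖ζ‖) ^ n)
    (hw1 : 1 ≤ ‖w‖) (hw2 : ‖w‖ ≤ 2) (hz : ‖w‖ ^ 6 * ‖ζ‖ ≤ γ ^ 7)
    (hL : L = ∑ k ∈ Finset.range M, q k * (w⁻¹) ^ (M - k) +
        ∑ j ∈ Finset.range (M + 1), q (M + j) * w ^ j) :
    ‖SS g q M w ζ - L‖ ≤ (16384 * C + 1) * (M:ℝ) ^ 2 * γ ^ (2 * M) := by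
  have hM' : (1:ℝ) ≤ M := by exact_mod_cast hM
  have e : SS g q M w ζ - L = ∑ j ∈ Finset.range (M + 1), q (M + j) * w ^ j * (pj g j ζ - 1) -
      ∑ k ∈ Finset.range M, q k * (w⁻¹) ^ (M - k) := by
    rw [hL]
    unfold SS
    simp only [mul_sub, mul_one, Finset.sum_sub_distrib]
    ring
  rw [e]
  refine (norm_sub_le _ _).trans ?_
  have h1 : ‖∑ k ∈ Finset.range M, q k * (w⁻¹) ^ (M - k)‖ ≤ M := by
    refine (norm_sum_le _ _).trans ?_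
    have : ∀ k ∈ Finset.range M, ‖q k * (w⁻¹) ^ (M - k)‖ ≤ 1 := by
      intro k _
      rw [norm_mul, norm_pow, norm_inv]
      have a1 : ‖w‖⁻¹ ^ (M - k) ≤ 1 := pow_le_one₀ (by positivity) (inv_le_one_of_one_le₀ hw1)
      calc _ ≤ 1 * 1 := mul_le_mul (hq _) a1 (by positivity) (by norm_num)
        _ = 1 := one_mul _
    refine (Finset.sum_le_card_nsmul _ _ _ this).trans ?_
    simp
  have h2 : ‖∑ j ∈ Finset.range (M + 1), q (M + j) * w ^ j * (pj g j ζ - 1)‖ ≤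
      (M + 1) * (16 * C * (M + 1) * 16 * (16 * γ ^ (2 * M))) := by
    refine (norm_sum_le _ _).trans ?_
    have : ∀ j ∈ Finset.range (M + 1), ‖q (M + j) * w ^ j * (pj g j ζ - 1)‖ ≤
        16 * C * (M + 1) * 16 * (16 * γ ^ (2 * M)) := by
      intro j hj
      have hj' : j ≤ M := Nat.lt_succ_iff.mp (Finset.mem_range.mp hj)
      have hn6 := nk_le j
      have hn : nk j ≤ M := by omega
      have hn' : (nk j : ℝ) ≤ M := by exact_mod_cast hn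
      rw [norm_mul, norm_mul, norm_pow]
      have a1 : ‖w‖ ^ j ≤ (‖w‖ ^ 6) ^ nk j * 16 := by
        calc ‖w‖ ^ j ≤ ‖w‖ ^ (6 * nk j + 4) := pow_le_pow_right₀ hw1 (j_le j)
          _ = (‖w‖ ^ 6) ^ nk j * ‖w‖ ^ 4 := by rw [pow_add, pow_mul]
          _ ≤ (‖w‖ ^ 6) ^ nk j * 2 ^ 4 := by gcongr
          _ = _ := by norm_num
      have a2 : ‖q (M + j)‖ * ‖w‖ ^ j ≤ (‖w‖ ^ 6) ^ nk j * 16 := by
        calc _ ≤ 1 * ((‖w‖ ^ 6) ^ nk j * 16) := mul_le_mul (hq _) a1 (by positivity) (by norm_num)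
          _ = _ := one_mul _
      have a3 := pj_sub_le hγ hC hg j h hf
      have a4 : (γ * (‖w‖ ^ 6 * ‖ζ‖)) ^ nk j ≤ 16 * γ ^ (2 * M) := by
        calc (γ * (‖w‖ ^ 6 * ‖ζ‖)) ^ nk j ≤ (γ * γ ^ 7) ^ nk j := by gcongr
          _ = γ ^ (8 * nk j) := by rw [← pow_succ', ← pow_mul]
          _ ≤ γ ^ (4 + 2 * M) := pow_le_pow_right₀ hγ (by omega)
          _ = γ ^ 4 * γ ^ (2 * M) := by rw [pow_add]
          _ ≤ 2 ^ 4 * γ ^ (2 * M) := by gcongr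
          _ = _ := by norm_num
      calc _ ≤ ((‖w‖ ^ 6) ^ nk j * 16) * (16 * C * (nk j + 1) * (γ * ‖ζ‖) ^ nk j) :=
            mul_le_mul a2 a3 (norm_nonneg _) (by positivity)
        _ = 16 * C * (nk j + 1) * 16 * (γ * (‖w‖ ^ 6 * ‖ζ‖)) ^ nk j := by
            simp only [mul_pow]; ring
        _ ≤ _ := by gcongr
    refine (Finset.sum_le_card_nsmul _ _ _ this).trans ?_
    simp
  have b1 : (M:ℝ) + 1 ≤ 2 * M := by linarith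
  have b2 : (1:ℝ) ≤ γ ^ (2 * M) := one_le_pow₀ hγ
  have b3 : ((M:ℝ) + 1) * (16 * C * (M + 1) * 16 * (16 * γ ^ (2 * M))) ≤
      (2 * M) * (16 * C * (2 * M) * 16 * (16 * γ ^ (2 * M))) := by gcongr
  have b4 : (M:ℝ) ≤ (M:ℝ) ^ 2 * γ ^ (2 * M) := by nlinarith
  nlinarith

lemma cauchy {f : ℂ → ℂ} {c : ℂ} {h δ : ℝ} (h0 : 0 < h)
    (hd : ∀ z, ‖z - c‖ ≤ h → DifferentiableAt ℂ f z) (hb : ∀ z, ‖z - c‖ ≤ h → ‖f z‖ ≤ δ) :
    ‖deriv f c‖ ≤ δ / h := by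
  refine Complex.norm_deriv_le_of_forall_mem_sphere_norm_le h0 ?_ (fun z hz => hb z ?_)
  · refine DifferentiableOn.diffContOnCl ?_
    rw [closure_ball c h0.ne']
    intro z hz
    exact (hd z (by simpa [dist_eq_norm] using hz)).differentiableWithinAt
  · exact le_of_eq (by simpa [dist_eq_norm] using hz)

lemma chain_l {t : ℂ × ℂ → ℂ} (ht : IsPoly2 t) {F : ℂ → ℂ → ℂ}
    (hF : ∀ ζ l, t (UU ζ l, VV ζ l) = F ζ l) {ζ l F' : ℂ} (h : HasDerivAt (F ζ) F' l) :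
    fderiv ℂ t (UU ζ l, VV ζ l) (3 * UU ζ l, 2 * VV ζ l) = l * F' := by
  have h1 : HasDerivAt (fun l => (UU ζ l, VV ζ l)) (3 * l ^ 2 * (1 + ζ), 2 * l * rho ζ ^ 2) l := by
    refine HasDerivAt.prodMk ?_ ?_
    · unfold UU
      simpa using (hasDerivAt_pow 3 l).mul_const (1 + ζ)
    · unfold VV
      simpa using (hasDerivAt_pow 2 l).mul_const (rho ζ ^ 2)
  have h2 := ((poly_diff ht) (UU ζ l, VV ζ l)).hasFDerivAt.comp_hasDerivAt l h1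
  have e : (t ∘ fun l => (UU ζ l, VV ζ l)) = F ζ := funext (fun l => hF ζ l)
  rw [e] at h2
  rw [← h2.unique h, ← smul_eq_mul l, ← map_smul]
  congr 1
  unfold UU VV
  ext <;> simp <;> ring

lemma chain_z {t : ℂ × ℂ → ℂ} (ht : IsPoly2 t) {F : ℂ → ℂ → ℂ}
    (hF : ∀ ζ l, t (UU ζ l, VV ζ l) = F ζ l) {ζ l : ℂ} (hζ : ‖ζ‖ < 1) :
    fderiv ℂ t (UU ζ l, VV ζ l) (l ^ 3, -(2 * l ^ 2) / (3 * rho ζ)) = deriv (fun z => F z l) ζ := by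
  have h1 : HasDerivAt (fun z => (UU z l, VV z l)) (l ^ 3, -(2 * l ^ 2) / (3 * rho ζ)) ζ := by
    refine HasDerivAt.prodMk ?_ ?_
    · unfold UU
      simpa using ((hasDerivAt_id ζ).const_add 1).const_mul (l ^ 3)
    · unfold VV
      have := ((rho_deriv hζ).pow 2).const_mul (l ^ 2)
      have hne := rho_ne hζ
      have e : -(2 * l ^ 2) / (3 * rho ζ) =
          l ^ 2 * (((2:ℕ):ℂ) * rho ζ ^ (2 - 1) * (-1 / (3 * rho ζ ^ 2))) := by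
        push_cast
        field_simp
      rw [e]
      exact this
  have h2 := ((poly_diff ht) (UU ζ l, VV ζ l)).hasFDerivAt.comp_hasDerivAt ζ h1
  have e : (t ∘ fun z => (UU z l, VV z l)) = fun z => F z l := funext (fun z => hF z l)
  rw [e] at h2
  exact h2.deriv.symm

lemma fin_ineq {T A e e' q : ℂ} {M k δ : ℝ} (hM : 1 ≤ M) (hT : T = A + e) (he : ‖e‖ ≤ δ)
    (hδ1 : δ ≤ 1 / 4) (hδ2 : δ ≤ k / 96) (he' : ‖e'‖ ≤ k / 16) (hT1 : 1 ≤ ‖T‖) (hk : 0 < k)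
    (hq : k ≤ q.re) (hq2 : ‖q‖ ≤ 3 / 2) :
    2 * (k / 16) * ‖T‖ ^ 2 ≤ (((M:ℂ) * A * q + e') * (starRingEnd ℂ) T).re := by
  have e1 : ((M:ℂ) * A * q + e') * (starRingEnd ℂ) T =
      ((M * ‖A‖ ^ 2 : ℝ) : ℂ) * q + (M:ℂ) * A * q * (starRingEnd ℂ) e + e' * (starRingEnd ℂ) T := by
    have := Complex.mul_conj' A
    rw [hT, map_add]
    push_cast
    linear_combination (M:ℂ) * q * this
  rw [e1, add_re, add_re, re_ofReal_mul]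
  have a1 : ‖A‖ ≤ 5 / 4 * ‖T‖ := by
    have : A = T - e := by rw [hT]; ring
    rw [this]
    have := norm_sub_le T e
    linarith
  have a2 : 3 / 4 * ‖T‖ ≤ ‖A‖ := by
    have := norm_add_le A e
    rw [← hT] at this
    linarith
  have a3 : -(M * ‖A‖ * (3 / 2) * (k / 96)) ≤ ((M:ℂ) * A * q * (starRingEnd ℂ) e).re := by
    have b1 := (abs_le.mp (Complex.abs_re_le_norm ((M:ℂ) * A * q * (starRingEnd ℂ) e))).1
    have b2 : ‖(M:ℂ) * A * q * (starRingEnd ℂ) e‖ ≤ M * ‖A‖ * (3 / 2) * (k / 96) := by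
      rw [norm_mul, norm_mul, norm_mul, Complex.norm_conj, Complex.norm_real,
        Real.norm_of_nonneg (by linarith)]
      have : ‖e‖ ≤ k / 96 := he.trans hδ2
      have : 0 ≤ M := by linarith
      gcongr
    linarith
  have a4 : -(k / 16 * ‖T‖) ≤ (e' * (starRingEnd ℂ) T).re := by
    have b1 := (abs_le.mp (Complex.abs_re_le_norm (e' * (starRingEnd ℂ) T))).1
    have b2 : ‖e' * (starRingEnd ℂ) T‖ ≤ k / 16 * ‖T‖ := by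
      rw [norm_mul, Complex.norm_conj]
      gcongr
    linarith
  have a5 : M * (3 / 4 * ‖T‖) ^ 2 * k ≤ M * ‖A‖ ^ 2 * q.re := by
    have : 0 ≤ M := by linarith
    gcongr
  have a6 : M * ‖A‖ * (3 / 2) * (k / 96) ≤ M * (5 / 4 * ‖T‖ ^ 2) * (3 / 2) * (k / 96) := by
    have : 0 ≤ M := by linarith
    have : ‖A‖ ≤ 5 / 4 * ‖T‖ ^ 2 := by nlinarith
    gcongr
  have a7 : k / 16 * ‖T‖ ≤ k / 16 * ‖T‖ ^ 2 := by
    have : ‖T‖ ≤ ‖T‖ ^ 2 := by nlinarith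
    gcongr
  have a8 : 0 ≤ (M - 1) * (k * ‖T‖ ^ 2) := mul_nonneg (by linarith) (by positivity)
  have a9 : 0 ≤ k * ‖T‖ ^ 2 := by positivity
  nlinarith

lemma SS_diff_w (g : ℕ → ℕ → ℂ) (q : ℕ → ℂ) (M : ℕ) (ζ : ℂ) :
    Differentiable ℂ (fun w => SS g q M w ζ) := by
  unfold SS
  fun_prop

lemma SS_diff_z (g : ℕ → ℕ → ℂ) (q : ℕ → ℂ) (M : ℕ) (w : ℂ) {ζ : ℂ} (h : ‖ζ‖ < 1) :
    DifferentiableAt ℂ (fun z => SS g q M w z) ζ := by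
  unfold SS pj
  have := rho_diff h
  fun_prop

lemma A_deriv {c w N : ℂ} {R : ℝ} (M : ℕ) (hM : 1 ≤ M) (hR : 0 < R) (hw : w ≠ 0) :
    ∃ A' : ℂ, HasDerivAt (fun w => ((JJ w - c) / R) ^ M / N) A' w ∧
      (JJ w - c ≠ 0 → w * A' = (M:ℂ) * (((JJ w - c) / R) ^ M / N) * ((w - w⁻¹) / (JJ w - c))) := by
  have h1 : HasDerivAt JJ (1 + -(w ^ 2)⁻¹) w := (hasDerivAt_id w).add (hasDerivAt_inv hw)
  have h2 := (((h1.sub_const c).div_const (R:ℂ)).pow M).div_const N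
  refine ⟨_, h2, fun hne => ?_⟩
  obtain ⟨n, rfl⟩ := Nat.exists_eq_add_of_le' hM
  have hRc : (R:ℂ) ≠ 0 := by exact_mod_cast hR.ne'
  simp only [Nat.add_sub_cancel, pow_succ]
  field_simp
  ring

lemma exists_M {γ K δ : ℝ} (hγ : 1 < γ) (hK : 0 < K) (hδ : 0 < δ) :
    ∃ M : ℕ, 1 ≤ M ∧ K * (M:ℝ) ^ 2 ≤ δ * γ ^ M := by
  have h := tendsto_pow_const_div_const_pow_of_one_lt 2 hγ
  have h2 := h.eventually (gt_mem_nhds (show (0:ℝ) < δ / K by positivity))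
  obtain ⟨M, hM1, hM2⟩ := (h2.and (Filter.eventually_ge_atTop 1)).exists
  refine ⟨M, hM2, ?_⟩
  rw [div_lt_div_iff₀ (by positivity) hK] at hM1
  linarith

lemma pow12 {η : ℝ} (h0 : 0 ≤ η) (h1 : η ≤ 1) : (1 + η) ^ 12 - 1 ≤ 4095 * η := by
  have a1 : (1 + η) ^ 2 ≤ 1 + 3 * η := by nlinarith
  have a2 : (1 + η) ^ 4 ≤ 1 + 15 * η := by
    calc (1 + η) ^ 4 = ((1 + η) ^ 2) ^ 2 := by ring
      _ ≤ (1 + 3 * η) ^ 2 := by gcongr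
      _ ≤ _ := by nlinarith
  have a3 : (1 + η) ^ 12 ≤ (1 + 15 * η) ^ 3 := by
    calc (1 + η) ^ 12 = ((1 + η) ^ 4) ^ 3 := by ring
      _ ≤ _ := by gcongr
  have a4 : η ^ 2 ≤ η := by nlinarith
  have a5 : η ^ 3 ≤ η := by nlinarith
  nlinarith

end Pool.Agent.P.MP_e5acfa_ag.PkgE
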