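import Pool.Agent.P.MP_e5acfa_ag.Defs

/-! Package F: an explicit one variable polynomial. -/

open Complex Set Polynomial

namespace Pool.Agent.P.MP_e5acfa_ag

namespace PkgF

lemma norm_pow_sub_one (w : ℂ) (N : ℕ) : ‖(1 + w) ^ N - 1‖ ≤ (1 + ‖w‖) ^ N - 1 := by
  induction N with
  | zero => simp
  | succ n ih =>
    have e : (1 + w) ^ (n + 1) - 1 = ((1 + w) ^ n - 1) * (1 + w) + w := by ring
    have h1 : ‖1 + w‖ ≤ 1 + ‖w‖ := by simpa using norm_add_le (1 : ℂ) w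
    have h0 : 0 ≤ ‖w‖ := norm_nonneg _
    rw [e]
    calc ‖((1 + w) ^ n - 1) * (1 + w) + w‖ ≤ ‖(1 + w) ^ n - 1‖ * ‖1 + w‖ + ‖w‖ := by
          rw [← norm_mul]; exact norm_add_le _ _
      _ ≤ ((1 + ‖w‖) ^ n - 1) * (1 + ‖w‖) + ‖w‖ := by
          gcongr
          exact le_trans (norm_nonneg _) ih
      _ = (1 + ‖w‖) ^ (n + 1) - 1 := by ring

/-- a polynomial step function -/
lemma step (a0 a1 δ : ℝ) (h0 : 0 < a0) (h01 : a0 < a1) (h1 : a1 ≤ 1) (hδ : 0 < δ) :
    ∃ k N : ℕ, (∀ a : ℂ, ‖a‖ ≤ a0 → ‖(1 - a ^ k) ^ N - 1‖ ≤ δ) ∧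
      ∀ s : ℝ, a1 ≤ s → s ≤ 1 → (1 - s ^ k) ^ N ≤ δ := by
  have ha1 : 0 < a1 := h0.trans h01
  have hq0 : 0 ≤ a0 / a1 := by positivity
  have hq1 : a0 / a1 < 1 := (div_lt_one ha1).2 h01
  set η : ℝ := min 1 (δ / 2) with hη
  have hη0 : 0 < η := lt_min one_pos (by positivity)
  obtain ⟨k, hk⟩ := exists_pow_lt_of_lt_one (show 0 < η / (1 / δ + 1) by positivity) hq1
  have hak : 0 < a1 ^ k := pow_pos ha1 k
  have hak1 : a1 ^ k ≤ 1 := pow_le_one₀ ha1.le h1
  refine ⟨k, ⌈1 / (δ * a1 ^ k)⌉₊, ?_, ?_⟩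
  · intro a ha
    set N := ⌈1 / (δ * a1 ^ k)⌉₊ with hN
    have hNle : (N : ℝ) ≤ 1 / (δ * a1 ^ k) + 1 := (Nat.ceil_lt_add_one (by positivity)).le
    have hw : ‖-(a ^ k)‖ ≤ a0 ^ k := by
      rw [norm_neg, norm_pow]; gcongr
    have hNa : (N : ℝ) * a0 ^ k ≤ η := by
      have e1 : (1 / (δ * a1 ^ k) + 1) * a0 ^ k ≤ (1 / δ + 1) * (a0 / a1) ^ k := by
        rw [div_pow]
        have h2 : a0 ^ k ≤ a0 ^ k / a1 ^ k := by
          rw [le_div_iff₀ hak]
          exact mul_le_of_le_one_right (by positivity) hak1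
        have h3 : 1 / (δ * a1 ^ k) * a0 ^ k = 1 / δ * (a0 ^ k / a1 ^ k) := by
          field_simp
        nlinarith
      have e2 : (1 / δ + 1) * (a0 / a1) ^ k ≤ η := by
        have := hk.le
        rw [le_div_iff₀ (by positivity)] at this
        linarith
      calc (N : ℝ) * a0 ^ k ≤ (1 / (δ * a1 ^ k) + 1) * a0 ^ k := by gcongr
        _ ≤ η := e1.trans e2
    have hx0 : 0 ≤ (N : ℝ) * a0 ^ k := by positivity
    have hη1 : η ≤ 1 := min_le_left _ _
    have hη2 : η ≤ δ / 2 := min_le_right _ _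
    have h4 : (1 + a0 ^ k) ^ N ≤ Real.exp (N * a0 ^ k) := by
      rw [Real.exp_nat_mul]
      gcongr
      linarith [Real.add_one_le_exp (a0 ^ k)]
    have h5 := Real.abs_exp_sub_one_le (x := N * a0 ^ k) (by rw [abs_of_nonneg hx0]; linarith)
    rw [abs_of_nonneg hx0] at h5
    have h6 := le_abs_self (Real.exp (N * a0 ^ k) - 1)
    calc ‖(1 - a ^ k) ^ N - 1‖ = ‖(1 + -(a ^ k)) ^ N - 1‖ := by rw [sub_eq_add_neg 1]
      _ ≤ (1 + ‖-(a ^ k)‖) ^ N - 1 := norm_pow_sub_one _ _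
      _ ≤ (1 + a0 ^ k) ^ N - 1 := by gcongr
      _ ≤ δ := by linarith
  · intro s hs hs1
    set N := ⌈1 / (δ * a1 ^ k)⌉₊ with hN
    have hNge : 1 / (δ * a1 ^ k) ≤ (N : ℝ) := Nat.le_ceil _
    have hs0 : 0 < s := ha1.trans_le hs
    have hsk : a1 ^ k ≤ s ^ k := by gcongr
    have hsk1 : s ^ k ≤ 1 := pow_le_one₀ hs0.le hs1
    have hB : 1 + N * s ^ k ≤ (1 + s ^ k) ^ N := one_add_mul_le_pow (by nlinarith) N
    have hP : (1 - s ^ k) ^ N * (1 + s ^ k) ^ N ≤ 1 := by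
      rw [← mul_pow]
      apply pow_le_one₀
      · nlinarith
      · nlinarith
    have hA : 0 ≤ (1 - s ^ k) ^ N := pow_nonneg (by linarith) N
    have hC : 1 ≤ δ * (N * s ^ k) := by
      rw [div_le_iff₀ (by positivity)] at hNge
      have : (N : ℝ) * (δ * a1 ^ k) ≤ N * (δ * s ^ k) := by gcongr
      nlinarith
    have hD : (1 - s ^ k) ^ N * (N * s ^ k) ≤ 1 := by nlinarith
    by_contra hcon
    push Not at hcon
    have hE : 0 < (N : ℝ) * s ^ k := by
      by_contra h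
      push Not at h
      nlinarith
    nlinarith

lemma pr_cont : Continuous pr := by
  unfold pr; fun_prop

lemma pr_le_one (s : ℝ) (h0 : 0 ≤ s) (h1 : s ≤ 1) : pr s ≤ 1 := by
  unfold pr
  have h2 : 0 ≤ 1 - s ^ 2 := by nlinarith
  have h3 := Real.sq_sqrt h2
  nlinarith [sq_nonneg (s - Real.sqrt (1 - s ^ 2))]

lemma pr_r (r : ℝ) (hr : 0 < r) (hr2 : r ^ 2 = 1 / 2) : pr r = 1 := by
  unfold pr
  have : Real.sqrt (1 - r ^ 2) = r := by
    rw [show 1 - r ^ 2 = r ^ 2 by linarith]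
    exact Real.sqrt_sq hr.le
  rw [this]; nlinarith

lemma pr_ge (P s : ℝ) (hs : 1 / 2 ≤ s) (hsP : s ≤ P) : Real.sqrt (1 - P ^ 2) ≤ pr s := by
  unfold pr
  have h1 : Real.sqrt (1 - P ^ 2) ≤ Real.sqrt (1 - s ^ 2) := by
    apply Real.sqrt_le_sqrt; nlinarith
  have h2 := Real.sqrt_nonneg (1 - s ^ 2)
  nlinarith

lemma eval_map (q : ℝ[X]) (s : ℝ) :
    (q.map (algebraMap ℝ ℂ)).eval (s : ℂ) = ((q.eval s : ℝ) : ℂ) := by
  have := Polynomial.eval_map_apply (p := q) (algebraMap ℝ ℂ) s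
  simpa using this

/-- the first factor -/
lemma factor (r P e : ℝ) (hr : 0 < r) (hr2 : r ^ 2 = 1 / 2) (he : 0 < e) (hP1 : P < 1) :
    ∃ d : ℝ, 0 < d ∧ d ≤ 1 / 100 ∧ ∀ δ : ℝ, 0 < δ → ∃ G : ℝ[X],
      (∀ a : ℂ, ‖a‖ ≤ r + 2 * d → ‖(G.map (algebraMap ℝ ℂ)).eval a - 1‖ ≤ δ) ∧
      ∀ s : ℝ, r ≤ s → s ≤ P → |G.eval s - pr s| ≤ e := by
  have hr1 : r < 3 / 4 := by nlinarith
  obtain ⟨d0, hd0, hd⟩ := Metric.continuous_iff.1 pr_cont r (e / 2) (by positivity)
  obtain ⟨q, hq⟩ := exists_polynomial_near_of_continuousOn 0 1 pr pr_cont.continuousOn (e / 2)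
    (by positivity)
  obtain ⟨Q, hQ⟩ := (isCompact_closedBall (0 : ℂ) 1).exists_bound_of_continuousOn
    (f := fun a => (q.map (algebraMap ℝ ℂ)).eval a - 1) (by fun_prop)
  have hQ0 : 0 ≤ Q := le_trans (norm_nonneg _) (hQ 0 (by simp))
  refine ⟨min (d0 / 4) (1 / 100), lt_min (by positivity) (by norm_num), min_le_right _ _, ?_⟩
  set d := min (d0 / 4) (1 / 100) with hdd
  have hd1 : d ≤ d0 / 4 := min_le_left _ _
  have hd2 : d ≤ 1 / 100 := min_le_right _ _
  have hdpos : 0 < d := lt_min (by positivity) (by norm_num)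
  intro δ hδ
  set η := min δ (e / 2) / (Q + 1) with hη
  have hm0 : 0 < min δ (e / 2) := lt_min hδ (by positivity)
  have hη0 : 0 < η := by positivity
  have hηQ : Q * η ≤ min δ (e / 2) := by
    rw [hη, mul_div_assoc', div_le_iff₀ (by positivity)]
    nlinarith
  obtain ⟨k, N, hA, hB⟩ := step (r + 2 * d) (r + 3 * d) η (by positivity) (by linarith)
    (by linarith) hη0
  refine ⟨1 + (q - 1) * (1 - (1 - X ^ k) ^ N), ?_, ?_⟩
  · intro a ha
    have h1 := hQ a (by simp; linarith)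
    have h2 := hA a ha
    have e1 : ((1 + (q - 1) * (1 - (1 - X ^ k) ^ N)).map (algebraMap ℝ ℂ)).eval a - 1 =
        -(((q.map (algebraMap ℝ ℂ)).eval a - 1) * ((1 - a ^ k) ^ N - 1)) := by
      simp; ring
    rw [e1, norm_neg, norm_mul]
    calc _ ≤ Q * η := by gcongr
      _ ≤ δ := hηQ.trans (min_le_left _ _)
  · intro s hs hsP
    have hs0 : 0 ≤ s := by linarith
    have hs1 : s ≤ 1 := by linarith
    have e1 : (1 + (q - 1) * (1 - (1 - X ^ k) ^ N)).eval s =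
        1 + (q.eval s - 1) * (1 - (1 - s ^ k) ^ N) := by simp
    rw [e1]
    have hk1 : s ^ k ≤ 1 := pow_le_one₀ hs0 hs1
    have hk0 : 0 ≤ s ^ k := pow_nonneg hs0 k
    have ht0 : 0 ≤ (1 - s ^ k) ^ N := pow_nonneg (by linarith) N
    have ht1 : (1 - s ^ k) ^ N ≤ 1 := pow_le_one₀ (by linarith) (by linarith)
    set t := (1 - s ^ k) ^ N with ht
    have h1 := abs_lt.1 (hq s ⟨hs0, hs1⟩)
    by_cases hc : s ≤ r + 3 * d
    · have h2 := hd s (by rw [Real.dist_eq, abs_lt]; constructor <;> linarith)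
      rw [pr_r r hr hr2, Real.dist_eq] at h2
      have h3 := abs_lt.1 h2
      rw [abs_le]
      constructor <;> nlinarith [h1.1, h1.2, h3.1, h3.2]
    · push Not at hc
      have h2 := hB s hc.le hs1
      have h3 := hQ (s : ℂ) (by simp [abs_of_nonneg hs0, hs1])
      rw [eval_map] at h3
      have h4 : |q.eval s - 1| ≤ Q := by
        have : ((q.eval s : ℝ) : ℂ) - 1 = ((q.eval s - 1 : ℝ) : ℂ) := by push_cast; ring
        rw [this, Complex.norm_real, Real.norm_eq_abs] at h3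
        exact h3
      have h5 : |(q.eval s - 1) * t| ≤ e / 2 := by
        rw [abs_mul, abs_of_nonneg ht0]
        calc _ ≤ Q * η := by gcongr
          _ ≤ e / 2 := hηQ.trans (min_le_right _ _)
      have h6 := abs_le.1 h5
      rw [abs_le]
      constructor <;> nlinarith [h1.1, h1.2, h6.1, h6.2]

/-- the geometric sum is large near the tip -/
lemma geom_ge (x : ℝ) (m0 m : ℕ) (hx0 : 0 ≤ x) (hx1 : x ≤ 1) (hm : m0 ≤ m)
    (h : (m0 : ℝ) * (1 - x) ≤ 1 / 2) : (m0 : ℝ) / 2 ≤ ∑ j ∈ Finset.range m, x ^ j := by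
  have h1 : ∑ j ∈ Finset.range m0, x ^ j ≤ ∑ j ∈ Finset.range m, x ^ j :=
    Finset.sum_le_sum_of_subset_of_nonneg (Finset.range_mono hm) (fun _ _ _ => by positivity)
  have h2 : ∑ _j ∈ Finset.range m0, (1 / 2 : ℝ) ≤ ∑ j ∈ Finset.range m0, x ^ j := by
    apply Finset.sum_le_sum
    intro j hj
    have hj' : (j : ℝ) ≤ m0 := by exact_mod_cast (Finset.mem_range.1 hj).le
    have h3 := one_add_mul_le_pow (a := x - 1) (by linarith) j
    rw [show 1 + (x - 1) = x by ring] at h3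
    nlinarith
  simp at h2
  linarith

theorem core (r P ε : ℝ) (hr : 0 < r) (hr2 : r ^ 2 = 1 / 2) (hP0 : 4 / 5 < P) (hP1 : P < 1)
    (hε : 0 < ε) :
    ∃ (g : Polynomial ℂ) (ν : ℝ), 0 < ν ∧ ν ≤ ε ∧ g.eval (P : ℂ) = 0 ∧
      (∀ a : ℂ, ‖a‖ ^ 2 ≤ (1 + ν) / 2 →
        ‖g.eval a - 1‖ ≤ ε ∧ ‖a * g.derivative.eval a‖ ≤ ε) ∧
      ∀ a : ℂ, (∃ s ∈ Icc r P, ‖a - (s : ℂ)‖ ≤ ν) →
        ‖a‖ < 1 ∧ ‖g.eval a‖ ≤ (1 + ε) * pr ‖a‖ ∧
          (pr ‖a‖ - ε ≤ ‖g.eval a‖ ∨
            (‖a - (P : ℂ)‖ ≤ ε ∧ ‖a - (P : ℂ)‖ ≤ ε * ‖g.eval a‖)) := by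
  have hr1 : r < 3 / 4 := by nlinarith
  have hr0 : 1 / 2 < r := by nlinarith
  have hPpos : 0 < P := by linarith
  set c := Real.sqrt (1 - P ^ 2) with hc
  have hc0 : 0 < c := Real.sqrt_pos.2 (by nlinarith)
  set e := min (min (ε / 3) (ε * c / 2)) (c / 2) with he
  have he0 : 0 < e := lt_min (lt_min (by positivity) (by positivity)) (by positivity)
  have he1 : e ≤ ε / 3 := (min_le_left _ _).trans (min_le_left _ _)
  have he2 : e ≤ ε * c / 2 := (min_le_left _ _).trans (min_le_right _ _)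
  have he3 : e ≤ c / 2 := min_le_right _ _
  obtain ⟨d, hd0, hd1, hG⟩ := factor r P e hr hr2 he0 hP1
  set δ := min 1 (ε * d / 3) with hδ
  have hδ0 : 0 < δ := lt_min one_pos (by positivity)
  have hδ1 : δ ≤ 1 := min_le_left _ _
  have hδ2 : δ ≤ ε * d / 3 := min_le_right _ _
  obtain ⟨G, hG1, hG2⟩ := hG δ hδ0
  obtain ⟨m0, hm0⟩ := exists_nat_gt (4 / (ε * c))
  have hm0pos : (0 : ℝ) < m0 := lt_trans (by positivity) hm0
  set τ := min (ε / 2) (1 / (4 * m0)) with hτ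
  have hτ0 : 0 < τ := lt_min (by positivity) (by positivity)
  have hτ1 : τ ≤ ε / 2 := min_le_left _ _
  have hτ2 : τ ≤ 1 / (4 * m0) := min_le_right _ _
  have hm01 : (1 : ℝ) ≤ m0 := by
    have : 0 < m0 := by exact_mod_cast hm0pos
    exact_mod_cast this
  have hτ3 : τ ≤ 1 / 4 := hτ2.trans (by
    apply one_div_le_one_div_of_le (by norm_num); linarith)
  obtain ⟨m1, hm1⟩ := exists_pow_lt_of_lt_one he0 (show (P - τ) / P < 1 by
    rw [div_lt_one hPpos]; linarith)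
  obtain ⟨m2, hm2⟩ := exists_pow_lt_of_lt_one hδ0 (show (r + 2 * d) / P < 1 by
    rw [div_lt_one hPpos]; linarith)
  set m := m0 + m1 + m2 with hm
  set Gc := G.map (algebraMap ℝ ℂ) with hGc
  set g1 : ℂ[X] := Gc * (C ((P : ℂ)⁻¹) * ∑ j ∈ Finset.range m, (C ((P : ℂ)⁻¹) * X) ^ j) with hg1
  set g : ℂ[X] := (C (P : ℂ) - X) * g1 with hg
  have hPc : (P : ℂ) ≠ 0 := by exact_mod_cast hPpos.ne'
  have eg1 : ∀ a : ℂ, g1.eval a =
      Gc.eval a * ((P : ℂ)⁻¹ * ∑ j ∈ Finset.range m, (a / P) ^ j) := by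
    intro a
    simp only [hg1, eval_mul, eval_C, eval_finsetSum, eval_pow, eval_X]
    simp only [div_eq_inv_mul]
  have eg0 : ∀ a : ℂ, g.eval a = (P - a) * g1.eval a := by
    intro a; simp [hg]
  have eg : ∀ a : ℂ, g.eval a = Gc.eval a * (1 - (a / P) ^ m) := by
    intro a
    rw [eg0, eg1, ← mul_neg_geom_sum]
    field_simp
  -- the disc
  have hdisc : ∀ a : ℂ, ‖a‖ ≤ r + 2 * d → ‖g.eval a - 1‖ ≤ ε * d := by
    intro a ha
    have h1 := hG1 a ha
    have h2 : ‖(a / P) ^ m‖ ≤ δ := by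
      rw [norm_pow, norm_div, Complex.norm_real, Real.norm_eq_abs, abs_of_pos hPpos]
      have h3 : ‖a‖ / P ≤ (r + 2 * d) / P := by gcongr
      have h4 : (r + 2 * d) / P ≤ 1 := by rw [div_le_one hPpos]; linarith
      calc (‖a‖ / P) ^ m ≤ ((r + 2 * d) / P) ^ m := by gcongr
        _ ≤ ((r + 2 * d) / P) ^ m2 :=
          pow_le_pow_of_le_one (by positivity) h4 (by omega)
        _ ≤ δ := hm2.le
    have e1 : g.eval a - 1 = (Gc.eval a - 1) - (a / P) ^ m - (Gc.eval a - 1) * (a / P) ^ m := by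
      rw [eg]; ring
    rw [e1]
    calc _ ≤ ‖Gc.eval a - 1‖ + ‖(a / P) ^ m‖ + ‖Gc.eval a - 1‖ * ‖(a / P) ^ m‖ := by
          rw [← norm_mul]
          exact (norm_sub_le _ _).trans (by gcongr; exact norm_sub_le _ _)
      _ ≤ δ + δ + δ * δ := by gcongr
      _ ≤ ε * d := by
          have : δ * δ ≤ δ := mul_le_of_le_one_left hδ0.le hδ1
          linarith
  -- the segment
  set U : Set ℂ := {a | ‖a‖ < 1} ∩ ({a | ‖g.eval a‖ < (1 + ε) * pr ‖a‖} ∩
    ({a | pr ‖a‖ - ε < ‖g.eval a‖} ∪ ({a | ‖a - (P : ℂ)‖ < ε} ∩ {a | 1 < ε * ‖g1.eval a‖})))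
    with hU
  have hpc : Continuous fun a : ℂ => pr ‖a‖ := pr_cont.comp continuous_norm
  have hUo : IsOpen U := by
    refine (isOpen_lt (by fun_prop) (by fun_prop)).inter
      ((isOpen_lt (by fun_prop) (by fun_prop)).inter
        ((isOpen_lt (by fun_prop) (by fun_prop)).union
          ((isOpen_lt (by fun_prop) (by fun_prop)).inter (isOpen_lt (by fun_prop) (by fun_prop)))))
  have hK : IsCompact ((fun s : ℝ => (s : ℂ)) '' Icc r P) :=
    isCompact_Icc.image Complex.continuous_ofReal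
  have hKU : (fun s : ℝ => (s : ℂ)) '' Icc r P ⊆ U := by
    rintro _ ⟨s, ⟨hs1, hs2⟩, rfl⟩
    have hs0 : 0 < s := by linarith
    have hns : ‖(s : ℂ)‖ = s := by simp [abs_of_pos hs0]
    have hx0 : 0 ≤ s / P := by positivity
    have hx1 : s / P ≤ 1 := by rw [div_le_one hPpos]; exact hs2
    have hxm0 : 0 ≤ (s / P) ^ m := by positivity
    have hxm1 : (s / P) ^ m ≤ 1 := pow_le_one₀ hx0 hx1
    have hprc : c ≤ pr s := pr_ge P s (by linarith) hs2
    have hpr1 : pr s ≤ 1 := pr_le_one s hs0.le (by linarith)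
    have hGs := abs_le.1 (hG2 s hs1 hs2)
    have hGpos : c / 2 ≤ G.eval s := by linarith [hGs.1]
    have egs : ‖g.eval (s : ℂ)‖ = G.eval s * (1 - (s / P) ^ m) := by
      rw [eg, hGc, eval_map]
      have : ((G.eval s : ℝ) : ℂ) * (1 - ((s : ℂ) / P) ^ m) =
          ((G.eval s * (1 - (s / P) ^ m) : ℝ) : ℂ) := by push_cast; ring
      rw [this, Complex.norm_real, Real.norm_eq_abs, abs_of_nonneg]
      exact mul_nonneg (by linarith) (by linarith)
    have eg1s : ‖g1.eval (s : ℂ)‖ = G.eval s * (P⁻¹ * ∑ j ∈ Finset.range m, (s / P) ^ j) := by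
      rw [eg1, hGc, eval_map]
      have : ((G.eval s : ℝ) : ℂ) * ((P : ℂ)⁻¹ * ∑ j ∈ Finset.range m, ((s : ℂ) / P) ^ j) =
          ((G.eval s * (P⁻¹ * ∑ j ∈ Finset.range m, (s / P) ^ j) : ℝ) : ℂ) := by push_cast; ring
      rw [this, Complex.norm_real, Real.norm_eq_abs, abs_of_nonneg]
      exact mul_nonneg (by linarith) (by positivity)
    refine ⟨?_, ?_, ?_⟩
    · show ‖(s : ℂ)‖ < 1
      rw [hns]; linarith
    · show ‖g.eval (s : ℂ)‖ < (1 + ε) * pr ‖(s : ℂ)‖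
      rw [hns, egs]
      have h1 : G.eval s * (1 - (s / P) ^ m) ≤ G.eval s :=
        mul_le_of_le_one_right (by linarith) (by linarith)
      have h2 : ε * c ≤ ε * pr s := mul_le_mul_of_nonneg_left hprc hε.le
      have h3 : 0 < ε * c := mul_pos hε hc0
      have h4 : (1 + ε) * pr s = pr s + ε * pr s := by ring
      linarith [hGs.2]
    · by_cases hcase : s ≤ P - τ
      · left
        show pr ‖(s : ℂ)‖ - ε < ‖g.eval (s : ℂ)‖
        rw [hns, egs]
        have h1 : (s / P) ^ m ≤ e := by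
          have h3 : s / P ≤ (P - τ) / P := by gcongr
          have h4 : (P - τ) / P ≤ 1 := by rw [div_le_one hPpos]; linarith
          calc (s / P) ^ m ≤ ((P - τ) / P) ^ m := by gcongr
            _ ≤ ((P - τ) / P) ^ m1 :=
              pow_le_pow_of_le_one (div_nonneg (by linarith) hPpos.le) h4 (by omega)
            _ ≤ e := hm1.le
        have h2 : (pr s - e) * (1 - (s / P) ^ m) ≤ G.eval s * (1 - (s / P) ^ m) := by
          apply mul_le_mul_of_nonneg_right _ (sub_nonneg.2 hxm1)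
          linarith [hGs.1]
        have h5 : pr s * (s / P) ^ m ≤ e :=
          le_trans (mul_le_of_le_one_left hxm0 hpr1) h1
        have h6 : 0 ≤ e * (s / P) ^ m := mul_nonneg he0.le hxm0
        have h7 : (pr s - e) * (1 - (s / P) ^ m) =
          pr s - e - pr s * (s / P) ^ m + e * (s / P) ^ m := by ring
        linarith
      · right
        push Not at hcase
        refine ⟨?_, ?_⟩
        · show ‖(s : ℂ) - (P : ℂ)‖ < ε
          rw [← Complex.ofReal_sub, Complex.norm_real, Real.norm_eq_abs, abs_lt]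
          constructor <;> linarith
        · show 1 < ε * ‖g1.eval (s : ℂ)‖
          rw [eg1s]
          have h1 : (m0 : ℝ) * (1 - s / P) ≤ 1 / 2 := by
            have h2 : 1 - s / P ≤ 2 * τ := by
              rw [sub_le_iff_le_add, ← sub_le_iff_le_add', le_div_iff₀ hPpos]
              have h8 : τ * (1 / 2) ≤ τ * P := mul_le_mul_of_nonneg_left (by linarith) hτ0.le
              have h9 : (1 - 2 * τ) * P = P - 2 * (τ * P) := by ring
              linarith
            have h3 : (m0 : ℝ) * τ ≤ 1 / 4 := by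
              rw [le_div_iff₀ (by positivity)] at hτ2
              linarith
            have h8 := mul_le_mul_of_nonneg_left h2 hm0pos.le
            linarith
          have h4 := geom_ge (s / P) m0 m hx0 hx1 (by omega) h1
          have h5 : 1 ≤ P⁻¹ := (one_le_inv₀ hPpos).2 hP1.le
          have h6 : (m0 : ℝ) / 2 ≤ P⁻¹ * ∑ j ∈ Finset.range m, (s / P) ^ j :=
            h4.trans (le_mul_of_one_le_left (by positivity) h5)
          have h7 : c / 2 * ((m0 : ℝ) / 2) ≤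
              G.eval s * (P⁻¹ * ∑ j ∈ Finset.range m, (s / P) ^ j) := by
            exact mul_le_mul hGpos h6 (by positivity) (by linarith)
          rw [div_lt_iff₀ (mul_pos hε hc0)] at hm0
          have h8 := mul_le_mul_of_nonneg_left h7 hε.le
          have h9 : ε * (c / 2 * ((m0 : ℝ) / 2)) = m0 * (ε * c) / 4 := by ring
          linarith
  obtain ⟨ν0, hν0, hν⟩ := hK.exists_cthickening_subset_open hUo hKU
  refine ⟨g, min ν0 (min ε d), lt_min hν0 (lt_min hε hd0),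
    (min_le_right _ _).trans (min_le_left _ _), by rw [eg0]; simp, ?_, ?_⟩
  · intro a ha
    have hνd : min ν0 (min ε d) ≤ d := (min_le_right _ _).trans (min_le_right _ _)
    have ha1 : ‖a‖ ≤ r + d := by
      apply le_of_sq_le_sq _ (by positivity) |>.trans le_rfl
      have h8 : d * (1 / 2) ≤ d * r := mul_le_mul_of_nonneg_left hr0.le hd0.le
      have h9 : (r + d) ^ 2 = r ^ 2 + 2 * (d * r) + d ^ 2 := by ring
      linarith [sq_nonneg d]
    refine ⟨(hdisc a (by linarith)).trans (mul_le_of_le_one_right hε.le (by linarith)), ?_⟩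
    have hder : ‖deriv (fun z => g.eval z - 1) a‖ ≤ ε * d / d := by
      apply Complex.norm_deriv_le_of_forall_mem_sphere_norm_le hd0
      · exact Differentiable.diffContOnCl (by fun_prop)
      · intro z hz
        apply hdisc
        have h1 : ‖z - a‖ = d := by simpa [dist_eq_norm] using hz
        calc ‖z‖ = ‖(z - a) + a‖ := by ring_nf
          _ ≤ ‖z - a‖ + ‖a‖ := norm_add_le _ _
          _ ≤ r + 2 * d := by linarith
    rw [deriv_sub_const, Polynomial.deriv, mul_div_assoc, div_self hd0.ne', mul_one] at hder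
    rw [norm_mul]
    have : ‖a‖ ≤ 1 := by linarith
    exact (mul_le_of_le_one_left (norm_nonneg _) this).trans hder
  · rintro a ⟨s, hs, has⟩
    have hmem : a ∈ U := hν (Metric.mem_cthickening_of_dist_le a (s : ℂ) ν0 _ ⟨s, hs, rfl⟩
      (by rw [dist_eq_norm]; exact has.trans (min_le_left _ _)))
    obtain ⟨h1, h2, h3⟩ := hmem
    refine ⟨h1, le_of_lt h2, ?_⟩
    rcases h3 with h3 | ⟨h3, h4⟩
    · exact Or.inl (le_of_lt h3)
    · right
      refine ⟨le_of_lt h3, ?_⟩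
      have h5 : 1 < ε * ‖g1.eval a‖ := h4
      rw [eg0, norm_mul, norm_sub_rev (P : ℂ) a]
      have h6 := mul_le_mul_of_nonneg_left h5.le (norm_nonneg (a - (P : ℂ)))
      linarith

end PkgF

theorem stmtF : StmtF := by
  intro p hp0 hp1 ε hε
  have hl0 : 0 < lr := Real.rpow_pos_of_pos (by norm_num) _
  have hl : (lr ^ 3) ^ 2 = 1 / 2 := by
    rw [← pow_mul, lr, ← Real.rpow_natCast, ← Real.rpow_mul (by norm_num)]
    norm_num
  have hP0 : 4 / 5 < p ^ 3 := by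
    have : (19 / 20 : ℝ) ^ 3 < p ^ 3 := by gcongr
    linarith [show (4 / 5 : ℝ) < (19 / 20) ^ 3 by norm_num]
  have hP1 : p ^ 3 < 1 := pow_lt_one₀ (by linarith) hp1 (by norm_num)
  have := PkgF.core (lr ^ 3) (p ^ 3) ε (by positivity) hl hP0 hP1 hε
  simpa only [Complex.ofReal_pow] using this

end Pool.Agent.P.MP_e5acfa_ag
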