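import Pool.Agent.P.MP_e5acfa_ag.G5

open Complex Set Filter Topology

namespace Pool.Agent.P.MP_e5acfa_ag.PkgG

lemma fderiv_pow_apply {f : C3 → ℂ} (hf : IsPoly3 f) (k : ℕ) (q W : C3) :
    fderiv ℂ (fun q => f q ^ (k + 1)) q W = ((k + 1 : ℕ) : ℂ) * f q ^ k * fderiv ℂ f q W := by
  rw [((hf.differentiable q).hasFDerivAt.pow (k + 1)).fderiv]
  simp

namespace Data

variable (D : Data)

abbrev Idx := {ω // ω ∈ D.net} ⊕ Bool ⊕ Unit ⊕ Unit ⊕ Unit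

noncomputable def T : D.Idx → C3 → ℂ
  | .inl ω => fun q => nk D.p ω q ^ (2 * D.w)
  | .inr (.inl i) => D.tt i
  | .inr (.inr (.inl _)) => fun q => D.A.t3 q ^ 2
  | .inr (.inr (.inr (.inl _))) => fun q => (D.e : ℂ) * q 0
  | .inr (.inr (.inr (.inr _))) => fun q => (D.e : ℂ) * q 1

lemma isPoly3_T : ∀ j, IsPoly3 (D.T j)
  | .inl ω => (isPoly3_nk D.p ω).pow _
  | .inr (.inl i) => D.isPoly3_tt i
  | .inr (.inr (.inl _)) => D.A.isPoly3_t3.pow _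
  | .inr (.inr (.inr (.inl _))) => (IsPoly3.const _).mul (IsPoly3.coord 0)
  | .inr (.inr (.inr (.inr _))) => (IsPoly3.const _).mul (IsPoly3.coord 1)

lemma norm_e_mul (a : ℂ) : ‖(D.e : ℂ) * a‖ = D.e * ‖a‖ := by
  rw [norm_mul, Complex.norm_real, Real.norm_of_nonneg D.e_pos.le]

lemma exists_pt {q : C3} (hq : q ∈ XS D.p) {L : ℝ} (hL : (1 + D.τ) ^ 4 ≤ L)
    (hT : ∀ j, ‖D.T j q‖ ≤ L) :
    ∃ P : Pt D, P.q = q ∧ P.L = L ∧ ∃ x, P.l = D.p + P.ζ * x ∧ P.q = Psi D.p P.ζ x := by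
  obtain ⟨ζ, x, hζ, hl, rfl⟩ := exists_Psi D.p_pos hq
  refine ⟨⟨ζ, D.p + ζ * x, Psi D.p ζ x, L, hζ, hl, fun h => by simp [h], hq, uu_Psi hl, vv_Psi hl,
    Psi_two _ _ _, hL, fun ω hω => ?_, fun i => hT (.inr (.inl i)), ?_, ?_, ?_⟩, rfl, rfl, x, rfl, rfl⟩
  · rw [← norm_pow]; exact hT (.inl ⟨ω, hω⟩)
  · rw [← norm_pow]; exact hT (.inr (.inr (.inl ())))
  · rw [← D.norm_e_mul]; exact hT (.inr (.inr (.inr (.inl ()))))
  · rw [← D.norm_e_mul]; exact hT (.inr (.inr (.inr (.inr ()))))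

lemma good_T (P : Pt D) {W : C3} (h : P.Good W) :
    ∀ j, P.L ≤ ‖D.T j P.q‖ ^ 2 → Pos D.κ' (fderiv ℂ (D.T j) P.q W) (D.T j P.q) := by
  rintro (ω | i | _ | _ | _) hj
  · obtain ⟨k, hk⟩ : ∃ k, 2 * D.w = k + 1 := ⟨2 * D.w - 1, by have := D.hw; omega⟩
    have h1 : P.L ≤ (‖nk D.p ω P.q‖ ^ (2 * D.w)) ^ 2 := by rw [← norm_pow]; exact hj
    have h2 := (h.hN ω ω.2 h1).pow D.κ'_pos.le k
    change Pos _ (fderiv ℂ (fun q => nk D.p ω q ^ (2 * D.w)) P.q W) (nk D.p ω P.q ^ (2 * D.w))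
    rw [hk, fderiv_pow_apply (isPoly3_nk _ _)]
    exact h2
  · exact h.ht i hj
  · have h1 : P.L ≤ ‖D.A.t3 P.q‖ ^ 4 := by
      have : ‖D.A.t3 P.q‖ ^ 4 = ‖D.A.t3 P.q ^ 2‖ ^ 2 := by rw [norm_pow]; ring
      rw [this]; exact hj
    have h2 := (h.h3 h1).pow D.κ'_pos.le 1
    change Pos _ (fderiv ℂ (fun q => D.A.t3 q ^ (1 + 1)) P.q W) (D.A.t3 P.q ^ (1 + 1))
    rw [fderiv_pow_apply D.A.isPoly3_t3]
    exact h2
  · have h1 : P.L ≤ (D.e * ‖P.q 0‖) ^ 2 := by rw [← D.norm_e_mul]; exact hj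
    change Pos _ (fderiv ℂ (fun q : C3 => (D.e : ℂ) * q 0) P.q W) ((D.e : ℂ) * P.q 0)
    rw [((hasFDerivAt_coord P.q 0).const_mul (D.e : ℂ)).fderiv]
    simpa using (h.h0 h1).real_mul D.e
  · have h1 : P.L ≤ (D.e * ‖P.q 1‖) ^ 2 := by rw [← D.norm_e_mul]; exact hj
    change Pos _ (fderiv ℂ (fun q : C3 => (D.e : ℂ) * q 1) P.q W) ((D.e : ℂ) * P.q 1)
    rw [((hasFDerivAt_coord P.q 1).const_mul (D.e : ℂ)).fderiv]
    simpa using (h.h1 h1).real_mul D.e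

lemma exists_bound : ∃ (C : ℝ) (K : ℕ), 0 ≤ C ∧ ∀ (P : Pt D) (W : C3), P.Good W →
    (∀ j, ‖fderiv ℂ (D.T j) P.q W‖ ≤ C * P.L ^ K) ∧
    |(∑ i, W i * (starRingEnd ℂ) (P.q i)).re| ≤ C * P.L ^ K := by
  choose C K hC H using fun j => growth3 (D.isPoly3_T j)
  have hA : 4 ≤ D.A0 := Pt.one_le_A0
  have hCg := D.hCg
  have hS : 0 ≤ ∑ j, C j := Finset.sum_nonneg fun j _ => hC j
  refine ⟨(∑ j, C j + 3) * (41 * D.Cg) * (2 * D.A0) ^ (∑ j, K j + 1) * D.A0 ^ (D.d + 2),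
    (∑ j, K j + 1) + (D.d + 2), by positivity, fun P W h => ?_⟩
  have h4 := P.four_le_A
  have hq := P.norm_q_le
  have hW := h.nrm
  have e : (∑ j, C j + 3) * (41 * D.Cg) * (2 * D.A0) ^ (∑ j, K j + 1) * D.A0 ^ (D.d + 2) *
      P.L ^ ((∑ j, K j + 1) + (D.d + 2)) = ((∑ j, C j + 3) * (2 * (D.A0 * P.L)) ^ (∑ j, K j + 1)) *
      (41 * D.Cg * (D.A0 * P.L) ^ (D.d + 2)) := by
    rw [pow_add P.L, ← mul_assoc 2, mul_pow (2 * D.A0), mul_pow D.A0]; ring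
  rw [e]
  constructor
  · intro j
    refine ((fderiv ℂ (D.T j) P.q).le_opNorm W).trans ?_
    refine mul_le_mul ((H j P.q).2.trans ?_) hW (norm_nonneg _) (by positivity)
    have a1 : C j ≤ ∑ j, C j + 3 := by
      linarith [Finset.single_le_sum (f := C) (fun j _ => hC j) (Finset.mem_univ j)]
    have a2 : K j ≤ ∑ j, K j + 1 := by
      linarith [Finset.single_le_sum (f := K) (fun j _ => Nat.zero_le _) (Finset.mem_univ j)]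
    have a3 : (1 + ‖P.q‖) ^ K j ≤ (2 * (D.A0 * P.L)) ^ (∑ j, K j + 1) :=
      (pow_le_pow_left₀ (by positivity) (by linarith) _).trans
        (pow_le_pow_right₀ (by linarith) a2)
    exact mul_le_mul a1 a3 (by positivity) (by positivity)
  · have a1 : |(∑ i, W i * (starRingEnd ℂ) (P.q i)).re| ≤ 3 * ‖P.q‖ * ‖W‖ := by
      refine (Complex.abs_re_le_norm _).trans ((norm_sum_le _ _).trans ?_)
      have : ∀ i ∈ Finset.univ, ‖W i * (starRingEnd ℂ) (P.q i)‖ ≤ ‖W‖ * ‖P.q‖ := by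
        intro i _
        rw [norm_mul, RCLike.norm_conj]
        exact mul_le_mul (norm_le_pi_norm W i) (norm_le_pi_norm P.q i) (norm_nonneg _) (norm_nonneg _)
      refine (Finset.sum_le_card_nsmul _ _ _ this).trans (le_of_eq ?_)
      simp only [Finset.card_univ, Fintype.card_fin, nsmul_eq_mul, Nat.cast_ofNat]
      ring
    refine a1.trans (mul_le_mul ?_ hW (norm_nonneg _) (by positivity))
    have a3 : (2 * (D.A0 * P.L)) ^ 1 ≤ (2 * (D.A0 * P.L)) ^ (∑ j, K j + 1) :=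
      pow_le_pow_right₀ (by linarith) (by omega)
    rw [pow_one] at a3
    exact mul_le_mul (by linarith) (by linarith) (norm_nonneg _) (by positivity)

lemma regular : ∃ m : ℕ, ∀ q ∈ XS D.p,
    (((1 + D.τ) ^ 6) ^ (m + 1)) ^ 2 ≤ ∑ i, ‖q i‖ ^ 2 + ∑ j, ‖D.T j q ^ (m + 1)‖ ^ 2 →
    ∃ W : C3, dPX D.p q W = 0 ∧ (∑ i, W i * (starRingEnd ℂ) (q i) +
      ∑ j, fderiv ℂ (fun q => D.T j q ^ (m + 1)) q W * (starRingEnd ℂ) (D.T j q ^ (m + 1))).re ≠ 0 := by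
  obtain ⟨C, K, hC, HC⟩ := D.exists_bound
  have h1 : 1 < 1 + D.τ := by linarith [D.hτ]
  have hΛ : 1 < (1 + D.τ) ^ 4 := one_lt_pow₀ h1 (by norm_num)
  obtain ⟨m₀, H0⟩ := trop (ι := D.Idx) K hΛ D.κ'_pos hC
  obtain ⟨m₁, H1⟩ := ((tendsto_pow_atTop_atTop_of_one_lt h1).eventually_gt_atTop
    (3 * (D.A0 * (1 + D.τ) ^ 4) ^ 2 + Fintype.card D.Idx)).exists
  refine ⟨m₀ + m₁, fun q hq hΦ => ?_⟩
  set m := m₀ + m₁ with hm
  obtain ⟨j₀, -, hj₀⟩ := Finset.exists_max_image Finset.univ (fun j => ‖D.T j q‖)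
    ⟨.inr (.inl true), Finset.mem_univ _⟩
  have hL : (1 + D.τ) ^ 4 ≤ ‖D.T j₀ q‖ := by
    by_contra hc
    have hT : ∀ j, ‖D.T j q‖ ≤ (1 + D.τ) ^ 4 := fun j =>
      (hj₀ j (Finset.mem_univ j)).trans (not_le.1 hc).le
    obtain ⟨P, hP, hPL, -⟩ := D.exists_pt hq le_rfl hT
    have a1 := P.norm_q_le
    rw [hP, hPL] at a1
    have a2 : ∑ i, ‖q i‖ ^ 2 ≤ 3 * (D.A0 * (1 + D.τ) ^ 4) ^ 2 := by
      have : ∀ i ∈ Finset.univ, ‖q i‖ ^ 2 ≤ (D.A0 * (1 + D.τ) ^ 4) ^ 2 := fun i _ =>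
        pow_le_pow_left₀ (norm_nonneg _) ((norm_le_pi_norm q i).trans a1) 2
      refine (Finset.sum_le_card_nsmul _ _ _ this).trans (le_of_eq ?_)
      simp
    have a3 : ∑ j, ‖D.T j q ^ (m + 1)‖ ^ 2 ≤
        Fintype.card D.Idx * (((1 + D.τ) ^ 4) ^ (m + 1)) ^ 2 := by
      have : ∀ j ∈ Finset.univ, ‖D.T j q ^ (m + 1)‖ ^ 2 ≤ (((1 + D.τ) ^ 4) ^ (m + 1)) ^ 2 := by
        intro j _
        rw [norm_pow]
        have := hT j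
        gcongr
      refine (Finset.sum_le_card_nsmul _ _ _ this).trans (le_of_eq ?_)
      rw [Finset.card_univ, nsmul_eq_mul]
    have a4 : 1 ≤ (((1 + D.τ) ^ 4) ^ (m + 1)) ^ 2 := one_le_pow₀ (one_le_pow₀ hΛ.le)
    have a5 : (((1 + D.τ) ^ 6) ^ (m + 1)) ^ 2 =
        (1 + D.τ) ^ (4 * (m + 1)) * (((1 + D.τ) ^ 4) ^ (m + 1)) ^ 2 := by
      generalize 1 + D.τ = s
      ring
    have a6 : (1 + D.τ) ^ m₁ ≤ (1 + D.τ) ^ (4 * (m + 1)) := pow_le_pow_right₀ h1.le (by omega)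
    have a7 : 0 ≤ 3 * (D.A0 * (1 + D.τ) ^ 4) ^ 2 := by positivity
    rw [a5] at hΦ
    generalize (((1 + D.τ) ^ 4) ^ (m + 1)) ^ 2 = X at *
    generalize 3 * (D.A0 * (1 + D.τ) ^ 4) ^ 2 = Y at *
    generalize (1 + D.τ) ^ (4 * (m + 1)) = Z at *
    nlinarith
  obtain ⟨P, hP, hPL, -⟩ := D.exists_pt hq hL (fun j => hj₀ j (Finset.mem_univ j))
  obtain ⟨W, hW⟩ := P.exists_good
  have b1 := HC P W hW
  have b2 := D.good_T P hW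
  rw [hP, hPL] at b1 b2
  refine ⟨W, hP ▸ hW.tan, ne_of_gt ?_⟩
  have b3 := H0 m (by omega) (fun j => D.T j q) (fun j => fderiv ℂ (D.T j) q W) _ _ hL
    (fun j => hj₀ j (Finset.mem_univ j)) ⟨j₀, rfl⟩ b2 b1.1 b1.2
  rw [Complex.add_re, Complex.re_sum (s := (Finset.univ : Finset D.Idx))]
  simp only [fderiv_pow_apply (D.isPoly3_T _)]
  exact b3

end Data

lemma exists_gb (g : Polynomial ℂ) : ∃ (Cg : ℝ) (d : ℕ), 1 ≤ Cg ∧
    ∀ (a b : ℂ) (n : ℝ), 0 ≤ n → ‖a‖ ≤ 1 + n → ‖b‖ ≤ 1 + n →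
    ‖2 * (g.eval a * g.eval b)‖ ≤ Cg * (2 + n) ^ d ∧
    ‖6 * ((a * g.derivative.eval a) * g.eval b + g.eval a * (b * g.derivative.eval b))‖ ≤
      Cg * (2 + n) ^ d ∧ 3 * (2 + n) ≤ Cg * (2 + n) ^ d := by
  obtain ⟨C1, d1, h1, H1⟩ := growth1 g
  obtain ⟨C2, d2, h2, H2⟩ := growth1 (Polynomial.X * g.derivative)
  refine ⟨12 * (C1 + C2) ^ 2, 2 * (d1 + d2) + 1, by nlinarith, fun a b n hn ha hb => ?_⟩
  set S := (C1 + C2) * (2 + n) ^ (d1 + d2) with hS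
  have k1 : ∀ c : ℂ, ‖c‖ ≤ 1 + n → ‖g.eval c‖ ≤ S := by
    intro c hc
    refine (H1 c).trans (mul_le_mul (by linarith) ?_ (by positivity) (by linarith))
    exact (pow_le_pow_left₀ (by positivity) (by linarith) _).trans
      (pow_le_pow_right₀ (by linarith) (by omega))
  have k2 : ∀ c : ℂ, ‖c‖ ≤ 1 + n → ‖c * g.derivative.eval c‖ ≤ S := by
    intro c hc
    have := H2 c
    rw [Polynomial.eval_mul, Polynomial.eval_X] at this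
    refine this.trans (mul_le_mul (by linarith) ?_ (by positivity) (by linarith))
    exact (pow_le_pow_left₀ (by positivity) (by linarith) _).trans
      (pow_le_pow_right₀ (by linarith) (by omega))
  have hS1 : 1 ≤ S := one_le_mul_of_one_le_of_one_le (by linarith) (one_le_pow₀ (by linarith))
  have e : 12 * (C1 + C2) ^ 2 * (2 + n) ^ (2 * (d1 + d2) + 1) = 12 * (S * S) * (2 + n) := by
    rw [hS]; ring
  rw [e]
  have m1 : ‖g.eval a * g.eval b‖ ≤ S * S := by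
    rw [norm_mul]; exact mul_le_mul (k1 a ha) (k1 b hb) (norm_nonneg _) (by linarith)
  have m2 : ‖(a * g.derivative.eval a) * g.eval b‖ ≤ S * S := by
    rw [norm_mul]; exact mul_le_mul (k2 a ha) (k1 b hb) (norm_nonneg _) (by linarith)
  have m3 : ‖g.eval a * (b * g.derivative.eval b)‖ ≤ S * S := by
    rw [norm_mul]; exact mul_le_mul (k1 a ha) (k2 b hb) (norm_nonneg _) (by linarith)
  have m4 : 1 ≤ S * S := by nlinarith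
  refine ⟨?_, ?_, by nlinarith⟩
  · rw [norm_mul, Complex.norm_ofNat]; nlinarith
  · rw [norm_mul, Complex.norm_ofNat]
    have := norm_add_le ((a * g.derivative.eval a) * g.eval b) (g.eval a * (b * g.derivative.eval b))
    nlinarith

lemma exists_w {ε₁ Cg : ℝ} (h : 0 < ε₁) (hC : 1 ≤ Cg) (d M' : ℕ) : ∃ w : ℕ, 2 * M' < w ∧
    ∀ n : ℝ, 1 + ε₁ ≤ n → (4 * (Cg * (2 + n) ^ d)) ^ 4 ≤ n ^ w := by
  obtain ⟨k, hk⟩ := ((tendsto_pow_atTop_atTop_of_one_lt (show 1 < 1 + ε₁ by linarith)).eventually_ge_atTop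
    ((4 * (Cg * 3 ^ d)) ^ 4)).exists
  refine ⟨k + 4 * d + (2 * M' + 1), by omega, fun n hn => ?_⟩
  have hn1 : 1 ≤ n := by linarith
  calc (4 * (Cg * (2 + n) ^ d)) ^ 4 ≤ (4 * (Cg * (3 * n) ^ d)) ^ 4 := by
        gcongr
        linarith
    _ = (4 * (Cg * 3 ^ d)) ^ 4 * n ^ (4 * d) := by rw [mul_pow 3 n]; ring
    _ ≤ n ^ k * n ^ (4 * d) := by
        gcongr
        exact hk.trans (pow_le_pow_left₀ (by linarith) hn k)
    _ = n ^ (k + 4 * d) := by rw [← pow_add]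
    _ ≤ _ := pow_le_pow_right₀ hn1 (by omega)

lemma exists_net' (p : ℝ) {ε₁ : ℝ} (h : 0 < ε₁) (h1 : ε₁ ≤ 1) : ∃ net : Finset ℂ,
    (∀ ω ∈ net, ‖ω‖ = 1) ∧ ∀ q : C3, ∃ ω ∈ net, NN (uu p q) (vv p q) / 4 ≤ ‖nk p ω q‖ ∧
    (1 + ε₁ ≤ NN (uu p q) (vv p q) / 2 → NN (uu p q) (vv p q) / 2 ≤ ‖nk p ω q‖ ^ 2) := by
  obtain ⟨net, h2, H⟩ := exists_net (η := ε₁ / 4) (by linarith)
  refine ⟨net, h2, fun q => ?_⟩
  obtain ⟨ω, hω, h3⟩ := H (uu p q ^ 2) (vv p q ^ 3)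
  have h4 : (1 - ε₁ / 4) * (NN (uu p q) (vv p q) / 2) ≤ ‖nk p ω q‖ := by
    rw [nk, norm_div, NN, Complex.norm_ofNat]
    rw [norm_pow, norm_pow] at h3
    linarith
  have h5 : 0 ≤ NN (uu p q) (vv p q) := by unfold NN; positivity
  refine ⟨ω, hω, by nlinarith, fun hn => ?_⟩
  set n := NN (uu p q) (vv p q) / 2 with hn'
  have h6 : ((1 - ε₁ / 4) * n) ^ 2 ≤ ‖nk p ω q‖ ^ 2 :=
    pow_le_pow_left₀ (mul_nonneg (by linarith) (by linarith)) h4 2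
  have h7 : 1 ≤ (1 - ε₁ / 4) ^ 2 * n := by
    have : (1 - ε₁ / 4) ^ 2 * (1 + ε₁) ≤ (1 - ε₁ / 4) ^ 2 * n := by gcongr
    nlinarith [mul_nonneg h.le (sub_nonneg.2 h1), mul_pos h (mul_pos h h), mul_pos h h]
  nlinarith

lemma exists_near {p : ℝ} (hp : 19 / 20 < p) (hp1 : p < 1) {t : Bool → ℂ × ℂ → ℂ}
    (ht : ∀ i, IsPoly2 (t i)) (h : ∀ i, ‖t i ((p:ℂ) ^ 3, (p:ℂ) ^ 2)‖ < 1) :
    ∃ d0 : ℝ, 0 < d0 ∧ ∀ u v : ℂ, ‖u - (p:ℂ) ^ 3‖ < d0 → ‖v - (p:ℂ) ^ 2‖ < d0 →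
      7 / 5 < NN u v ∧ NN u v < 2 ∧ ‖u ^ 2 - v ^ 3‖ < 1 / 10 ∧ ∀ i, ‖t i (u, v)‖ < 1 := by
  have hp0 : 0 < p := by linarith
  have hN : NN ((p:ℂ) ^ 3) ((p:ℂ) ^ 2) = 2 * p ^ 6 := by
    simp only [NN, norm_pow, Complex.norm_real, Real.norm_of_nonneg hp0.le]; ring
  have h6 : p ^ 6 < 1 := pow_lt_one₀ hp0.le hp1 (by norm_num)
  have h7 : 7 / 10 < p ^ 6 := by
    have : (19 / 20 : ℝ) ^ 6 ≤ p ^ 6 := pow_le_pow_left₀ (by norm_num) hp.le 6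
    norm_num at this
    linarith
  have c1 : ∀ᶠ w : ℂ × ℂ in 𝓝 ((p:ℂ) ^ 3, (p:ℂ) ^ 2), 7 / 5 < NN w.1 w.2 :=
    continuousAt_const.eventually_lt continuous_NN.continuousAt (by simp only [hN]; linarith)
  have c2 : ∀ᶠ w : ℂ × ℂ in 𝓝 ((p:ℂ) ^ 3, (p:ℂ) ^ 2), NN w.1 w.2 < 2 :=
    continuous_NN.continuousAt.eventually_lt continuousAt_const (by simp only [hN]; linarith)
  have c3 : ∀ᶠ w : ℂ × ℂ in 𝓝 ((p:ℂ) ^ 3, (p:ℂ) ^ 2), ‖w.1 ^ 2 - w.2 ^ 3‖ < 1 / 10 :=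
    ContinuousAt.eventually_lt (f := fun w : ℂ × ℂ => ‖w.1 ^ 2 - w.2 ^ 3‖) (by fun_prop)
      continuousAt_const (by
        have : ((p:ℂ) ^ 3) ^ 2 - ((p:ℂ) ^ 2) ^ 3 = 0 := by ring
        simp only [this]; norm_num)
  have c4 : ∀ᶠ w : ℂ × ℂ in 𝓝 ((p:ℂ) ^ 3, (p:ℂ) ^ 2), ∀ i, ‖t i w‖ < 1 :=
    eventually_all.2 fun i =>
      (ht i).continuous.norm.continuousAt.eventually_lt continuousAt_const (h i)
  obtain ⟨d0, hd, H⟩ := Metric.eventually_nhds_iff.1 (c1.and (c2.and (c3.and c4)))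
  refine ⟨d0, hd, fun u v hu hv => H (y := (u, v)) ?_⟩
  rw [Prod.dist_eq, dist_eq_norm, dist_eq_norm]
  exact max_lt hu hv

lemma exists_data (hE : StmtE) (hF : StmtF) {p δ : ℝ} (hp : 19 / 20 < p) (hp1 : p < 1)
    (hδ : 0 < δ) (hδ1 : δ ≤ 1 / 10) : ∃ D : Data, D.p = p ∧ 20 * D.τ = δ := by
  have hp3 : p ^ 3 < 1 := pow_lt_one₀ (by linarith) hp1 (by norm_num)
  obtain ⟨g, ν, hν, hνε, g0, gdisc, gseg⟩ := hF p hp hp1 (min (δ / 20 / 10) ((1 - p ^ 3) / 4))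
    (lt_min (by linarith) (by linarith))
  obtain ⟨ν', ε₁, hε₁, hε₁', hν', HB⟩ := hE p hp hp1 (ν / 4) (by linarith)
  obtain ⟨Cg, d, hCg, gb⟩ := exists_gb g
  have hpos : 0 ≤ Cg * 4 ^ d := by positivity
  have hpos' : 0 ≤ (4 * (Cg * 4 ^ d)) ^ 4 := by positivity
  obtain ⟨t, κ, M', hκ, tpoly, tP, tE⟩ := HB ((4 * (Cg * 4 ^ d)) ^ 4 + (14 + Cg * 4 ^ d)) (by linarith)
  obtain ⟨w, hw, hwG⟩ := exists_w hε₁ hCg d M'
  have hm := min_le_left (δ / 20 / 10) ((1 - p ^ 3) / 4)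
  obtain ⟨net, net1, net2⟩ := exists_net' p hε₁ (by linarith)
  obtain ⟨d0, hd0, near⟩ := exists_near hp hp1 tpoly tP
  obtain ⟨A⟩ := exists_Num p g0
  exact ⟨⟨p, δ / 20, _, ν, ν', ε₁, κ, _, Cg, d0, d, w, M', g, t, net, A, hp, hp1, by linarith,
    by linarith, hm, min_le_right _ _, hν, hνε, g0, gdisc, gseg, hε₁, hε₁', hν', hκ, tpoly, tE, hCg,
    gb, by linarith, by linarith, hw, hwG, net1, net2, hd0, near⟩, rfl, by
      change 20 * (δ / 20) = δ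
      ring⟩

end Pool.Agent.P.MP_e5acfa_ag.PkgG

namespace Pool.Agent.P.MP_e5acfa_ag

open PkgG in
theorem stmtG_of (hE : StmtE) (hF : StmtF) : StmtG := by
  intro p hp hp1 U hU hK
  obtain ⟨δ, hδ, hδ1, Hδ⟩ := thin hp hp1 hU hK
  obtain ⟨D, rfl, rfl⟩ := exists_data hE hF hp hp1 hδ hδ1
  obtain ⟨m, Hm⟩ := D.regular
  have h1 : 1 < 1 + D.τ := by linarith [D.hτ]
  let σ := (Fintype.equivFin D.Idx).symm
  have hΦ : ∀ q, Phi (fun j q => D.T (σ j) q ^ (m + 1)) q =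
      ∑ i, ‖q i‖ ^ 2 + ∑ j, ‖D.T j q ^ (m + 1)‖ ^ 2 := by
    intro q
    rw [Phi, σ.sum_comp (fun j => ‖D.T j q ^ (m + 1)‖ ^ 2)]
  refine ⟨_, fun j q => D.T (σ j) q ^ (m + 1), ((1 + D.τ) ^ 6) ^ (m + 1), by positivity,
    fun j => (D.isPoly3_T _).pow _, fun q hq h => ?_, fun q hq h => ?_⟩
  · rw [hΦ] at h
    have hT : ∀ j, ‖D.T j q‖ ≤ (1 + D.τ) ^ 6 := by
      intro j
      have a1 := Finset.single_le_sum (f := fun j => ‖D.T j q ^ (m + 1)‖ ^ 2)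
        (fun j _ => by positivity) (Finset.mem_univ j)
      have a2 : 0 ≤ ∑ i, ‖q i‖ ^ 2 := Finset.sum_nonneg fun i _ => by positivity
      have a3 : ‖D.T j q ^ (m + 1)‖ ≤ ((1 + D.τ) ^ 6) ^ (m + 1) :=
        le_of_pow_le_pow_left₀ (n := 2) (by norm_num) (by positivity) (by linarith)
      rw [norm_pow] at a3
      exact le_of_pow_le_pow_left₀ (by omega) (by positivity) a3
    obtain ⟨P, hP, hPL, x, hx, hx'⟩ := D.exists_pt hq (pow_le_pow_right₀ h1.le (by norm_num)) hT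
    obtain ⟨b1, b2⟩ := P.thin_alt hPL.le hx hx'
    have hl := P.hl
    rw [Pt.n, hx] at b1
    rw [hx, hx'] at b2
    rw [hx] at hl
    rw [← hP, hx']
    exact Hδ P.ζ x P.hζ hl b1 b2
  · rw [hΦ] at h
    obtain ⟨W, hW, hW'⟩ := Hm q hq h
    refine ⟨W, hW, ?_⟩
    rw [σ.sum_comp (fun j => fderiv ℂ (fun q => D.T j q ^ (m + 1)) q W *
      (starRingEnd ℂ) (D.T j q ^ (m + 1)))]
    exact hW'

end Pool.Agent.P.MP_e5acfa_ag
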