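import Pool.Agent.P.MP_e5acfa_ag.Basic

open Complex Set

namespace Pool.Agent.P.MP_e5acfa_ag.PkgG

/-! growth of polynomial functions -/

lemma growth3 {f : C3 → ℂ} (hf : IsPoly3 f) :
    ∃ (C : ℝ) (K : ℕ), 0 ≤ C ∧ ∀ q, ‖f q‖ ≤ C * (1 + ‖q‖) ^ K ∧ ‖fderiv ℂ f q‖ ≤ C * (1 + ‖q‖) ^ K := by
  obtain ⟨P, hP⟩ := hf
  have : f = fun q => MvPolynomial.eval q P := funext hP
  subst this
  clear hP
  induction P using MvPolynomial.induction_on with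
  | C a => exact ⟨‖a‖, 0, norm_nonneg _, fun q => by simp⟩
  | add p r hp hr =>
    obtain ⟨C1, K1, h1, H1⟩ := hp
    obtain ⟨C2, K2, h2, H2⟩ := hr
    refine ⟨C1 + C2, K1 + K2, by positivity, fun q => ?_⟩
    have hq : 1 ≤ 1 + ‖q‖ := by linarith [norm_nonneg q]
    have e1 : (1 + ‖q‖) ^ K1 ≤ (1 + ‖q‖) ^ (K1 + K2) := pow_le_pow_right₀ hq (by omega)
    have e2 : (1 + ‖q‖) ^ K2 ≤ (1 + ‖q‖) ^ (K1 + K2) := pow_le_pow_right₀ hq (by omega)
    have d1 : DifferentiableAt ℂ (fun q : C3 => MvPolynomial.eval q p) q :=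
      IsPoly3.differentiable ⟨p, fun _ => rfl⟩ q
    have d2 : DifferentiableAt ℂ (fun q : C3 => MvPolynomial.eval q r) q :=
      IsPoly3.differentiable ⟨r, fun _ => rfl⟩ q
    simp only [map_add]
    rw [fderiv_fun_add d1 d2]
    have a1 := mul_le_mul_of_nonneg_left e1 h1
    have a2 := mul_le_mul_of_nonneg_left e2 h2
    exact ⟨(norm_add_le _ _).trans (by linarith [(H1 q).1, (H2 q).1]),
      (norm_add_le _ _).trans (by linarith [(H1 q).2, (H2 q).2])⟩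
  | mul_X p i hp =>
    obtain ⟨C1, K1, h1, H1⟩ := hp
    refine ⟨C1, K1 + 1, h1, fun q => ?_⟩
    have d1 : DifferentiableAt ℂ (fun q : C3 => MvPolynomial.eval q p) q :=
      IsPoly3.differentiable ⟨p, fun _ => rfl⟩ q
    have hi : ‖q i‖ ≤ ‖q‖ := norm_le_pi_norm q i
    have h0 := norm_nonneg q
    have hA : 0 ≤ C1 * (1 + ‖q‖) ^ K1 := by positivity
    simp only [map_mul, MvPolynomial.eval_X]
    constructor
    · rw [norm_mul, pow_succ, ← mul_assoc]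
      exact mul_le_mul (H1 q).1 (by linarith) (norm_nonneg _) hA
    · rw [(d1.hasFDerivAt.fun_mul (hasFDerivAt_coord q i)).fderiv, pow_succ, ← mul_assoc]
      refine (norm_add_le _ _).trans ?_
      rw [norm_smul, norm_smul]
      have hp1 : ‖ContinuousLinearMap.proj (R := ℂ) (φ := fun _ : Fin 3 => ℂ) i‖ ≤ 1 :=
        ContinuousLinearMap.opNorm_le_bound _ zero_le_one
          (fun x => by simpa using norm_le_pi_norm x i)
      have b1 : ‖MvPolynomial.eval q p‖ *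
          ‖ContinuousLinearMap.proj (R := ℂ) (φ := fun _ : Fin 3 => ℂ) i‖ ≤
          C1 * (1 + ‖q‖) ^ K1 * 1 := mul_le_mul (H1 q).1 hp1 (norm_nonneg _) hA
      have b2 : ‖q i‖ * ‖fderiv ℂ (fun q : C3 => MvPolynomial.eval q p) q‖ ≤
          ‖q‖ * (C1 * (1 + ‖q‖) ^ K1) := mul_le_mul hi (H1 q).2 (norm_nonneg _) h0
      nlinarith

lemma growth1 (g : Polynomial ℂ) :
    ∃ (C : ℝ) (d : ℕ), 1 ≤ C ∧ ∀ a : ℂ, ‖g.eval a‖ ≤ C * (1 + ‖a‖) ^ d := by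
  induction g using Polynomial.induction_on' with
  | add p r hp hr =>
    obtain ⟨C1, K1, h1, H1⟩ := hp
    obtain ⟨C2, K2, h2, H2⟩ := hr
    refine ⟨C1 + C2, K1 + K2, by linarith, fun q => ?_⟩
    have hq : 1 ≤ 1 + ‖q‖ := by linarith [norm_nonneg q]
    have e1 : (1 + ‖q‖) ^ K1 ≤ (1 + ‖q‖) ^ (K1 + K2) := pow_le_pow_right₀ hq (by omega)
    have e2 : (1 + ‖q‖) ^ K2 ≤ (1 + ‖q‖) ^ (K1 + K2) := pow_le_pow_right₀ hq (by omega)
    have a1 := mul_le_mul_of_nonneg_left e1 (zero_le_one.trans h1)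
    have a2 := mul_le_mul_of_nonneg_left e2 (zero_le_one.trans h2)
    rw [Polynomial.eval_add]
    exact (norm_add_le _ _).trans (by linarith [H1 q, H2 q])
  | monomial n c =>
    refine ⟨1 + ‖c‖, n, by linarith [norm_nonneg c], fun a => ?_⟩
    rw [Polynomial.eval_monomial, norm_mul, norm_pow]
    have := norm_nonneg a
    have := norm_nonneg c
    gcongr <;> linarith

/-! symmetric functions of alpha, beta are polynomials in u, v -/

def Sym (F : ℂ → ℂ → ℂ) : Prop :=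
  ∃ h : ℂ × ℂ → ℂ, IsPoly2 h ∧ ∀ a b u v : ℂ, u = a + b → v ^ 3 = (a - b) ^ 2 → h (u, v) = F a b

lemma sym_pow (k : ℕ) : Sym (fun a b => a ^ k + b ^ k) := by
  induction k using Nat.twoStepInduction with
  | zero => exact ⟨fun _ => 2, IsPoly2.const _, fun a b u v _ _ => by norm_num⟩
  | one => exact ⟨fun w => w.1, IsPoly2.fst, fun a b u v hu _ => by simp [hu]⟩
  | more k ih1 ih2 =>
    obtain ⟨h1, p1, H1⟩ := ih1
    obtain ⟨h2, p2, H2⟩ := ih2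
    refine ⟨fun w => w.1 * h2 w - (1 / 4 * (w.1 ^ 2 - w.2 ^ 3)) * h1 w,
      (IsPoly2.fst.mul p2).sub (((IsPoly2.const _).mul
        ((IsPoly2.fst.pow 2).sub (IsPoly2.snd.pow 3))).mul p1), fun a b u v hu hv => ?_⟩
    simp only [H1 a b u v hu hv, H2 a b u v hu hv, hv]
    rw [hu]; ring

lemma sym_mono (m n : ℕ) : Sym (fun a b => a ^ m * b ^ n + a ^ n * b ^ m) := by
  have key : ∀ n k : ℕ, Sym (fun a b => a ^ (n + k) * b ^ n + a ^ n * b ^ (n + k)) := by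
    intro n k
    obtain ⟨h1, p1, H1⟩ := sym_pow k
    refine ⟨fun w => (1 / 4 * (w.1 ^ 2 - w.2 ^ 3)) ^ n * h1 w,
      (((IsPoly2.const _).mul ((IsPoly2.fst.pow 2).sub (IsPoly2.snd.pow 3))).pow n).mul p1,
      fun a b u v hu hv => ?_⟩
    have : 1 / 4 * (u ^ 2 - v ^ 3) = a * b := by rw [hv, hu]; ring
    simp only [H1 a b u v hu hv, this]
    ring
  rcases le_total n m with h | h
  · obtain ⟨k, rfl⟩ := Nat.exists_eq_add_of_le h
    exact key n k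
  · obtain ⟨k, rfl⟩ := Nat.exists_eq_add_of_le h
    obtain ⟨h1, p1, H1⟩ := key m k
    exact ⟨h1, p1, fun a b u v hu hv => by rw [H1 a b u v hu hv]; ring⟩

lemma sym_pair (g h : Polynomial ℂ) :
    Sym (fun a b => g.eval a * h.eval b + h.eval a * g.eval b) := by
  induction g using Polynomial.induction_on' with
  | add p r hp hr =>
    obtain ⟨h1, p1, H1⟩ := hp
    obtain ⟨h2, p2, H2⟩ := hr
    refine ⟨fun w => h1 w + h2 w, p1.add p2, fun a b u v hu hv => ?_⟩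
    simp only [H1 a b u v hu hv, H2 a b u v hu hv, Polynomial.eval_add]
    ring
  | monomial m c =>
    induction h using Polynomial.induction_on' with
    | add p r hp hr =>
      obtain ⟨h1, p1, H1⟩ := hp
      obtain ⟨h2, p2, H2⟩ := hr
      refine ⟨fun w => h1 w + h2 w, p1.add p2, fun a b u v hu hv => ?_⟩
      simp only [H1 a b u v hu hv, H2 a b u v hu hv, Polynomial.eval_add]
      ring
    | monomial n e =>
      obtain ⟨h1, p1, H1⟩ := sym_mono m n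
      refine ⟨fun w => (c * e) * h1 w, (IsPoly2.const _).mul p1, fun a b u v hu hv => ?_⟩
      simp only [H1 a b u v hu hv, Polynomial.eval_monomial]
      ring

lemma exists_num (g : Polynomial ℂ) : ∃ num : ℂ × ℂ → ℂ, IsPoly2 num ∧
    ∀ ζ l : ℂ, num (UU ζ l, VV ζ l) = 2 * (g.eval (l ^ 3) * g.eval (l ^ 3 * ζ)) := by
  obtain ⟨h, hp, H⟩ := sym_pair g g
  refine ⟨h, hp, fun ζ l => ?_⟩
  rw [H (l ^ 3) (l ^ 3 * ζ) _ _ (by rw [UU]; ring) ?_]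
  · ring
  · have := rho_cube ζ
    rw [VV]
    linear_combination (l ^ 6 * (rho ζ ^ 3 + 1 - ζ)) * this

lemma exists_decomp {h : ℂ × ℂ → ℂ} (hh : IsPoly2 h) (a b : ℂ) :
    ∃ G1 G2 : ℂ × ℂ → ℂ, IsPoly2 G1 ∧ IsPoly2 G2 ∧
      ∀ w : ℂ × ℂ, h w - h (a, b) = (w.1 - a) * G1 w + (w.2 - b) * G2 w := by
  refine hh.induction (Q := fun h => ∃ G1 G2 : ℂ × ℂ → ℂ, IsPoly2 G1 ∧ IsPoly2 G2 ∧
      ∀ w : ℂ × ℂ, h w - h (a, b) = (w.1 - a) * G1 w + (w.2 - b) * G2 w) ?_ ?_ ?_ ?_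
  · intro c
    exact ⟨fun _ => 0, fun _ => 0, IsPoly2.const _, IsPoly2.const _, fun w => by simp⟩
  · rintro f g - - ⟨A1, A2, a1, a2, HA⟩ ⟨B1, B2, b1, b2, HB⟩
    refine ⟨fun w => A1 w + B1 w, fun w => A2 w + B2 w, a1.add b1, a2.add b2, fun w => ?_⟩
    linear_combination HA w + HB w
  · rintro f - ⟨A1, A2, a1, a2, HA⟩
    refine ⟨fun w => A1 w * w.1 + f (a, b), fun w => A2 w * w.1,
      (a1.mul IsPoly2.fst).add (IsPoly2.const _), a2.mul IsPoly2.fst, fun w => ?_⟩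
    linear_combination w.1 * HA w
  · rintro f - ⟨A1, A2, a1, a2, HA⟩
    refine ⟨fun w => A1 w * w.2, fun w => A2 w * w.2 + f (a, b),
      a1.mul IsPoly2.snd, (a2.mul IsPoly2.snd).add (IsPoly2.const _), fun w => ?_⟩
    linear_combination w.2 * HA w

/-! chain rule along the two basic directions -/

lemma fderiv_euler {h : ℂ × ℂ → ℂ} (hh : Differentiable ℂ h) {ζ l D : ℂ}
    (hD : HasDerivAt (fun s => h (UU ζ s, VV ζ s)) D l) :
    fderiv ℂ h (UU ζ l, VV ζ l) (3 * UU ζ l, 2 * VV ζ l) = l * D := by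
  have h1 : HasDerivAt (fun s => UU ζ s) (3 * l ^ 2 * (1 + ζ)) l := by
    simpa [UU] using (hasDerivAt_pow 3 l).mul_const (1 + ζ)
  have h2 : HasDerivAt (fun s => VV ζ s) (2 * l * rho ζ ^ 2) l := by
    simpa [VV] using (hasDerivAt_pow 2 l).mul_const (rho ζ ^ 2)
  have h3 := ((hh (UU ζ l, VV ζ l)).hasFDerivAt.comp_hasDerivAt l (h1.prodMk h2)).unique hD
  have e : ((3 * UU ζ l, 2 * VV ζ l) : ℂ × ℂ) =
      l • ((3 * l ^ 2 * (1 + ζ), 2 * l * rho ζ ^ 2) : ℂ × ℂ) := by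
    ext
    · simp [UU]; ring
    · simp [VV]; ring
  rw [e, map_smul, smul_eq_mul, h3]

lemma fderiv_zeta {h : ℂ × ℂ → ℂ} (hh : Differentiable ℂ h) {ζ l D : ℂ} (hζ : ‖ζ‖ < 1)
    (hD : HasDerivAt (fun s => h (UU s l, VV s l)) D ζ) :
    fderiv ℂ h (UU ζ l, VV ζ l) (l ^ 3, -(2 * l ^ 2) / (3 * rho ζ)) = D := by
  have hr : rho ζ ≠ 0 := rho_ne_zero (by rintro rfl; simp at hζ)
  have h1 : HasDerivAt (fun s => UU s l) (l ^ 3) ζ := by
    simpa [UU] using ((hasDerivAt_id ζ).const_add 1).const_mul (l ^ 3)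
  have h2 : HasDerivAt (fun s => VV s l) (-(2 * l ^ 2) / (3 * rho ζ)) ζ := by
    refine HasDerivAt.congr_deriv (f := fun s => VV s l)
      (((hasDerivAt_rho hζ).pow 2).const_mul (l ^ 2)) ?_
    simp only [Nat.cast_ofNat, Nat.add_one_sub_one, pow_one]
    field_simp
  exact ((hh (UU ζ l, VV ζ l)).hasFDerivAt.comp_hasDerivAt ζ (h1.prodMk h2)).unique hD

lemma fderiv_comp_uv {h : ℂ × ℂ → ℂ} (hh : Differentiable ℂ h) (p : ℝ) (q W : C3) :
    fderiv ℂ (fun q => h (uu p q, vv p q)) q W =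
      fderiv ℂ h (uu p q, vv p q) (W 0 * q 2 + q 0 * W 2, W 1 * q 2 + q 1 * W 2) := by
  have h1 := ((differentiable_uu p q).hasFDerivAt.prodMk (differentiable_vv p q).hasFDerivAt)
  have h2 := ((hh (uu p q, vv p q)).hasFDerivAt.comp q h1).fderiv
  have : (fun q => h (uu p q, vv p q)) = h ∘ fun q => (uu p q, vv p q) := rfl
  rw [this, h2]
  simp [fderiv_uu, fderiv_vv]

/-! a finite net of phases -/

lemma exists_net {η : ℝ} (hη : 0 < η) : ∃ net : Finset ℂ, (∀ ω ∈ net, ‖ω‖ = 1) ∧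
    ∀ A B : ℂ, ∃ ω ∈ net, (1 - η) * (‖A‖ + ‖B‖) ≤ ‖A + ω * B‖ := by
  obtain ⟨s, hs, hfin, hcov⟩ := Metric.finite_approx_of_totallyBounded
    (isCompact_sphere (0:ℂ) 1).totallyBounded η hη
  refine ⟨hfin.toFinset, fun ω hω => by simpa using hs (hfin.mem_toFinset.1 hω), fun A B => ?_⟩
  obtain ⟨ω₀, h0, h1⟩ : ∃ ω₀ : ℂ, ‖ω₀‖ = 1 ∧ ‖A + ω₀ * B‖ = ‖A‖ + ‖B‖ := by
    by_cases hA : A = 0
    · exact ⟨1, by simp, by simp [hA]⟩
    by_cases hB : B = 0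
    · exact ⟨1, by simp, by simp [hB]⟩
    have hA' : (‖A‖ : ℂ) ≠ 0 := by exact_mod_cast norm_ne_zero_iff.2 hA
    have hA0 : 0 < ‖A‖ := norm_pos_iff.2 hA
    have hB0 : 0 < ‖B‖ := norm_pos_iff.2 hB
    refine ⟨A * ‖B‖ / (‖A‖ * B), ?_, ?_⟩
    · simp only [norm_div, norm_mul, Complex.norm_real, norm_norm]
      field_simp
    · have : A + A * ‖B‖ / (‖A‖ * B) * B = A * (((‖A‖ + ‖B‖) / ‖A‖ : ℝ) : ℂ) := by
        push_cast
        field_simp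
      rw [this, norm_mul, Complex.norm_real, Real.norm_of_nonneg (by positivity)]
      field_simp
  have := hcov (show ω₀ ∈ Metric.sphere (0:ℂ) 1 by simpa using h0)
  simp only [mem_iUnion, Metric.mem_ball, exists_prop] at this
  obtain ⟨ω, hω, hd⟩ := this
  refine ⟨ω, hfin.mem_toFinset.2 hω, ?_⟩
  have e : A + ω₀ * B = (A + ω * B) + (ω₀ - ω) * B := by ring
  have h2 : ‖A + ω₀ * B‖ ≤ ‖A + ω * B‖ + ‖ω₀ - ω‖ * ‖B‖ := by
    rw [e, ← norm_mul]; exact norm_add_le _ _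
  rw [dist_eq_norm] at hd
  have := norm_nonneg A
  have := norm_nonneg B
  nlinarith

/-! the numerical lemma on high powers -/

lemma trop {ι : Type*} [Fintype ι] {Λ κ C : ℝ} (K : ℕ) (hΛ : 1 < Λ) (hκ : 0 < κ) (hC : 0 ≤ C) :
    ∃ m₀ : ℕ, ∀ m : ℕ, m₀ ≤ m → ∀ (T D : ι → ℂ) (L b : ℝ), Λ ≤ L → (∀ j, ‖T j‖ ≤ L) →
      (∃ j, ‖T j‖ = L) →
      (∀ j, L ≤ ‖T j‖ ^ 2 → κ * ‖T j‖ ^ 2 ≤ (D j * (starRingEnd ℂ) (T j)).re) →
      (∀ j, ‖D j‖ ≤ C * L ^ K) → |b| ≤ C * L ^ K →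
      0 < b + ∑ j, (((m + 1 : ℕ) : ℂ) * T j ^ m * D j * (starRingEnd ℂ) (T j ^ (m + 1))).re := by
  classical
  obtain ⟨k, hk⟩ := ((tendsto_pow_atTop_atTop_of_one_lt hΛ).eventually_gt_atTop
    ((Fintype.card ι + 1) * C / κ)).exists
  refine ⟨K + k, fun m hm T D L b hL hT ⟨j₀, hj₀⟩ hsig hD hb => ?_⟩
  have hL1 : 1 ≤ L := by linarith
  have hL0 : 0 < L := by linarith
  have hterm : ∀ j, (((m + 1 : ℕ) : ℂ) * T j ^ m * D j * (starRingEnd ℂ) (T j ^ (m + 1))).re =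
      (m + 1) * (‖T j‖ ^ 2) ^ m * (D j * (starRingEnd ℂ) (T j)).re := by
    intro j
    have e : ((m + 1 : ℕ) : ℂ) * T j ^ m * D j * (starRingEnd ℂ) (T j ^ (m + 1)) =
        (((m + 1) * (‖T j‖ ^ 2) ^ m : ℝ) : ℂ) * (D j * (starRingEnd ℂ) (T j)) := by
      have : ((‖T j‖ : ℂ) ^ 2) = T j * (starRingEnd ℂ) (T j) := by
        rw [Complex.mul_conj, Complex.normSq_eq_norm_sq]; push_cast; ring
      push_cast
      rw [this, map_pow]
      ring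
    rw [e, Complex.re_ofReal_mul]
  simp only [hterm]
  set E := (m + 1 : ℝ) * L ^ (m + 1) * (C * L ^ K) with hE
  have hE0 : 0 ≤ E := by positivity
  have hlow : ∀ j, -E ≤ (m + 1) * (‖T j‖ ^ 2) ^ m * (D j * (starRingEnd ℂ) (T j)).re := by
    intro j
    by_cases hs : L ≤ ‖T j‖ ^ 2
    · have := hsig j hs
      have h2 : 0 ≤ (D j * (starRingEnd ℂ) (T j)).re := le_trans (by positivity) this
      have : 0 ≤ (m + 1 : ℝ) * (‖T j‖ ^ 2) ^ m * (D j * (starRingEnd ℂ) (T j)).re := by positivity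
      linarith
    · push Not at hs
      have h1 : |(D j * (starRingEnd ℂ) (T j)).re| ≤ C * L ^ K * L := by
        refine (Complex.abs_re_le_norm _).trans ?_
        rw [norm_mul, RCLike.norm_conj]
        exact mul_le_mul (hD j) (hT j) (norm_nonneg _) (by positivity)
      have h2 : (‖T j‖ ^ 2) ^ m ≤ L ^ m := pow_le_pow_left₀ (by positivity) hs.le m
      have h3 : |(m + 1 : ℝ) * (‖T j‖ ^ 2) ^ m * (D j * (starRingEnd ℂ) (T j)).re| ≤ E := by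
        rw [abs_mul, abs_of_nonneg (by positivity : (0:ℝ) ≤ (m + 1 : ℝ) * (‖T j‖ ^ 2) ^ m), hE]
        calc (m + 1 : ℝ) * (‖T j‖ ^ 2) ^ m * |(D j * (starRingEnd ℂ) (T j)).re|
            ≤ (m + 1 : ℝ) * L ^ m * (C * L ^ K * L) := by gcongr
          _ = _ := by ring
      exact neg_le_of_abs_le h3
  have htop : (m + 1 : ℝ) * (κ * L ^ (2 * m + 2)) ≤
      (m + 1) * (‖T j₀‖ ^ 2) ^ m * (D j₀ * (starRingEnd ℂ) (T j₀)).re := by
    have hs : L ≤ ‖T j₀‖ ^ 2 := by rw [hj₀]; nlinarith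
    have := hsig j₀ hs
    rw [hj₀] at this ⊢
    calc (m + 1 : ℝ) * (κ * L ^ (2 * m + 2)) = (m + 1) * (L ^ 2) ^ m * (κ * L ^ 2) := by ring
      _ ≤ _ := by gcongr
  have hsum : (m + 1 : ℝ) * (κ * L ^ (2 * m + 2)) - Fintype.card ι * E ≤
      ∑ j, (m + 1) * (‖T j‖ ^ 2) ^ m * (D j * (starRingEnd ℂ) (T j)).re := by
    rw [← Finset.add_sum_erase _ _ (Finset.mem_univ j₀)]
    have h1 := Finset.card_nsmul_le_sum (Finset.univ.erase j₀)
      (fun j => (m + 1 : ℝ) * (‖T j‖ ^ 2) ^ m * (D j * (starRingEnd ℂ) (T j)).re) (-E)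
      (fun j _ => hlow j)
    have h2 : ((Finset.univ.erase j₀).card : ℝ) ≤ Fintype.card ι := by
      exact_mod_cast Finset.card_le_univ _
    rw [nsmul_eq_mul] at h1
    nlinarith
  have hb' : -E ≤ b := by
    have h1 : C * L ^ K ≤ E := by
      rw [hE]
      have : (1:ℝ) ≤ (m + 1 : ℝ) * L ^ (m + 1) :=
        one_le_mul_of_one_le_of_one_le (by linarith [Nat.cast_nonneg (α := ℝ) m]) (one_le_pow₀ hL1)
      nlinarith [show 0 ≤ C * L ^ K by positivity]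
    linarith [neg_le_of_abs_le hb]
  have hfin : (Fintype.card ι + 1) * E < (m + 1 : ℝ) * (κ * L ^ (2 * m + 2)) := by
    have h1 : (Fintype.card ι + 1) * C < κ * L ^ k := by
      rw [div_lt_iff₀ hκ] at hk
      have : Λ ^ k ≤ L ^ k := pow_le_pow_left₀ (by linarith) hL k
      nlinarith
    have h2 : L ^ (m + 1) * L ^ K * L ^ k ≤ L ^ (2 * m + 2) := by
      rw [← pow_add, ← pow_add]
      exact pow_le_pow_right₀ hL1 (by omega)
    have h3 : 0 < (m + 1 : ℝ) * (L ^ (m + 1) * L ^ K) := by positivity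
    calc (Fintype.card ι + 1) * E = (m + 1 : ℝ) * (L ^ (m + 1) * L ^ K) * ((Fintype.card ι + 1) * C) := by
          rw [hE]; ring
      _ < (m + 1 : ℝ) * (L ^ (m + 1) * L ^ K) * (κ * L ^ k) := by gcongr
      _ = (m + 1 : ℝ) * (κ * (L ^ (m + 1) * L ^ K * L ^ k)) := by ring
      _ ≤ _ := by gcongr
  linarith

/-! thin neighbourhoods of the skeleton -/

lemma compact_thin {α β : Type*} [TopologicalSpace α] [TopologicalSpace β] {A : Set α}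
    (hA : IsCompact A) {f : α → β} (hf : ContinuousOn f A) {d : α → ℝ} (hd : ContinuousOn d A)
    {U : Set β} (hU : IsOpen U) (h : ∀ a ∈ A, d a ≤ 0 → f a ∈ U) :
    ∃ δ : ℝ, 0 < δ ∧ ∀ a ∈ A, d a ≤ δ → f a ∈ U := by
  have hc : IsCompact (A ∩ f ⁻¹' Uᶜ) := by
    obtain ⟨V, hV, hVe⟩ := (continuousOn_iff_isClosed.1 hf) Uᶜ hU.isClosed_compl
    rw [inter_comm, hVe]
    exact hA.inter_left hV
  obtain ⟨a', ha', H⟩ := hc.exists_forall_le' (a := 0) (hd.mono inter_subset_left)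
    (fun a ha => by
      by_contra hc
      exact ha.2 (h a ha.1 (not_lt.1 hc)))
  refine ⟨a' / 2, by linarith, fun a ha hle => ?_⟩
  by_contra hc
  have := H a ⟨ha, hc⟩
  linarith

lemma continuous_pr : Continuous pr := by unfold pr; fun_prop

lemma thin {p : ℝ} (hp : 19 / 20 < p) (hp1 : p < 1) {U : Set C3} (hU : IsOpen U) (hK : KK p ⊆ U) :
    ∃ δ : ℝ, 0 < δ ∧ δ ≤ 1 / 10 ∧ ∀ ζ x : ℂ, ‖ζ‖ ≤ 1 → (p:ℂ) + ζ * x ≠ 0 →
      ‖p + ζ * x‖ ^ 6 * (1 + ‖ζ‖ ^ 2) ≤ 1 + δ →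
      (2 - δ ≤ ‖Psi p ζ x 2‖ ∨
        (∃ y ∈ Icc lr p, ‖p + ζ * x - y‖ ≤ δ ∧ 2 * pr (‖p + ζ * x‖ ^ 3) - δ ≤ ‖Psi p ζ x 2‖) ∨
        ‖x‖ ≤ δ) → Psi p ζ x ∈ U := by
  have hp0 : 0 < p := by linarith
  -- first piece
  obtain ⟨δ1, h1, H1⟩ := compact_thin (isCompact_of_z_ge (p := p) 1 4 one_pos) (f := fun q => q)
    continuousOn_id (d := fun q => max (NN (uu p q) (vv p q) - 2) (2 - ‖q 2‖))
    (Continuous.continuousOn (((continuous_NNq p).sub continuous_const).max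
      (continuous_const.sub (continuous_apply (2 : Fin 3)).norm))) hU
    (fun q hq hd => by
      have a1 := (max_le_iff.1 hd).1
      have a2 := (max_le_iff.1 hd).2
      have a3 := norm_z_le hq.1
      have a4 : NN (uu p q) (vv p q) = 2 := by linarith
      have a5 : ‖q 2‖ = 2 := by linarith
      exact hK (Or.inl (Or.inl ⟨hq.1, a4, a5⟩)))
  -- third piece
  have hA3 : IsCompact (Metric.closedBall (0:ℂ) 1 ×ˢ Metric.closedBall (0:ℂ) (1 / 2)) :=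
    (isCompact_closedBall _ _).prod (isCompact_closedBall _ _)
  obtain ⟨δ3, h3, H3⟩ := compact_thin hA3 (f := fun w : ℂ × ℂ => Psi p w.1 w.2)
    ((continuousOn_Psi p).mono (by
      rintro w ⟨a1, a2⟩
      have b1 : ‖w.1‖ ≤ 1 := by simpa using a1
      have b2 : ‖w.2‖ ≤ 1 / 2 := by simpa using a2
      refine ⟨b1, fun h0 => ?_⟩
      have : (p:ℂ) = -(w.1 * w.2) := by linear_combination h0
      have h2 : ‖(p:ℂ)‖ ≤ 1 * (1 / 2) := by
        rw [this, norm_neg, norm_mul]; gcongr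
      rw [Complex.norm_real, Real.norm_of_nonneg hp0.le] at h2
      linarith))
    (d := fun w => max ‖w.2‖ (‖p + w.1 * w.2‖ ^ 6 * (1 + ‖w.1‖ ^ 2) - 1)) (by fun_prop) hU
    (fun w hw hd => by
      have a1 : w.2 = 0 := norm_le_zero_iff.1 (max_le_iff.1 hd).1
      have a2 := (max_le_iff.1 hd).2
      rw [a1] at a2 ⊢
      simp only [mul_zero, add_zero, Complex.norm_real, Real.norm_of_nonneg hp0.le] at a2
      exact hK (Or.inr ⟨w.1, by linarith, rfl⟩))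
  -- second piece
  set c := Real.sqrt (1 - p ^ 6) with hc
  have hp6 : p ^ 6 < 1 := pow_lt_one₀ hp0.le hp1 (by norm_num)
  have hc0 : 0 < c := Real.sqrt_pos.2 (by linarith)
  have hA0 : IsCompact {w : ℂ × ℂ × ℝ | ‖w.1‖ ≤ 1 ∧ w.2.2 ∈ Icc lr p ∧ ‖w.2.1 - w.2.2‖ ≤ 1 / 10} := by
    refine ((isCompact_closedBall (0:ℂ) 1).prod ((isCompact_closedBall (0:ℂ) 2).prod
      (isCompact_Icc (a := lr) (b := p)))).of_isClosed_subset ?_ ?_
    · have c1 : IsClosed {w : ℂ × ℂ × ℝ | ‖w.1‖ ≤ 1} := isClosed_le (by fun_prop) continuous_const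
      have c2 : IsClosed {w : ℂ × ℂ × ℝ | w.2.2 ∈ Icc lr p} :=
        isClosed_Icc.preimage (f := fun w : ℂ × ℂ × ℝ => w.2.2) (by fun_prop)
      have c3 : IsClosed {w : ℂ × ℂ × ℝ | ‖w.2.1 - w.2.2‖ ≤ 1 / 10} :=
        isClosed_le (by fun_prop) continuous_const
      exact c1.inter (c2.inter c3)
    · rintro w ⟨a1, a2, a3⟩
      refine ⟨by simpa using a1, ?_, a2⟩
      have : ‖w.2.1‖ ≤ ‖w.2.1 - w.2.2‖ + ‖(w.2.2 : ℂ)‖ := by
        simpa using norm_add_le (w.2.1 - w.2.2) (w.2.2 : ℂ)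
      rw [Complex.norm_real, Real.norm_of_nonneg (lr_pos.le.trans a2.1)] at this
      simp only [mem_closedBall_zero_iff]
      linarith [a2.2]
  have hpr := continuous_pr
  have key : ∀ (ζ : ℂ) (y : ℝ), y ∈ Icc lr p → 2 * pr (y ^ 3) ≤ 4 * y ^ 6 * ‖ζ‖ →
      Real.sqrt (1 - y ^ 6) ≤ y ^ 3 * ‖ζ‖ := by
    intro ζ y hy h
    have hy0 : 0 < y := lr_pos.trans_le hy.1
    rw [pr, show (y ^ 3) ^ 2 = y ^ 6 by ring] at h
    have : 0 < y ^ 3 := by positivity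
    have h2 : 4 * y ^ 3 * Real.sqrt (1 - y ^ 6) ≤ 4 * y ^ 3 * (y ^ 3 * ‖ζ‖) := by nlinarith
    exact le_of_mul_le_mul_left h2 (by positivity)
  obtain ⟨δ0, h0, H0⟩ := compact_thin hA0 (f := fun w => w.1) (by fun_prop)
    (d := fun w => max ‖w.2.1 - w.2.2‖ (2 * pr (‖w.2.1‖ ^ 3) - 4 * ‖w.2.1‖ ^ 6 * ‖w.1‖))
    (by fun_prop) (U := {ζ : ℂ | c / 2 < ‖ζ‖}) (isOpen_lt continuous_const continuous_norm)
    (fun w hw hd => by
      have a1 : w.2.1 = w.2.2 := sub_eq_zero.1 (norm_le_zero_iff.1 (max_le_iff.1 hd).1)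
      have a2 := (max_le_iff.1 hd).2
      have hy0 : 0 < w.2.2 := lr_pos.trans_le hw.2.1.1
      rw [a1, Complex.norm_real, Real.norm_of_nonneg hy0.le] at a2
      have a3 := key w.1 w.2.2 hw.2.1 (by linarith)
      have a4 : c ≤ Real.sqrt (1 - w.2.2 ^ 6) := by
        apply Real.sqrt_le_sqrt
        have : w.2.2 ^ 6 ≤ p ^ 6 := pow_le_pow_left₀ hy0.le hw.2.1.2 6
        linarith
      have a5 : w.2.2 ^ 3 ≤ 1 := pow_le_one₀ hy0.le (hw.2.1.2.trans hp1.le)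
      have : w.2.2 ^ 3 * ‖w.1‖ ≤ 1 * ‖w.1‖ := by gcongr
      change c / 2 < ‖w.1‖
      linarith)
  have hA2 : IsCompact ({w : ℂ × ℂ × ℝ | ‖w.1‖ ≤ 1 ∧ w.2.2 ∈ Icc lr p ∧ ‖w.2.1 - w.2.2‖ ≤ 1 / 10} ∩
      {w | c / 2 ≤ ‖w.1‖}) := hA0.inter_right (isClosed_le continuous_const (by fun_prop))
  have hne : ∀ w ∈ ({w : ℂ × ℂ × ℝ | ‖w.1‖ ≤ 1 ∧ w.2.2 ∈ Icc lr p ∧ ‖w.2.1 - w.2.2‖ ≤ 1 / 10} ∩
      {w | c / 2 ≤ ‖w.1‖}), w.1 ≠ 0 := by
    rintro w ⟨-, a⟩ h0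
    have : c / 2 ≤ ‖w.1‖ := a
    rw [h0, norm_zero] at this
    linarith
  have he : ∀ ζ l : ℂ, ζ ≠ 0 → (p:ℂ) + ζ * ((l - p) / ζ) = l := by
    intro ζ l h
    field_simp
    ring
  obtain ⟨δ2, h2, H2⟩ := compact_thin hA2 (f := fun w => Psi p w.1 ((w.2.1 - p) / w.1))
    ((continuousOn_Psi p).comp (f := fun w : ℂ × ℂ × ℝ => (w.1, (w.2.1 - p) / w.1))
      (ContinuousOn.prodMk (by fun_prop) (ContinuousOn.div (by fun_prop) (by fun_prop) hne))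
      (fun w hw => ⟨hw.1.1, by
        change (p:ℂ) + w.1 * ((w.2.1 - p) / w.1) ≠ 0
        rw [he _ _ (hne w hw)]
        intro h0
        have a := hw.1.2.2
        have hy := hw.1.2.1.1
        rw [h0, zero_sub, norm_neg, Complex.norm_real,
          Real.norm_of_nonneg (lr_pos.le.trans hy)] at a
        linarith [lt_lr]⟩))
    (d := fun w => max (max ‖w.2.1 - w.2.2‖ (2 * pr (‖w.2.1‖ ^ 3) - 4 * ‖w.2.1‖ ^ 6 * ‖w.1‖))
      (‖w.2.1‖ ^ 6 * (1 + ‖w.1‖ ^ 2) - 1)) (by fun_prop) hU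
    (fun w hw hd => by
      have a1 : w.2.1 = w.2.2 :=
        sub_eq_zero.1 (norm_le_zero_iff.1 (max_le_iff.1 (max_le_iff.1 hd).1).1)
      have a2 := (max_le_iff.1 (max_le_iff.1 hd).1).2
      have a6 := (max_le_iff.1 hd).2
      have hy0 : 0 < w.2.2 := lr_pos.trans_le hw.1.2.1.1
      rw [a1, Complex.norm_real, Real.norm_of_nonneg hy0.le] at a2 a6
      have a3 := key w.1 w.2.2 hw.1.2.1 (by linarith)
      have a4 : 1 - w.2.2 ^ 6 ≤ (w.2.2 ^ 3 * ‖w.1‖) ^ 2 := Real.sqrt_le_iff.1 a3 |>.2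
      refine hK (Or.inl (Or.inr ⟨w.1, (w.2.1 - p) / w.1, w.2.2, hw.1.2.1, ?_, by nlinarith, rfl⟩))
      rw [he _ _ (hne w hw), a1])
  refine ⟨min (min (min (δ1 / 2) δ3) (min δ0 δ2)) (1 / 10), by positivity, min_le_right _ _, ?_⟩
  intro ζ x hζ hl hn halt
  set δ := min (min (min (δ1 / 2) δ3) (min δ0 δ2)) (1 / 10) with hδ
  have e1 : δ ≤ δ1 / 2 := (min_le_left _ _).trans ((min_le_left _ _).trans (min_le_left _ _))
  have e3 : δ ≤ δ3 := (min_le_left _ _).trans ((min_le_left _ _).trans (min_le_right _ _))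
  have e0 : δ ≤ δ0 := (min_le_left _ _).trans ((min_le_right _ _).trans (min_le_left _ _))
  have e2 : δ ≤ δ2 := (min_le_left _ _).trans ((min_le_right _ _).trans (min_le_right _ _))
  have e4 : δ ≤ 1 / 10 := min_le_right _ _
  have hN : NN (uu p (Psi p ζ x)) (vv p (Psi p ζ x)) = 2 * (‖p + ζ * x‖ ^ 6 * (1 + ‖ζ‖ ^ 2)) := by
    rw [uu_Psi hl, vv_Psi hl, NN_UV]
  rcases halt with h | ⟨y, hy, hy1, hy2⟩ | h
  · have b1 : NN (uu p (Psi p ζ x)) (vv p (Psi p ζ x)) ≤ 4 := by linarith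
    have b2 : 1 ≤ ‖Psi p ζ x 2‖ := by linarith
    have b3 : NN (uu p (Psi p ζ x)) (vv p (Psi p ζ x)) - 2 ≤ δ1 := by linarith
    have b4 : 2 - ‖Psi p ζ x 2‖ ≤ δ1 := by linarith
    exact H1 (Psi p ζ x) ⟨Psi_mem hl, b1, b2⟩ (max_le b3 b4)
  · rw [norm_Psi_two] at hy2
    have b0 := H0 (ζ, p + ζ * x, y) ⟨hζ, hy, hy1.trans e4⟩ (max_le (hy1.trans e0) (by
      change 2 * pr (‖p + ζ * x‖ ^ 3) - 4 * ‖p + ζ * x‖ ^ 6 * ‖ζ‖ ≤ δ0
      linarith))
    have b0' : c / 2 < ‖ζ‖ := b0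
    have hζ0 : ζ ≠ 0 := by
      rintro rfl
      rw [norm_zero] at b0'
      linarith
    have b2 := H2 (ζ, p + ζ * x, y) ⟨⟨hζ, hy, hy1.trans e4⟩, b0'.le⟩
      (max_le (max_le (hy1.trans e2) (by
        change 2 * pr (‖p + ζ * x‖ ^ 3) - 4 * ‖p + ζ * x‖ ^ 6 * ‖ζ‖ ≤ δ2
        linarith)) (by
        change ‖p + ζ * x‖ ^ 6 * (1 + ‖ζ‖ ^ 2) - 1 ≤ δ2
        linarith))
    have : ((p:ℂ) + ζ * x - p) / ζ = x := by field_simp; ring
    simpa only [this] using b2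
  · exact H3 (ζ, x) ⟨by simpa using hζ, by
      simp only [mem_closedBall_zero_iff]; linarith⟩ (max_le (h.trans e3) (by
        change ‖p + ζ * x‖ ^ 6 * (1 + ‖ζ‖ ^ 2) - 1 ≤ δ3
        linarith))

end Pool.Agent.P.MP_e5acfa_ag.PkgG
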