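import Pool.Agent.P.MP_e5acfa_ag.G1

open Complex Set

namespace Pool.Agent.P.MP_e5acfa_ag.PkgG

/-! positivity of a derivative relative to the value -/

def Pos (κ : ℝ) (a b : ℂ) : Prop := κ * ‖b‖ ^ 2 ≤ (a * (starRingEnd ℂ) b).re

lemma re_mul_conj_self (b : ℂ) : (b * (starRingEnd ℂ) b).re = ‖b‖ ^ 2 := by
  rw [Complex.mul_conj, Complex.normSq_eq_norm_sq]; norm_cast

lemma abs_re_mul_conj (a b : ℂ) : |(a * (starRingEnd ℂ) b).re| ≤ ‖a‖ * ‖b‖ := by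
  refine (Complex.abs_re_le_norm _).trans ?_
  rw [norm_mul, RCLike.norm_conj]

lemma Pos.mono {κ κ' : ℝ} {a b : ℂ} (h : Pos κ a b) (hk : κ' ≤ κ) : Pos κ' a b :=
  le_trans (mul_le_mul_of_nonneg_right hk (by positivity)) h

lemma Pos.add_small {κ s : ℝ} {a b r : ℂ} (h : Pos κ a b) (hr : ‖r‖ ≤ s * ‖b‖) :
    Pos (κ - s) (a + r) b := by
  unfold Pos at *
  have h1 := neg_le_of_abs_le (abs_re_mul_conj r b)
  have h2 : ‖r‖ * ‖b‖ ≤ s * ‖b‖ * ‖b‖ := mul_le_mul_of_nonneg_right hr (norm_nonneg _)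
  rw [add_mul, Complex.add_re]
  nlinarith

lemma pos_self (c : ℝ) (b : ℂ) : Pos c (c * b) b := by
  unfold Pos
  rw [mul_assoc, Complex.re_ofReal_mul, re_mul_conj_self]

lemma pos_of_near {κ c : ℝ} {a b : ℂ} (h : ‖a - c * b‖ ≤ (c - κ) * ‖b‖) : Pos κ a b := by
  have := (pos_self c b).add_small h
  simpa using this

lemma Pos.pow {κ : ℝ} {a b : ℂ} (hκ : 0 ≤ κ) (h : Pos κ a b) (k : ℕ) :
    Pos κ (((k + 1 : ℕ) : ℂ) * b ^ k * a) (b ^ (k + 1)) := by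
  unfold Pos at *
  have e : ((k + 1 : ℕ) : ℂ) * b ^ k * a * (starRingEnd ℂ) (b ^ (k + 1)) =
      (((k + 1) * (‖b‖ ^ 2) ^ k : ℝ) : ℂ) * (a * (starRingEnd ℂ) b) := by
    have : ((‖b‖ : ℂ) ^ 2) = b * (starRingEnd ℂ) b := by
      rw [Complex.mul_conj, Complex.normSq_eq_norm_sq]; push_cast; ring
    push_cast
    rw [this, map_pow]
    ring
  rw [e, Complex.re_ofReal_mul, norm_pow]
  have h0 : 0 ≤ κ * ‖b‖ ^ 2 := by positivity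
  have h1 : (1:ℝ) ≤ k + 1 := by linarith [Nat.cast_nonneg (α := ℝ) k]
  calc κ * (‖b‖ ^ (k + 1)) ^ 2 = 1 * (‖b‖ ^ 2) ^ k * (κ * ‖b‖ ^ 2) := by ring
    _ ≤ _ := by gcongr

lemma Pos.real_mul {κ : ℝ} {a b : ℂ} (h : Pos κ a b) (e : ℝ) : Pos κ (e * a) (e * b) := by
  unfold Pos at *
  have e1 : (e:ℂ) * a * (starRingEnd ℂ) (e * b) = ((e ^ 2 : ℝ) : ℂ) * (a * (starRingEnd ℂ) b) := by
    rw [map_mul, Complex.conj_ofReal]; push_cast; ring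
  rw [e1, Complex.re_ofReal_mul, norm_mul, Complex.norm_real, mul_pow, Real.norm_eq_abs, sq_abs]
  calc κ * (e ^ 2 * ‖b‖ ^ 2) = e ^ 2 * (κ * ‖b‖ ^ 2) := by ring
    _ ≤ _ := by gcongr

/-- the inward radial direction is positive for a coordinate of the form (a - c) / z -/
lemma pos_inward {a z ξ : ℂ} {c k : ℝ} (hz : z ≠ 0) (h : ξ * z = a - c) (ha : ‖a‖ ≤ c)
    (hk0 : 0 ≤ k) (hk : k ≤ 3) : Pos 1 (-(k * a / z - 6 * ξ)) ξ := by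
  have hξ : ξ = (a - c) / z := by rw [← h]; field_simp
  have hz0 : 0 < ‖z‖ := norm_pos_iff.2 hz
  have e1 : -(k * a / z - 6 * ξ) * (starRingEnd ℂ) ξ =
      6 * (ξ * (starRingEnd ℂ) ξ) - ((k / ‖z‖ ^ 2 : ℝ) : ℂ) * (a * (starRingEnd ℂ) (a - c)) := by
    have : ((‖z‖ : ℂ) ^ 2) = z * (starRingEnd ℂ) z := by
      rw [Complex.mul_conj, Complex.normSq_eq_norm_sq]; push_cast; ring
    have hz' : (starRingEnd ℂ) z ≠ 0 := by simpa using hz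
    have e2 : (starRingEnd ℂ) (a - c) = (starRingEnd ℂ) ξ * (starRingEnd ℂ) z := by
      rw [← h, map_mul]
    push_cast
    rw [this, e2]
    field_simp
    ring
  have e3 : (a * (starRingEnd ℂ) (a - c)).re ≤ ‖a - c‖ ^ 2 / 2 := by
    have h1 : ‖a‖ ^ 2 ≤ c ^ 2 := pow_le_pow_left₀ (norm_nonneg _) ha 2
    rw [← Complex.normSq_eq_norm_sq] at h1 ⊢
    simp only [Complex.normSq_apply, mul_re, map_sub, conj_ofReal, sub_re, conj_re, ofReal_re,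
      sub_im, conj_im, ofReal_im] at h1 ⊢
    nlinarith
  have e4 : ‖a - c‖ ^ 2 = ‖ξ‖ ^ 2 * ‖z‖ ^ 2 := by rw [← h, norm_mul, mul_pow]
  unfold Pos
  rw [e1, Complex.sub_re, Complex.re_ofReal_mul,
    show (6:ℂ) = ((6:ℝ):ℂ) by norm_num, Complex.re_ofReal_mul, re_mul_conj_self]
  have e5 : k / ‖z‖ ^ 2 * (a * (starRingEnd ℂ) (a - c)).re ≤ k / ‖z‖ ^ 2 * (‖ξ‖ ^ 2 * ‖z‖ ^ 2 / 2) := by
    rw [← e4]
    exact mul_le_mul_of_nonneg_left e3 (by positivity)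
  have e6 : k / ‖z‖ ^ 2 * (‖ξ‖ ^ 2 * ‖z‖ ^ 2 / 2) = k / 2 * ‖ξ‖ ^ 2 := by field_simp
  nlinarith [sq_nonneg ‖ξ‖]

/-! the two tangent fields -/

noncomputable def EE (p : ℝ) (q : C3) : C3 :=
  ![3 * uu p q / q 2 - 6 * q 0, 2 * vv p q / q 2 - 6 * q 1, 6 * q 2]

noncomputable def ZZ (ζ l : ℂ) (q : C3) : C3 :=
  ![q 0 - 1 / (4 * l ^ 3), q 1 + 1 / (6 * l ^ 4 * rho ζ), -q 2]

lemma EE_zero (p : ℝ) (q : C3) : EE p q 0 = 3 * uu p q / q 2 - 6 * q 0 := rfl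
lemma EE_one (p : ℝ) (q : C3) : EE p q 1 = 2 * vv p q / q 2 - 6 * q 1 := rfl
lemma EE_two (p : ℝ) (q : C3) : EE p q 2 = 6 * q 2 := rfl
lemma ZZ_zero (ζ l : ℂ) (q : C3) : ZZ ζ l q 0 = q 0 - 1 / (4 * l ^ 3) := rfl
lemma ZZ_one (ζ l : ℂ) (q : C3) : ZZ ζ l q 1 = q 1 + 1 / (6 * l ^ 4 * rho ζ) := rfl
lemma ZZ_two (ζ l : ℂ) (q : C3) : ZZ ζ l q 2 = -q 2 := rfl

lemma z_mul_dPX (p : ℝ) (q W : C3) : q 2 * dPX p q W =
    2 * uu p q * (W 0 * q 2 + q 0 * W 2) - 3 * vv p q ^ 2 * (W 1 * q 2 + q 1 * W 2)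
      - W 2 * (1 + PX p q) := by
  unfold dPX uu vv PX; ring

lemma dPX_comb (p : ℝ) (q W W' : C3) (a b : ℂ) :
    dPX p q (a • W + b • W') = a * dPX p q W + b * dPX p q W' := by
  simp only [dPX, Pi.add_apply, Pi.smul_apply, smul_eq_mul]; ring

lemma du_EE {p : ℝ} {q : C3} (hz : q 2 ≠ 0) : EE p q 0 * q 2 + q 0 * EE p q 2 = 3 * uu p q := by
  rw [EE_zero, EE_two]; field_simp; ring

lemma dv_EE {p : ℝ} {q : C3} (hz : q 2 ≠ 0) : EE p q 1 * q 2 + q 1 * EE p q 2 = 2 * vv p q := by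
  rw [EE_one, EE_two]; field_simp; ring

lemma dPX_EE {p : ℝ} {q : C3} (hq : q ∈ XS p) (hz : q 2 ≠ 0) : dPX p q (EE p q) = 0 := by
  have h := z_mul_dPX p q (EE p q)
  rw [du_EE hz, dv_EE hz, EE_two, show PX p q = 0 from hq] at h
  have h2 := z_eq hq
  apply mul_left_cancel₀ hz
  rw [h]
  linear_combination (-6) * h2

lemma dPX_ZZ {p : ℝ} {q : C3} {ζ l : ℂ} (hq : q ∈ XS p) (hl : l ≠ 0) (hζ : ζ ≠ 1)
    (hu : uu p q = UU ζ l) (hv : vv p q = VV ζ l) : dPX p q (ZZ ζ l q) = 0 := by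
  have hr := rho_ne_zero hζ
  have h3 := rho_cube ζ
  have h0 : PX p q = 0 := hq
  have e1 : uu p q * (1 / (4 * l ^ 3)) = (1 + ζ) / 4 := by rw [hu, UU]; field_simp
  have e2 : vv p q ^ 2 * (1 / (6 * l ^ 4 * rho ζ)) = (1 - ζ) / 6 := by
    rw [hv, VV, ← h3]; field_simp
  rw [dPX, ZZ_zero, ZZ_one, ZZ_two]
  unfold uu vv PX at *
  linear_combination h0 - 2 * e1 - 3 * e2

lemma duv_ZZ {q : C3} {ζ l : ℂ} (hl : l ≠ 0) (hζ : ζ ≠ 1) (hz : q 2 = 4 * l ^ 6 * ζ) :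
    ((ZZ ζ l q 0 * q 2 + q 0 * ZZ ζ l q 2, ZZ ζ l q 1 * q 2 + q 1 * ZZ ζ l q 2) : ℂ × ℂ) =
      (-ζ) • ((l ^ 3, -(2 * l ^ 2) / (3 * rho ζ)) : ℂ × ℂ) := by
  have hr := rho_ne_zero hζ
  rw [ZZ_zero, ZZ_one, ZZ_two, hz]
  ext
  · simp only [Prod.smul_mk, smul_eq_mul]; field_simp; ring
  · simp only [Prod.smul_mk, smul_eq_mul]; field_simp; ring

/-! the gauge terms -/

noncomputable def nk (p : ℝ) (ω : ℂ) (q : C3) : ℂ := (uu p q ^ 2 + ω * vv p q ^ 3) / 2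

lemma isPoly3_nk (p : ℝ) (ω : ℂ) : IsPoly3 (nk p ω) := by
  have := (IsPoly3.const (1 / 2)).mul
    (((isPoly3_uu p).pow 2).add ((IsPoly3.const ω).mul ((isPoly3_vv p).pow 3)))
  convert this using 1
  funext q
  rw [nk]; ring

lemma fderiv_nk (p : ℝ) (ω : ℂ) (q W : C3) : fderiv ℂ (nk p ω) q W =
    uu p q * (W 0 * q 2 + q 0 * W 2) + 3 / 2 * ω * vv p q ^ 2 * (W 1 * q 2 + q 1 * W 2) := by
  have h1 := (differentiable_uu p q).hasFDerivAt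
  have h2 := (differentiable_vv p q).hasFDerivAt
  have h3 := (((h1.pow 2).add ((h2.pow 3).const_mul ω)).const_mul (1 / 2 : ℂ)).fderiv
  have e : nk p ω = fun y => 1 / 2 * ((fun x => uu p x ^ 2) + fun y => ω * vv p y ^ 3) y := by
    funext q; simp [nk]; ring
  rw [e, h3]
  simp [fderiv_uu, fderiv_vv]
  ring

lemma norm_nk_le (p : ℝ) {ω : ℂ} (hω : ‖ω‖ = 1) (q : C3) :
    ‖nk p ω q‖ ≤ NN (uu p q) (vv p q) / 2 := by
  rw [nk, norm_div, NN]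
  have := norm_add_le (uu p q ^ 2) (ω * vv p q ^ 3)
  rw [norm_mul, hω, norm_pow, norm_pow] at this
  simp only [Complex.norm_ofNat]
  linarith

lemma nk_EE {p : ℝ} (ω : ℂ) {q : C3} (hz : q 2 ≠ 0) :
    fderiv ℂ (nk p ω) q (EE p q) = 6 * nk p ω q := by
  rw [fderiv_nk, du_EE hz, dv_EE hz, nk]; ring

lemma nk_ZZ {p : ℝ} {ω : ℂ} (hω : ‖ω‖ = 1) {q : C3} {ζ l : ℂ} (hl : l ≠ 0) (hζ : ‖ζ‖ < 1)
    (hu : uu p q = UU ζ l) (hv : vv p q = VV ζ l) (hz : q 2 = 4 * l ^ 6 * ζ) :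
    ‖fderiv ℂ (nk p ω) q (ZZ ζ l q)‖ ≤ ‖q 2‖ := by
  have hζ1 : ζ ≠ 1 := by rintro rfl; simp at hζ
  have hr := rho_ne_zero hζ1
  have h := duv_ZZ hl hζ1 hz
  have h1 := congrArg Prod.fst h
  have h2 := congrArg Prod.snd h
  simp only [Prod.smul_mk, smul_eq_mul] at h1 h2
  have e : fderiv ℂ (nk p ω) q (ZZ ζ l q) = l ^ 6 * ζ * (-(1 + ζ) + ω * (1 - ζ)) := by
    rw [fderiv_nk, h1, h2, hu, hv, UU, VV, ← rho_cube ζ]
    field_simp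
  rw [e, hz]
  have a1 : ‖-(1 + ζ) + ω * (1 - ζ)‖ ≤ 4 := by
    refine (norm_add_le _ _).trans ?_
    rw [norm_neg, norm_mul, hω]
    have := norm_add_le (1:ℂ) ζ
    have := norm_sub_le (1:ℂ) ζ
    simp only [norm_one] at *
    linarith
  simp only [norm_mul, Complex.norm_ofNat]
  have : 0 ≤ ‖l ^ 6‖ * ‖ζ‖ := by positivity
  nlinarith

/-! functions of (u,v) -/

lemma t_EE {t : ℂ × ℂ → ℂ} (ht : IsPoly2 t) {p : ℝ} {q : C3} (hz : q 2 ≠ 0) :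
    fderiv ℂ (fun q => t (uu p q, vv p q)) q (EE p q) =
      fderiv ℂ t (uu p q, vv p q) (3 * uu p q, 2 * vv p q) := by
  rw [fderiv_comp_uv ht.differentiable, du_EE hz, dv_EE hz]

lemma t_ZZ {t : ℂ × ℂ → ℂ} (ht : IsPoly2 t) {p : ℝ} {q : C3} {ζ l : ℂ} (hl : l ≠ 0) (hζ : ζ ≠ 1)
    (hz : q 2 = 4 * l ^ 6 * ζ) :
    fderiv ℂ (fun q => t (uu p q, vv p q)) q (ZZ ζ l q) =
      -ζ * fderiv ℂ t (uu p q, vv p q) (l ^ 3, -(2 * l ^ 2) / (3 * rho ζ)) := by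
  rw [fderiv_comp_uv ht.differentiable, duv_ZZ hl hζ hz, map_smul, smul_eq_mul]

/-! the pole term -/

/-- data of the numerator -/
structure Num (p : ℝ) (g : Polynomial ℂ) where
  num : ℂ × ℂ → ℂ
  G1 : ℂ × ℂ → ℂ
  G2 : ℂ × ℂ → ℂ
  pn : IsPoly2 num
  p1 : IsPoly2 G1
  p2 : IsPoly2 G2
  val : ∀ ζ l : ℂ, num (UU ζ l, VV ζ l) = 2 * (g.eval (l ^ 3) * g.eval (l ^ 3 * ζ))
  dec : ∀ w : ℂ × ℂ, num w = (w.1 - (p:ℂ) ^ 3) * G1 w + (w.2 - (p:ℂ) ^ 2) * G2 w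

lemma exists_Num (p : ℝ) {g : Polynomial ℂ} (hg : g.eval ((p:ℂ) ^ 3) = 0) : Nonempty (Num p g) := by
  obtain ⟨num, pn, val⟩ := exists_num g
  obtain ⟨G1, G2, p1, p2, dec⟩ := exists_decomp pn ((p:ℂ) ^ 3) ((p:ℂ) ^ 2)
  have h0 : num ((p:ℂ) ^ 3, (p:ℂ) ^ 2) = 0 := by
    have := val 0 p
    simpa [UU, VV, hg] using this
  exact ⟨⟨num, G1, G2, pn, p1, p2, val, fun w => by rw [← dec w, h0, sub_zero]⟩⟩

namespace Num

variable {p : ℝ} {g : Polynomial ℂ} (A : Num p g)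

noncomputable def t3 (q : C3) : ℂ := q 0 * A.G1 (uu p q, vv p q) + q 1 * A.G2 (uu p q, vv p q)

lemma isPoly3_t3 : IsPoly3 A.t3 :=
  ((IsPoly3.coord 0).mul (A.p1.comp3 (isPoly3_uu p) (isPoly3_vv p))).add
    ((IsPoly3.coord 1).mul (A.p2.comp3 (isPoly3_uu p) (isPoly3_vv p)))

lemma z_mul_t3 (q : C3) : q 2 * A.t3 q = A.num (uu p q, vv p q) := by
  rw [A.dec, t3]
  simp only [uu, vv]
  ring

lemma d_t3 (q W : C3) : q 2 * fderiv ℂ A.t3 q W + W 2 * A.t3 q =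
    fderiv ℂ (fun q => A.num (uu p q, vv p q)) q W := by
  have h1 := ((hasFDerivAt_coord q 2).fun_mul (A.isPoly3_t3.differentiable q).hasFDerivAt).fderiv
  have e : (fun q => A.num (uu p q, vv p q)) = fun q : C3 => q 2 * A.t3 q :=
    funext fun q => (A.z_mul_t3 q).symm
  rw [e, h1]
  simp
  ring

lemma t3_EE {q : C3} {ζ l : ℂ} (hz : q 2 ≠ 0) (hu : uu p q = UU ζ l) (hv : vv p q = VV ζ l) :
    q 2 * (fderiv ℂ A.t3 q (EE p q) + 6 * A.t3 q) =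
      6 * ((l ^ 3 * g.derivative.eval (l ^ 3)) * g.eval (l ^ 3 * ζ) +
        g.eval (l ^ 3) * (l ^ 3 * ζ * g.derivative.eval (l ^ 3 * ζ))) := by
  have h := A.d_t3 q (EE p q)
  have h1 : HasDerivAt (fun s : ℂ => s ^ 3) (3 * l ^ 2) l := by simpa using hasDerivAt_pow 3 l
  have h2 := (g.hasDerivAt (l ^ 3)).comp l h1
  have h3 := (g.hasDerivAt (l ^ 3 * ζ)).comp l (h1.mul_const ζ)
  have h4 : HasDerivAt (fun s => A.num (UU ζ s, VV ζ s))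
      (2 * (g.derivative.eval (l ^ 3) * (3 * l ^ 2) * g.eval (l ^ 3 * ζ) +
        g.eval (l ^ 3) * (g.derivative.eval (l ^ 3 * ζ) * (3 * l ^ 2 * ζ)))) l := by
    simp only [A.val]
    exact (h2.mul h3).const_mul 2
  rw [t_EE A.pn hz, hu, hv, fderiv_euler A.pn.differentiable h4, EE_two] at h
  linear_combination h

lemma dzeta_num {ζ : ℂ} (hζ : ‖ζ‖ < 1) (l : ℂ) :
    fderiv ℂ A.num (UU ζ l, VV ζ l) (l ^ 3, -(2 * l ^ 2) / (3 * rho ζ)) =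
      2 * (g.eval (l ^ 3) * (g.derivative.eval (l ^ 3 * ζ) * l ^ 3)) := by
  have h1 : HasDerivAt (fun s : ℂ => l ^ 3 * s) (l ^ 3) ζ := by
    simpa using (hasDerivAt_id ζ).const_mul (l ^ 3)
  have h3 := (g.hasDerivAt (l ^ 3 * ζ)).comp ζ h1
  apply fderiv_zeta A.pn.differentiable hζ
  simp only [A.val]
  exact (h3.const_mul _).const_mul 2

lemma t3_ZZ {q : C3} {ζ l : ℂ} (hl : l ≠ 0) (hζ : ‖ζ‖ < 1) (hu : uu p q = UU ζ l)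
    (hv : vv p q = VV ζ l) (hz : q 2 = 4 * l ^ 6 * ζ) :
    q 2 * (fderiv ℂ A.t3 q (ZZ ζ l q) - A.t3 q) =
      -2 * (g.eval (l ^ 3) * (l ^ 3 * ζ * g.derivative.eval (l ^ 3 * ζ))) := by
  have hζ1 : ζ ≠ 1 := by rintro rfl; simp at hζ
  have h := A.d_t3 q (ZZ ζ l q)
  rw [t_ZZ A.pn hl hζ1 hz, hu, hv, A.dzeta_num hζ, ZZ_two] at h
  linear_combination h

lemma t3_ZZ_zero (hp : 0 < p) (hg : g.eval ((p:ℂ) ^ 3) = 0) {q : C3} (hz : q 2 = 0) :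
    fderiv ℂ A.t3 q (ZZ 0 p q) = A.t3 q := by
  have hp' : (p:ℂ) ≠ 0 := by exact_mod_cast hp.ne'
  have hu : uu p q = (p:ℂ) ^ 3 := by simp [uu, hz]
  have hv : vv p q = (p:ℂ) ^ 2 := by simp [vv, hz]
  have h0 := A.dzeta_num (ζ := 0) (by simp) p
  have e : A.num = fun w => (w.1 - (p:ℂ) ^ 3) * A.G1 w + (w.2 - (p:ℂ) ^ 2) * A.G2 w := funext A.dec
  have d1 := (A.p1.differentiable ((p:ℂ) ^ 3, (p:ℂ) ^ 2)).hasFDerivAt
  have d2 := (A.p2.differentiable ((p:ℂ) ^ 3, (p:ℂ) ^ 2)).hasFDerivAt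
  have h1 := (((hasFDerivAt_fst.sub_const ((p:ℂ) ^ 3)).fun_mul d1).fun_add
    ((hasFDerivAt_snd.sub_const ((p:ℂ) ^ 2)).fun_mul d2)).fderiv
  simp only [UU, VV, rho_zero, add_zero, mul_one, one_pow, hg, zero_mul, mul_zero] at h0
  rw [e, h1] at h0
  simp at h0
  have c1 := (A.p1.comp3 (isPoly3_uu p) (isPoly3_vv p)).differentiable q
  have c2 := (A.p2.comp3 (isPoly3_uu p) (isPoly3_vv p)).differentiable q
  have h2 := (((hasFDerivAt_coord q 0).fun_mul c1.hasFDerivAt).fun_add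
    ((hasFDerivAt_coord q 1).fun_mul c2.hasFDerivAt)).fderiv
  have e2 : A.t3 = fun q : C3 => q 0 * A.G1 (uu p q, vv p q) + q 1 * A.G2 (uu p q, vv p q) := rfl
  have z1 := t_ZZ A.p1 (p := p) (q := q) (ζ := 0) hp' zero_ne_one (by simp [hz])
  have z2 := t_ZZ A.p2 (p := p) (q := q) (ζ := 0) hp' zero_ne_one (by simp [hz])
  rw [e2, h2]
  have h0' : 3 * p * A.G1 ((p:ℂ) ^ 3, (p:ℂ) ^ 2) = 2 * A.G2 ((p:ℂ) ^ 3, (p:ℂ) ^ 2) := by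
    apply mul_left_cancel₀ (pow_ne_zero 2 hp')
    linear_combination 3 * h0
  simp only [add_apply, smul_apply, smul_eq_mul, z1, z2,
    ContinuousLinearMap.proj_apply, ZZ_zero, ZZ_one, rho_zero, hu, hv]
  field_simp
  linear_combination (-2) * h0'

end Num

end Pool.Agent.P.MP_e5acfa_ag.PkgG
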