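import Pool.Agent.P.MP_e5acfa_ag.G2

open Complex Set

namespace Pool.Agent.P.MP_e5acfa_ag.PkgG

/-- all constants and functions of the construction -/
structure Data where
  p : ℝ
  τ : ℝ
  ε : ℝ
  ν : ℝ
  ν' : ℝ
  ε₁ : ℝ
  κ : ℝ
  B : ℝ
  Cg : ℝ
  d0 : ℝ
  d : ℕ
  w : ℕ
  M' : ℕ
  g : Polynomial ℂ
  t : Bool → ℂ × ℂ → ℂ
  net : Finset ℂ
  A : Num p g
  hp : 19 / 20 < p
  hp1 : p < 1
  hτ : 0 < τ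
  hτ1 : τ ≤ 1 / 200
  hετ : ε ≤ τ / 10
  hεp : ε ≤ (1 - p ^ 3) / 4
  hν : 0 < ν
  hνε : ν ≤ ε
  g0 : g.eval ((p:ℂ) ^ 3) = 0
  gdisc : ∀ a : ℂ, ‖a‖ ^ 2 ≤ (1 + ν) / 2 → ‖g.eval a - 1‖ ≤ ε ∧ ‖a * g.derivative.eval a‖ ≤ ε
  gseg : ∀ a : ℂ, (∃ s ∈ Icc (lr ^ 3) (p ^ 3), ‖a - s‖ ≤ ν) →
    ‖a‖ < 1 ∧ ‖g.eval a‖ ≤ (1 + ε) * pr ‖a‖ ∧
      (pr ‖a‖ - ε ≤ ‖g.eval a‖ ∨
        (‖a - (p:ℂ) ^ 3‖ ≤ ε ∧ ‖a - (p:ℂ) ^ 3‖ ≤ ε * ‖g.eval a‖))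
  hε₁ : 0 < ε₁
  hε₁' : 4 * ε₁ ≤ ν'
  hν' : ν' ≤ ν / 4
  hκ : 0 < κ
  tpoly : ∀ i, IsPoly2 (t i)
  tE : ∀ ζ l : ℂ, ‖ζ‖ ≤ 1 →
    (∀ i, ‖l‖ ^ 6 ≤ (1 + ν') / 2 → ‖t i (UU ζ l, VV ζ l)‖ < 1) ∧
    (∀ i, 1 + ε₁ ≤ ‖l‖ ^ 6 * (1 + ‖ζ‖ ^ 2) →
      ‖t i (UU ζ l, VV ζ l)‖ ≤ (‖l‖ ^ 6 * (1 + ‖ζ‖ ^ 2)) ^ M') ∧
    ((1 + ν') / 2 ≤ ‖l‖ ^ 6 → ‖l‖ ^ 6 * (1 + ‖ζ‖ ^ 2) ≤ 1 + ε₁ →
      (∀ i, 1 ≤ ‖t i (UU ζ l, VV ζ l)‖ →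
        2 * κ * ‖t i (UU ζ l, VV ζ l)‖ ^ 2 ≤
          (fderiv ℂ (t i) (UU ζ l, VV ζ l) (3 * UU ζ l, 2 * VV ζ l) *
            (starRingEnd ℂ) (t i (UU ζ l, VV ζ l))).re ∧
        B * ‖fderiv ℂ (t i) (UU ζ l, VV ζ l) (l ^ 3, -(2 * l ^ 2) / (3 * rho ζ))‖ ≤
          κ * ‖t i (UU ζ l, VV ζ l)‖) ∧
      ((∀ i, ‖t i (UU ζ l, VV ζ l)‖ ≤ B) →
        ‖l‖ ^ 6 ≤ (1 + ν / 4) / 2 ∨ ∃ y ∈ Icc lr p, ‖l - y‖ ≤ ν / 4))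
  hCg : 1 ≤ Cg
  gb : ∀ (a b : ℂ) (n : ℝ), 0 ≤ n → ‖a‖ ≤ 1 + n → ‖b‖ ≤ 1 + n →
    ‖2 * (g.eval a * g.eval b)‖ ≤ Cg * (2 + n) ^ d ∧
    ‖6 * ((a * g.derivative.eval a) * g.eval b + g.eval a * (b * g.derivative.eval b))‖ ≤
      Cg * (2 + n) ^ d ∧ 3 * (2 + n) ≤ Cg * (2 + n) ^ d
  hB1 : (4 * (Cg * 4 ^ d)) ^ 4 ≤ B
  hB2 : 14 + Cg * 4 ^ d ≤ B
  hw : 2 * M' < w
  hwG : ∀ n : ℝ, 1 + ε₁ ≤ n → (4 * (Cg * (2 + n) ^ d)) ^ 4 ≤ n ^ w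
  net1 : ∀ ω ∈ net, ‖ω‖ = 1
  net2 : ∀ q : C3, ∃ ω ∈ net, NN (uu p q) (vv p q) / 4 ≤ ‖nk p ω q‖ ∧
    (1 + ε₁ ≤ NN (uu p q) (vv p q) / 2 → NN (uu p q) (vv p q) / 2 ≤ ‖nk p ω q‖ ^ 2)
  hd0 : 0 < d0
  near : ∀ u v : ℂ, ‖u - (p:ℂ) ^ 3‖ < d0 → ‖v - (p:ℂ) ^ 2‖ < d0 →
    7 / 5 < NN u v ∧ NN u v < 2 ∧ ‖u ^ 2 - v ^ 3‖ < 1 / 10 ∧ ∀ i, ‖t i (u, v)‖ < 1

namespace Data

variable (D : Data)

noncomputable def e : ℝ := D.ν' / 4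
noncomputable def κ' : ℝ := min D.κ (1 / 2)
noncomputable def A0 : ℝ := 4 + 1 / D.e + 1 / (D.e * D.d0)
noncomputable def tt (i : Bool) (q : C3) : ℂ := D.t i (uu D.p q, vv D.p q)

lemma p_pos : 0 < D.p := by linarith [D.hp]
lemma ε_pos : 0 < D.ε := D.hν.trans_le D.hνε
lemma ε_le : D.ε ≤ 1 / 2000 := by linarith [D.hετ, D.hτ1]
lemma ν'_pos : 0 < D.ν' := by linarith [D.hε₁, D.hε₁']
lemma e_pos : 0 < D.e := by unfold e; linarith [D.ν'_pos]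
lemma e_le : D.e ≤ D.ε / 16 := by unfold e; linarith [D.hν', D.hνε]
lemma ε₁_le : D.ε₁ ≤ D.ε / 16 := by linarith [D.hν', D.hνε, D.hε₁']
lemma κ'_pos : 0 < D.κ' := lt_min D.hκ (by norm_num)
lemma κ'_le : D.κ' ≤ 1 / 2 := min_le_right _ _
lemma κ'_le' : D.κ' ≤ D.κ := min_le_left _ _
lemma p3_ge : 85 / 100 ≤ D.p ^ 3 := by
  have : (19 / 20 : ℝ) ^ 3 ≤ D.p ^ 3 := pow_le_pow_left₀ (by norm_num) D.hp.le 3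
  norm_num at this
  linarith
lemma isPoly3_tt (i : Bool) : IsPoly3 (D.tt i) :=
  (D.tpoly i).comp3 (isPoly3_uu _) (isPoly3_vv _)

lemma seg_cube {l : ℂ} {y : ℝ} (hy : y ∈ Icc lr D.p) (h : ‖l - y‖ ≤ D.ν / 4) :
    ∃ s ∈ Icc (lr ^ 3) (D.p ^ 3), ‖l ^ 3 - s‖ ≤ D.ν := by
  have hy0 : 0 < y := lr_pos.trans_le hy.1
  refine ⟨y ^ 3, ⟨pow_le_pow_left₀ lr_pos.le hy.1 3, pow_le_pow_left₀ hy0.le hy.2 3⟩, ?_⟩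
  have e : l ^ 3 - ((y ^ 3 : ℝ) : ℂ) = (l - y) * (l ^ 2 + l * y + (y:ℂ) ^ 2) := by
    push_cast; ring
  have hν := D.hν
  have hy1 : ‖(y:ℂ)‖ ≤ 1 := by
    rw [Complex.norm_real, Real.norm_of_nonneg hy0.le]; linarith [hy.2, D.hp1]
  have hl : ‖l‖ ≤ 11 / 10 := by
    have := norm_add_le (l - y) (y:ℂ)
    rw [sub_add_cancel] at this
    linarith [D.hνε, D.ε_le]
  have h4 : ‖l ^ 2 + l * y + (y:ℂ) ^ 2‖ ≤ 4 := by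
    refine (norm_add₃_le).trans ?_
    rw [norm_pow, norm_mul, norm_pow]
    have := norm_nonneg l
    have := norm_nonneg (y:ℂ)
    nlinarith
  rw [e, norm_mul]
  calc ‖l - y‖ * ‖l ^ 2 + l * y + (y:ℂ) ^ 2‖ ≤ D.ν / 4 * 4 := by gcongr
    _ = D.ν := by ring

lemma pr_ge {a : ℂ} (h : ∃ s ∈ Icc (lr ^ 3) (D.p ^ 3), ‖a - s‖ ≤ D.ν) : 2 * D.ε ≤ pr ‖a‖ := by
  obtain ⟨s, hs, h⟩ := h
  have h7 : 7 / 10 ≤ lr ^ 3 := by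
    have : (89 / 100 : ℝ) ^ 3 ≤ lr ^ 3 := pow_le_pow_left₀ (by norm_num) lt_lr.le 3
    norm_num at this
    linarith
  have hs0 : 0 ≤ s := by linarith [hs.1]
  have h1 := norm_add_le (a - s) (s:ℂ)
  have h2 := norm_sub_le a (a - s)
  rw [sub_add_cancel, Complex.norm_real, Real.norm_of_nonneg hs0] at h1
  rw [sub_sub_cancel, Complex.norm_real, Real.norm_of_nonneg hs0] at h2
  have := D.hνε
  have := D.ε_le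
  have := D.hεp
  have := D.ε_pos
  have h3 : 6 / 10 ≤ ‖a‖ := by linarith [hs.1]
  have h4 : ‖a‖ ≤ 1 - 3 * D.ε := by linarith [hs.2]
  have h5 : 3 * D.ε ≤ Real.sqrt (1 - ‖a‖ ^ 2) := by
    apply Real.le_sqrt_of_sq_le
    nlinarith
  unfold pr
  nlinarith

lemma g_le {a : ℂ} (h : ‖a‖ ^ 2 ≤ (1 + D.ν) / 2) : ‖D.g.eval a‖ ≤ 1 + D.ε := by
  have := norm_add_le (D.g.eval a - 1) 1
  rw [sub_add_cancel, norm_one] at this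
  linarith [(D.gdisc a h).1]

lemma le_g {a : ℂ} (h : ‖a‖ ^ 2 ≤ (1 + D.ν) / 2) : 1 - D.ε ≤ ‖D.g.eval a‖ := by
  have := norm_sub_le (D.g.eval a) (D.g.eval a - 1)
  rw [sub_sub_cancel, norm_one] at this
  linarith [(D.gdisc a h).1]

end Data

/-- a point of the surface with a bound L for all basic functions -/
structure Pt (D : Data) where
  ζ : ℂ
  l : ℂ
  q : C3
  L : ℝ
  hζ : ‖ζ‖ ≤ 1
  hl : l ≠ 0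
  hl0 : ζ = 0 → l = D.p
  hq : q ∈ XS D.p
  hu : uu D.p q = UU ζ l
  hv : vv D.p q = VV ζ l
  hz : q 2 = 4 * l ^ 6 * ζ
  hL : (1 + D.τ) ^ 4 ≤ L
  bN : ∀ ω ∈ D.net, ‖nk D.p ω q‖ ^ (2 * D.w) ≤ L
  bt : ∀ i, ‖D.tt i q‖ ≤ L
  b3 : ‖D.A.t3 q‖ ^ 2 ≤ L
  b0 : D.e * ‖q 0‖ ≤ L
  b1 : D.e * ‖q 1‖ ≤ L

namespace Pt

variable {D : Data} (P : Pt D)

noncomputable def n : ℝ := ‖P.l‖ ^ 6 * (1 + ‖P.ζ‖ ^ 2)
noncomputable def G : ℝ := D.Cg * (2 + P.n) ^ D.d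
noncomputable def r : ℝ := Real.sqrt (Real.sqrt P.L)
def Sig : Prop :=
  P.L ≤ ‖D.A.t3 P.q‖ ^ 4 ∨ P.L ≤ (D.e * ‖P.q 0‖) ^ 2 ∨ P.L ≤ (D.e * ‖P.q 1‖) ^ 2

lemma one_lt_L : 1 < P.L := (one_lt_pow₀ (by linarith [D.hτ]) (by norm_num)).trans_le P.hL
lemma n_nonneg : 0 ≤ P.n := by unfold n; positivity
lemma NN_eq : NN (uu D.p P.q) (vv D.p P.q) = 2 * P.n := by rw [P.hu, P.hv, NN_UV, n]
lemma norm_z : ‖P.q 2‖ = 4 * ‖P.l‖ ^ 6 * ‖P.ζ‖ := by rw [P.hz]; simp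
lemma tt_eq (i : Bool) : D.tt i P.q = D.t i (UU P.ζ P.l, VV P.ζ P.l) := by
  rw [Data.tt, P.hu, P.hv]
lemma l_pos : 0 < ‖P.l‖ := norm_pos_iff.2 P.hl
lemma a_sq : ‖P.l ^ 3‖ ^ 2 = ‖P.l‖ ^ 6 := by rw [norm_pow]; ring
lemma b_sq : ‖P.l ^ 3 * P.ζ‖ ^ 2 = ‖P.l‖ ^ 6 * ‖P.ζ‖ ^ 2 := by rw [norm_mul, norm_pow]; ring
lemma n_eq : P.n = ‖P.l ^ 3‖ ^ 2 + ‖P.l ^ 3 * P.ζ‖ ^ 2 := by rw [a_sq, b_sq, n]; ring
lemma b_le_a : ‖P.l ^ 3 * P.ζ‖ ≤ ‖P.l ^ 3‖ := by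
  rw [norm_mul]; exact mul_le_of_le_one_right (norm_nonneg _) P.hζ
lemma norm_z' : ‖P.q 2‖ = 4 * (‖P.l ^ 3‖ * ‖P.l ^ 3 * P.ζ‖) := by
  rw [norm_z, norm_mul, norm_pow]; ring
lemma b_sq_le : 2 * ‖P.l ^ 3 * P.ζ‖ ^ 2 ≤ P.n := by
  have := pow_le_pow_left₀ (norm_nonneg _) P.b_le_a 2
  rw [n_eq]; linarith
lemma n_le_two_mul : P.n ≤ 2 * ‖P.l‖ ^ 6 := by
  have := pow_le_pow_left₀ (norm_nonneg _) P.b_le_a 2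
  rw [n_eq, ← a_sq]; linarith
lemma z_le : ‖P.q 2‖ ≤ 2 * P.n := by rw [← NN_eq]; exact norm_z_le P.hq

lemma nk_le {ω : ℂ} (hω : ω ∈ D.net) : ‖nk D.p ω P.q‖ ≤ P.n := by
  have := norm_nk_le D.p (D.net1 ω hω) P.q
  rw [NN_eq] at this
  linarith

lemma u_le : ‖uu D.p P.q‖ ≤ 1 + P.n := by
  have h := P.NN_eq
  unfold NN at h
  have := pow_nonneg (norm_nonneg (vv D.p P.q)) 3
  nlinarith [sq_nonneg (‖uu D.p P.q‖ - 1)]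

lemma v_le : ‖vv D.p P.q‖ ≤ 1 + P.n := by
  have h := P.NN_eq
  unfold NN at h
  have h0 := P.n_nonneg
  apply le_of_pow_le_pow_left₀ (n := 3) (by norm_num) (by linarith)
  nlinarith [sq_nonneg ‖uu D.p P.q‖, pow_nonneg h0 2, pow_nonneg h0 3]

lemma xi_z : P.q 0 * P.q 2 = uu D.p P.q - ((D.p ^ 3 : ℝ) : ℂ) := by rw [uu]; push_cast; ring
lemma eta_z : P.q 1 * P.q 2 = vv D.p P.q - ((D.p ^ 2 : ℝ) : ℂ) := by rw [vv]; push_cast; ring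

lemma xi_z_le : ‖P.q 2‖ * ‖P.q 0‖ ≤ 2 + P.n := by
  rw [mul_comm, ← norm_mul, xi_z]
  refine (norm_sub_le _ _).trans ?_
  rw [Complex.norm_real, Real.norm_of_nonneg (pow_nonneg D.p_pos.le 3)]
  linarith [P.u_le, pow_le_one₀ (n := 3) D.p_pos.le D.hp1.le]

lemma eta_z_le : ‖P.q 2‖ * ‖P.q 1‖ ≤ 2 + P.n := by
  rw [mul_comm, ← norm_mul, eta_z]
  refine (norm_sub_le _ _).trans ?_
  rw [Complex.norm_real, Real.norm_of_nonneg (pow_nonneg D.p_pos.le 2)]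
  linarith [P.v_le, pow_le_one₀ (n := 2) D.p_pos.le D.hp1.le]

lemma z_t3 : P.q 2 * D.A.t3 P.q = 2 * (D.g.eval (P.l ^ 3) * D.g.eval (P.l ^ 3 * P.ζ)) := by
  rw [D.A.z_mul_t3, P.hu, P.hv, D.A.val]

lemma norm_z_t3 : ‖P.q 2‖ * ‖D.A.t3 P.q‖ =
    2 * (‖D.g.eval (P.l ^ 3)‖ * ‖D.g.eval (P.l ^ 3 * P.ζ)‖) := by
  rw [← norm_mul, z_t3]; simp

lemma a_le : ‖P.l ^ 3‖ ≤ 1 + P.n := by
  have := P.n_eq
  nlinarith [sq_nonneg (‖P.l ^ 3‖ - 1), sq_nonneg ‖P.l ^ 3 * P.ζ‖, P.n_nonneg]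

lemma gb : ‖2 * (D.g.eval (P.l ^ 3) * D.g.eval (P.l ^ 3 * P.ζ))‖ ≤ P.G ∧
    ‖6 * ((P.l ^ 3 * D.g.derivative.eval (P.l ^ 3)) * D.g.eval (P.l ^ 3 * P.ζ) +
      D.g.eval (P.l ^ 3) * (P.l ^ 3 * P.ζ * D.g.derivative.eval (P.l ^ 3 * P.ζ)))‖ ≤ P.G ∧
    3 * (2 + P.n) ≤ P.G :=
  D.gb _ _ _ P.n_nonneg P.a_le (P.b_le_a.trans P.a_le)

lemma G_pos : 0 < P.G := by linarith [P.gb.2.2, P.n_nonneg]

lemma r_pow : P.r ^ 4 = P.L := by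
  have h := P.one_lt_L
  rw [r, show 4 = 2 * 2 by norm_num, pow_mul, Real.sq_sqrt (Real.sqrt_nonneg _),
    Real.sq_sqrt (by linarith)]

lemma r_nonneg : 0 ≤ P.r := Real.sqrt_nonneg _

lemma le_r {c : ℝ} (h : c ^ 4 ≤ P.L) : c ≤ P.r := by
  rw [← r_pow] at h
  exact le_of_pow_le_pow_left₀ (by norm_num) P.r_nonneg h

lemma r_le {c : ℝ} (hc : 0 ≤ c) (h : P.L ≤ c ^ 4) : P.r ≤ c := by
  rw [← r_pow] at h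
  exact le_of_pow_le_pow_left₀ (by norm_num) hc h

lemma one_le_r : 1 ≤ P.r := P.le_r (by simpa using P.one_lt_L.le)

/-- a significant coordinate is large -/
lemma sig_coord {c : ℝ} (hc : 0 ≤ c) (h : P.L ≤ (D.e * c) ^ 2) :
    1 ≤ D.e * c ∧ 1 ≤ c ∧ P.r ≤ c := by
  have h1 := P.one_lt_L
  have he := D.e_pos
  have he1 : D.e ≤ 1 := by linarith [D.e_le, D.ε_le]
  have h2 : 1 ≤ D.e * c := by
    by_contra hc'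
    push Not at hc'
    have : (D.e * c) ^ 2 < 1 := pow_lt_one₀ (by positivity) hc' (by norm_num)
    linarith
  have h3 : D.e * c ≤ c := by nlinarith
  have h4 : 1 ≤ c := h2.trans h3
  refine ⟨h2, h4, P.r_le hc ?_⟩
  calc P.L ≤ (D.e * c) ^ 2 := h
    _ ≤ c ^ 2 := by gcongr
    _ ≤ c ^ 4 := pow_le_pow_right₀ h4 (by norm_num)

lemma sig_z (h : P.Sig) : ‖P.q 2‖ * P.r ≤ P.G := by
  have h0 := norm_nonneg (P.q 2)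
  have hn := P.n_nonneg
  rcases h with h | h | h
  · have h1 := P.r_le (norm_nonneg _) h
    have h2 := P.gb.1
    rw [← z_t3, norm_mul] at h2
    exact le_trans (by gcongr) h2
  · have h1 := (P.sig_coord (norm_nonneg _) h).2.2
    have := P.xi_z_le
    have : ‖P.q 2‖ * P.r ≤ ‖P.q 2‖ * ‖P.q 0‖ := by gcongr
    linarith [P.gb.2.2]
  · have h1 := (P.sig_coord (norm_nonneg _) h).2.2
    have := P.eta_z_le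
    have : ‖P.q 2‖ * P.r ≤ ‖P.q 2‖ * ‖P.q 1‖ := by gcongr
    linarith [P.gb.2.2]

lemma zoneH (h : 1 + D.ε₁ ≤ P.n) : P.n ^ D.w ≤ P.L := by
  obtain ⟨ω, hω, -, h2⟩ := D.net2 P.q
  rw [NN_eq] at h2
  have h3 : P.n ≤ ‖nk D.p ω P.q‖ ^ 2 := by linarith [h2 (by linarith)]
  calc P.n ^ D.w ≤ (‖nk D.p ω P.q‖ ^ 2) ^ D.w := pow_le_pow_left₀ P.n_nonneg h3 _
    _ = ‖nk D.p ω P.q‖ ^ (2 * D.w) := by rw [pow_mul]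
    _ ≤ P.L := P.bN ω hω

lemma zoneH_G (h : 1 + D.ε₁ ≤ P.n) : (4 * P.G) ^ 4 ≤ P.L := (D.hwG _ h).trans (P.zoneH h)

lemma zoneH_t (h : 1 + D.ε₁ ≤ P.n) (i : Bool) : ‖D.tt i P.q‖ ^ 2 < P.L := by
  have h1 : ‖D.tt i P.q‖ ≤ P.n ^ D.M' := by rw [tt_eq]; exact (D.tE _ _ P.hζ).2.1 i h
  have hn : 1 < P.n := by linarith [D.hε₁]
  calc ‖D.tt i P.q‖ ^ 2 ≤ (P.n ^ D.M') ^ 2 := by gcongr
    _ = P.n ^ (2 * D.M') := by ring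
    _ < P.n ^ D.w := pow_lt_pow_right₀ hn D.hw
    _ ≤ P.L := P.zoneH h

lemma zone1_t (h : ‖P.l‖ ^ 6 ≤ (1 + D.ν') / 2) (i : Bool) : ‖D.tt i P.q‖ ^ 2 < P.L := by
  have h1 : ‖D.tt i P.q‖ < 1 := by rw [tt_eq]; exact (D.tE _ _ P.hζ).1 i h
  exact (pow_lt_one₀ (norm_nonneg _) h1 (by norm_num)).trans P.one_lt_L

lemma n_le : P.n ≤ 2 * P.L := by
  obtain ⟨ω, hω, h1, -⟩ := D.net2 P.q
  rw [NN_eq] at h1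
  have h2 := P.bN ω hω
  have h3 := P.one_lt_L
  have : ‖nk D.p ω P.q‖ ≤ P.L := by
    by_contra hc
    push Not at hc
    have : ‖nk D.p ω P.q‖ ^ 1 ≤ ‖nk D.p ω P.q‖ ^ (2 * D.w) :=
      pow_le_pow_right₀ (by linarith) (by have := D.hw; omega)
    rw [pow_one] at this
    linarith
  linarith

lemma sigN {ω : ℂ} (h : P.L ≤ (‖nk D.p ω P.q‖ ^ (2 * D.w)) ^ 2) : 1 < ‖nk D.p ω P.q‖ := by
  by_contra hc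
  push Not at hc
  have : (‖nk D.p ω P.q‖ ^ (2 * D.w)) ^ 2 ≤ 1 :=
    pow_le_one₀ (by positivity) (pow_le_one₀ (norm_nonneg _) hc)
  linarith [P.one_lt_L]

lemma sigt {i : Bool} (h : P.L ≤ ‖D.tt i P.q‖ ^ 2) : 1 ≤ ‖D.tt i P.q‖ := by
  by_contra hc
  push Not at hc
  have := pow_lt_one₀ (norm_nonneg _) hc (show 2 ≠ 0 by norm_num)
  linarith [P.one_lt_L]

lemma b_disc (h : P.n ≤ 1 + D.ε₁) : ‖P.l ^ 3 * P.ζ‖ ^ 2 ≤ (1 + D.ν) / 2 := by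
  linarith [P.b_sq_le, D.hε₁', D.hν', D.hν]

lemma sig_cases (h : P.Sig) (hn : P.n ≤ 1 + D.ε₁) :
    1 + D.τ ≤ ‖D.A.t3 P.q‖ ∨ ‖P.q 2‖ ≤ 4 * D.e := by
  have h0 := norm_nonneg (P.q 2)
  have he := D.e_pos
  have hn2 : 2 + P.n ≤ 4 := by linarith [D.ε₁_le, D.ε_le]
  rcases h with h | h | h
  · exact Or.inl (le_of_pow_le_pow_left₀ (n := 4) (by norm_num) (norm_nonneg _) (P.hL.trans h))
  · right
    have h1 := (P.sig_coord (norm_nonneg _) h).1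
    have := P.xi_z_le
    nlinarith
  · right
    have h1 := (P.sig_coord (norm_nonneg _) h).1
    have := P.eta_z_le
    nlinarith

/-- in the good zone a significant pole term forces n at most 1 -/
lemma noN (h : P.Sig) (hn : P.n ≤ 1 + D.ε₁)
    (hz : ‖P.l‖ ^ 6 ≤ (1 + D.ν / 4) / 2 ∨ ∃ y ∈ Icc lr D.p, ‖P.l - y‖ ≤ D.ν / 4) : P.n ≤ 1 := by
  by_contra hc
  push Not at hc
  have hb := D.g_le (P.b_disc hn)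
  have hzt := P.norm_z_t3
  have hne := P.n_eq
  have hz' := P.norm_z'
  have hba := P.b_le_a
  have hε := D.ε_pos
  have hε1 := D.ε_le
  have hετ := D.hετ
  have hνε := D.hνε
  have hν := D.hν
  have he := D.e_le
  have hτ1 := D.hτ1
  have h0 := norm_nonneg (P.q 2)
  have hb0 := norm_nonneg (P.l ^ 3 * P.ζ)
  have ha0 : 0 < ‖P.l ^ 3‖ := norm_pos_iff.2 (pow_ne_zero _ P.hl)
  have hs := P.sig_cases h hn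
  rcases hz with hz | ⟨y, hy, hy1⟩
  · rw [← a_sq] at hz
    have ha := D.g_le (a := P.l ^ 3) (by linarith)
    have h1 : 2 - D.ε / 2 ≤ ‖P.q 2‖ := by nlinarith
    rcases hs with hs | hs
    · have h2 : ‖D.g.eval (P.l ^ 3)‖ * ‖D.g.eval (P.l ^ 3 * P.ζ)‖ ≤ (1 + D.ε) * (1 + D.ε) := by
        gcongr
      have h3 : (2 - D.ε / 2) * (1 + D.τ) ≤ ‖P.q 2‖ * ‖D.A.t3 P.q‖ := by
        gcongr
        linarith [D.hτ]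
      nlinarith
    · linarith
  · have hseg := D.seg_cube hy hy1
    obtain ⟨a1, a2, -⟩ := D.gseg _ hseg
    have a3 := D.pr_ge hseg
    have a4 : Real.sqrt (1 - ‖P.l ^ 3‖ ^ 2) ≤ ‖P.l ^ 3 * P.ζ‖ := by
      rw [Real.sqrt_le_iff]
      exact ⟨hb0, by linarith⟩
    have a5 : 2 * pr ‖P.l ^ 3‖ ≤ ‖P.q 2‖ := by
      rw [pr, hz']
      nlinarith
    rcases hs with hs | hs
    · have h2 : ‖D.g.eval (P.l ^ 3)‖ * ‖D.g.eval (P.l ^ 3 * P.ζ)‖ ≤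
          (1 + D.ε) * pr ‖P.l ^ 3‖ * (1 + D.ε) := by
        gcongr
        have : 0 ≤ pr ‖P.l ^ 3‖ := by linarith
        positivity
      have h3 : ‖P.q 2‖ * (1 + D.τ) ≤ ‖P.q 2‖ * ‖D.A.t3 P.q‖ := by gcongr
      have h4 : 2 * pr ‖P.l ^ 3‖ * ((1 + D.ε) * (1 + D.ε)) ≤ ‖P.q 2‖ * ((1 + D.ε) * (1 + D.ε)) := by
        gcongr
      have h5 : 0 < ‖P.q 2‖ := by linarith
      have h6 : ‖P.q 2‖ * (1 + D.τ) ≤ ‖P.q 2‖ * ((1 + D.ε) * (1 + D.ε)) := by nlinarith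
      have h7 := le_of_mul_le_mul_left h6 h5
      nlinarith
    · linarith

/-! the field Z -/

lemma Z_t3 (hζ : ‖P.ζ‖ < 1) (hb : ‖P.l ^ 3 * P.ζ‖ ^ 2 ≤ (1 + D.ν) / 2) :
    ‖fderiv ℂ D.A.t3 P.q (ZZ P.ζ P.l P.q) - D.A.t3 P.q‖ ≤ ‖D.A.t3 P.q‖ / 2 := by
  by_cases h0 : P.ζ = 0
  · have hz : P.q 2 = 0 := by rw [P.hz, h0, mul_zero]
    rw [h0, P.hl0 h0, D.A.t3_ZZ_zero D.p_pos D.g0 hz, sub_self, norm_zero]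
    positivity
  · have hz : 0 < ‖P.q 2‖ := by
      rw [norm_z]
      have := P.l_pos
      have := norm_pos_iff.2 h0
      positivity
    have h1 := congrArg norm (D.A.t3_ZZ P.hl hζ P.hu P.hv P.hz)
    rw [norm_mul, norm_mul, norm_mul] at h1
    have h2 := (D.gdisc _ hb).2
    have h3 := D.le_g hb
    have h4 := P.norm_z_t3
    have h5 := norm_nonneg (D.g.eval (P.l ^ 3))
    simp only [norm_neg, Complex.norm_ofNat] at h1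
    apply le_of_mul_le_mul_left _ hz
    have h6 : ‖P.l ^ 3 * P.ζ * D.g.derivative.eval (P.l ^ 3 * P.ζ)‖ ≤
        ‖D.g.eval (P.l ^ 3 * P.ζ)‖ / 2 := by linarith [D.ε_le]
    nlinarith

lemma Z_xi (hl : 1 / 3 ≤ ‖P.l‖ ^ 6) : ‖1 / (4 * P.l ^ 3)‖ ≤ 1 / 2 := by
  have h1 : 1 / 2 ≤ ‖P.l ^ 3‖ := by
    apply le_of_pow_le_pow_left₀ (n := 2) (by norm_num) (norm_nonneg _)
    rw [a_sq]; linarith
  rw [norm_div, norm_one, norm_mul, Complex.norm_ofNat]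
  apply one_div_le_one_div_of_le (by norm_num)
  linarith

lemma Z_eta (hl : 1 / 3 ≤ ‖P.l‖ ^ 6) (hζ : ‖P.ζ‖ ≤ 1 - D.e) :
    ‖1 / (6 * P.l ^ 4 * rho P.ζ)‖ ≤ 1 / (2 * D.e) := by
  have he := D.e_pos
  have he1 : D.e ≤ 1 := by linarith [D.e_le, D.ε_le]
  have h1 : 1 / 3 ≤ ‖P.l‖ ^ 4 := by
    rcases le_total ‖P.l‖ 1 with h | h
    · exact hl.trans (pow_le_pow_of_le_one (norm_nonneg _) h (by norm_num))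
    · linarith [one_le_pow₀ (n := 4) h]
  have h2 : D.e ≤ ‖rho P.ζ‖ := by
    apply le_of_pow_le_pow_left₀ (n := 3) (by norm_num) (norm_nonneg _)
    rw [norm_rho_cube]
    have a1 := norm_sub_norm_le (1:ℂ) P.ζ
    rw [norm_one] at a1
    have a2 : D.e ^ 3 ≤ D.e ^ 1 := pow_le_pow_of_le_one he.le he1 (by norm_num)
    linarith
  rw [norm_div, norm_one, norm_mul, norm_mul, Complex.norm_ofNat, norm_pow]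
  apply one_div_le_one_div_of_le (by positivity)
  nlinarith

lemma one_le_A0 : 4 ≤ D.A0 := by
  have := D.e_pos
  have := D.hd0
  unfold Data.A0
  have : 0 ≤ 1 / D.e := by positivity
  have : 0 ≤ 1 / (D.e * D.d0) := by positivity
  linarith

lemma four_L_le : 4 * P.L ≤ D.A0 * P.L :=
  mul_le_mul_of_nonneg_right (one_le_A0 (D := D)) (by linarith [P.one_lt_L])

lemma L_div_le : P.L / D.e ≤ D.A0 * P.L := by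
  have := D.e_pos
  have := D.hd0
  have h1 := P.one_lt_L
  have : 0 ≤ 1 / (D.e * D.d0) := by positivity
  rw [div_eq_mul_one_div, mul_comm]
  unfold Data.A0
  nlinarith

lemma norm_q_le : ‖P.q‖ ≤ D.A0 * P.L := by
  have he := D.e_pos
  have h1 := P.one_lt_L
  have h4 := P.four_L_le
  rw [pi_norm_le_iff_of_nonneg (by linarith)]
  intro i
  fin_cases i
  · change ‖P.q 0‖ ≤ _
    refine le_trans ?_ P.L_div_le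
    rw [le_div_iff₀ he]; linarith [P.b0]
  · change ‖P.q 1‖ ≤ _
    refine le_trans ?_ P.L_div_le
    rw [le_div_iff₀ he]; linarith [P.b1]
  · change ‖P.q 2‖ ≤ _
    linarith [P.z_le, P.n_le]

lemma norm_ZZ_le (hl : 1 / 3 ≤ ‖P.l‖ ^ 6) (hζ : ‖P.ζ‖ ≤ 1 - D.e) :
    ‖ZZ P.ζ P.l P.q‖ ≤ 2 * (D.A0 * P.L) := by
  have he := D.e_pos
  have h1 := P.one_lt_L
  have h4 := P.four_L_le
  have hq := P.norm_q_le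
  rw [pi_norm_le_iff_of_nonneg (by linarith)]
  intro i
  fin_cases i
  · change ‖ZZ P.ζ P.l P.q 0‖ ≤ _
    rw [ZZ_zero]
    linarith [norm_sub_le (P.q 0) (1 / (4 * P.l ^ 3)), P.Z_xi hl, norm_le_pi_norm P.q 0]
  · change ‖ZZ P.ζ P.l P.q 1‖ ≤ _
    rw [ZZ_one]
    have a1 : 1 / (2 * D.e) ≤ P.L / D.e := by
      rw [div_le_div_iff₀ (by positivity) he]; nlinarith
    linarith [norm_add_le (P.q 1) (1 / (6 * P.l ^ 4 * rho P.ζ)), P.Z_eta hl hζ,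
      norm_le_pi_norm P.q 1, P.L_div_le]
  · change ‖ZZ P.ζ P.l P.q 2‖ ≤ _
    rw [ZZ_two, norm_neg]
    linarith [norm_le_pi_norm P.q 2]

lemma Z_xi' (hl : 1 / 3 ≤ ‖P.l‖ ^ 6) (h : P.L ≤ (D.e * ‖P.q 0‖) ^ 2) :
    ‖ZZ P.ζ P.l P.q 0 - P.q 0‖ ≤ ‖P.q 0‖ / 2 := by
  rw [ZZ_zero, sub_sub_cancel_left, norm_neg]
  linarith [P.Z_xi hl, (P.sig_coord (norm_nonneg _) h).2.1]

lemma Z_eta' (hl : 1 / 3 ≤ ‖P.l‖ ^ 6) (hζ : ‖P.ζ‖ ≤ 1 - D.e) (h : P.L ≤ (D.e * ‖P.q 1‖) ^ 2) :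
    ‖ZZ P.ζ P.l P.q 1 - P.q 1‖ ≤ ‖P.q 1‖ / 2 := by
  rw [ZZ_one, add_sub_cancel_left]
  refine (P.Z_eta hl hζ).trans ?_
  have he := D.e_pos
  have := (P.sig_coord (norm_nonneg _) h).1
  rw [div_le_div_iff₀ (by positivity) (by norm_num)]
  nlinarith

end Pt

end Pool.Agent.P.MP_e5acfa_ag.PkgG
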