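import Pool.Agent.P.MP_e5acfa_ag.G3

open Complex Set

namespace Pool.Agent.P.MP_e5acfa_ag.PkgG

lemma pos3 {π dE dZ z : ℂ} {G r C : ℝ} (hz : z ≠ 0) (hr : 0 < r) (hG : 0 ≤ G)
    (h1 : ‖z * (dE + 6 * π)‖ ≤ G) (h2 : ‖dZ - π‖ ≤ ‖π‖ / 2) (h3 : r ≤ ‖π‖)
    (hC : C = 14 + 2 * G / (‖z‖ * r)) : Pos 1 (dE + C * dZ) π := by
  have hz0 : 0 < ‖z‖ := norm_pos_iff.2 hz
  have hC0 : 0 ≤ C := by rw [hC]; positivity
  apply pos_of_near (c := C - 6)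
  have e : dE + C * dZ - ((C - 6 : ℝ) : ℂ) * π = (dE + 6 * π) + C * (dZ - π) := by
    push_cast; ring
  rw [e]
  refine (norm_add_le _ _).trans ?_
  rw [norm_mul, Complex.norm_real, Real.norm_of_nonneg hC0]
  have a1 : ‖dE + 6 * π‖ ≤ G / (‖z‖ * r) * ‖π‖ := by
    rw [norm_mul] at h1
    calc ‖dE + 6 * π‖ ≤ G / ‖z‖ := by rw [le_div_iff₀ hz0]; linarith
      _ = G / (‖z‖ * r) * r := by field_simp
      _ ≤ _ := by gcongr
  have a2 : C * ‖dZ - π‖ ≤ C * (‖π‖ / 2) := by gcongr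
  have a3 : G / (‖z‖ * r) = (C - 14) / 2 := by rw [hC]; ring
  rw [a3] at a1
  linarith

namespace Pt

variable {D : Data} (P : Pt D)

/-- a tangent vector along which all significant terms grow -/
structure Good (W : C3) : Prop where
  tan : dPX D.p P.q W = 0
  nrm : ‖W‖ ≤ 41 * D.Cg * (D.A0 * P.L) ^ (D.d + 2)
  hN : ∀ ω ∈ D.net, P.L ≤ (‖nk D.p ω P.q‖ ^ (2 * D.w)) ^ 2 →
    Pos D.κ' (fderiv ℂ (nk D.p ω) P.q W) (nk D.p ω P.q)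
  ht : ∀ i, P.L ≤ ‖D.tt i P.q‖ ^ 2 → Pos D.κ' (fderiv ℂ (D.tt i) P.q W) (D.tt i P.q)
  h3 : P.L ≤ ‖D.A.t3 P.q‖ ^ 4 → Pos D.κ' (fderiv ℂ D.A.t3 P.q W) (D.A.t3 P.q)
  h0 : P.L ≤ (D.e * ‖P.q 0‖) ^ 2 → Pos D.κ' (W 0) (P.q 0)
  h1 : P.L ≤ (D.e * ‖P.q 1‖) ^ 2 → Pos D.κ' (W 1) (P.q 1)

lemma four_le_A : 4 ≤ D.A0 * P.L := by linarith [P.four_L_le, P.one_lt_L]

lemma sq_le_pow : (D.A0 * P.L) ^ 2 ≤ D.Cg * (D.A0 * P.L) ^ (D.d + 2) := by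
  have h := P.four_le_A
  have h1 : (D.A0 * P.L) ^ 2 ≤ (D.A0 * P.L) ^ (D.d + 2) :=
    pow_le_pow_right₀ (by linarith) (by omega)
  have h2 : 0 ≤ (D.A0 * P.L) ^ (D.d + 2) := by positivity
  nlinarith [D.hCg]

lemma half {a b : ℂ} (h : ‖a - b‖ ≤ ‖b‖ / 2) : Pos D.κ' a b := by
  refine Pos.mono (pos_of_near (c := 1) (κ := 1 / 2) ?_) D.κ'_le
  simp only [ofReal_one, one_mul]
  linarith

lemma case0 (hu : ‖uu D.p P.q - (D.p:ℂ) ^ 3‖ < D.d0) (hv : ‖vv D.p P.q - (D.p:ℂ) ^ 2‖ < D.d0) :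
    P.Good (ZZ P.ζ P.l P.q) := by
  obtain ⟨a1, a2, a3, a4⟩ := D.near _ _ hu hv
  rw [P.NN_eq] at a1 a2
  rw [← z_eq P.hq] at a3
  have hl : 1 / 3 ≤ ‖P.l‖ ^ 6 := by linarith [P.n_le_two_mul]
  have hζ : ‖P.ζ‖ ≤ 1 / 2 := by
    rw [P.norm_z] at a3
    nlinarith [norm_nonneg P.ζ]
  have hζ' : ‖P.ζ‖ ≤ 1 - D.e := by linarith [D.e_le, D.ε_le]
  have hζ1 : ‖P.ζ‖ < 1 := by linarith
  have hb := P.b_disc (by linarith [D.hε₁])
  have hA := P.four_le_A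
  refine ⟨dPX_ZZ P.hq P.hl (by intro h; rw [h] at hζ1; simp at hζ1) P.hu P.hv, ?_, ?_, ?_, ?_, ?_, ?_⟩
  · have := P.norm_ZZ_le hl hζ'
    have := P.sq_le_pow
    nlinarith
  · intro ω hω h
    linarith [P.sigN h, P.nk_le hω]
  · intro i h
    have := a4 i
    have h2 := P.sigt h
    unfold Data.tt at h2
    linarith
  · exact fun _ => half (P.Z_t3 hζ1 hb)
  · exact fun h => half (P.Z_xi' hl h)
  · exact fun h => half (P.Z_eta' hl hζ' h)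

/-- away from the blown up point -/
def Far : Prop := ¬ (‖uu D.p P.q - (D.p:ℂ) ^ 3‖ < D.d0 ∧ ‖vv D.p P.q - (D.p:ℂ) ^ 2‖ < D.d0)

lemma far_z (h : P.Far) : 1 ≤ ‖P.q 2‖ * (D.A0 * P.L) := by
  have he := D.e_pos
  have hd := D.hd0
  have hL := P.one_lt_L
  have h0 := norm_nonneg (P.q 2)
  have h1 : D.e * D.d0 ≤ ‖P.q 2‖ * P.L := by
    unfold Far at h
    rw [not_and_or] at h
    rcases h with h | h
    · have e : uu D.p P.q - (D.p:ℂ) ^ 3 = P.q 0 * P.q 2 := by rw [uu]; ring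
      rw [e, norm_mul, not_lt] at h
      have := P.b0
      nlinarith
    · have e : vv D.p P.q - (D.p:ℂ) ^ 2 = P.q 1 * P.q 2 := by rw [vv]; ring
      rw [e, norm_mul, not_lt] at h
      have := P.b1
      nlinarith
  have h2 : 1 / (D.e * D.d0) ≤ D.A0 := by
    unfold Data.A0
    have : 0 ≤ 1 / D.e := by positivity
    linarith
  have h3 : 1 ≤ ‖P.q 2‖ * P.L * (1 / (D.e * D.d0)) := by
    rw [mul_one_div, le_div_iff₀ (by positivity)]; linarith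
  calc (1:ℝ) ≤ ‖P.q 2‖ * P.L * (1 / (D.e * D.d0)) := h3
    _ ≤ ‖P.q 2‖ * P.L * D.A0 := by gcongr
    _ = _ := by ring

lemma far_ne (h : P.Far) : P.q 2 ≠ 0 := by
  intro h0
  have := P.far_z h
  rw [h0, norm_zero, zero_mul] at this
  linarith

lemma two_add_n_le : 2 + P.n ≤ D.A0 * P.L := by
  linarith [P.n_le, P.four_L_le, P.one_lt_L]

lemma norm_EE_le (h : P.Far) : ‖EE D.p P.q‖ ≤ 9 * (D.A0 * P.L) ^ 2 := by
  have hA := P.four_le_A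
  have hq := P.norm_q_le
  have hz := P.far_z h
  have hz0 : 0 < ‖P.q 2‖ := norm_pos_iff.2 (P.far_ne h)
  have hn := P.two_add_n_le
  have key : ∀ (a c : ℂ) (k : ℂ), ‖a‖ ≤ D.A0 * P.L → ‖c‖ ≤ D.A0 * P.L → ‖k‖ ≤ 3 →
      ‖k * a / P.q 2 - 6 * c‖ ≤ 9 * (D.A0 * P.L) ^ 2 := by
    intro a c k ha hc hk
    refine (norm_sub_le _ _).trans ?_
    rw [norm_div, norm_mul, norm_mul, Complex.norm_ofNat]
    have a1 : ‖k‖ * ‖a‖ / ‖P.q 2‖ ≤ 3 * (D.A0 * P.L) ^ 2 := by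
      rw [div_le_iff₀ hz0]
      calc ‖k‖ * ‖a‖ ≤ 3 * (D.A0 * P.L) * 1 := by rw [mul_one]; gcongr
        _ ≤ 3 * (D.A0 * P.L) * (‖P.q 2‖ * (D.A0 * P.L)) := by gcongr
        _ = _ := by ring
    nlinarith
  rw [pi_norm_le_iff_of_nonneg (by positivity)]
  intro i
  fin_cases i
  · exact key _ _ 3 (by linarith [P.u_le]) ((norm_le_pi_norm P.q 0).trans hq) (by simp)
  · exact key _ _ 2 (by linarith [P.v_le]) ((norm_le_pi_norm P.q 1).trans hq) (by simp; norm_num)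
  · change ‖EE D.p P.q 2‖ ≤ _
    rw [EE_two, norm_mul, Complex.norm_ofNat]
    nlinarith [norm_le_pi_norm P.q 2]

lemma tt_EE (hz : P.q 2 ≠ 0) (i : Bool) : fderiv ℂ (D.tt i) P.q (EE D.p P.q) =
    fderiv ℂ (D.t i) (UU P.ζ P.l, VV P.ζ P.l) (3 * UU P.ζ P.l, 2 * VV P.ζ P.l) := by
  have := t_EE (D.tpoly i) (p := D.p) hz
  rw [P.hu, P.hv] at this
  exact this

lemma tt_ZZ (hζ : P.ζ ≠ 1) (i : Bool) : fderiv ℂ (D.tt i) P.q (ZZ P.ζ P.l P.q) =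
    -P.ζ * fderiv ℂ (D.t i) (UU P.ζ P.l, VV P.ζ P.l) (P.l ^ 3, -(2 * P.l ^ 2) / (3 * rho P.ζ)) := by
  have := t_ZZ (D.tpoly i) (p := D.p) P.hl hζ P.hz
  rw [P.hu, P.hv] at this
  exact this

lemma sigt_zone {i : Bool} (h : P.L ≤ ‖D.tt i P.q‖ ^ 2) :
    (1 + D.ν') / 2 ≤ ‖P.l‖ ^ 6 ∧ P.n ≤ 1 + D.ε₁ := by
  constructor
  · by_contra hc
    linarith [P.zone1_t (not_le.1 hc).le i]
  · by_contra hc
    linarith [P.zoneH_t (not_le.1 hc).le i]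

lemma sigt_E {i : Bool} (h : P.L ≤ ‖D.tt i P.q‖ ^ 2) :
    Pos (2 * D.κ) (fderiv ℂ (D.t i) (UU P.ζ P.l, VV P.ζ P.l) (3 * UU P.ζ P.l, 2 * VV P.ζ P.l))
      (D.tt i P.q) ∧
    D.B * ‖fderiv ℂ (D.t i) (UU P.ζ P.l, VV P.ζ P.l) (P.l ^ 3, -(2 * P.l ^ 2) / (3 * rho P.ζ))‖ ≤
      D.κ * ‖D.tt i P.q‖ := by
  have h1 := P.sigt h
  obtain ⟨h2, h3⟩ := P.sigt_zone h
  rw [P.tt_eq] at h1 ⊢
  exact ((D.tE _ _ P.hζ).2.2 h2 h3).1 i h1

lemma case1 (h : P.Far) (hs : ¬ P.Sig) : P.Good (EE D.p P.q) := by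
  have hz := P.far_ne h
  unfold Sig at hs
  push Not at hs
  refine ⟨dPX_EE P.hq hz, ?_, ?_, ?_, fun h => absurd h (not_le.2 hs.1),
    fun h => absurd h (not_le.2 hs.2.1), fun h => absurd h (not_le.2 hs.2.2)⟩
  · have := P.norm_EE_le h
    have := P.sq_le_pow
    nlinarith [sq_nonneg (D.A0 * P.L)]
  · intro ω _ _
    rw [nk_EE ω hz]
    exact Pos.mono (by simpa using pos_self 6 (nk D.p ω P.q)) (by linarith [D.κ'_le])
  · intro i hi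
    rw [P.tt_EE hz]
    exact (P.sigt_E hi).1.mono (by linarith [D.κ'_le', D.hκ])

lemma case2 (h : P.Far) (hs : P.Sig) (hn : P.n ≤ 1 + D.ε₁) (hl : ‖P.l‖ ^ 6 ≤ (1 + D.ν') / 2) :
    P.Good (-EE D.p P.q) := by
  have hz := P.far_ne h
  have hz0 : 0 < ‖P.q 2‖ := norm_pos_iff.2 hz
  have hε := D.ε_pos
  have hε1 := D.ε_le
  have hν' := D.hν'
  have hνε := D.hνε
  have hν := D.hν
  have hab : ‖P.q 2‖ ≤ 4 * D.e → ‖P.l ^ 3‖ + ‖P.l ^ 3 * P.ζ‖ ≤ D.p ^ 3 := by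
    intro h4
    have a1 : ‖P.l ^ 3‖ ≤ 71 / 100 := by
      apply le_of_pow_le_pow_left₀ (n := 2) (by norm_num) (by norm_num)
      rw [P.a_sq]; linarith
    have a2 : ‖P.l ^ 3 * P.ζ‖ ≤ 1 / 100 := by
      apply le_of_pow_le_pow_left₀ (n := 2) (by norm_num) (by norm_num)
      have := P.norm_z'
      have := P.b_le_a
      have := D.e_le
      nlinarith [norm_nonneg (P.l ^ 3 * P.ζ)]
    linarith [D.p3_ge]
  have hn2 : 2 + P.n ≤ 4 := by linarith [D.ε₁_le]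
  refine ⟨?_, ?_, ?_, ?_, ?_, ?_, ?_⟩
  · have := dPX_comb D.p P.q (EE D.p P.q) 0 (-1) 0
    rw [dPX_EE P.hq hz] at this
    simpa using this
  · rw [norm_neg]
    have := P.norm_EE_le h
    have := P.sq_le_pow
    nlinarith [sq_nonneg (D.A0 * P.L)]
  · intro ω hω hN
    have := P.noN hs hn (Or.inl (by linarith))
    linarith [P.sigN hN, P.nk_le hω]
  · intro i hi
    linarith [P.zone1_t hl i]
  · intro _
    have ha : ‖P.l ^ 3‖ ^ 2 ≤ (1 + D.ν) / 2 := by rw [P.a_sq]; linarith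
    have hb := P.b_disc hn
    have a1 := D.A.t3_EE hz P.hu P.hv
    have a2 : ‖P.q 2 * (fderiv ℂ D.A.t3 P.q (EE D.p P.q) + 6 * D.A.t3 P.q)‖ ≤ 1 := by
      rw [a1, norm_mul, Complex.norm_ofNat]
      have b1 := norm_add_le ((P.l ^ 3 * D.g.derivative.eval (P.l ^ 3)) * D.g.eval (P.l ^ 3 * P.ζ))
        (D.g.eval (P.l ^ 3) * (P.l ^ 3 * P.ζ * D.g.derivative.eval (P.l ^ 3 * P.ζ)))
      rw [norm_mul, norm_mul (D.g.eval (P.l ^ 3))] at b1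
      have b2 : ‖P.l ^ 3 * D.g.derivative.eval (P.l ^ 3)‖ * ‖D.g.eval (P.l ^ 3 * P.ζ)‖ ≤
          D.ε * (1 + D.ε) :=
        mul_le_mul (D.gdisc _ ha).2 (D.g_le hb) (norm_nonneg _) hε.le
      have b3 : ‖D.g.eval (P.l ^ 3)‖ * ‖P.l ^ 3 * P.ζ * D.g.derivative.eval (P.l ^ 3 * P.ζ)‖ ≤
          (1 + D.ε) * D.ε :=
        mul_le_mul (D.g_le ha) (D.gdisc _ hb).2 (norm_nonneg _) (by linarith)
      nlinarith
    have a3 : 1 ≤ ‖P.q 2‖ * ‖D.A.t3 P.q‖ := by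
      rw [P.norm_z_t3]
      have : (1 - D.ε) * (1 - D.ε) ≤ ‖D.g.eval (P.l ^ 3)‖ * ‖D.g.eval (P.l ^ 3 * P.ζ)‖ :=
        mul_le_mul (D.le_g ha) (D.le_g hb) (by linarith) (norm_nonneg _)
      nlinarith
    rw [norm_mul] at a2
    have a4 := le_of_mul_le_mul_left (a2.trans a3) hz0
    refine Pos.mono (pos_of_near (c := 6) (κ := 5) ?_) (by linarith [D.κ'_le])
    have e : fderiv ℂ D.A.t3 P.q (-EE D.p P.q) - ((6:ℝ):ℂ) * D.A.t3 P.q =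
        -(fderiv ℂ D.A.t3 P.q (EE D.p P.q) + 6 * D.A.t3 P.q) := by
      rw [map_neg]; push_cast; ring
    rw [e, norm_neg]
    linarith
  · intro h0
    have a1 := (P.sig_coord (norm_nonneg _) h0).1
    have a2 : ‖P.q 2‖ ≤ 4 * D.e := by
      have := P.xi_z_le
      have := D.e_pos
      nlinarith
    have a3 : ‖uu D.p P.q‖ ≤ D.p ^ 3 := by
      refine le_trans ?_ (hab a2)
      rw [P.hu, UU, mul_add, mul_one]
      exact norm_add_le _ _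
    have := pos_inward (k := 3) hz P.xi_z a3 (by norm_num) le_rfl
    refine Pos.mono ?_ (D.κ'_le.trans (by norm_num : (1 / 2 : ℝ) ≤ 1))
    rw [Pi.neg_apply, EE_zero]
    simpa using this
  · intro h0
    have a1 := (P.sig_coord (norm_nonneg _) h0).1
    have a2 : ‖P.q 2‖ ≤ 4 * D.e := by
      have := P.eta_z_le
      have := D.e_pos
      nlinarith
    have a3 : ‖vv D.p P.q‖ ≤ D.p ^ 2 := by
      apply le_of_pow_le_pow_left₀ (n := 3) (by norm_num) (by positivity)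
      have b1 : ‖vv D.p P.q‖ ^ 3 = ‖P.l ^ 3 - P.l ^ 3 * P.ζ‖ ^ 2 := by
        rw [← norm_pow, ← norm_pow, P.hv, VV]
        congr 1
        have := rho_cube P.ζ
        linear_combination (P.l ^ 6 * (rho P.ζ ^ 3 + 1 - P.ζ)) * this
      have b2 := (norm_sub_le (P.l ^ 3) (P.l ^ 3 * P.ζ)).trans (hab a2)
      rw [b1]
      calc ‖P.l ^ 3 - P.l ^ 3 * P.ζ‖ ^ 2 ≤ (D.p ^ 3) ^ 2 := by gcongr
        _ = _ := by ring
    have := pos_inward (k := 2) hz P.eta_z a3 (by norm_num) (by norm_num)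
    refine Pos.mono ?_ (D.κ'_le.trans (by norm_num : (1 / 2 : ℝ) ≤ 1))
    rw [Pi.neg_apply, EE_one]
    simpa using this

lemma G_le (hn : P.n ≤ 1 + D.ε₁) : P.G ≤ D.Cg * 4 ^ D.d := by
  unfold G
  have := P.n_nonneg
  have := D.hCg
  gcongr
  linarith [D.ε₁_le, D.ε_le]

lemma z_small (hs : P.Sig) (h : (4 * P.G) ^ 4 ≤ P.L) : 4 * P.G ≤ P.r ∧ ‖P.q 2‖ ≤ 1 / 4 := by
  have h1 := P.le_r h
  refine ⟨h1, ?_⟩
  have h2 := P.sig_z hs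
  have h3 := P.one_le_r
  by_contra hc
  push Not at hc
  nlinarith

lemma case3 (h : P.Far) (hs : P.Sig) (hc : ¬ (P.n ≤ 1 + D.ε₁ ∧ ‖P.l‖ ^ 6 ≤ (1 + D.ν') / 2)) :
    ∃ W, P.Good W := by
  have hz := P.far_ne h
  have hz0 : 0 < ‖P.q 2‖ := norm_pos_iff.2 hz
  have hr := P.one_le_r
  have hG := P.G_pos
  have hε := D.ε_pos
  have hε1 := D.ε_le
  have hν' := D.ν'_pos
  have hζ0 := norm_nonneg P.ζ
  obtain ⟨C, hC⟩ : ∃ C : ℝ, C = 14 + 2 * P.G / (‖P.q 2‖ * P.r) := ⟨_, rfl⟩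
  have hC0 : 0 ≤ C := by rw [hC]; positivity
  have hgeo : 1 / 2 ≤ ‖P.l‖ ^ 6 ∧ ‖P.ζ‖ ≤ 1 - D.e ∧ ‖P.l ^ 3 * P.ζ‖ ^ 2 ≤ (1 + D.ν) / 2 := by
    by_cases hn : P.n ≤ 1 + D.ε₁
    · have hl : (1 + D.ν') / 2 < ‖P.l‖ ^ 6 := not_le.1 fun h' => hc ⟨hn, h'⟩
      refine ⟨by linarith, ?_, P.b_disc hn⟩
      have a1 : (1 + D.ν') / 2 * (1 + ‖P.ζ‖ ^ 2) ≤ 1 + D.ν' / 4 := by
        have : (1 + D.ν') / 2 * (1 + ‖P.ζ‖ ^ 2) ≤ P.n := by unfold n; gcongr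
        linarith [D.hε₁']
      apply le_of_pow_le_pow_left₀ (n := 2) (by norm_num) (by linarith [D.e_le])
      unfold Data.e
      nlinarith [mul_nonneg hν'.le (sq_nonneg ‖P.ζ‖), sq_nonneg D.ν']
    · have hn' := (not_le.1 hn).le
      have a1 := (P.z_small hs (P.zoneH_G hn')).2
      have a2 : 1 / 2 ≤ ‖P.l‖ ^ 6 := by linarith [P.n_le_two_mul, D.hε₁]
      refine ⟨a2, ?_, ?_⟩
      · rw [P.norm_z] at a1
        have : ‖P.ζ‖ ≤ 1 / 8 := by nlinarith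
        linarith [D.e_le]
      · have := P.norm_z'
        have := P.b_le_a
        nlinarith [norm_nonneg (P.l ^ 3 * P.ζ), D.hν]
  obtain ⟨hl, hζ, hb⟩ := hgeo
  have hl3 : 1 / 3 ≤ ‖P.l‖ ^ 6 := by linarith
  have hζ1 : ‖P.ζ‖ < 1 := by linarith [D.e_pos]
  have hζ2 : P.ζ ≠ 1 := by intro h; rw [h] at hζ1; simp at hζ1
  have hlin : ∀ f : C3 → ℂ, fderiv ℂ f P.q (EE D.p P.q + (C:ℂ) • ZZ P.ζ P.l P.q) =
      fderiv ℂ f P.q (EE D.p P.q) + C * fderiv ℂ f P.q (ZZ P.ζ P.l P.q) := by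
    intro f
    rw [map_add, map_smul, smul_eq_mul]
  have hk1 : D.κ' ≤ 1 := D.κ'_le.trans (by norm_num)
  refine ⟨EE D.p P.q + (C:ℂ) • ZZ P.ζ P.l P.q, ?_, ?_, ?_, ?_, ?_, ?_, ?_⟩
  · have := dPX_comb D.p P.q (EE D.p P.q) (ZZ P.ζ P.l P.q) 1 C
    rw [dPX_EE P.hq hz, dPX_ZZ P.hq P.hl hζ2 P.hu P.hv] at this
    simpa using this
  · have hA := P.four_le_A
    have a1 := P.norm_EE_le h
    have a2 := P.norm_ZZ_le hl3 hζ
    have a3 := P.sq_le_pow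
    have hCg := D.hCg
    have a4 : P.G ≤ D.Cg * (D.A0 * P.L) ^ D.d := by
      unfold G
      have := P.n_nonneg
      gcongr
      exact P.two_add_n_le
    have a5 : 2 * P.G / (‖P.q 2‖ * P.r) ≤ 2 * (D.Cg * (D.A0 * P.L) ^ (D.d + 1)) := by
      rw [div_le_iff₀ (by positivity)]
      calc 2 * P.G ≤ 2 * (D.Cg * (D.A0 * P.L) ^ D.d) * 1 * 1 := by linarith
        _ ≤ 2 * (D.Cg * (D.A0 * P.L) ^ D.d) * (‖P.q 2‖ * (D.A0 * P.L)) * P.r := by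
          gcongr
          exact P.far_z h
        _ = _ := by ring
    have a6 : 1 ≤ D.Cg * (D.A0 * P.L) ^ (D.d + 1) :=
      one_le_mul_of_one_le_of_one_le hCg (one_le_pow₀ (by linarith))
    have a7 : C ≤ 16 * (D.Cg * (D.A0 * P.L) ^ (D.d + 1)) := by rw [hC]; linarith
    refine (norm_add_le _ _).trans ?_
    rw [norm_smul, Complex.norm_real, Real.norm_of_nonneg hC0]
    have a8 : C * ‖ZZ P.ζ P.l P.q‖ ≤ 16 * (D.Cg * (D.A0 * P.L) ^ (D.d + 1)) * (2 * (D.A0 * P.L)) := by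
      gcongr
    have a9 : 16 * (D.Cg * (D.A0 * P.L) ^ (D.d + 1)) * (2 * (D.A0 * P.L)) =
        32 * (D.Cg * (D.A0 * P.L) ^ (D.d + 2)) := by ring
    linarith
  · intro ω hω hN
    have a1 := P.sigN hN
    have a2 : 1 < P.n := a1.trans_le (P.nk_le hω)
    have a3 : (4 * P.G) ^ 4 ≤ P.L := by
      by_cases hn : P.n ≤ 1 + D.ε₁
      · have hl' : (1 + D.ν') / 2 < ‖P.l‖ ^ 6 := not_le.1 fun h' => hc ⟨hn, h'⟩
        by_cases hB : ∀ i, ‖D.tt i P.q‖ ≤ D.B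
        · simp only [P.tt_eq] at hB
          have := P.noN hs hn (((D.tE _ _ P.hζ).2.2 hl'.le hn).2 hB)
          linarith
        · push Not at hB
          obtain ⟨i, hi⟩ := hB
          have b1 := P.G_le hn
          calc (4 * P.G) ^ 4 ≤ (4 * (D.Cg * 4 ^ D.d)) ^ 4 := by gcongr
            _ ≤ D.B := D.hB1
            _ ≤ P.L := hi.le.trans (P.bt i)
      · exact P.zoneH_G (not_le.1 hn).le
    obtain ⟨a4, a5⟩ := P.z_small hs a3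
    have a6 : C * ‖P.q 2‖ ≤ 4 := by
      have b1 : C * ‖P.q 2‖ = 14 * ‖P.q 2‖ + 2 * P.G / P.r := by rw [hC]; field_simp
      have b2 : 2 * P.G / P.r ≤ 1 / 2 := by rw [div_le_iff₀ (by linarith)]; linarith
      linarith
    rw [hlin, nk_EE ω hz]
    have a7 := nk_ZZ (D.net1 ω hω) P.hl hζ1 P.hu P.hv P.hz
    have a8 : ‖(C:ℂ) * fderiv ℂ (nk D.p ω) P.q (ZZ P.ζ P.l P.q)‖ ≤ 4 * ‖nk D.p ω P.q‖ := by
      rw [norm_mul, Complex.norm_real, Real.norm_of_nonneg hC0]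
      have : C * ‖fderiv ℂ (nk D.p ω) P.q (ZZ P.ζ P.l P.q)‖ ≤ C * ‖P.q 2‖ := by gcongr
      linarith
    have a9 : Pos 6 (6 * nk D.p ω P.q) (nk D.p ω P.q) := by simpa using pos_self 6 (nk D.p ω P.q)
    exact (a9.add_small a8).mono (by linarith)
  · intro i hi
    obtain ⟨a1, a2⟩ := P.sigt_E hi
    have a3 := (P.sigt_zone hi).2
    rw [hlin, P.tt_EE hz, P.tt_ZZ hζ2]
    have a4 : C * ‖P.ζ‖ ≤ D.B := by
      have b0 : 0 < ‖P.ζ‖ := by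
        rw [P.norm_z] at hz0
        by_contra hc'
        have : ‖P.ζ‖ = 0 := le_antisymm (not_lt.1 hc') hζ0
        rw [this, mul_zero] at hz0
        exact lt_irrefl _ hz0
      have hlp := P.l_pos
      have b1 : C * ‖P.ζ‖ = 14 * ‖P.ζ‖ + P.G / (2 * ‖P.l‖ ^ 6 * P.r) := by
        rw [hC, P.norm_z]; field_simp; ring
      have b2 : P.G / (2 * ‖P.l‖ ^ 6 * P.r) ≤ P.G := by
        apply div_le_self hG.le
        nlinarith
      linarith [P.G_le a3, D.hB2]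
    have a5 : ‖(C:ℂ) * (-P.ζ * fderiv ℂ (D.t i) (UU P.ζ P.l, VV P.ζ P.l)
        (P.l ^ 3, -(2 * P.l ^ 2) / (3 * rho P.ζ)))‖ ≤ D.κ * ‖D.tt i P.q‖ := by
      rw [norm_mul, norm_mul, norm_neg, Complex.norm_real, Real.norm_of_nonneg hC0, ← mul_assoc]
      exact le_trans (by gcongr) a2
    exact (a1.add_small a5).mono (by linarith [D.κ'_le'])
  · intro h3
    rw [hlin]
    refine (pos3 hz (by linarith) hG.le ?_ (P.Z_t3 hζ1 hb) (P.r_le (norm_nonneg _) h3) hC).mono hk1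
    rw [D.A.t3_EE hz P.hu P.hv]
    exact P.gb.2.1
  · intro h0
    rw [Pi.add_apply, Pi.smul_apply, smul_eq_mul]
    refine (pos3 hz (by linarith) hG.le ?_ (P.Z_xi' hl3 h0)
      (P.sig_coord (norm_nonneg _) h0).2.2 hC).mono hk1
    have : P.q 2 * (EE D.p P.q 0 + 6 * P.q 0) = 3 * uu D.p P.q := by
      rw [EE_zero]; field_simp; ring
    rw [this, norm_mul, Complex.norm_ofNat]
    linarith [P.u_le, P.gb.2.2]
  · intro h0
    rw [Pi.add_apply, Pi.smul_apply, smul_eq_mul]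
    refine (pos3 hz (by linarith) hG.le ?_ (P.Z_eta' hl3 hζ h0)
      (P.sig_coord (norm_nonneg _) h0).2.2 hC).mono hk1
    have : P.q 2 * (EE D.p P.q 1 + 6 * P.q 1) = 2 * vv D.p P.q := by
      rw [EE_one]; field_simp; ring
    rw [this, norm_mul, Complex.norm_ofNat]
    linarith [P.v_le, P.gb.2.2, P.n_nonneg]

theorem exists_good : ∃ W, P.Good W := by
  by_cases h : P.Far
  · by_cases hs : P.Sig
    · by_cases hc : P.n ≤ 1 + D.ε₁ ∧ ‖P.l‖ ^ 6 ≤ (1 + D.ν') / 2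
      · exact ⟨_, P.case2 h hs hc.1 hc.2⟩
      · exact P.case3 h hs hc
    · exact ⟨_, P.case1 h hs⟩
  · unfold Far at h
    rw [not_not] at h
    exact ⟨_, P.case0 h.1 h.2⟩

end Pt

end Pool.Agent.P.MP_e5acfa_ag.PkgG
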