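import Pool.Agent.P.MP_e5acfa_ag.G4

open Complex Set Filter Topology

namespace Pool.Agent.P.MP_e5acfa_ag.PkgG

namespace Data

variable (D : Data)

lemma tip {ζ x : ℂ} {y : ℝ} (hζ : ζ ≠ 0) (hl : (D.p:ℂ) + ζ * x ≠ 0) (hy : y ∈ Icc lr D.p)
    (hy1 : ‖D.p + ζ * x - y‖ ≤ D.ν / 4) (ha : ‖(D.p + ζ * x) ^ 3‖ < 1)
    (hb : ‖(D.p + ζ * x) ^ 3 * ζ‖ ^ 2 ≤ (1 + D.ν) / 2)
    (h : ‖(D.p + ζ * x) ^ 3 - (D.p:ℂ) ^ 3‖ ≤ D.ε * ‖D.g.eval ((D.p + ζ * x) ^ 3)‖) :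
    ‖x‖ ≤ 2 * D.ε * ‖D.A.t3 (Psi D.p ζ x)‖ := by
  have h1 := D.A.z_mul_t3 (Psi D.p ζ x)
  rw [uu_Psi hl, vv_Psi hl, D.A.val] at h1
  have h2 := congrArg norm h1
  rw [norm_mul, norm_Psi_two, norm_mul, norm_mul, Complex.norm_ofNat] at h2
  have h3 := D.le_g hb
  have hε := D.ε_pos
  have hε1 := D.ε_le
  have hζ0 : 0 < ‖ζ‖ := norm_pos_iff.2 hζ
  set l : ℂ := D.p + ζ * x with hl'
  have e1 : l ^ 3 - (D.p:ℂ) ^ 3 = ζ * x * (l ^ 2 + l * D.p + (D.p:ℂ) ^ 2) := by rw [hl']; ring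
  have e2 : l ^ 2 + l * D.p + (D.p:ℂ) ^ 2 =
      ((y ^ 2 + y * D.p + D.p ^ 2 : ℝ) : ℂ) + (l - y) * ((l - y) + ((2 * y + D.p : ℝ) : ℂ)) := by
    push_cast; ring
  have hy0 : 89 / 100 < y := lt_lr.trans_le hy.1
  have hp := D.hp
  have hp1 := D.hp1
  have h4 : 2 ≤ ‖l ^ 2 + l * D.p + (D.p:ℂ) ^ 2‖ := by
    have a1 := norm_sub_le (l ^ 2 + l * D.p + (D.p:ℂ) ^ 2)
      ((l - y) * ((l - y) + ((2 * y + D.p : ℝ) : ℂ)))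
    have a2 : l ^ 2 + l * D.p + (D.p:ℂ) ^ 2 - (l - y) * ((l - y) + ((2 * y + D.p : ℝ) : ℂ)) =
        ((y ^ 2 + y * D.p + D.p ^ 2 : ℝ) : ℂ) := by rw [e2]; ring
    rw [a2, Complex.norm_real, Real.norm_of_nonneg (by positivity), norm_mul] at a1
    have a3 := norm_add_le (l - y) ((2 * y + D.p : ℝ) : ℂ)
    rw [Complex.norm_real, Real.norm_of_nonneg (by positivity)] at a3
    have a4 : ‖l - y‖ ≤ 1 / 100 := by linarith [D.hνε]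
    have a5 : ‖l - y‖ * ‖(l - y) + ((2 * y + D.p : ℝ) : ℂ)‖ ≤ 1 / 100 * 4 := by
      gcongr
      linarith [hy.2]
    nlinarith
  rw [e1, norm_mul, norm_mul] at h
  have h5 : ‖l‖ ^ 6 ≤ 1 := by
    have : ‖l‖ ^ 6 = ‖l ^ 3‖ ^ 2 := by rw [norm_pow]; ring
    rw [this]
    exact pow_le_one₀ (norm_nonneg _) ha.le
  have h6 : ‖ζ‖ * ‖x‖ * 2 ≤ D.ε * ‖D.g.eval (l ^ 3)‖ := le_trans (by gcongr) h
  have hg := norm_nonneg (D.g.eval (l ^ 3))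
  have ht := norm_nonneg (D.A.t3 (Psi D.p ζ x))
  have h7 : ‖D.g.eval (l ^ 3)‖ ≤ 4 * ‖ζ‖ * ‖D.A.t3 (Psi D.p ζ x)‖ := by
    have a1 : 4 * ‖l‖ ^ 6 * ‖ζ‖ * ‖D.A.t3 (Psi D.p ζ x)‖ ≤ 4 * 1 * ‖ζ‖ * ‖D.A.t3 (Psi D.p ζ x)‖ := by
      gcongr
    nlinarith
  have h8 : ‖ζ‖ * ‖x‖ ≤ ‖ζ‖ * (2 * D.ε * ‖D.A.t3 (Psi D.p ζ x)‖) := by nlinarith
  exact le_of_mul_le_mul_left h8 hζ0

lemma tip0 (x : ℂ) : ‖x‖ ≤ 2 * D.ε * ‖D.A.t3 (Psi D.p 0 x)‖ := by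
  have hp' : (D.p:ℂ) ≠ 0 := by exact_mod_cast D.p_pos.ne'
  have hν := D.hν
  have c1 : ∀ᶠ ζ : ℂ in 𝓝 0, ‖ζ‖ < 1 / 2 :=
    (continuous_norm.continuousAt (x := (0:ℂ))).eventually_lt continuousAt_const (by simp)
  have c2 : ∀ᶠ ζ : ℂ in 𝓝 0, (D.p:ℂ) + ζ * x ≠ 0 :=
    ContinuousAt.eventually_ne (g := fun ζ : ℂ => (D.p:ℂ) + ζ * x) (by fun_prop) (by simpa using hp')
  have c3 : ∀ᶠ ζ : ℂ in 𝓝 0, ‖D.p + ζ * x - D.p‖ < D.ν / 4 :=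
    ContinuousAt.eventually_lt (f := fun ζ : ℂ => ‖D.p + ζ * x - D.p‖) (by fun_prop)
      continuousAt_const (by simpa using hν)
  have c4 : ∀ᶠ ζ : ℂ in 𝓝 0, ‖D.g.eval ((D.p + ζ * x) ^ 3)‖ < D.ε :=
    ContinuousAt.eventually_lt (f := fun ζ : ℂ => ‖D.g.eval ((D.p + ζ * x) ^ 3)‖)
      ((D.g.continuous.comp (by fun_prop)).norm.continuousAt) continuousAt_const
      (by simpa [D.g0] using D.ε_pos)
  have c5 : ContinuousAt (fun ζ : ℂ => Psi D.p ζ x) 0 := by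
    have : ContinuousOn (fun ζ : ℂ => Psi D.p ζ x) {ζ | ‖ζ‖ ≤ 1 ∧ (D.p:ℂ) + ζ * x ≠ 0} :=
      (continuousOn_Psi D.p).comp (f := fun ζ : ℂ => (ζ, x)) (by fun_prop) (fun ζ h => h)
    apply this.continuousAt
    filter_upwards [c1, c2] with ζ a1 a2
    exact ⟨by linarith, a2⟩
  have c6 : Tendsto (fun ζ : ℂ => 2 * D.ε * ‖D.A.t3 (Psi D.p ζ x)‖) (𝓝[≠] 0)
      (𝓝 (2 * D.ε * ‖D.A.t3 (Psi D.p 0 x)‖)) :=
    (((D.A.isPoly3_t3.continuous.continuousAt.comp c5).norm.const_mul (2 * D.ε)).tendsto).mono_left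
      nhdsWithin_le_nhds
  apply ge_of_tendsto c6
  filter_upwards [self_mem_nhdsWithin, c1.filter_mono nhdsWithin_le_nhds,
    c2.filter_mono nhdsWithin_le_nhds, c3.filter_mono nhdsWithin_le_nhds,
    c4.filter_mono nhdsWithin_le_nhds] with ζ a0 a1 a2 a3 a4
  have hy : D.p ∈ Icc lr D.p := ⟨by linarith [lr_lt, D.hp], le_rfl⟩
  have hseg := D.seg_cube hy a3.le
  obtain ⟨b1, -, b2⟩ := D.gseg _ hseg
  have b3 := D.pr_ge hseg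
  refine D.tip a0 a2 hy a3.le b1 ?_ ?_
  · rw [norm_mul]
    have : ‖((D.p:ℂ) + ζ * x) ^ 3‖ * ‖ζ‖ ≤ 1 * (1 / 2) := by gcongr
    have h0 : 0 ≤ ‖((D.p:ℂ) + ζ * x) ^ 3‖ * ‖ζ‖ := by positivity
    nlinarith
  · rcases b2 with b2 | b2
    · linarith
    · exact b2.2

end Data

lemma pr_le_one (s : ℝ) (h0 : 0 ≤ s) (h1 : s ≤ 1) : pr s ≤ 1 := by
  unfold pr
  have := Real.sq_sqrt (show 0 ≤ 1 - s ^ 2 by nlinarith)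
  nlinarith [sq_nonneg (s - Real.sqrt (1 - s ^ 2))]

namespace Pt

variable {D : Data} (P : Pt D)

lemma thin_alt (hL : P.L ≤ (1 + D.τ) ^ 6) {x : ℂ} (hx : P.l = D.p + P.ζ * x)
    (hq : P.q = Psi D.p P.ζ x) :
    P.n ≤ 1 + 20 * D.τ ∧ (2 - 20 * D.τ ≤ ‖P.q 2‖ ∨
      (∃ y ∈ Icc lr D.p, ‖P.l - y‖ ≤ 20 * D.τ ∧ 2 * pr (‖P.l‖ ^ 3) - 20 * D.τ ≤ ‖P.q 2‖) ∨
      ‖x‖ ≤ 20 * D.τ) := by
  have hτ := D.hτ
  have hτ1 := D.hτ1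
  have hε := D.ε_pos
  have hετ := D.hετ
  have hνε := D.hνε
  have hν := D.hν
  have h3 : (1 + D.τ) ^ 3 ≤ 1 + 4 * D.τ := by nlinarith [mul_pos hτ hτ]
  have h6 : P.L ≤ (1 + 4 * D.τ) ^ 2 := by
    refine hL.trans ?_
    rw [show 6 = 3 * 2 by norm_num, pow_mul]
    gcongr
  have hL2 : P.L ≤ 2 := by nlinarith
  have ht3 : ‖D.A.t3 P.q‖ ≤ 1 + 4 * D.τ :=
    le_of_pow_le_pow_left₀ (n := 2) (by norm_num) (by linarith) (P.b3.trans h6)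
  have hn : P.n ≤ 1 + D.ε₁ := by
    by_contra hc
    have a1 := P.zoneH_G (not_le.1 hc).le
    have a2 : (2:ℝ) ^ 4 ≤ (4 * P.G) ^ 4 := by
      gcongr
      linarith [P.gb.2.2, P.n_nonneg]
    linarith
  refine ⟨by linarith [D.ε₁_le], ?_⟩
  have hb := P.b_disc hn
  have hgb := D.le_g hb
  have hzt := P.norm_z_t3
  have hz0 := norm_nonneg (P.q 2)
  have hz4 : ‖P.q 2‖ ≤ 4 := by linarith [P.z_le, D.ε₁_le]
  have hzt' : 2 * (‖D.g.eval (P.l ^ 3)‖ * (1 - D.ε)) ≤ ‖P.q 2‖ + 16 * D.τ := by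
    have a1 : ‖P.q 2‖ * ‖D.A.t3 P.q‖ ≤ ‖P.q 2‖ * (1 + 4 * D.τ) := by gcongr
    have a2 : ‖D.g.eval (P.l ^ 3)‖ * (1 - D.ε) ≤
        ‖D.g.eval (P.l ^ 3)‖ * ‖D.g.eval (P.l ^ 3 * P.ζ)‖ := by gcongr
    nlinarith
  have halt : ‖P.l‖ ^ 6 ≤ (1 + D.ν / 4) / 2 ∨ ∃ y ∈ Icc lr D.p, ‖P.l - y‖ ≤ D.ν / 4 := by
    by_cases h1 : ‖P.l‖ ^ 6 ≤ (1 + D.ν') / 2
    · exact Or.inl (by linarith [D.hν'])
    · apply ((D.tE _ _ P.hζ).2.2 (not_le.1 h1).le hn).2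
      intro i
      rw [← P.tt_eq]
      have : 0 ≤ D.Cg * 4 ^ D.d := mul_nonneg (by linarith [D.hCg]) (by positivity)
      linarith [P.bt i, D.hB2]
  rcases halt with h1 | ⟨y, hy, hy1⟩
  · left
    have a1 := D.le_g (a := P.l ^ 3) (by rw [P.a_sq]; linarith)
    have a2 : (1 - D.ε) * (1 - D.ε) ≤ ‖D.g.eval (P.l ^ 3)‖ * (1 - D.ε) := by
      gcongr
      linarith
    nlinarith
  · right
    have hseg := D.seg_cube hy hy1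
    obtain ⟨b1, -, b2⟩ := D.gseg _ hseg
    rcases b2 with b2 | b2
    · left
      refine ⟨y, hy, by linarith, ?_⟩
      have a1 := pr_le_one _ (norm_nonneg _) b1.le
      rw [norm_pow] at a1 b2
      have a2 : (pr (‖P.l‖ ^ 3) - D.ε) * (1 - D.ε) ≤ ‖D.g.eval (P.l ^ 3)‖ * (1 - D.ε) := by
        gcongr
        linarith
      nlinarith
    · right
      have a1 : ‖x‖ ≤ 2 * D.ε * ‖D.A.t3 P.q‖ := by
        by_cases h0 : P.ζ = 0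
        · rw [hq, h0]; exact D.tip0 x
        · have hl := P.hl
          rw [hx] at hl hy1 b1 hb b2
          rw [hq]
          exact D.tip h0 hl hy hy1 b1 hb b2.2
      have a2 : 2 * D.ε * ‖D.A.t3 P.q‖ ≤ 2 * D.ε * 2 := by
        gcongr
        linarith
      linarith

end Pt

end Pool.Agent.P.MP_e5acfa_ag.PkgG
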