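import Pool.Agent.P.MP_e5acfa_ag.HGraph

/-! Final assembly: the truncation is biholomorphic to a bounded strictly pseudoconvex domain. -/

open Complex Set Filter Topology

namespace Pool.Agent.P.MP_e5acfa_ag

namespace PkgH

/-- identification of the product with the Euclidean plane -/
noncomputable def e2 : (ℂ × ℂ) ≃L[ℂ] Cn 2 :=
  (ContinuousLinearEquiv.finTwoArrow ℂ ℂ).symm.trans (EuclideanSpace.equiv (Fin 2) ℂ).symm

/-- the embedding together with the equation -/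
noncomputable def HH (p M : ℝ) (q : C3) : Cn 2 × ℂ := (e2 (ff p M q), PX p q)

theorem contDiff_nn (p : ℝ) (k : WithTop ℕ∞) : ContDiff ℂ k (nn p) := by
  unfold nn
  exact (((isPoly3_uu p).contDiff k).sub contDiff_const).add
    (contDiff_const.mul (((isPoly3_vv p).contDiff k).sub contDiff_const))

theorem contDiffAt_ff (p M : ℝ) {q : C3} (hq : (nn p q).re < 0) (k : WithTop ℕ∞) :
    ContDiffAt ℂ k (ff p M) q := by
  have hn : ContDiffAt ℂ k (fun q => -nn p q) q := (contDiff_nn p k).contDiffAt.neg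
  have hs : -nn p q ∈ slitPlane := Or.inl (by simpa using hq)
  have hu := ((isPoly3_uu p).contDiff k).contDiffAt (x := q)
  have hv := ((isPoly3_vv p).contDiff k).contDiffAt (x := q)
  unfold ff
  refine ContDiffAt.prodMk ?_ ?_
  · exact ((hu.sub contDiffAt_const).sub (contDiffAt_const.mul (hv.sub contDiffAt_const))).div hn
      (slitPlane_ne_zero hs)
  · refine (contDiffAt_const.sub (contDiffAt_const.mul (contDiff_apply ℂ ℂ 0).contDiffAt)).mul ?_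
    exact (contDiffAt_const.mul ((contDiffAt_log hs).comp q hn)).cexp

theorem contDiffAt_HH (p M : ℝ) {q : C3} (hq : (nn p q).re < 0) (k : WithTop ℕ∞) :
    ContDiffAt ℂ k (HH p M) q :=
  (e2.contDiff.contDiffAt.comp q (contDiffAt_ff p M hq k)).prodMk
    ((isPoly3_PX p).contDiff k).contDiffAt

theorem fderiv_HH (p M : ℝ) {q : C3} (hq : (nn p q).re < 0) (W : C3) :
    fderiv ℂ (HH p M) q W = (e2 (fderiv ℂ (ff p M) q W), dPX p q W) := by
  have h1 := ((contDiffAt_ff p M hq 1).differentiableAt (by simp)).hasFDerivAt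
  have h2 := (e2.hasFDerivAt.comp q h1).prodMk (differentiable_PX p q).hasFDerivAt
  have e : HH p M = fun x => ((e2 ∘ ff p M) x, PX p x) := rfl
  rw [e, h2.fderiv, ← fderiv_PX]
  rfl

theorem exists_equiv {L : C3 →L[ℂ] Cn 2 × ℂ} (hL : Function.Injective L) :
    ∃ L' : C3 ≃L[ℂ] Cn 2 × ℂ, (L' : C3 →L[ℂ] Cn 2 × ℂ) = L := by
  have hd : Module.finrank ℂ C3 = Module.finrank ℂ (Cn 2 × ℂ) := by simp
  refine ⟨(LinearMap.linearEquivOfInjective (L : C3 →ₗ[ℂ] Cn 2 × ℂ) hL hd).toContinuousLinearEquiv,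
    ?_⟩
  ext v <;> rfl

theorem exists_U {p M : ℝ} (hp : 19 / 20 < p) (hp1 : p < 1) (h1 : ∀ q ∈ KK p, (nn p q).re < 0)
    (h2 : InjOn (ff p M) (KK p))
    (h3 : ∀ q ∈ KK p, ∀ W : C3, dPX p q W = 0 → fderiv ℂ (ff p M) q W = 0 → W = 0) :
    ∃ U : Set C3, IsOpen U ∧ KK p ⊆ U ∧ InjOn (HH p M) U ∧ ∀ q ∈ U, (nn p q).re < 0 ∧
      ∃ L : C3 ≃L[ℂ] Cn 2 × ℂ, HasFDerivAt (HH p M) (L : C3 →L[ℂ] Cn 2 × ℂ) q := by
  set V : Set C3 := {q | (nn p q).re < 0 ∧ Function.Injective (fderiv ℂ (HH p M) q)} with hV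
  have hVo : IsOpen V := by
    rw [isOpen_iff_mem_nhds]
    intro q hq
    have a1 : ∀ᶠ y in 𝓝 q, (nn p y).re < 0 :=
      (isOpen_lt (continuous_re.comp (contDiff_nn p 0).continuous) continuous_const).mem_nhds hq.1
    have a2 : ContinuousAt (fderiv ℂ (HH p M)) q :=
      (contDiffAt_HH p M hq.1 1).continuousAt_fderiv (by simp)
    have a3 : ∀ᶠ y in 𝓝 q, Function.Injective (fderiv ℂ (HH p M) y) :=
      a2.preimage_mem_nhds (ContinuousLinearMap.isOpen_injective.mem_nhds hq.2)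
    exact a1.and a3
  have hVL : ∀ q ∈ V, ∃ L : C3 ≃L[ℂ] Cn 2 × ℂ,
      HasFDerivAt (HH p M) (L : C3 →L[ℂ] Cn 2 × ℂ) q := by
    intro q hq
    obtain ⟨L, hL⟩ := exists_equiv hq.2
    exact ⟨L, hL ▸ ((contDiffAt_HH p M hq.1 1).differentiableAt (by simp)).hasFDerivAt⟩
  have hKV : KK p ⊆ V := by
    intro q hq
    refine ⟨h1 q hq, (injective_iff_map_eq_zero _).2 fun W hW => ?_⟩
    rw [fderiv_HH p M (h1 q hq), Prod.mk_eq_zero] at hW
    exact h3 q hq W hW.2 (e2.map_eq_zero_iff.1 hW.1)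
  have hinj : InjOn (HH p M) (KK p) := fun a ha b hb h =>
    h2 ha hb (e2.injective (congrArg Prod.fst h))
  obtain ⟨t, ht, hKt, hti⟩ := hinj.exists_isOpen_superset (isCompact_KK (by linarith) hp1)
    (fun q hq => (contDiffAt_HH p M (h1 q hq) 0).continuousAt) (fun q hq => by
      obtain ⟨L, hL⟩ := hVL q (hKV hq)
      have hc := contDiffAt_HH p M (h1 q hq) 1
      exact ⟨_, (hc.toOpenPartialHomeomorph _ hL (by simp)).open_source.mem_nhds
        (hc.mem_toOpenPartialHomeomorph_source hL (by simp)),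
        (hc.toOpenPartialHomeomorph _ hL (by simp)).injOn⟩)
  exact ⟨t ∩ V, ht.inter hVo, subset_inter hKt hKV, hti.mono inter_subset_left,
    fun q hq => ⟨hq.2.1, hVL q hq.2⟩⟩

theorem levi_sum {m : ℕ} {h : Fin m → Cn 2 → ℂ} {w : Cn 2} (hh : ∀ k, ContDiffAt ℂ 2 (h k) w)
    (c : ℝ) (ξ : Cn 2) :
    fderiv ℝ (fderiv ℝ (fun z => ∑ k, ‖h k z‖ ^ 2 - c)) w ξ ξ +
      fderiv ℝ (fderiv ℝ (fun z => ∑ k, ‖h k z‖ ^ 2 - c)) w (I • ξ) (I • ξ) =
        4 * ∑ k, ‖fderiv ℂ (h k) w ξ‖ ^ 2 := by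
  have hd : ∀ᶠ z in 𝓝 w, ∀ k, DifferentiableAt ℝ (fun z => ‖h k z‖ ^ 2) z := by
    rw [eventually_all]
    intro k
    filter_upwards [(contDiffAt_normSq (hh k)).eventually (by simp)] with z hz
    exact hz.differentiableAt (by simp)
  have e1 : fderiv ℝ (fun z => ∑ k, ‖h k z‖ ^ 2 - c) =ᶠ[𝓝 w]
      fun z => ∑ k, fderiv ℝ (fun z => ‖h k z‖ ^ 2) z := by
    filter_upwards [hd] with z hz
    rw [fderiv_sub_const, fderiv_fun_sum fun k _ => hz k]
  rw [e1.fderiv_eq, fderiv_fun_sum fun k _ =>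
    ((contDiffAt_normSq (hh k)).fderiv_right (m := 1) (by norm_num)).differentiableAt (by simp)]
  simp only [sum_apply]
  rw [← Finset.sum_add_distrib, Finset.mul_sum]
  exact Finset.sum_congr rfl fun k _ => levi_normSq (hh k) ξ

theorem domain {p M R : ℝ} {U : Set C3} (hU : IsOpen U) (hinj : InjOn (HH p M) U)
    (hL : ∀ q ∈ U, (nn p q).re < 0 ∧
      ∃ L : C3 ≃L[ℂ] Cn 2 × ℂ, HasFDerivAt (HH p M) (L : C3 →L[ℂ] Cn 2 × ℂ) q)
    {n : ℕ} {F : Fin n → C3 → ℂ} (hF : ∀ j, IsPoly3 (F j))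
    (hsub : ∀ q ∈ XS p, Phi F q ≤ R ^ 2 → q ∈ U)
    (hW : ∀ q ∈ XS p, R ^ 2 ≤ Phi F q → ∃ W : C3, dPX p q W = 0 ∧ fderiv ℝ (Phi F) q W ≠ 0)
    (hconn : IsConnected {x | PX p x = 0 ∧ Phi F x < R ^ 2}) :
    ∃ Ω : Set (Cn 2), IsBddStrictlyPsc Ω ∧ Biholomorphic (trunc (XG p F) R) Ω := by
  set f : C3 → Cn 2 := fun q => e2 (ff p M q) with hf
  set g : Cn 2 → C3 := fun w => Function.invFunOn (HH p M) U (w, 0) with hg
  set O : Set (Cn 2) := f '' (U ∩ XS p) with hO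
  set Ω : Set (Cn 2) := f '' {x | PX p x = 0 ∧ Phi F x < R ^ 2} with hΩ
  have hHH : ∀ q ∈ XS p, HH p M q = (f q, 0) := fun q hq => Prod.ext rfl hq
  have hgf : ∀ q ∈ U, q ∈ XS p → g (f q) = q := by
    intro q hq hX
    simp only [hg]
    rw [← hHH q hX]
    exact hinj.leftInvOn_invFunOn hq
  have hfc : ∀ q ∈ U, ∀ k, ContDiffAt ℂ k f q := fun q hq k =>
    e2.contDiff.contDiffAt.comp q (contDiffAt_ff p M (hL q hq).1 k)
  have hι : ContDiff ℂ (⊤ : ℕ∞) (fun w : Cn 2 => (w, (0 : ℂ))) :=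
    contDiff_id.prodMk contDiff_const
  have hOo : IsOpen O := by
    rw [isOpen_iff_mem_nhds]
    rintro _ ⟨q, ⟨hq, hX⟩, rfl⟩
    obtain ⟨L, hL'⟩ := (hL q hq).2
    have h1 := (inv_props hU hinj hq (contDiffAt_HH p M (hL q hq).1 _) hL').1
    rw [hHH q hX] at h1
    filter_upwards [hι.continuous.continuousAt.preimage_mem_nhds h1] with w hw
    obtain ⟨y, hy, he⟩ := hw
    exact ⟨y, ⟨hy, congrArg Prod.snd he⟩, congrArg Prod.fst he⟩
  have hgc : ∀ w ∈ O, ContDiffAt ℂ (⊤ : ℕ∞) g w := by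
    rintro _ ⟨q, ⟨hq, hX⟩, rfl⟩
    obtain ⟨L, hL'⟩ := (hL q hq).2
    have h1 := (inv_props hU hinj hq (contDiffAt_HH p M (hL q hq).1 _) hL').2
    rw [hHH q hX] at h1
    exact h1.comp (f q) hι.contDiffAt
  have hgd : ∀ q ∈ U, q ∈ XS p → ∃ L : C3 ≃L[ℂ] Cn 2 × ℂ,
      HasFDerivAt (HH p M) (L : C3 →L[ℂ] Cn 2 × ℂ) q ∧
        ∀ ξ, fderiv ℂ g (f q) ξ = L.symm (ξ, 0) := by
    intro q hq hX
    obtain ⟨L, hL'⟩ := (hL q hq).2
    refine ⟨L, hL', fun ξ => ?_⟩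
    have hs := (contDiffAt_HH p M (hL q hq).1 1).hasStrictFDerivAt' hL' (by simp)
    have h1 := hs.to_local_left_inverse (g := Function.invFunOn (HH p M) U) (by
      filter_upwards [hU.mem_nhds hq] with x hx
      exact hinj.leftInvOn_invFunOn hx)
    rw [hHH q hX] at h1
    have h2 : HasFDerivAt (fun w : Cn 2 => (w, (0 : ℂ)))
        (ContinuousLinearMap.inl ℂ (Cn 2) ℂ) (f q) := hasFDerivAt_prodMk_left _ _
    have h3 := h1.hasFDerivAt.comp (f q) h2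
    have e : g = Function.invFunOn (HH p M) U ∘ fun w : Cn 2 => (w, (0 : ℂ)) := rfl
    rw [e, h3.fderiv]
    simp
  set ρ : Cn 2 → ℝ := fun w => Phi F (g w) - R ^ 2 with hρ
  have hρc : ∀ w ∈ O, ContDiffAt ℝ (⊤ : ℕ∞) ρ w := fun w hw =>
    ((contDiff_phi hF _).contDiffAt.comp w ((hgc w hw).restrict_scalars ℝ)).sub contDiffAt_const
  have hΩO : Ω = {w | w ∈ O ∧ ρ w < 0} := by
    ext w
    constructor
    · rintro ⟨q, hq, rfl⟩
      have hqU := hsub q hq.1 hq.2.le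
      refine ⟨⟨q, ⟨hqU, hq.1⟩, rfl⟩, ?_⟩
      simp only [hρ]
      rw [hgf q hqU hq.1]
      linarith [hq.2]
    · rintro ⟨⟨q, ⟨hq, hX⟩, rfl⟩, h⟩
      simp only [hρ] at h
      rw [hgf q hq hX] at h
      exact ⟨q, ⟨hX, by linarith⟩, rfl⟩
  have hΩo : IsOpen Ω := by
    rw [hΩO]
    exact ContinuousOn.isOpen_inter_preimage (t := Iio 0)
      (fun w hw => (hρc w hw).continuousAt.continuousWithinAt) hOo isOpen_Iio
  have hK : IsCompact (f '' {x | PX p x = 0 ∧ Phi F x ≤ R ^ 2}) :=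
    (compact_sub p hF _).image_of_continuousOn fun q hq =>
      (hfc q (hsub q hq.1 hq.2) 0).continuousAt.continuousWithinAt
  have hΩK : Ω ⊆ f '' {x | PX p x = 0 ∧ Phi F x ≤ R ^ 2} :=
    image_mono fun q hq => ⟨hq.1, hq.2.le⟩
  have hfr : ∀ w ∈ frontier Ω, ∃ q ∈ U, q ∈ XS p ∧ R ^ 2 ≤ Phi F q ∧ f q = w := by
    intro w hw
    rw [hΩo.frontier_eq] at hw
    obtain ⟨q, hq, rfl⟩ := closure_minimal hΩK hK.isClosed hw.1
    refine ⟨q, hsub q hq.1 hq.2, hq.1, ?_, rfl⟩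
    by_contra hlt
    exact hw.2 ⟨q, ⟨hq.1, not_le.1 hlt⟩, rfl⟩
  refine ⟨Ω, ⟨hΩo, hconn.image f fun q hq =>
    (hfc q (hsub q hq.1 hq.2.le) 0).continuousAt.continuousWithinAt, hK.isBounded.subset hΩK,
    O, ρ, hOo, fun w hw => ?_, fun w hw => (hρc w hw).contDiffWithinAt, ?_, fun w hw => ?_⟩,
    fun x => f (pj x), fun w => gr F (g w), ⟨fun x hx => ?_, ?_, fun x hx => ?_, ?_⟩,
    fun x hx => ?_, fun w hw => ?_⟩
  · obtain ⟨q, hq, hX, -, rfl⟩ := hfr w hw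
    exact ⟨q, ⟨hq, hX⟩, rfl⟩
  · rw [hΩO]
    ext w
    exact ⟨fun h => h.1, fun h => ⟨h, h.1⟩⟩
  · obtain ⟨q, hq, hX, hR, rfl⟩ := hfr w hw
    have hwO : f q ∈ O := ⟨q, ⟨hq, hX⟩, rfl⟩
    obtain ⟨L, hL', hξ⟩ := hgd q hq hX
    have hgq := (hgc _ hwO).differentiableAt (by simp)
    refine ⟨?_, fun ξ hξ0 _ _ => ?_⟩
    · obtain ⟨W, h1, h2⟩ := hW q hX hR
      intro h0
      apply h2
      have a1 : HasFDerivAt (Phi F) (fderiv ℝ (Phi F) q) (g (f q)) := by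
        rw [hgf q hq hX]
        exact ((contDiff_phi hF 1).differentiable (by simp) q).hasFDerivAt
      have a2 := (a1.comp (f q) (hgq.hasFDerivAt.restrictScalars ℝ)).sub_const (R ^ 2)
      have e : ρ = fun w => (Phi F ∘ g) w - R ^ 2 := rfl
      rw [e, a2.fderiv] at h0
      have a3 := congrArg (fun T : Cn 2 →L[ℝ] ℝ => T (L W).1) h0
      have a4 : L W = ((L W).1, 0) := by
        refine Prod.ext rfl ?_
        have := fderiv_HH p M (hL q hq).1 W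
        rw [hL'.fderiv] at this
        change ((L : C3 →L[ℂ] Cn 2 × ℂ) W).2 = 0
        rw [this, h1]
      simp only [ContinuousLinearMap.comp_apply, ContinuousLinearMap.coe_restrictScalars', hξ,
        zero_apply] at a3
      rw [← a4, L.symm_apply_apply] at a3
      exact a3
    · have e : ρ = fun z => ∑ k, ‖(fun k z => grc F k (g z)) k z‖ ^ 2 - R ^ 2 := by
        funext z
        simp only [hρ, phi_eq_sum]
      have hh : ∀ k, ContDiffAt ℂ 2 (fun z => grc F k (g z)) (f q) := fun k =>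
        ((isPoly3_grc hF k).contDiff 2).contDiffAt.comp (f q) ((hgc _ hwO).of_le (WithTop.coe_le_coe.2 (le_top (a := (2 : ℕ∞)))))
      rw [e, levi_sum hh]
      have hne : fderiv ℂ g (f q) ξ ≠ 0 := by
        rw [hξ]
        intro h
        exact hξ0 (congrArg Prod.fst (L.symm.map_eq_zero_iff.1 h))
      obtain ⟨i, hi⟩ : ∃ i, fderiv ℂ g (f q) ξ i ≠ 0 := by
        by_contra hcon
        push Not at hcon
        exact hne (funext hcon)
      refine mul_pos (by norm_num) (Finset.sum_pos' (fun _ _ => by positivity)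
        ⟨Fin.castAdd n i, Finset.mem_univ _, ?_⟩)
      have a1 := (hasFDerivAt_coord (g (f q)) i).comp (f q) hgq.hasFDerivAt
      have e' : (fun z => grc F (Fin.castAdd n i) (g z)) = (fun q : C3 => q i) ∘ g := by
        funext z
        simp
      rw [e', a1.fderiv]
      have : (ContinuousLinearMap.proj (R := ℂ) (φ := fun _ : Fin 3 => ℂ) i).comp
        (fderiv ℂ g (f q)) ξ ≠ 0 := hi
      positivity
  · rw [mem_trunc] at hx
    exact ⟨pj x, ⟨hx.1.1, hx.2⟩, rfl⟩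
  · rintro _ ⟨q, hq, rfl⟩
    rw [mem_trunc]
    simp only [pj_gr]
    rw [hgf q (hsub q hq.1 hq.2.le) hq.1]
    exact ⟨gr_mem F hq.1, hq.2⟩
  · rw [mem_trunc] at hx
    simp only
    rw [hgf _ (hsub _ hx.1.1 hx.2.le) hx.1.1, gr_pj hx.1]
  · rintro _ ⟨q, hq, rfl⟩
    simp only [pj_gr]
    rw [hgf q (hsub q hq.1 hq.2.le) hq.1]
  · rw [mem_trunc] at hx
    refine ⟨pj ⁻¹' U, fun x => f (pj x), hU.preimage (contDiff_pj 0).continuous,
      hsub _ hx.1.1 hx.2.le, fun y hy => ?_, fun _ _ => rfl⟩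
    exact (((hfc _ hy 1).comp y (contDiff_pj 1).contDiffAt).differentiableAt
      (by simp)).differentiableWithinAt
  · refine ⟨O, fun w => gr F (g w), hOo, ?_, fun y hy => ?_, fun _ _ => rfl⟩
    · rw [hΩO] at hw
      exact hw.1
    · exact (((contDiff_gr hF _).contDiffAt.comp y (hgc y hy)).differentiableAt
        (by simp)).differentiableWithinAt

end PkgH

theorem final (hA : StmtA) (hC : StmtC) (hD : StmtD) (hG : StmtG) : Goal := by
  obtain ⟨p, hp, hp1, M, h1, h2, h3⟩ := hD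
  have hp0 : 0 < p := by linarith
  obtain ⟨U, hU, hKU, hinj, hL⟩ := PkgH.exists_U hp hp1 h1 h2 h3
  obtain ⟨n, F, R, hR, hF, hsub, hW⟩ := hG p hp hp1 U hU hKU
  have hW' : ∀ q ∈ XS p, R ^ 2 ≤ Phi F q →
      ∃ W : C3, dPX p q W = 0 ∧ fderiv ℝ (Phi F) q W ≠ 0 := by
    intro q hq hR
    obtain ⟨W, a, b⟩ := hW q hq hR
    refine ⟨W, a, ?_⟩
    rw [PkgH.fderiv_phi hF, PkgH.sum_grc]
    exact mul_ne_zero two_ne_zero b
  obtain ⟨hadm, hconn⟩ := PkgH.admissible hA hC hp0 hR hF hW'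
  obtain ⟨Ω, hΩ, hb⟩ := PkgH.domain hU hinj hL hF hsub hW' hconn
  have := hA p hp0
  exact ⟨3 + n, PkgH.XG p F, R, Ω, PkgH.smoothSurface hp0 hF,
    (PkgH.homeo p hF).contractibleSpace, PkgH.notIso hp0 F, hadm, hΩ, hb⟩

end Pool.Agent.P.MP_e5acfa_ag
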