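import Pool.Agent.P.MP_e5acfa_ag.Defs

/-! General lemmas: derivative of polynomial functions, tangent vectors of a level set,
Levi form of a sum of squares, inverse of an injective local biholomorphism. -/

open Complex Set Filter Topology

namespace Pool.Agent.P.MP_e5acfa_ag

namespace PkgH

section Poly

variable {E : Type*} [NormedAddCommGroup E] [NormedSpace ℂ E]

theorem hasFDerivAt_eval {n : ℕ} (P : MvPolynomial (Fin n) ℂ) (f : E → Fin n → ℂ)
    (f' : Fin n → E →L[ℂ] ℂ) (x : E) (hf : ∀ i, HasFDerivAt (fun y => f y i) (f' i) x) :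
    HasFDerivAt (fun y => MvPolynomial.eval (f y) P)
      (∑ i, MvPolynomial.eval (f x) (MvPolynomial.pderiv i P) • f' i) x := by
  classical
  induction P using MvPolynomial.induction_on with
  | C a =>
    simp only [MvPolynomial.eval_C]
    refine (hasFDerivAt_const a x).congr_fderiv ?_
    ext v
    simp
  | add p q hp hq =>
    simp only [map_add]
    refine (hp.add hq).congr_fderiv ?_
    ext v
    simp [add_mul, Finset.sum_add_distrib]
  | mul_X p j hp =>
    simp only [map_mul, MvPolynomial.eval_X]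
    refine (hp.mul (hf j)).congr_fderiv ?_
    ext v
    simp only [Derivation.leibniz, MvPolynomial.pderiv_X, smul_eq_mul, map_add, map_mul,
      MvPolynomial.eval_X, add_apply, smul_apply,
      sum_apply, add_mul, Finset.sum_add_distrib, Finset.mul_sum]
    congr 1
    · rw [Finset.sum_eq_single j]
      · simp
      · intro i _ hij
        simp [hij.symm]
      · simp
    · refine Finset.sum_congr rfl fun i _ => ?_
      ring

theorem contDiffAt_eval {n : ℕ} (P : MvPolynomial (Fin n) ℂ) (f : E → Fin n → ℂ) (x : E)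
    {k : WithTop ℕ∞} (hf : ∀ i, ContDiffAt ℂ k (fun y => f y i) x) :
    ContDiffAt ℂ k (fun y => MvPolynomial.eval (f y) P) x := by
  induction P using MvPolynomial.induction_on with
  | C a =>
    simp only [MvPolynomial.eval_C]
    exact contDiffAt_const
  | add p q hp hq =>
    simp only [map_add]
    exact hp.add hq
  | mul_X p j hp =>
    simp only [map_mul, MvPolynomial.eval_X]
    exact hp.mul (hf j)

end Poly

section Tangent

variable {E : Type*} [NormedAddCommGroup E] [NormedSpace ℂ E] [CompleteSpace E]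
  [NormedSpace ℝ E] [IsScalarTower ℝ ℂ E]

theorem tangent_real {P : E → ℂ} {P' : E →L[ℂ] ℂ} {φ : E → ℝ} {φ' : E →L[ℝ] ℝ} {x : E}
    (hP : HasStrictFDerivAt P P' x) (hP0 : P' ≠ 0) (hφ : HasStrictFDerivAt φ φ' x)
    (hv : ∀ y, P y = P x → φ y = 0) {W : E} (hW : P' W = 0) : φ' W = 0 := by
  have hext : IsLocalExtrOn φ {y | P y = P x} x := by
    left
    refine eventually_nhdsWithin_of_forall fun y hy => ?_
    rw [hv x rfl, hv y hy]
  obtain ⟨Λ, Λ₀, hne, hΛ⟩ :=
    hext.exists_linear_map_of_hasStrictFDerivAt (hP.restrictScalars ℝ) hφ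
  have hΛ₀ : Λ₀ ≠ 0 := by
    intro h0
    apply hne
    obtain ⟨v, hv⟩ : ∃ v, P' v ≠ 0 := by
      by_contra hcon
      push Not at hcon
      exact hP0 (ContinuousLinearMap.ext hcon)
    have : Λ = 0 := by
      refine LinearMap.ext fun z => ?_
      have := hΛ ((z / P' v) • v)
      simp only [h0, zero_mul, add_zero, ContinuousLinearMap.coe_restrictScalars', map_smul,
        smul_eq_mul] at this
      rwa [div_mul_cancel₀ _ hv] at this
    rw [this, h0]
    rfl
  have := hΛ W
  simp only [ContinuousLinearMap.coe_restrictScalars', hW, map_zero, zero_add, smul_eq_mul,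
    mul_eq_zero] at this
  exact this.resolve_left hΛ₀

theorem tangent_complex {P f : E → ℂ} {P' f' : E →L[ℂ] ℂ} {x : E}
    (hP : HasStrictFDerivAt P P' x) (hP0 : P' ≠ 0) (hf : HasStrictFDerivAt f f' x)
    (hv : ∀ y, P y = P x → f y = 0) {W : E} (hW : P' W = 0) : f' W = 0 := by
  apply Complex.ext
  · have := tangent_real hP hP0
      (reCLM.hasStrictFDerivAt.comp x (hf.restrictScalars ℝ)) (fun y hy => by simp [hv y hy]) hW
    simpa using this
  · have := tangent_real hP hP0
      (imCLM.hasStrictFDerivAt.comp x (hf.restrictScalars ℝ)) (fun y hy => by simp [hv y hy]) hW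
    simpa using this

end Tangent

section Levi

variable {E : Type*} [NormedAddCommGroup E] [NormedSpace ℂ E]
  [NormedSpace ℝ E] [IsScalarTower ℝ ℂ E]

theorem fderiv_normSq {h : E → ℂ} {y : E} (hh : DifferentiableAt ℂ h y) (v : E) :
    fderiv ℝ (fun z => ‖h z‖ ^ 2) y v = 2 * (fderiv ℂ h y v * (starRingEnd ℂ) (h y)).re := by
  have h1 : HasFDerivAt h ((fderiv ℂ h y).restrictScalars ℝ) y :=
    hh.hasFDerivAt.restrictScalars ℝ
  have hre := reCLM.hasFDerivAt.comp y h1
  have him := imCLM.hasFDerivAt.comp y h1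
  have h2 := (hre.mul hre).add (him.mul him)
  have e : (fun z => ‖h z‖ ^ 2) =
      ((reCLM ∘ h) * (reCLM ∘ h) + (imCLM ∘ h) * (imCLM ∘ h)) := by
    funext z
    simp [Complex.sq_norm, Complex.normSq_apply]
  rw [e, h2.fderiv]
  simp
  ring

theorem contDiffAt_normSq {h : E → ℂ} {y : E} {k : WithTop ℕ∞} (hh : ContDiffAt ℂ k h y) :
    ContDiffAt ℝ k (fun z => ‖h z‖ ^ 2) y :=
  (hh.restrict_scalars ℝ).norm_sq ℝ

theorem levi_normSq {h : E → ℂ} {y : E} (hh : ContDiffAt ℂ 2 h y) (ξ : E) :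
    fderiv ℝ (fderiv ℝ (fun z => ‖h z‖ ^ 2)) y ξ ξ +
      fderiv ℝ (fderiv ℝ (fun z => ‖h z‖ ^ 2)) y (I • ξ) (I • ξ) =
        4 * ‖fderiv ℂ h y ξ‖ ^ 2 := by
  have hd : ∀ᶠ z in 𝓝 y, DifferentiableAt ℂ h z := by
    filter_upwards [hh.eventually (by simp)] with z hz
    exact hz.differentiableAt (by simp)
  have hA : DifferentiableAt ℂ (fderiv ℂ h) y :=
    (hh.fderiv_right (m := 1) (by norm_num)).differentiableAt (by simp)
  have hρ : DifferentiableAt ℝ (fderiv ℝ (fun z => ‖h z‖ ^ 2)) y :=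
    ((contDiffAt_normSq hh).fderiv_right (m := 1) (by norm_num)).differentiableAt (by simp)
  have key : ∀ v w : E, fderiv ℝ (fderiv ℝ (fun z => ‖h z‖ ^ 2)) y w v =
      2 * (fderiv ℂ (fderiv ℂ h) y w v * (starRingEnd ℂ) (h y) +
        fderiv ℂ h y v * (starRingEnd ℂ) (fderiv ℂ h y w)).re := by
    intro v w
    have e1 : fderiv ℝ (fderiv ℝ (fun z => ‖h z‖ ^ 2)) y w v =
        fderiv ℝ (fun z => fderiv ℝ (fun z => ‖h z‖ ^ 2) z v) y w := by
      rw [fderiv_clm_apply hρ (differentiableAt_const v)]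
      simp
    rw [e1]
    have e2 : (fun z => fderiv ℝ (fun z => ‖h z‖ ^ 2) z v) =ᶠ[𝓝 y]
        fun z => 2 * (fderiv ℂ h z v * (starRingEnd ℂ) (h z)).re := by
      filter_upwards [hd] with z hz
      exact fderiv_normSq hz v
    rw [e2.fderiv_eq]
    have a1 : HasFDerivAt (fun z => fderiv ℂ h z v)
        (((fderiv ℂ (fderiv ℂ h) y).flip v).restrictScalars ℝ) y := by
      have := (hA.hasFDerivAt.clm_apply (hasFDerivAt_const v y)).restrictScalars ℝ
      refine this.congr_fderiv ?_
      ext w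
      simp
    have a2 : HasFDerivAt (fun z => (starRingEnd ℂ) (h z))
        ((conjCLE : ℂ →L[ℝ] ℂ).comp ((fderiv ℂ h y).restrictScalars ℝ)) y :=
      (conjCLE : ℂ →L[ℝ] ℂ).hasFDerivAt.comp y
        ((hh.differentiableAt (by simp)).hasFDerivAt.restrictScalars ℝ)
    have a3 := (reCLM.hasFDerivAt.comp y (a1.mul a2)).const_mul 2
    have e3 : (fun z => 2 * (fderiv ℂ h z v * (starRingEnd ℂ) (h z)).re) =
        fun z => 2 * (reCLM ∘ ((fun z => fderiv ℂ h z v) * fun z => (starRingEnd ℂ) (h z))) z := by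
      funext z
      simp
    rw [e3, a3.fderiv]
    simp
    ring
  rw [key, key]
  simp only [map_smul, smul_apply, smul_eq_mul, map_mul, conj_I]
  rw [Complex.sq_norm, Complex.normSq_apply]
  simp
  ring

end Levi

section Inv

variable {E F : Type*} [NormedAddCommGroup E] [NormedSpace ℂ E] [CompleteSpace E]
  [NormedAddCommGroup F] [NormedSpace ℂ F]

theorem inv_props [Nonempty E] {H : E → F} {U : Set E} (hU : IsOpen U) (hinj : InjOn H U) {q : E}
    (hq : q ∈ U) (hH : ContDiffAt ℂ (⊤ : ℕ∞) H q) {L : E ≃L[ℂ] F}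
    (hL : HasFDerivAt H (L : E →L[ℂ] F) q) :
    H '' U ∈ 𝓝 (H q) ∧ ContDiffAt ℂ (⊤ : ℕ∞) (Function.invFunOn H U) (H q) := by
  have hs := hH.hasStrictFDerivAt' hL (by simp)
  refine ⟨?_, ?_⟩
  · rw [← hs.map_nhds_eq_of_equiv]
    exact image_mem_map (hU.mem_nhds hq)
  · refine (hH.to_localInverse hL (by simp)).congr_of_eventuallyEq ?_
    refine hs.localInverse_unique ?_
    filter_upwards [hU.mem_nhds hq] with x hx
    exact hinj.leftInvOn_invFunOn hx

end Inv

end PkgH

end Pool.Agent.P.MP_e5acfa_ag
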