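import Pool.Agent.P.MP_e5acfa_ag.Defs

/-! Polynomial curves on the surface have constant third coordinate. -/

open Polynomial

namespace Pool.Agent.P.MP_e5acfa_ag

namespace PkgH

theorem curve_aux (P : ℂ) (hP : P ≠ 0) (a b c : ℂ[X])
    (h : (C (P ^ 3) + a * c) ^ 2 - (C (P ^ 2) + b * c) ^ 3 = c)
    (h1 : 2 * C (P ^ 3) * a + a ^ 2 * c - 3 * C (P ^ 4) * b - 3 * C (P ^ 2) * b ^ 2 * c
      - b ^ 3 * c ^ 2 = 1) : c.natDegree = 0 := by
  by_contra hd
  have hd1 : 1 ≤ c.natDegree := Nat.one_le_iff_ne_zero.2 hd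
  have hc0 : c ≠ 0 := by
    rintro rfl
    simp at hd
  by_cases hb : b = 0
  · subst hb
    have h2 : a * (2 * C (P ^ 3) + a * c) = 1 := by
      rw [← h1]; ring
    have ha0 : a ≠ 0 := by
      rintro rfl
      simp at h2
    have hne : 2 * C (P ^ 3) + a * c ≠ 0 := by
      intro h0
      rw [h0] at h2
      simp at h2
    have hdeg := congrArg natDegree h2
    rw [natDegree_mul ha0 hne, natDegree_one] at hdeg
    have h3 : (2 * C (P ^ 3) + a * c).natDegree = (a * c).natDegree := by
      apply natDegree_add_eq_right_of_natDegree_lt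
      have : (2 * C (P ^ 3) : ℂ[X]).natDegree = 0 := by
        have : (2 * C (P ^ 3) : ℂ[X]) = C (2 * P ^ 3) := by
          rw [C_mul]; rfl
        rw [this, natDegree_C]
      rw [this, natDegree_mul ha0 hc0]
      omega
    rw [h3, natDegree_mul ha0 hc0] at hdeg
    omega
  set u : ℂ[X] := C (P ^ 3) + a * c with hu
  set v : ℂ[X] := C (P ^ 2) + b * c with hv
  have hvdeg : v.natDegree = b.natDegree + c.natDegree := by
    rw [hv, natDegree_add_eq_right_of_natDegree_lt, natDegree_mul hb hc0]
    rw [natDegree_C, natDegree_mul hb hc0]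
    omega
  have hu2 : u ^ 2 = v ^ 3 + c := by rw [← h]; ring
  have hudeg : 2 * u.natDegree = 3 * v.natDegree := by
    have := congrArg natDegree hu2
    rw [natDegree_add_eq_left_of_natDegree_lt, natDegree_pow, natDegree_pow] at this
    · exact this
    · rw [natDegree_pow]; omega
  have hu0 : u ≠ 0 := by
    intro h0
    rw [h0, natDegree_zero] at hudeg
    omega
  set W : ℂ[X] := 2 * derivative u * v - 3 * u * derivative v with hW
  have hc' : derivative c = 2 * u * derivative u - 3 * v ^ 2 * derivative v := by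
    conv_lhs => rw [← h]
    simp only [derivative_sub, derivative_pow, Nat.cast_ofNat]
    have e2 : (C (2 : ℂ) : ℂ[X]) = 2 := rfl
    have e3 : (C (3 : ℂ) : ℂ[X]) = 3 := rfl
    rw [e2, e3]
    ring
  have huW : u * W = v * derivative c - 3 * c * derivative v := by
    have hc : c = u ^ 2 - v ^ 3 := h.symm
    rw [hc', hW]
    linear_combination (3 * derivative v) * hc
  have hdvd : c ∣ C (P ^ 3) * W - C (P ^ 2) * derivative c := by
    refine ⟨b * derivative c - 3 * derivative v - a * W, ?_⟩
    have e1 : C (P ^ 3) = u - a * c := by rw [hu]; ring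
    have e2 : C (P ^ 2) = v - b * c := by rw [hv]; ring
    rw [e1, e2]
    linear_combination huW
  have hc'deg : (derivative c).natDegree = c.natDegree - 1 := natDegree_derivative c
  have hc'0 : derivative c ≠ 0 := by
    intro h0
    exact hd (derivative_eq_zero.1 h0)
  have hv'deg : (derivative v).natDegree ≤ v.natDegree - 1 := natDegree_derivative_le v
  have hrhs : (v * derivative c - 3 * c * derivative v).natDegree ≤
      v.natDegree + c.natDegree - 1 := by
    refine (natDegree_sub_le _ _).trans (max_le ?_ ?_)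
    · refine natDegree_mul_le.trans ?_
      omega
    · refine natDegree_mul_le.trans ?_
      have : (3 * c).natDegree ≤ c.natDegree := by
        refine natDegree_mul_le.trans ?_
        have : (3 : ℂ[X]).natDegree = 0 := natDegree_ofNat 3
        omega
      omega
  have hP2 : P ^ 2 ≠ 0 := pow_ne_zero _ hP
  have hlt : W = 0 ∨ W.natDegree < c.natDegree - 1 := by
    by_cases hW0 : W = 0
    · exact Or.inl hW0
    · right
      rw [← huW, natDegree_mul hu0 hW0] at hrhs
      omega
  have hdeg2 : (C (P ^ 2) * derivative c).natDegree = c.natDegree - 1 := by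
    rw [natDegree_C_mul hP2, hc'deg]
  have hne2 : C (P ^ 2) * derivative c ≠ 0 := mul_ne_zero (C_ne_zero.2 hP2) hc'0
  have key : C (P ^ 3) * W - C (P ^ 2) * derivative c ≠ 0 ∧
      (C (P ^ 3) * W - C (P ^ 2) * derivative c).natDegree = c.natDegree - 1 := by
    rcases hlt with h0 | hlt
    · rw [h0, mul_zero, zero_sub]
      exact ⟨neg_ne_zero.2 hne2, by rw [natDegree_neg, hdeg2]⟩
    · have hl : (C (P ^ 3) * W).natDegree < (C (P ^ 2) * derivative c).natDegree := by
        rw [hdeg2]
        exact lt_of_le_of_lt (natDegree_C_mul_le _ _) hlt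
      refine ⟨?_, by rw [natDegree_sub_eq_right_of_natDegree_lt hl, hdeg2]⟩
      intro h0
      rw [sub_eq_zero] at h0
      rw [h0] at hl
      exact lt_irrefl _ hl
  have := natDegree_le_of_dvd hdvd key.1
  omega

end PkgH

theorem stmtN : StmtN := by
  intro p hp a b c h
  have hP : (p : ℂ) ≠ 0 := by exact_mod_cast hp.ne'
  have h1 : 2 * C ((p : ℂ) ^ 3) * a + a ^ 2 * c - 3 * C ((p : ℂ) ^ 4) * b
      - 3 * C ((p : ℂ) ^ 2) * b ^ 2 * c - b ^ 3 * c ^ 2 = 1 := by
    apply Polynomial.funext
    intro s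
    have := h s
    simp only [PX, Matrix.cons_val_zero, Matrix.cons_val_one, Matrix.cons_val] at this
    simp only [eval_sub, eval_add, eval_mul, eval_pow, eval_C, eval_ofNat, eval_one]
    linear_combination this
  refine PkgH.curve_aux (p : ℂ) hP a b c ?_ h1
  have e4 : (C ((p : ℂ) ^ 4) : ℂ[X]) = C ((p : ℂ) ^ 2) ^ 2 := by
    rw [← C_pow]; congr 1; ring
  have e6 : (C ((p : ℂ) ^ 3) : ℂ[X]) ^ 2 = C ((p : ℂ) ^ 2) ^ 3 := by
    rw [← C_pow, ← C_pow]; congr 1; ring
  rw [e4] at h1
  linear_combination c * h1 + e6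

end Pool.Agent.P.MP_e5acfa_ag
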