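import Pool.Agent.P.MP_e5acfa_ag.Basic
import Pool.Agent.P.MP_e5acfa_ag.HGen
import Pool.Agent.P.MP_e5acfa_ag.HN

/-! The graph embedding of the surface and its algebraic properties. -/

open Complex Set Filter Topology

namespace Pool.Agent.P.MP_e5acfa_ag

namespace PkgH

variable {n : ℕ}

/-- coordinates of the graph embedding -/
noncomputable def grc (F : Fin n → C3 → ℂ) (k : Fin (3 + n)) (q : C3) : ℂ :=
  Fin.append q (fun j => F j q) k

/-- the graph embedding -/
noncomputable def gr (F : Fin n → C3 → ℂ) (q : C3) : Cn (3 + n) :=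
  WithLp.toLp 2 (fun k => grc F k q)

/-- the projection to the first three coordinates -/
def pj (x : Cn (3 + n)) : C3 := fun i => x (Fin.castAdd n i)

/-- the embedded surface -/
def XG (p : ℝ) (F : Fin n → C3 → ℂ) : Set (Cn (3 + n)) :=
  {x | pj x ∈ XS p ∧ ∀ j, x (Fin.natAdd 3 j) = F j (pj x)}

@[simp] theorem grc_left (F : Fin n → C3 → ℂ) (i : Fin 3) :
    grc F (Fin.castAdd n i) = fun q => q i := by
  funext q
  simp [grc]

@[simp] theorem grc_right (F : Fin n → C3 → ℂ) (j : Fin n) :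
    grc F (Fin.natAdd 3 j) = F j := by
  funext q
  simp [grc]

@[simp] theorem gr_apply (F : Fin n → C3 → ℂ) (q : C3) (k : Fin (3 + n)) :
    gr F q k = grc F k q := rfl

@[simp] theorem pj_gr (F : Fin n → C3 → ℂ) (q : C3) : pj (gr F q) = q := by
  funext i
  simp [pj]

theorem gr_mem {p : ℝ} (F : Fin n → C3 → ℂ) {q : C3} (hq : q ∈ XS p) : gr F q ∈ XG p F :=
  ⟨by simpa using hq, fun j => by simp⟩

theorem gr_pj {p : ℝ} {F : Fin n → C3 → ℂ} {x : Cn (3 + n)} (hx : x ∈ XG p F) :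
    gr F (pj x) = x := by
  ext k
  induction k using Fin.addCases with
  | left i => simp [pj]
  | right j => simp [hx.2 j]

theorem phi_eq_sum (F : Fin n → C3 → ℂ) (q : C3) : Phi F q = ∑ k, ‖grc F k q‖ ^ 2 := by
  rw [Fin.sum_univ_add]
  simp [Phi]

theorem norm_gr (F : Fin n → C3 → ℂ) (q : C3) : ‖gr F q‖ ^ 2 = Phi F q := by
  rw [phi_eq_sum, EuclideanSpace.norm_sq_eq]
  rfl

theorem isPoly3_grc {F : Fin n → C3 → ℂ} (hF : ∀ j, IsPoly3 (F j)) (k : Fin (3 + n)) :
    IsPoly3 (grc F k) := by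
  induction k using Fin.addCases with
  | left i => simpa using IsPoly3.coord i
  | right j => simpa using hF j

theorem contDiff_gr {F : Fin n → C3 → ℂ} (hF : ∀ j, IsPoly3 (F j)) (k : WithTop ℕ∞) :
    ContDiff ℂ k (gr F) :=
  contDiff_euclidean.2 fun i => (isPoly3_grc hF i).contDiff k

theorem contDiff_pj (k : WithTop ℕ∞) : ContDiff ℂ k (pj : Cn (3 + n) → C3) :=
  contDiff_pi.2 fun i => contDiff_euclidean.1 contDiff_id (Fin.castAdd n i)

theorem contDiff_phi {F : Fin n → C3 → ℂ} (hF : ∀ j, IsPoly3 (F j)) (k : WithTop ℕ∞) :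
    ContDiff ℝ k (Phi F) := by
  have : Phi F = fun q => ∑ k, ‖grc F k q‖ ^ 2 := funext (phi_eq_sum F)
  rw [this]
  exact ContDiff.sum fun i _ => contDiff_iff_contDiffAt.2 fun q =>
    contDiffAt_normSq ((isPoly3_grc hF i).contDiff k).contDiffAt

theorem fderiv_phi {F : Fin n → C3 → ℂ} (hF : ∀ j, IsPoly3 (F j)) (q W : C3) :
    fderiv ℝ (Phi F) q W =
      2 * (∑ k, fderiv ℂ (grc F k) q W * (starRingEnd ℂ) (grc F k q)).re := by
  have : Phi F = fun q => ∑ k, ‖grc F k q‖ ^ 2 := funext (phi_eq_sum F)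
  rw [this, fderiv_fun_sum]
  · rw [sum_apply, Complex.re_sum, Finset.mul_sum]
    exact Finset.sum_congr rfl fun k _ => fderiv_normSq ((isPoly3_grc hF k).differentiable q) W
  · intro k _
    exact (contDiffAt_normSq ((isPoly3_grc hF k).contDiff 1).contDiffAt).differentiableAt
      (by simp)

theorem sum_grc (F : Fin n → C3 → ℂ) (q W : C3) :
    ∑ k, fderiv ℂ (grc F k) q W * (starRingEnd ℂ) (grc F k q) =
      ∑ i, W i * (starRingEnd ℂ) (q i) + ∑ j, fderiv ℂ (F j) q W * (starRingEnd ℂ) (F j q) := by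
  rw [Fin.sum_univ_add]
  simp only [grc_left, grc_right]
  congr 1
  refine Finset.sum_congr rfl fun i _ => ?_
  rw [(hasFDerivAt_coord q i).fderiv]
  rfl

theorem fderiv_PX_ne {p : ℝ} (hp : 0 < p) {q : C3} (hq : q ∈ XS p) : fderiv ℂ (PX p) q ≠ 0 := by
  intro h
  have h0 := fderiv_PX p q (Pi.single 0 1)
  have h1 := fderiv_PX p q (Pi.single 1 1)
  rw [h] at h0 h1
  simp [dPX] at h0 h1
  have hz := z_eq hq
  rw [h0, h1] at hz
  have : uu p q = (p : ℂ) ^ 3 := by
    rw [uu, hz]; simp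
  rw [h0] at this
  have hp' : (p : ℂ) ≠ 0 := by exact_mod_cast hp.ne'
  exact pow_ne_zero 3 hp' this.symm

theorem ev_rename (Q : MvPolynomial (Fin 3) ℂ) (x : Cn (3 + n)) :
    ev (MvPolynomial.rename (Fin.castAdd n) Q) x = MvPolynomial.eval (pj x) Q := by
  rw [ev, MvPolynomial.eval_rename]
  rfl

theorem pderiv_rename_right (Q : MvPolynomial (Fin 3) ℂ) (j : Fin n) :
    MvPolynomial.pderiv (Fin.natAdd 3 j) (MvPolynomial.rename (Fin.castAdd n) Q) = 0 := by
  induction Q using MvPolynomial.induction_on with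
  | C a => simp
  | add p q hp hq => simp [hp, hq]
  | mul_X p i hp =>
    have : Fin.castAdd n i ≠ Fin.natAdd 3 j := by
      intro h
      have := congrArg Fin.val h
      simp at this
      omega
    simp [hp, MvPolynomial.pderiv_X_of_ne this]

theorem smoothSurface {p : ℝ} (hp : 0 < p) {F : Fin n → C3 → ℂ} (hF : ∀ j, IsPoly3 (F j)) :
    IsSmoothSurface (XG p F) := by
  classical
  obtain ⟨Q, hQ⟩ := isPoly3_PX p
  choose G hG using hF
  set P : Fin (n + 1) → MvPolynomial (Fin (3 + n)) ℂ :=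
    Fin.cons (MvPolynomial.rename (Fin.castAdd n) Q)
      (fun j => MvPolynomial.X (Fin.natAdd 3 j) - MvPolynomial.rename (Fin.castAdd n) (G j))
    with hP
  have hX : ∀ x, x ∈ XG p F ↔ ∀ j, ev (P j) x = 0 := by
    intro x
    rw [Fin.forall_fin_succ]
    simp only [hP, Fin.cons_zero, Fin.cons_succ, ev_rename]
    refine and_congr (by rw [← hQ]; rfl) (forall_congr' fun j => ?_)
    have := ev_rename (G j) x
    rw [ev] at this ⊢
    rw [map_sub, this, MvPolynomial.eval_X, sub_eq_zero, hG]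
  refine ⟨⟨range P, ?_⟩, fun x hx => ⟨n + 1, P, by omega, fun j y hy => (hX y).1 hy j, ?_,
    Eventually.of_forall fun y hy => (hX y).2 hy⟩⟩
  · ext x
    simp [hX]
  · rw [Fintype.linearIndependent_iff]
    intro c hc
    have hr : ∀ j : Fin n, c j.succ = 0 := by
      intro j
      have := congrFun hc (Fin.natAdd 3 j)
      rw [Fin.sum_univ_succ] at this
      simp only [hP, Fin.cons_zero, Fin.cons_succ, Pi.add_apply, Pi.smul_apply, Finset.sum_apply,
        pderiv_rename_right, map_sub, sub_zero, ev, map_zero,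
        Pi.zero_apply, smul_eq_mul] at this
      rw [Finset.sum_eq_single j] at this
      · simpa using this
      · intro i _ hij
        have : Fin.natAdd 3 i ≠ Fin.natAdd 3 j := fun h => hij (Fin.natAdd_injective _ _ h)
        simp [MvPolynomial.pderiv_X_of_ne this]
      · simp
    have h0 : c 0 = 0 := by
      by_contra h0
      apply fderiv_PX_ne hp hx.1
      have hd := hasFDerivAt_eval Q (fun y : C3 => y) _ (pj x) (hasFDerivAt_coord (pj x))
      have e : PX p = fun y => MvPolynomial.eval y Q := funext hQ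
      rw [e, hd.fderiv]
      refine Finset.sum_eq_zero fun i _ => ?_
      have := congrFun hc (Fin.castAdd n i)
      rw [Fin.sum_univ_succ] at this
      simp only [hr, zero_smul, Finset.sum_const_zero, add_zero, hP, Fin.cons_zero,
        Pi.smul_apply, Pi.zero_apply, smul_eq_mul, mul_eq_zero, h0, false_or,
        MvPolynomial.pderiv_rename (Fin.castAdd_injective 3 n), ev_rename] at this
      rw [this]
      ext v
      simp
    intro i
    induction i using Fin.cases with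
    | zero => exact h0
    | succ j => exact hr j

/-- the embedded surface is homeomorphic to the surface -/
noncomputable def homeo (p : ℝ) {F : Fin n → C3 → ℂ} (hF : ∀ j, IsPoly3 (F j)) :
    XG p F ≃ₜ XS p where
  toFun x := ⟨pj x.1, x.2.1⟩
  invFun q := ⟨gr F q.1, gr_mem F q.2⟩
  left_inv x := Subtype.ext (gr_pj x.2)
  right_inv q := Subtype.ext (pj_gr F q.1)
  continuous_toFun := ((contDiff_pj 0).continuous.comp continuous_subtype_val).subtype_mk _
  continuous_invFun := ((contDiff_gr hF 0).continuous.comp continuous_subtype_val).subtype_mk _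

theorem exists_line_poly (Q : MvPolynomial (Fin 2) ℂ) (w w' : Cn 2) :
    ∃ a : Polynomial ℂ, ∀ s : ℂ, a.eval s = ev Q (w + s • w') := by
  refine ⟨MvPolynomial.aeval
    (fun k => Polynomial.C (w k) + Polynomial.X * Polynomial.C (w' k)) Q, fun s => ?_⟩
  induction Q using MvPolynomial.induction_on with
  | C a => simp [ev]
  | add p q hp hq =>
    simp only [ev, map_add, Polynomial.eval_add] at hp hq ⊢
    rw [hp, hq]
  | mul_X p i hp =>
    simp only [ev, map_mul, Polynomial.eval_mul, MvPolynomial.aeval_X, MvPolynomial.eval_X]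
      at hp ⊢
    rw [hp]
    congr 1
    simp only [Polynomial.eval_add, Polynomial.eval_mul, Polynomial.eval_C, Polynomial.eval_X]
    rfl

theorem notIso {p : ℝ} (hp : 0 < p) (F : Fin n → C3 → ℂ) : ¬ IsoToPlane (XG p F) := by
  rintro ⟨φ, ψ, hφ, -, hs⟩
  have hp' : (p : ℂ) ≠ 0 := by exact_mod_cast hp.ne'
  have key : ∀ w w' : Cn 2, pj (polyMap φ w) 2 = pj (polyMap φ w') 2 := by
    intro w w'
    obtain ⟨a, ha⟩ := exists_line_poly (φ (Fin.castAdd n 0)) w (w' - w)
    obtain ⟨b, hb⟩ := exists_line_poly (φ (Fin.castAdd n 1)) w (w' - w)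
    obtain ⟨c, hc⟩ := exists_line_poly (φ (Fin.castAdd n 2)) w (w' - w)
    have h0 := stmtN p hp a b c (fun s => by
      have := (hφ (w + s • (w' - w))).1
      rw [ha, hb, hc]
      exact this)
    rw [Polynomial.eq_C_of_natDegree_eq_zero h0] at hc
    have h1 := hc 0
    have h2 := hc 1
    simp only [Polynomial.eval_C, zero_smul, add_zero, one_smul, add_sub_cancel] at h1 h2
    exact h1.symm.trans h2
  have m1 : (![1 / (2 * (p : ℂ) ^ 3), 0, 0] : C3) ∈ XS p := by
    simp [XS, PX]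
    field_simp
    simp
  have m2 : (![1 / (p : ℂ) ^ 3, 0, -(p : ℂ) ^ 6] : C3) ∈ XS p := by
    simp [XS, PX]
    field_simp
    ring
  have := key (polyMap ψ (gr F ![1 / (2 * (p : ℂ) ^ 3), 0, 0]))
    (polyMap ψ (gr F ![1 / (p : ℂ) ^ 3, 0, -(p : ℂ) ^ 6]))
  rw [hs _ (gr_mem F m1), hs _ (gr_mem F m2), pj_gr, pj_gr] at this
  simp at this
  exact hp.ne' this

theorem isTangent {p : ℝ} (hp : 0 < p) {F : Fin n → C3 → ℂ} (hF : ∀ j, IsPoly3 (F j)) {q W : C3}
    (hq : q ∈ XS p) (hW : dPX p q W = 0) :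
    IsTangent (XG p F) (gr F q) (WithLp.toLp 2 fun k => fderiv ℂ (grc F k) q W) := by
  intro P hP
  have hd := hasFDerivAt_eval P (fun y k => grc F k y) (fun k => fderiv ℂ (grc F k) q) q
    (fun k => ((isPoly3_grc hF k).differentiable q).hasFDerivAt)
  have hc : ContDiffAt ℂ 1 (fun y => MvPolynomial.eval (fun k => grc F k y) P) q :=
    contDiffAt_eval P (fun y k => grc F k y) q fun k => ((isPoly3_grc hF k).contDiff 1).contDiffAt
  have hs := hc.hasStrictFDerivAt' hd (by simp)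
  have hPX : HasStrictFDerivAt (PX p) (fderiv ℂ (PX p) q) q :=
    ((isPoly3_PX p).contDiff 1).contDiffAt.hasStrictFDerivAt (by simp)
  have := tangent_complex hPX (fderiv_PX_ne hp hq) hs
    (fun y hy => hP (gr F y) (gr_mem F (hy.trans hq))) (W := W) (by rw [fderiv_PX, hW])
  simpa [ev] using this

theorem compact_sub (p : ℝ) {F : Fin n → C3 → ℂ} (hF : ∀ j, IsPoly3 (F j)) (T : ℝ) :
    IsCompact {x | PX p x = 0 ∧ Phi F x ≤ T} := by
  apply Metric.isCompact_of_isClosed_isBounded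
  · exact (isClosed_XS p).inter (isClosed_le (contDiff_phi hF 0).continuous continuous_const)
  · rw [Metric.isBounded_iff_subset_closedBall 0]
    refine ⟨|T| + 1, fun q hq => ?_⟩
    rw [mem_closedBall_zero_iff, pi_norm_le_iff_of_nonneg (by positivity)]
    intro i
    have h1 : ‖q i‖ ^ 2 ≤ ∑ i, ‖q i‖ ^ 2 :=
      Finset.single_le_sum (f := fun i => ‖q i‖ ^ 2) (fun _ _ => by positivity) (Finset.mem_univ i)
    have h2 : 0 ≤ ∑ j, ‖F j q‖ ^ 2 := by positivity
    have h3 := hq.2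
    unfold Phi at h3
    have h4 := le_abs_self T
    nlinarith [sq_nonneg (‖q i‖ - 1), abs_nonneg T]

theorem surj_fderiv {p : ℝ} (hp : 0 < p) {F : Fin n → C3 → ℂ} (hF : ∀ j, IsPoly3 (F j)) {q W : C3}
    (hq : q ∈ XS p) (hW : dPX p q W = 0) (hne : fderiv ℝ (Phi F) q W ≠ 0) :
    Function.Surjective (fderiv ℝ (fun y => (PX p y, Phi F y)) q) := by
  have h1 : HasFDerivAt (PX p) ((fderiv ℂ (PX p) q).restrictScalars ℝ) q :=
    (differentiable_PX p q).hasFDerivAt.restrictScalars ℝ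
  have h2 : HasFDerivAt (Phi F) (fderiv ℝ (Phi F) q) q :=
    ((contDiff_phi hF 1).differentiable (by simp) q).hasFDerivAt
  rw [(h1.prodMk h2).fderiv]
  rintro ⟨a, t⟩
  obtain ⟨v, hv⟩ : ∃ v, fderiv ℂ (PX p) q v ≠ 0 := by
    by_contra hcon
    push Not at hcon
    exact fderiv_PX_ne hp hq (ContinuousLinearMap.ext hcon)
  set v0 : C3 := (a / fderiv ℂ (PX p) q v) • v with hv0
  refine ⟨v0 + ((t - fderiv ℝ (Phi F) q v0) / fderiv ℝ (Phi F) q W) • W, Prod.ext ?_ ?_⟩
  · have e : ∀ s : ℝ, fderiv ℂ (PX p) q (s • W) = 0 := by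
      intro s
      rw [ContinuousLinearMap.map_smul_of_tower, fderiv_PX, hW, smul_zero]
    change fderiv ℂ (PX p) q (v0 + _ • W) = a
    rw [map_add, e, add_zero, hv0, map_smul, smul_eq_mul]
    exact div_mul_cancel₀ _ hv
  · change fderiv ℝ (Phi F) q (v0 + _ • W) = t
    clear_value v0
    rw [map_add, map_smul, smul_eq_mul, div_mul_cancel₀ _ hne]
    ring

theorem smoothOn_transport {F : Fin n → C3 → ℂ} (hF : ∀ j, IsPoly3 (F j)) {A : Set C3}
    {B : Set (Cn (3 + n))} (hAB : ∀ x ∈ B, pj x ∈ A) {f : C3 → C3} (hf : SmoothOn3 A f) :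
    SmoothOn B (fun x => gr F (f (pj x))) := by
  intro x hx
  obtain ⟨O, G, hO, hxO, hG, hE⟩ := hf (pj x) (hAB x hx)
  refine ⟨pj ⁻¹' O, fun x => gr F (G (pj x)), hO.preimage (contDiff_pj 0).continuous, hxO, ?_, ?_⟩
  · exact ((contDiff_gr hF _).restrict_scalars ℝ).comp_contDiffOn
      (hG.comp ((contDiff_pj _).restrict_scalars ℝ).contDiffOn fun y hy => hy)
  · intro y hy
    simp only
    rw [hE ⟨hAB y hy.1, hy.2⟩]

theorem mem_trunc {p R : ℝ} {F : Fin n → C3 → ℂ} {x : Cn (3 + n)} :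
    x ∈ trunc (XG p F) R ↔ x ∈ XG p F ∧ Phi F (pj x) < R ^ 2 := by
  unfold trunc
  refine and_congr_right fun hx => ?_
  rw [← norm_gr, gr_pj hx]

theorem smoothOn3_continuousOn {A : Set C3} {f : C3 → C3} (hf : SmoothOn3 A f) :
    ContinuousOn f A := by
  intro x hx
  obtain ⟨O, G, hO, hxO, hG, hE⟩ := hf x hx
  have h1 : ContinuousWithinAt G A x :=
    (hG.continuousOn.continuousAt (hO.mem_nhds hxO)).continuousWithinAt
  refine h1.congr_of_eventuallyEq ?_ (hE ⟨hx, hxO⟩).symm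
  filter_upwards [self_mem_nhdsWithin, mem_nhdsWithin_of_mem_nhds (hO.mem_nhds hxO)] with y h1 h2
  exact (hE ⟨h1, h2⟩).symm

theorem admissible (hA : StmtA) (hC : StmtC) {p R : ℝ} (hp : 0 < p) (hR : 0 < R)
    {F : Fin n → C3 → ℂ} (hF : ∀ j, IsPoly3 (F j))
    (hW : ∀ q ∈ XS p, R ^ 2 ≤ Phi F q → ∃ W : C3, dPX p q W = 0 ∧ fderiv ℝ (Phi F) q W ≠ 0) :
    Admissible (XG p F) R ∧ IsConnected {x | PX p x = 0 ∧ Phi F x < R ^ 2} := by
  obtain ⟨f, g, hf, hg, hgf, hfg, sf, sg⟩ := hC (PX p) (Phi F) (R ^ 2)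
    (((isPoly3_PX p).contDiff _).restrict_scalars ℝ) (contDiff_phi hF _) (compact_sub p hF)
    (fun x hx hR => by
      obtain ⟨W, h1, h2⟩ := hW x hx hR
      exact surj_fderiv hp hF hx h1 h2)
  refine ⟨⟨hR, fun x hx hxR => ?_, fun x => gr F (f (pj x)), fun x => gr F (g (pj x)),
    ⟨fun x hx => ?_, fun x hx => ?_, fun x hx => ?_, fun x hx => ?_⟩,
    smoothOn_transport hF (fun x hx => ?_) sf, smoothOn_transport hF (fun x hx => hx.1) sg⟩, ?_⟩
  · have h1 : R ^ 2 ≤ Phi F (pj x) := by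
      rw [← norm_gr, gr_pj hx]
      gcongr
    obtain ⟨W, h2, h3⟩ := hW (pj x) hx.1 h1
    refine ⟨_, by simpa only [gr_pj hx] using isTangent hp hF hx.1 h2, ?_⟩
    rw [fderiv_phi hF] at h3
    intro h
    apply h3
    rw [PiLp.inner_apply] at h
    conv_lhs at h => rw [← gr_pj hx]
    simp only [gr_apply, RCLike.inner_apply, pj_gr] at h
    rw [h, mul_zero]
  · rw [mem_trunc] at hx
    exact gr_mem F (hf ⟨hx.1.1, hx.2⟩)
  · have := hg hx.1
    rw [mem_trunc]
    exact ⟨gr_mem F this.1, by simpa using this.2⟩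
  · rw [mem_trunc] at hx
    simp only [pj_gr]
    rw [hgf _ hx.1.1 hx.2, gr_pj hx.1]
  · simp only [pj_gr]
    rw [hfg _ hx.1, gr_pj hx]
  · rw [mem_trunc] at hx
    exact ⟨hx.1.1, hx.2⟩
  · have := hA p hp
    have hc : IsConnected (XS p) := isConnected_iff_connectedSpace.2 inferInstance
    have e : {x | PX p x = 0 ∧ Phi F x < R ^ 2} = g '' XS p := by
      ext x
      exact ⟨fun hx => ⟨f x, hf hx, hgf x hx.1 hx.2⟩, fun ⟨y, hy, h⟩ => h ▸ hg hy⟩
    rw [e]
    exact hc.image g (smoothOn3_continuousOn sg)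

end PkgH

end Pool.Agent.P.MP_e5acfa_ag
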