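import Pool.Agent.P.MP_e5acfa_ag.A
import Pool.Agent.P.MP_e5acfa_ag.C
import Pool.Agent.P.MP_e5acfa_ag.D
import Pool.Agent.P.MP_e5acfa_ag.E
import Pool.Agent.P.MP_e5acfa_ag.F
import Pool.Agent.P.MP_e5acfa_ag.G
import Pool.Agent.P.MP_e5acfa_ag.HFinal

namespace Pool.Agent.P.MP_e5acfa_ag

theorem goal : Goal := final stmtA stmtC stmtD (stmtG_of stmtE stmtF)

end Pool.Agent.P.MP_e5acfa_ag
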